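import Pool.Agent.H625R2.BallG2
import Pool.Agent.ER.Dec

/-!
# Recognition of ball graphs: membership in `∃ℝ`, polynomial time
-/

namespace Pool.Agent.NPC.ER.Pat

open Pool.Agent.NPC Pool.Agent.NPC.H670R2
open scoped RealInnerProductSpace

/-! ### Polynomial time -/

section

variable {α : Type} [TEnc α]

theorem poly_ent {M : α → List (List Bool)} {i j : α → ℕ} (hM : Poly M) (hi : Poly i)
    (hj : Poly j) : Poly (fun a => ent (M a) (i a) (j a)) :=
  Poly.getD (d := fun _ => false) (Poly.getD (d := fun _ => []) hM hi (Poly.const _)) hj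
    (Poly.const _)

theorem poly_headD {M : α → List (List Bool)} (hM : Poly M) : Poly (fun a => (M a).headD []) :=
  (Poly.optCases (Poly.head? hM) (Poly.const []) (h := fun _ b => b)
    (Poly.snd Poly.id)).congr fun a => by cases M a <;> rfl

theorem upoly_wid {M : α → List (List Bool)} (hM : Poly M) : UPoly (fun a => wid (M a)) :=
  UPoly.length (poly_headD hM)

theorem poly_adjO {M : α → List (List Bool)} {t i t' i' : α → ℕ} (hM : Poly M) (ht : Poly t)
    (hi : Poly i) (ht' : Poly t') (hi' : Poly i') :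
    Poly (fun a => adjO (M a) (t a) (i a) (t' a) (i' a)) := by
  unfold adjO
  refine Poly.ite (Poly.decide_eq ht ht') (Poly.const _) (Poly.ite
    (Poly.decide_eq ht (Poly.const _)) (Poly.ite (Poly.decide_eq ht' (Poly.const _))
      (Poly.const _) (Poly.ite (Poly.decide_le ht' (Poly.const _)) (poly_ent hM hi hi')
        (Poly.not (poly_ent hM hi hi')))) (Poly.ite (Poly.decide_eq ht' (Poly.const _))
      (Poly.or (Poly.decide_eq ht (Poly.const _)) (Poly.decide_eq ht (Poly.const _)))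
      (Poly.or (Poly.decide_le ht' (Poly.const _)) (Poly.decide_le (Poly.const _) ht))))

theorem poly_adjB : Poly (fun p : (List (List Bool) × ℕ) × ℕ => adjB p.1.1 p.1.2 p.2) := by
  unfold adjB
  have hM : Poly (fun p : (List (List Bool) × ℕ) × ℕ => p.1.1) := Poly.fst (Poly.fst Poly.id)
  have ha : Poly (fun p : (List (List Bool) × ℕ) × ℕ => p.1.2) := Poly.snd (Poly.fst Poly.id)
  have hb : Poly (fun p : (List (List Bool) × ℕ) × ℕ => p.2) := Poly.snd Poly.id
  have ha1 := Poly.mod ha (Poly.const 6)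
  have ha2 := Poly.div ha (Poly.const 6)
  have hb1 := Poly.mod hb (Poly.const 6)
  have hb2 := Poly.div hb (Poly.const 6)
  exact Poly.ite (Poly.decide_le ha1 hb1) (poly_adjO hM ha1 ha2 hb1 hb2)
    (poly_adjO hM hb1 hb2 ha1 ha2)

theorem poly_vtx : Poly vtx := by
  unfold vtx
  refine Poly.cons (Poly.const _) (Poly.append (Poly.map (F := fun _ i => 6 * i)
    (Poly.range_length Poly.id) (Poly.mul (Poly.const 6) (Poly.snd Poly.id)))
    (Poly.flatMap (F := fun _ j => [6 * j + 1, 6 * j + 2, 6 * j + 3, 6 * j + 4])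
      (upoly_wid Poly.id).range ?_))
  have h : Poly (fun p : List (List Bool) × ℕ => 6 * p.2) :=
    Poly.mul (Poly.const 6) (Poly.snd Poly.id)
  exact Poly.cons (Poly.add h (Poly.const 1)) (Poly.cons (Poly.add h (Poly.const 2))
    (Poly.cons (Poly.add h (Poly.const 3)) (Poly.cons (Poly.add h (Poly.const 4))
      (Poly.const []))))

theorem poly_ballG : Poly ballG := poly_gOf (adj := adjB) poly_vtx poly_adjB

end

/-! ### Membership -/

/-- The radius of a vertex. -/
def radT (d u : ℕ) : Tm := Tm.var (u * (d + 1) + d)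

/-- The square of the sum of the radii. -/
def rsqT (d u v : ℕ) : Tm := Tm.mul (Tm.add (radT d u) (radT d v)) (Tm.add (radT d u) (radT d v))

/-- The formula of BALL. -/
def ballF (d : ℕ) (g : GCode) : Fm :=
  if g.WF then Fm.and (vertF (fun u => Fm.lt Tm.zero (radT d u)) g)
    (pairF (fun u v => Fm.le (sqT (d + 1) d u v) (rsqT d u v))
      (fun u v => Fm.lt (rsqT d u v) (sqT (d + 1) d u v)) g) else ff

theorem poly_ballF (d : ℕ) : Poly (ballF d) := by
  have h1 : Poly (fun p : ℕ × ℕ => radT d p.1) :=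
    poly_tvar (Poly.add (Poly.mul (Poly.fst Poly.id) (Poly.const _)) (Poly.const _))
  have h2 : Poly (fun p : ℕ × ℕ => radT d p.2) :=
    poly_tvar (Poly.add (Poly.mul (Poly.snd Poly.id) (Poly.const _)) (Poly.const _))
  have h3 : Poly (fun p : ℕ × ℕ => rsqT d p.1 p.2) := poly_tmul (poly_tadd h1 h2) (poly_tadd h1 h2)
  have h4 : Poly (fun p : ℕ × ℕ => sqT (d + 1) d p.1 p.2) :=
    poly_sqT (Poly.fst Poly.id) (Poly.snd Poly.id) (d + 1) d
  have h5 : Poly (fun u : ℕ => Fm.lt Tm.zero (radT d u)) :=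
    poly_lt (Poly.const _) (poly_tvar (Poly.add (Poly.mul Poly.id (Poly.const _)) (Poly.const _)))
  refine (Poly.ite (poly_wf Poly.id) (poly_and (poly_vertF h5)
    (poly_pairF (F := fun u v => Fm.le (sqT (d + 1) d u v) (rsqT d u v))
      (F' := fun u v => Fm.lt (rsqT d u v) (sqT (d + 1) d u v)) (poly_le h4 h3)
      (poly_lt h3 h4))) (Poly.const ff)).congr fun g => ?_
  unfold ballF
  by_cases h : g.WF <;> simp [h]

/-- The centre and the radius of a vertex, from an assignment. -/
noncomputable def ofB (d : ℕ) (x : ℕ → ℝ) (u : ℕ) : EuclideanSpace ℝ (Fin d) :=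
  WithLp.toLp 2 fun i : Fin d => x (u * (d + 1) + i)

theorem sqT_ofB (d : ℕ) (x : ℕ → ℝ) (u v : ℕ) :
    (sqT (d + 1) d u v).eval x = dist (ofB d x u) (ofB d x v) ^ 2 := by
  rw [sqT_eval, EuclideanSpace.dist_eq, Real.sq_sqrt (by positivity), Finset.sum_range]
  refine Finset.sum_congr rfl fun i _ => ?_
  simp only [ofB, Real.dist_eq, sq_abs]

theorem exists_ofB {d : ℕ} {g : GCode} (c : g.V → Bal d) :
    ∃ x : ℕ → ℝ, ∀ v : g.V, ofB d x v.1 = (c v).1.1 ∧ x (v.1 * (d + 1) + d) = (c v).1.2 := by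
  obtain ⟨x, hx⟩ := exists_ofX (d := d + 1) (g := g) (fun v => WithLp.toLp 2
    (Fin.snoc (α := fun _ => ℝ) (fun i => (c v).1.1 i) (c v).1.2 : Fin (d + 1) → ℝ))
  refine ⟨x, fun v => ⟨?_, ?_⟩⟩
  · ext i
    have h := congrArg (fun p : EuclideanSpace ℝ (Fin (d + 1)) => p i.castSucc) (hx v)
    simpa [ofX, ofB] using h
  · have h := congrArg (fun p : EuclideanSpace ℝ (Fin (d + 1)) => p (Fin.last d)) (hx v)
    simpa [ofX] using h

theorem ballF_correct (d : ℕ) (g : GCode) :
    (g.WF ∧ IsBallGraph d g.graph) ↔ ETR (ballF d g) := by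
  unfold ballF
  by_cases hg : g.WF
  · rw [if_pos hg, isBallGraph_iff]
    have key : ∀ x : ℕ → ℝ, (Fm.and (vertF (fun u => Fm.lt Tm.zero (radT d u)) g)
        (pairF (fun u v => Fm.le (sqT (d + 1) d u v) (rsqT d u v))
        (fun u v => Fm.lt (rsqT d u v) (sqT (d + 1) d u v)) g)).Holds x ↔
        (∀ u : g.V, 0 < x (u.1 * (d + 1) + d)) ∧ ∀ u v : g.V, u ≠ v → (g.graph.Adj u v ↔
          dist (ofB d x u.1) (ofB d x v.1) ^ 2 ≤
            (x (u.1 * (d + 1) + d) + x (v.1 * (d + 1) + d)) ^ 2) := by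
      intro x
      rw [Fm.Holds, holds_vertF, holds_pairF hg]
      refine and_congr ?_ ?_
      · simp [Fm.Holds, Tm.eval, radT]
      · refine forall_congr' fun u => forall_congr' fun v => imp_congr Iff.rfl ?_
        simp only [Fm.Holds, sqT_ofB, rsqT, radT, Tm.eval]
        rw [sq (x (u.1 * (d + 1) + d) + x (v.1 * (d + 1) + d))]
        constructor
        · rintro ⟨h1, h2⟩
          refine ⟨h1, fun h3 => ?_⟩
          by_contra h4
          exact absurd (h2 h4) (not_lt.2 h3)
        · intro h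
          refine ⟨h.1, fun h1 => ?_⟩
          by_contra h4
          exact h1 (h.2 (not_lt.1 h4))
    constructor
    · rintro ⟨-, c, hc⟩
      obtain ⟨x, hx⟩ := exists_ofB c
      refine ⟨x, (key x).2 ⟨fun u => ?_, fun u v huv => ?_⟩⟩
      · rw [(hx u).2]
        exact (c u).2
      · rw [(hx u).2, (hx v).2, (hx u).1, (hx v).1, hc u v huv]
        have h1 := (c u).2
        have h2 := (c v).2
        unfold Tch
        rw [sq_le_sq₀ dist_nonneg (by linarith)]
    · rintro ⟨x, hx⟩
      obtain ⟨h1, h2⟩ := (key x).1 hx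
      refine ⟨hg, fun v => ⟨(ofB d x v.1, x (v.1 * (d + 1) + d)), h1 v⟩, fun u v huv => ?_⟩
      rw [h2 u v huv]
      have h3 := h1 u
      have h4 := h1 v
      unfold Tch
      simp only
      rw [sq_le_sq₀ dist_nonneg (by linarith)]
  · rw [if_neg hg]
    exact ⟨fun h => absurd h.1 hg, fun h => absurd h not_etr_ff⟩

end Pool.Agent.NPC.ER.Pat
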