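import Pool.Agent.H625R2.BallMem
import Pool.Agent.ER.Hard

/-!
# Recognition of ball graphs: completeness from point/line patterns
-/

namespace Pool.Agent.NPC.ER.Pat

open Pool.Agent.NPC

/-- The decision problem `BALL_d`: the set of the codes of the ball graphs in `ℝ^d`. -/
def BALL (d : ℕ) : Set (List Bool) := lang fun g : GCode => g.WF ∧ IsBallGraph d g.graph

theorem ball_mem (d : ℕ) : InER (BALL d) :=
  H670R2.InER.of_poly (poly_ballF d) (ballF_correct d)

/-- The interface to the construction of patterns. -/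
structure IsPatOf (patOf : List Con → Pat) : Prop where
  poly : Poly patOf
  wf : ∀ S, WF (patOf S)
  sound : ∀ S, (∃ X, Exact (patOf S) X) → Sat S
  complete : ∀ S, Sat S → ∃ X, Exact (patOf S) X ∧ Nice (patOf S) X

variable {patOf : List Con → Pat}

/-- The matrix of a system. -/
def matOf (patOf : List Con → Pat) (k : ℕ) (S : List Con) : List (List Bool) :=
  liftN k (mat (patOf S))

theorem IsPatOf.poly_matOf (h : IsPatOf patOf) (k : ℕ) : Poly (matOf patOf k) :=
  (poly_liftN k).comp (poly_mat.comp h.poly)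

theorem rect_matOf (patOf : List Con → Pat) (k : ℕ) (S : List Con) :
    ∃ m, Rect m (matOf patOf k S) := isRect_liftN ⟨_, rect_mat (patOf S)⟩ k

theorem IsPatOf.sat (h : IsPatOf patOf) {k : ℕ} {S : List Con}
    (hS : SR (k + 2 + 1) (matOf patOf k S)) : Sat S := by
  have h1 : SR 3 (mat (patOf S)) := by
    apply SR_of_liftN ⟨_, rect_mat (patOf S)⟩ k
    rw [show 3 + k = k + 2 + 1 by omega]
    exact hS
  exact h.sound S (exact_of_SR (h.wf S) h1)

theorem IsPatOf.srn (h : IsPatOf patOf) {k : ℕ} {S : List Con} (hS : Sat S) :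
    SRN (k + 2) (matOf patOf k S) := by
  obtain ⟨X, h1, h2⟩ := h.complete S hS
  have h3 := SRN_liftN ⟨_, rect_mat (patOf S)⟩ k (by norm_num) (SRN_of_exact (h.wf S) h1 h2)
  rwa [show 2 + k = k + 2 by omega] at h3

theorem ball_hard_of (h : IsPatOf patOf) (k : ℕ) : ERHard (BALL (k + 2)) := by
  refine ERHard.of_sys (f := fun S => ballG (matOf patOf k S))
    (poly_ballG.comp (h.poly_matOf k)) fun S => ?_
  obtain ⟨m, hm⟩ := rect_matOf patOf k S
  constructor
  · intro hS
    exact ⟨gOf_wf _ _, ballG_of_SRN hm (h.srn hS)⟩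
  · rintro ⟨-, hS⟩
    exact h.sat (SR_of_ballG hm hS)

theorem ball_complete_of (h : IsPatOf patOf) {d : ℕ} (hd : 2 ≤ d) : ERComplete (BALL d) := by
  obtain ⟨k, rfl⟩ := Nat.exists_eq_add_of_le' hd
  exact ⟨ball_mem _, ball_hard_of h k⟩

end Pool.Agent.NPC.ER.Pat
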