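import Pool.Agent.NPC.Num
import Pool.Agent.ER.Defs

/-!
# Patterns of points and lines

The interface between the incidence construction (exact patterns) and strict sign matrices.
-/

namespace Pool.Agent.NPC.ER.Pat

/-- A pattern: the entry number `n` consists of the kind (`true` for points, `false` for lines),
the list of the parents (earlier elements of the other kind which are incident) and the list of the
signs with respect to all earlier elements (`true` for `+`; the signs are used for elements of the
other kind which are not parents). -/
abbrev Pat : Type := List (Bool × List ℕ × List Bool)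

/-- The kind of an element. -/
def kind (p : Pat) (n : ℕ) : Bool := (p.getD n (false, [], [])).1

/-- The parents of an element. -/
def par (p : Pat) (n : ℕ) : List ℕ := (p.getD n (false, [], [])).2.1

/-- The sign of an element with respect to an earlier one. -/
def sg (p : Pat) (n m : ℕ) : Bool := (p.getD n (false, [], [])).2.2.getD m false

/-- The sign as a real number. -/
def sgn (b : Bool) : ℝ := if b then 1 else -1

/-- Well-formedness. -/
structure WF (p : Pat) : Prop where
  len : ∀ n < p.length, (par p n).length ≤ 2
  nodup : ∀ n < p.length, (par p n).Nodup
  lt : ∀ n < p.length, ∀ m ∈ par p n, m < n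
  kind : ∀ n < p.length, ∀ m ∈ par p n, kind p m ≠ kind p n

/-- Exact realizations: parents are incident, all other pairs of different kind have the given
strict sign. -/
def Exact (p : Pat) (X : ℕ → Fin 3 → ℝ) : Prop :=
  ∀ n < p.length, ∀ m < n, kind p m ≠ kind p n →
    (m ∈ par p n → X n ⬝ᵥ X m = 0) ∧ (m ∉ par p n → 0 < sgn (sg p n m) * (X n ⬝ᵥ X m))

/-- Additional properties of the realizations found in the completeness direction: points are
affine, the last coordinate of lines is positive, the parents of each element are linearly
independent (there are dual vectors). -/
structure Nice (p : Pat) (X : ℕ → Fin 3 → ℝ) : Prop where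
  point : ∀ n < p.length, kind p n = true → 0 < X n 0
  line : ∀ n < p.length, kind p n = false → 0 < X n 2
  dual : ∀ n < p.length, ∀ s : ℕ → ℝ, ∃ w : Fin 3 → ℝ, ∀ q (h : q < (par p n).length),
    w ⬝ᵥ X (par p n)[q] = s q

end Pool.Agent.NPC.ER.Pat
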