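import Pool.Agent.ER.GraphCode
import Pool.Agent.ER.Build

/-!
# Building graphs, and formulas for geometric representations of graphs
-/

namespace Pool.Agent.NPC.ER

open Pool.Agent.NPC Pool.Agent.NPC.H670R2

/-- The graph with the given vertices and the given adjacency test (used for `a < b`). -/
def gOf (V : List ℕ) (adj : ℕ → ℕ → Bool) : GCode :=
  (V, V.flatMap fun a => (V.filter fun b => decide (a < b) && adj a b).map fun b => (a, b))

theorem mem_gOf {V : List ℕ} {adj : ℕ → ℕ → Bool} {a b : ℕ} :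
    (a, b) ∈ (gOf V adj).2 ↔ a ∈ V ∧ b ∈ V ∧ a < b ∧ adj a b = true := by
  unfold gOf
  simp only [List.mem_flatMap, List.mem_map, List.mem_filter, Bool.and_eq_true,
    decide_eq_true_eq, Prod.mk.injEq]
  constructor
  · rintro ⟨a', h1, b', ⟨h2, h3, h4⟩, rfl, rfl⟩
    exact ⟨h1, h2, h3, h4⟩
  · rintro ⟨h1, h2, h3, h4⟩
    exact ⟨a, h1, b, ⟨h2, h3, h4⟩, rfl, rfl⟩

theorem gOf_wf (V : List ℕ) (adj : ℕ → ℕ → Bool) : (gOf V adj).WF := by
  rintro ⟨a, b⟩ he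
  obtain ⟨h1, h2, h3, -⟩ := mem_gOf.1 he
  exact ⟨h1, h2, ne_of_lt h3⟩

theorem gOf_adj {V : List ℕ} {adj : ℕ → ℕ → Bool} {u v : (gOf V adj).V} (h : u.1 < v.1) :
    (gOf V adj).graph.Adj u v ↔ adj u.1 v.1 = true := by
  rw [graph_adj (gOf_wf V adj), mem_gOf, mem_gOf]
  constructor
  · rintro (⟨-, -, -, h1⟩ | ⟨-, -, h1, -⟩)
    · exact h1
    · omega
  · exact fun h1 => Or.inl ⟨u.2, v.2, h, h1⟩

theorem gOf_real {X : Type} [Nonempty X] (Q : X → X → Prop) (hQ : ∀ x y, Q x y → Q y x)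
    (V : List ℕ) (adj : ℕ → ℕ → Bool) :
    (∃ c : (gOf V adj).V → X, ∀ u v, u ≠ v → ((gOf V adj).graph.Adj u v ↔ Q (c u) (c v))) ↔
      ∃ c : ℕ → X, ∀ a ∈ V, ∀ b ∈ V, a < b → (adj a b = true ↔ Q (c a) (c b)) := by
  classical
  constructor
  · rintro ⟨c, hc⟩
    obtain ⟨x0⟩ := ‹Nonempty X›
    obtain ⟨c', hc'⟩ : ∃ c' : ℕ → X, ∀ v : (gOf V adj).V, c' v.1 = c v :=
      ⟨fun n => if h : n ∈ (gOf V adj).1 then c ⟨n, h⟩ else x0, fun v => dif_pos v.2⟩
    refine ⟨c', fun a ha b hb hab => ?_⟩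
    have h1 := hc' ⟨a, ha⟩
    have h2 := hc' ⟨b, hb⟩
    have h3 := hc ⟨a, ha⟩ ⟨b, hb⟩ (by
      intro h; exact absurd (congrArg Subtype.val h) (ne_of_lt hab))
    rw [← h1, ← h2] at h3
    rw [← h3]
    exact (gOf_adj (u := ⟨a, ha⟩) (v := ⟨b, hb⟩) hab).symm
  · rintro ⟨c, hc⟩
    refine ⟨fun v => c v.1, fun u v huv => ?_⟩
    rcases lt_trichotomy u.1 v.1 with h | h | h
    · rw [gOf_adj h]
      exact hc u.1 u.2 v.1 v.2 h
    · exact absurd (Subtype.ext h) huv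
    · rw [SimpleGraph.adj_comm, gOf_adj h, hc v.1 v.2 u.1 u.2 h]
      exact ⟨hQ _ _, hQ _ _⟩

section

variable {α : Type} [TEnc α]

theorem poly_gOf {V : α → List ℕ} {adj : α → ℕ → ℕ → Bool} (hV : Poly V)
    (h : Poly (fun p : (α × ℕ) × ℕ => adj p.1.1 p.1.2 p.2)) :
    Poly (fun a => gOf (V a) (adj a)) := by
  refine Poly.pair hV (Poly.flatMap (F := fun x a => ((V x).filter fun b => decide (a < b) &&
    adj x a b).map fun b => (a, b)) hV ?_)
  refine Poly.map (F := fun (p : α × ℕ) b => (p.2, b)) (Poly.filter (p := fun (p : α × ℕ) b =>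
    decide (p.2 < b) && adj p.1 p.2 b) (hV.comp (Poly.fst Poly.id)) ?_) ?_
  · exact Poly.and (Poly.decide_lt (Poly.snd (Poly.fst Poly.id)) (Poly.snd Poly.id)) h
  · exact Poly.pair (Poly.snd (Poly.fst Poly.id)) (Poly.snd Poly.id)

end

/-! ### Formulas -/

/-- The conjunction over all ordered pairs of distinct vertices of `F` (for edges) and `F'` (for
non-edges). -/
def pairF (F F' : ℕ → ℕ → Fm) (g : GCode) : Fm :=
  conj (g.1.flatMap fun u => g.1.map fun v => if u = v then tt else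
    (if (u, v) ∈ g.2 ∨ (v, u) ∈ g.2 then F u v else F' u v))

theorem holds_pairF {F F' : ℕ → ℕ → Fm} {g : GCode} (hg : g.WF) (x : ℕ → ℝ) :
    (pairF F F' g).Holds x ↔ ∀ u v : g.V, u ≠ v →
      (g.graph.Adj u v → (F u.1 v.1).Holds x) ∧ (¬ g.graph.Adj u v → (F' u.1 v.1).Holds x) := by
  unfold pairF
  rw [holds_conj]
  simp only [List.mem_flatMap, List.mem_map]
  constructor
  · intro h u v huv
    have h0 : u.1 ≠ v.1 := fun h => huv (Subtype.ext h)
    have h1 := h _ ⟨u.1, u.2, v.1, v.2, rfl⟩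
    rw [if_neg h0] at h1
    rw [graph_adj hg]
    constructor
    · intro h2
      rwa [if_pos h2] at h1
    · intro h2
      rwa [if_neg h2] at h1
  · rintro h φ ⟨u, hu, v, hv, rfl⟩
    split_ifs with h1 h2
    · exact holds_tt x
    · exact (h ⟨u, hu⟩ ⟨v, hv⟩ (fun e => h1 (congrArg Subtype.val e))).1 ((graph_adj hg).2 h2)
    · exact (h ⟨u, hu⟩ ⟨v, hv⟩ (fun e => h1 (congrArg Subtype.val e))).2
        (fun h3 => h2 ((graph_adj hg).1 h3))

theorem poly_pairF {F F' : ℕ → ℕ → Fm} (hF : Poly (fun p : ℕ × ℕ => F p.1 p.2))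
    (hF' : Poly (fun p : ℕ × ℕ => F' p.1 p.2)) : Poly (pairF F F') := by
  have hu : Poly (fun q : (GCode × ℕ) × ℕ => q.1.2) := Poly.snd (Poly.fst Poly.id)
  have hv : Poly (fun q : (GCode × ℕ) × ℕ => q.2) := Poly.snd Poly.id
  have hE : Poly (fun q : (GCode × ℕ) × ℕ => q.1.1.2) := Poly.snd (Poly.fst (Poly.fst Poly.id))
  have h2 : Poly (fun q : (GCode × ℕ) × ℕ => if q.1.2 = q.2 then tt else
      (if (q.1.2, q.2) ∈ q.1.1.2 ∨ (q.2, q.1.2) ∈ q.1.1.2 then F q.1.2 q.2 else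
        F' q.1.2 q.2)) := by
    refine Poly.ite (Poly.decide_eq hu hv) (Poly.const _) (Poly.ite ?_ ?_ ?_)
    · refine (Poly.or (Poly.decide_mem (Poly.pair hu hv) hE)
        (Poly.decide_mem (Poly.pair hv hu) hE)).congr fun q => ?_
      by_cases h1 : (q.1.2, q.2) ∈ q.1.1.2 <;> by_cases h2 : (q.2, q.1.2) ∈ q.1.1.2 <;>
        simp [h1, h2]
    · exact hF.comp (Poly.pair hu hv)
    · exact hF'.comp (Poly.pair hu hv)
  have h3 : Poly (fun p : GCode × ℕ => p.1.1.map fun v => if p.2 = v then tt else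
      (if (p.2, v) ∈ p.1.2 ∨ (v, p.2) ∈ p.1.2 then F p.2 v else F' p.2 v)) :=
    Poly.map (F := fun (p : GCode × ℕ) v => if p.2 = v then tt else
      (if (p.2, v) ∈ p.1.2 ∨ (v, p.2) ∈ p.1.2 then F p.2 v else F' p.2 v))
      (Poly.fst (Poly.fst Poly.id)) h2
  exact poly_conj (Poly.flatMap (F := fun (g : GCode) u => g.1.map fun v => if u = v then tt else
    (if (u, v) ∈ g.2 ∨ (v, u) ∈ g.2 then F u v else F' u v)) (Poly.fst Poly.id) h3)

/-- The conjunction over all vertices. -/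
def vertF (F : ℕ → Fm) (g : GCode) : Fm := conj (g.1.map F)

theorem holds_vertF {F : ℕ → Fm} {g : GCode} (x : ℕ → ℝ) :
    (vertF F g).Holds x ↔ ∀ u : g.V, (F u.1).Holds x := by
  unfold vertF
  rw [holds_conj]
  simp only [List.mem_map]
  constructor
  · exact fun h u => h _ ⟨u.1, u.2, rfl⟩
  · rintro h φ ⟨u, hu, rfl⟩
    exact h ⟨u, hu⟩

theorem poly_vertF {F : ℕ → Fm} (hF : Poly F) : Poly (vertF F) :=
  poly_conj (Poly.map (F := fun (_ : GCode) u => F u) (Poly.fst Poly.id)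
    (hF.comp (Poly.snd Poly.id)))

end Pool.Agent.NPC.ER
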