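import Pool.Agent.H625R2.UnitN
import Pool.Agent.H625R2.GCodeX

/-!
# Ball graphs in `ℝ^d` realize strict sign matrices
-/

namespace Pool.Agent.NPC.ER.Pat

open Pool.Agent.NPC Pool.Agent.NPC.H670R2
open scoped RealInnerProductSpace Topology

open Filter

/-- `G` is a ball graph in `ℝ^d`: there are closed balls of positive radii such that two distinct
vertices are adjacent if and only if their balls intersect. -/
def IsBallGraph (d : ℕ) {V : Type} (G : SimpleGraph V) : Prop :=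
  ∃ (c : V → EuclideanSpace ℝ (Fin d)) (r : V → ℝ), (∀ v, 0 < r v) ∧
    ∀ u v, u ≠ v → (G.Adj u v ↔
      (Metric.closedBall (c u) (r u) ∩ Metric.closedBall (c v) (r v)).Nonempty)

/-- The entry of a matrix. -/
def ent (M : List (List Bool)) (i j : ℕ) : Bool := (M.getD i []).getD j false

theorem ent_eq {M : List (List Bool)} {i j : ℕ} (hi : i < M.length) (hj : j < M[i].length) :
    ent M i j = M[i][j] := by
  unfold ent
  rw [List.getD_eq_getElem _ _ hi, List.getD_eq_getElem _ _ hj]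

/-- The number of columns. -/
def wid (M : List (List Bool)) : ℕ := (M.headD []).length

theorem wid_eq {M : List (List Bool)} {m i : ℕ} (hM : Rect m M) (hi : i < M.length) :
    M[i].length = wid M := by
  have hne : M ≠ [] := by rintro rfl; simp at hi
  rw [hM _ (List.getElem_mem hi), wid, hM _ (headD_mem hne)]

/-! ### The graph -/

/-- Adjacency of the vertices `(t, i)` and `(t', i')` for `t ≤ t'`. -/
def adjO (M : List (List Bool)) (t i t' i' : ℕ) : Bool :=
  if t = t' then true else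
  if t = 0 then (if t' = 5 then false else if t' ≤ 2 then ent M i i' else !ent M i i') else
  if t' = 5 then decide (t = 1) || decide (t = 3) else decide (t' ≤ 2) || decide (3 ≤ t)

/-- Adjacency. -/
def adjB (M : List (List Bool)) (a b : ℕ) : Bool :=
  if a % 6 ≤ b % 6 then adjO M (a % 6) (a / 6) (b % 6) (b / 6)
  else adjO M (b % 6) (b / 6) (a % 6) (a / 6)

/-- The vertices. -/
def vtx (M : List (List Bool)) : List ℕ :=
  5 :: ((List.range M.length).map (fun i => 6 * i) ++ (List.range (wid M)).flatMap fun j =>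
    [6 * j + 1, 6 * j + 2, 6 * j + 3, 6 * j + 4])

/-- The graph of the matrix `M`. -/
def ballG (M : List (List Bool)) : GCode := gOf (vtx M) (adjB M)

/-- Valid labels. -/
def VL (M : List (List Bool)) (t i : ℕ) : Prop :=
  (t = 0 ∧ i < M.length) ∨ (1 ≤ t ∧ t ≤ 4 ∧ i < wid M) ∨ (t = 5 ∧ i = 0)

theorem VL_of_mem {M : List (List Bool)} {a : ℕ} (h : a ∈ vtx M) : VL M (a % 6) (a / 6) := by
  unfold vtx at h
  simp only [List.mem_cons, List.mem_append, List.mem_map, List.mem_range, List.mem_flatMap,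
    List.not_mem_nil, or_false] at h
  unfold VL
  rcases h with rfl | ⟨i, hi, rfl⟩ | ⟨j, hj, h | h | h | h⟩
  · right; right; constructor <;> rfl
  · left; exact ⟨by omega, by omega⟩
  all_goals
    right; left
    refine ⟨by omega, by omega, ?_⟩
    have : a / 6 = j := by omega
    omega

theorem mem_of_VL {M : List (List Bool)} {t i : ℕ} (h : VL M t i) : 6 * i + t ∈ vtx M := by
  unfold vtx
  simp only [List.mem_cons, List.mem_append, List.mem_map, List.mem_range, List.mem_flatMap,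
    List.not_mem_nil, or_false]
  rcases h with ⟨rfl, hi⟩ | ⟨h1, h2, h3⟩ | ⟨rfl, rfl⟩
  · right; left; exact ⟨i, hi, rfl⟩
  · right; right
    refine ⟨i, h3, ?_⟩
    omega
  · left; rfl

theorem adjB_comm (M : List (List Bool)) {a b : ℕ} (h : a ≠ b) : adjB M a b = adjB M b a := by
  unfold adjB
  rcases lt_trichotomy (a % 6) (b % 6) with h1 | h1 | h1
  · rw [if_pos h1.le, if_neg (by omega)]
  · rw [if_pos h1.le, if_pos h1.ge, h1]
    simp [adjO]
  · rw [if_neg (by omega), if_pos h1.le]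

theorem adjB_lab (M : List (List Bool)) {t i t' i' : ℕ} (h1 : t < 6) (h2 : t' < 6)
    (h : t ≤ t') : adjB M (6 * i + t) (6 * i' + t') = adjO M t i t' i' := by
  have e1 : (6 * i + t) % 6 = t := by omega
  have e2 : (6 * i' + t') % 6 = t' := by omega
  have e3 : (6 * i + t) / 6 = i := by omega
  have e4 : (6 * i' + t') / 6 = i' := by omega
  unfold adjB
  rw [e1, e2, e3, e4, if_pos h]

/-- The type of balls. -/
abbrev Bal (d : ℕ) : Type := {p : EuclideanSpace ℝ (Fin d) × ℝ // 0 < p.2}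

/-- Intersection of balls. -/
def Tch {d : ℕ} (p q : Bal d) : Prop := dist p.1.1 q.1.1 ≤ p.1.2 + q.1.2

theorem Tch.symm {d : ℕ} {p q : Bal d} (h : Tch p q) : Tch q p := by
  unfold Tch at *
  rwa [dist_comm, add_comm]

instance (d : ℕ) : Nonempty (Bal d) := ⟨⟨(0, 1), one_pos⟩⟩

theorem nonempty_iff {d : ℕ} (c c' : EuclideanSpace ℝ (Fin d)) {r r' : ℝ} (hr : 0 < r)
    (hr' : 0 < r') : (Metric.closedBall c r ∩ Metric.closedBall c' r').Nonempty ↔
      dist c c' ≤ r + r' := by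
  rw [← Set.not_disjoint_iff_nonempty_inter, disjoint_closedBall_closedBall_iff hr.le hr'.le,
    not_lt]

theorem isBallGraph_iff {d : ℕ} {V : Type} (G : SimpleGraph V) :
    IsBallGraph d G ↔ ∃ c : V → Bal d, ∀ u v, u ≠ v → (G.Adj u v ↔ Tch (c u) (c v)) := by
  constructor
  · rintro ⟨c, r, hr, h⟩
    refine ⟨fun v => ⟨(c v, r v), hr v⟩, fun u v huv => ?_⟩
    rw [h u v huv, nonempty_iff _ _ (hr u) (hr v)]
    rfl
  · rintro ⟨c, h⟩
    refine ⟨fun v => (c v).1.1, fun v => (c v).1.2, fun v => (c v).2, fun u v huv => ?_⟩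
    rw [h u v huv, nonempty_iff _ _ (c u).2 (c v).2]
    rfl

theorem ballG_iff {d : ℕ} (M : List (List Bool)) :
    IsBallGraph d (ballG M).graph ↔ ∃ F : ℕ → ℕ → Bal d, ∀ t i t' i', VL M t i → VL M t' i' →
      t ≤ t' → (t = t' → i ≠ i') → (adjO M t i t' i' = true ↔ Tch (F t i) (F t' i')) := by
  rw [isBallGraph_iff]
  refine (gOf_real Tch (fun _ _ => Tch.symm) (vtx M) (adjB M)).trans ?_
  have hlt : ∀ {t i}, VL M t i → t < 6 := by
    rintro t i (⟨rfl, -⟩ | ⟨-, h, -⟩ | ⟨rfl, -⟩) <;> omega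
  constructor
  · rintro ⟨c, hc⟩
    refine ⟨fun t i => c (6 * i + t), fun t i t' i' h1 h2 h3 h4 => ?_⟩
    have l1 := hlt h1
    have l2 := hlt h2
    rw [← adjB_lab M l1 l2 h3]
    have hne : 6 * i + t ≠ 6 * i' + t' := by
      intro h
      have e1 : t = t' := by omega
      exact h4 e1 (by omega)
    rcases lt_or_gt_of_ne hne with h | h
    · exact hc _ (mem_of_VL h1) _ (mem_of_VL h2) h
    · rw [adjB_comm M hne]
      refine (hc _ (mem_of_VL h2) _ (mem_of_VL h1) h).trans ?_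
      exact ⟨Tch.symm, Tch.symm⟩
  · rintro ⟨F, hF⟩
    refine ⟨fun a => F (a % 6) (a / 6), fun a ha b hb hab => ?_⟩
    have h1 := VL_of_mem ha
    have h2 := VL_of_mem hb
    unfold adjB
    split_ifs with h
    · exact hF _ _ _ _ h1 h2 h (by omega)
    · rw [hF _ _ _ _ h2 h1 (by omega) (by omega)]
      exact ⟨Tch.symm, Tch.symm⟩

/-! ### Soundness -/

/-- The space of balls. -/
abbrev BV (d : ℕ) : Type := ℝ × ℝ × EuclideanSpace ℝ (Fin d)

/-- The vector of a ball. -/
noncomputable def psi {d : ℕ} (p : Bal d) : BV d :=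
  (1 / p.1.2, (‖p.1.1‖ ^ 2 - p.1.2 ^ 2) / p.1.2, (1 / p.1.2) • p.1.1)

/-- The form. -/
noncomputable def bl {d : ℕ} (u : BV d) : BV d →ₗ[ℝ] ℝ where
  toFun v := ⟪u.2.2, v.2.2⟫ - (u.1 * v.2.1 + v.1 * u.2.1) / 2
  map_add' v w := by
    simp only [Prod.fst_add, Prod.snd_add, inner_add_right]
    ring
  map_smul' a v := by
    simp only [Prod.smul_fst, Prod.smul_snd, inner_smul_right, smul_eq_mul, RingHom.id_apply]
    ring

theorem bl_psi {d : ℕ} (p q : Bal d) :
    bl (psi p) (psi q) = (p.1.2 ^ 2 + q.1.2 ^ 2 - dist p.1.1 q.1.1 ^ 2) / (2 * p.1.2 * q.1.2) := by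
  have hp := p.2
  have hq := q.2
  have h1 : bl (psi p) (psi q) = ⟪(1 / p.1.2) • p.1.1, (1 / q.1.2) • q.1.1⟫ -
      (1 / p.1.2 * ((‖q.1.1‖ ^ 2 - q.1.2 ^ 2) / q.1.2) +
        1 / q.1.2 * ((‖p.1.1‖ ^ 2 - p.1.2 ^ 2) / p.1.2)) / 2 := rfl
  rw [h1, inner_smul_left, inner_smul_right, dist_eq_norm, norm_sub_sq_real]
  simp only [RCLike.conj_to_real]
  field_simp
  ring

theorem tch_iff {d : ℕ} (p q : Bal d) : Tch p q ↔ -1 ≤ bl (psi p) (psi q) := by
  rw [bl_psi]
  have hp := p.2
  have hq := q.2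
  unfold Tch
  rw [le_div_iff₀ (by positivity)]
  constructor
  · intro h
    have := pow_le_pow_left₀ dist_nonneg h 2
    linarith
  · intro h
    apply le_of_sq_le_sq _ (by positivity)
    linarith

theorem exists_conv {α β : ℝ} (h1 : -1 ≤ α) (h2 : β < -1) :
    ∃ l : ℝ, 0 ≤ l ∧ l ≤ 1 ∧ l * α + (1 - l) * β = -1 := by
  have h3 : 0 < α - β := by linarith
  refine ⟨(-1 - β) / (α - β), div_nonneg (by linarith) h3.le, ?_, ?_⟩
  · rw [div_le_one h3]; linarith
  · field_simp
    ring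

/-- From two balls to a vector which touches `U`. -/
theorem exists_star {d : ℕ} {U A A' : Bal d} (h1 : Tch U A) (h2 : ¬ Tch U A') :
    ∃ x : BV d, bl (psi U) x = -1 ∧ ∀ P : Bal d,
      (Tch P A → Tch P A' → -1 ≤ bl (psi P) x) ∧
      (¬ Tch P A → ¬ Tch P A' → bl (psi P) x < -1) := by
  rw [tch_iff] at h1
  rw [tch_iff, not_le] at h2
  obtain ⟨l, hl0, hl1, hl⟩ := exists_conv h1 h2
  have key : ∀ P : Bal d, bl (psi P) (l • psi A + (1 - l) • psi A') =
      l * bl (psi P) (psi A) + (1 - l) * bl (psi P) (psi A') := by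
    intro P
    rw [map_add, map_smul, map_smul, smul_eq_mul, smul_eq_mul]
  refine ⟨l • psi A + (1 - l) • psi A', by rw [key, hl], fun P => ⟨?_, ?_⟩⟩
  · rw [tch_iff, tch_iff, key]
    intro h3 h4
    nlinarith
  · rw [tch_iff, tch_iff, not_le, not_le, key]
    intro h3 h4
    by_cases h5 : l = 0
    · subst h5; linarith
    · have : 0 < l := lt_of_le_of_ne hl0 (Ne.symm h5)
      nlinarith

theorem SR_of_ballG {d m : ℕ} {M : List (List Bool)} (hM : Rect m M)
    (h : IsBallGraph d (ballG M).graph) : SR (d + 1) M := by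
  obtain ⟨F, hF⟩ := (ballG_iff M).1 h
  have hU : VL M 5 0 := Or.inr (Or.inr ⟨rfl, rfl⟩)
  have hA : ∀ j, ∃ x : BV d, j < wid M → bl (psi (F 5 0)) x = -1 ∧ ∀ P : Bal d,
      (Tch P (F 1 j) → Tch P (F 2 j) → -1 ≤ bl (psi P) x) ∧
      (¬ Tch P (F 1 j) → ¬ Tch P (F 2 j) → bl (psi P) x < -1) := by
    intro j
    by_cases hj : j < wid M
    · have h1 : VL M 1 j := Or.inr (Or.inl ⟨by omega, by omega, hj⟩)
      have h2 : VL M 2 j := Or.inr (Or.inl ⟨by omega, by omega, hj⟩)
      have a1 := hF 1 j 5 0 h1 hU (by omega) (by omega)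
      have a2 := hF 2 j 5 0 h2 hU (by omega) (by omega)
      have e1 : adjO M 1 j 5 0 = true := by simp [adjO]
      have e2 : adjO M 2 j 5 0 = false := by simp [adjO]
      rw [e1] at a1
      rw [e2] at a2
      obtain ⟨x, hx⟩ := exists_star (Tch.symm (a1.1 rfl)) (fun h => by simpa using a2.2 (Tch.symm h))
      exact ⟨x, fun _ => hx⟩
    · exact ⟨0, fun h => absurd h hj⟩
  have hB : ∀ j, ∃ x : BV d, j < wid M → bl (psi (F 5 0)) x = -1 ∧ ∀ P : Bal d,
      (Tch P (F 3 j) → Tch P (F 4 j) → -1 ≤ bl (psi P) x) ∧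
      (¬ Tch P (F 3 j) → ¬ Tch P (F 4 j) → bl (psi P) x < -1) := by
    intro j
    by_cases hj : j < wid M
    · have h1 : VL M 3 j := Or.inr (Or.inl ⟨by omega, by omega, hj⟩)
      have h2 : VL M 4 j := Or.inr (Or.inl ⟨by omega, by omega, hj⟩)
      have a1 := hF 3 j 5 0 h1 hU (by omega) (by omega)
      have a2 := hF 4 j 5 0 h2 hU (by omega) (by omega)
      have e1 : adjO M 3 j 5 0 = true := by simp [adjO]
      have e2 : adjO M 4 j 5 0 = false := by simp [adjO]
      rw [e1] at a1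
      rw [e2] at a2
      obtain ⟨x, hx⟩ := exists_star (Tch.symm (a1.1 rfl)) (fun h => by simpa using a2.2 (Tch.symm h))
      exact ⟨x, fun _ => hx⟩
    · exact ⟨0, fun h => absurd h hj⟩
  choose A hA using hA
  choose B hB using hB
  have hφ : bl (psi (F 5 0)) ≠ 0 := by
    intro h0
    have h1 : bl (psi (F 5 0)) (psi (F 5 0)) = 0 := by rw [h0]; rfl
    rw [bl_psi, dist_self] at h1
    have := (F 5 0).2
    field_simp at h1
    nlinarith
  have hrank : Module.finrank ℝ (BV d) = (d + 1) + 1 := by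
    rw [Module.finrank_prod, Module.finrank_prod, Module.finrank_self,
      finrank_euclideanSpace_fin]
    ring
  obtain ⟨T, hT⟩ := exists_param hrank (bl (psi (F 5 0))) hφ
  refine SR_of_functional T (fun i => bl (psi (F 0 i))) (fun j => A j - B j) ?_ ?_
  · rintro j ⟨i, hi, hj⟩
    rw [wid_eq hM hi] at hj
    apply hT
    rw [map_sub, (hA j hj).1, (hB j hj).1, sub_self]
  · intro i hi j hj
    have hj' := hj
    rw [wid_eq hM hi] at hj'
    have h0 : VL M 0 i := Or.inl ⟨rfl, hi⟩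
    have b1 := hF 0 i 1 j h0 (Or.inr (Or.inl ⟨by omega, by omega, hj'⟩)) (by omega) (by omega)
    have b2 := hF 0 i 2 j h0 (Or.inr (Or.inl ⟨by omega, by omega, hj'⟩)) (by omega) (by omega)
    have b3 := hF 0 i 3 j h0 (Or.inr (Or.inl ⟨by omega, by omega, hj'⟩)) (by omega) (by omega)
    have b4 := hF 0 i 4 j h0 (Or.inr (Or.inl ⟨by omega, by omega, hj'⟩)) (by omega) (by omega)
    have e1 : adjO M 0 i 1 j = M[i][j] := by simp [adjO, ent_eq hi hj]
    have e2 : adjO M 0 i 2 j = M[i][j] := by simp [adjO, ent_eq hi hj]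
    have e3 : adjO M 0 i 3 j = !M[i][j] := by simp [adjO, ent_eq hi hj]
    have e4 : adjO M 0 i 4 j = !M[i][j] := by simp [adjO, ent_eq hi hj]
    rw [e1] at b1
    rw [e2] at b2
    rw [e3] at b3
    rw [e4] at b4
    rw [map_sub]
    cases hb : M[i][j]
    · rw [hb] at b1 b2 b3 b4
      have c1 := ((hA j hj').2 (F 0 i)).2 (fun h => by simpa using b1.2 h)
        (fun h => by simpa using b2.2 h)
      have c2 := ((hB j hj').2 (F 0 i)).1 (b3.1 rfl) (b4.1 rfl)
      rw [sgn_false]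
      linarith
    · rw [hb] at b1 b2 b3 b4
      have c1 := ((hA j hj').2 (F 0 i)).1 (b1.1 rfl) (b2.1 rfl)
      have c2 := ((hB j hj').2 (F 0 i)).2 (fun h => by simpa using b3.2 h)
        (fun h => by simpa using b4.2 h)
      rw [sgn_true]
      linarith

end Pool.Agent.NPC.ER.Pat
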