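import Pool.Agent.H625R2.BallG

/-!
# Ball graphs in `ℝ^d`: completeness
-/

namespace Pool.Agent.NPC.ER.Pat

open Pool.Agent.NPC Pool.Agent.NPC.H670R2
open scoped RealInnerProductSpace Topology

open Filter

/-- The signed distances of the centres from the origin. -/
noncomputable def sc (t : ℕ) : ℝ :=
  if t = 1 then 8 else if t = 2 then 7 else if t = 3 then -8 else if t = 4 then -7 else 0

/-- The radii. -/
noncomputable def rd (t : ℕ) : ℝ :=
  if t = 0 then 1 else if t = 1 then 7 else if t = 2 then 6 else if t = 3 then 7 else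
  if t = 4 then 6 else 2

theorem rd_pos (t : ℕ) : 0 < rd t := by
  unfold rd
  split_ifs <;> norm_num

section

variable {k : ℕ}

/-- The first basis vector. -/
noncomputable def e0 : EuclideanSpace ℝ (Fin (k + 2)) := EuclideanSpace.single 0 1

/-- The second basis vector. -/
noncomputable def e1 : EuclideanSpace ℝ (Fin (k + 2)) := EuclideanSpace.single 1 1

theorem norm_e0 : ‖(e0 : EuclideanSpace ℝ (Fin (k + 2)))‖ = 1 := by
  simp [e0]

theorem norm_e1 : ‖(e1 : EuclideanSpace ℝ (Fin (k + 2)))‖ = 1 := by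
  simp [e1]

theorem inner_e0_e1 : ⟪(e0 : EuclideanSpace ℝ (Fin (k + 2))), e1⟫ = 0 := by
  simp [e0, e1, EuclideanSpace.inner_single_left]

/-- The centres in the limit. -/
noncomputable def ideal (t : ℕ) : EuclideanSpace ℝ (Fin (k + 2)) :=
  if t = 5 then (-4 : ℝ) • e1 else sc t • e0

theorem dist_ideal (t t' : ℕ) (h : t ≠ 5) (h' : t' ≠ 5) :
    dist (ideal t : EuclideanSpace ℝ (Fin (k + 2))) (ideal t') = |sc t - sc t'| := by
  unfold ideal
  rw [if_neg h, if_neg h', dist_eq_norm, ← sub_smul, norm_smul, norm_e0, mul_one,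
    Real.norm_eq_abs]

theorem dist_ideal' (t : ℕ) (h : t ≠ 5) :
    dist (ideal t : EuclideanSpace ℝ (Fin (k + 2))) (ideal 5) ^ 2 = sc t ^ 2 + 16 := by
  unfold ideal
  rw [if_neg h, if_pos rfl, dist_eq_norm, norm_sub_sq_real, norm_smul, norm_smul, norm_e0,
    norm_e1, inner_smul_left, inner_smul_right, inner_e0_e1, Real.norm_eq_abs, Real.norm_eq_abs,
    mul_pow, sq_abs]
  norm_num

theorem gap_ideal (M : List (List Bool)) (t t' i i' : ℕ) (h : t ≤ t') (h' : t' ≤ 5)
    (hc : ¬ (t = 0 ∧ 1 ≤ t' ∧ t' ≤ 4)) :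
    (adjO M t i t' i' = true ∧
      dist (ideal t : EuclideanSpace ℝ (Fin (k + 2))) (ideal t') + 1 / 25 < rd t + rd t') ∨
    (adjO M t i t' i' = false ∧
      rd t + rd t' + 1 / 25 < dist (ideal t : EuclideanSpace ℝ (Fin (k + 2))) (ideal t')) := by
  by_cases ht5 : t = 5
  · have ht5' : t' = 5 := by omega
    subst ht5; subst ht5'
    left
    rw [dist_self]
    constructor
    · simp [adjO]
    · norm_num [rd]
  by_cases ht' : t' = 5
  · subst ht'
    have hd := dist_ideal' (k := k) t ht5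
    have hnn := dist_nonneg (x := (ideal t : EuclideanSpace ℝ (Fin (k + 2)))) (y := ideal 5)
    set D := dist (ideal t : EuclideanSpace ℝ (Fin (k + 2))) (ideal 5)
    have ht4 : t ≤ 4 := by omega
    interval_cases t
    · right
      refine ⟨by simp [adjO], ?_⟩
      norm_num [sc] at hd
      norm_num [rd]
      nlinarith
    · left
      refine ⟨by simp [adjO], ?_⟩
      norm_num [sc] at hd
      norm_num [rd]
      nlinarith
    · right
      refine ⟨by simp [adjO], ?_⟩
      norm_num [sc] at hd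
      norm_num [rd]
      nlinarith
    · left
      refine ⟨by simp [adjO], ?_⟩
      norm_num [sc] at hd
      norm_num [rd]
      nlinarith
    · right
      refine ⟨by simp [adjO], ?_⟩
      norm_num [sc] at hd
      norm_num [rd]
      nlinarith
  · rw [dist_ideal t t' ht5 ht']
    have ht4 : t' ≤ 4 := by omega
    have ht3 : t ≤ 4 := by omega
    interval_cases t <;> interval_cases t' <;> first | omega | skip
    all_goals
      first
      | (left; refine ⟨by simp [adjO], ?_⟩; norm_num [rd, sc, abs_lt]; done)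
      | (right; refine ⟨by simp [adjO], ?_⟩; norm_num [rd, sc, lt_abs]; done)

/-- The centres. -/
noncomputable def cen (y n : ℕ → EuclideanSpace ℝ (Fin (k + 2))) (c : ℕ → ℝ) (t i : ℕ) (ε : ℝ) :
    EuclideanSpace ℝ (Fin (k + 2)) :=
  if t = 0 then ε • y i else if t = 5 then (-4 : ℝ) • e1 else (sc t - ε * c i) • n i

theorem near_ideal (y n : ℕ → EuclideanSpace ℝ (Fin (k + 2))) (c : ℕ → ℝ)
    (hn : ∀ j, ‖n j‖ = 1 ∧ ‖n j - e0‖ < 1 / 800) (t i : ℕ) :
    ∀ᶠ ε in 𝓝[>] (0 : ℝ), ‖cen y n c t i ε - ideal t‖ < 1 / 50 := by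
  have hcont : Continuous fun ε : ℝ => ‖cen y n c t i ε - ideal t‖ := by
    unfold cen
    split_ifs <;> fun_prop
  have h0 : ‖cen y n c t i 0 - ideal t‖ < 1 / 50 := by
    unfold cen ideal
    by_cases h1 : t = 0
    · subst h1
      simp [sc]
    · by_cases h2 : t = 5
      · subst h2
        simp
      · rw [if_neg h1, if_neg h2, if_neg h2, zero_mul, sub_zero, ← smul_sub, norm_smul,
          Real.norm_eq_abs]
        have h3 : |sc t| ≤ 8 := by
          unfold sc
          split_ifs <;> norm_num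
        have h4 := (hn i).2
        have h5 := norm_nonneg (n i - e0)
        have h6 := abs_nonneg (sc t)
        nlinarith
  exact (hcont.continuousAt.eventually (gt_mem_nhds h0)).filter_mono nhdsWithin_le_nhds

theorem crit (y n : EuclideanSpace ℝ (Fin (k + 2))) (c s : ℝ) (hs : s ≠ 0) (hn : ‖n‖ = 1)
    (b : Bool) (hb : 0 < sgn b * (c + ⟪y, n⟫)) :
    ∀ᶠ ε in 𝓝[>] (0 : ℝ), dist (ε • y) ((s - ε * c) • n) ≤ |s| ↔ 0 < sgn b * s := by
  have hcont : Continuous fun ε : ℝ => sgn b * s * (2 * s * (c + ⟪y, n⟫) -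
      ε * (‖y‖ ^ 2 + 2 * c * ⟪y, n⟫ + c ^ 2)) := by fun_prop
  have h0 : 0 < sgn b * s * (2 * s * (c + ⟪y, n⟫) -
      0 * (‖y‖ ^ 2 + 2 * c * ⟪y, n⟫ + c ^ 2)) := by
    have : 0 < s ^ 2 := by positivity
    have e : sgn b * s * (2 * s * (c + ⟪y, n⟫) - 0 * (‖y‖ ^ 2 + 2 * c * ⟪y, n⟫ + c ^ 2)) =
        2 * s ^ 2 * (sgn b * (c + ⟪y, n⟫)) := by ring
    rw [e]
    positivity
  have h1 : ∀ᶠ ε in 𝓝[>] (0 : ℝ), 0 < sgn b * s * (2 * s * (c + ⟪y, n⟫) -
      ε * (‖y‖ ^ 2 + 2 * c * ⟪y, n⟫ + c ^ 2)) :=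
    (hcont.continuousAt.eventually (lt_mem_nhds h0)).filter_mono nhdsWithin_le_nhds
  filter_upwards [h1, self_mem_nhdsWithin] with ε h2 h3
  have h3 : 0 < ε := h3
  have h4 : dist (ε • y) ((s - ε * c) • n) ^ 2 = s ^ 2 - ε * (2 * s * (c + ⟪y, n⟫) -
      ε * (‖y‖ ^ 2 + 2 * c * ⟪y, n⟫ + c ^ 2)) := by
    rw [dist_eq_norm, norm_sub_sq_real, norm_smul, norm_smul, inner_smul_left, inner_smul_right,
      hn, Real.norm_eq_abs, Real.norm_eq_abs, mul_pow, mul_pow, sq_abs, sq_abs]
    simp only [RCLike.conj_to_real]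
    ring
  set g := 2 * s * (c + ⟪y, n⟫) - ε * (‖y‖ ^ 2 + 2 * c * ⟪y, n⟫ + c ^ 2)
  have h5 : dist (ε • y) ((s - ε * c) • n) ≤ |s| ↔ 0 ≤ g := by
    rw [← abs_of_nonneg (dist_nonneg (x := ε • y) (y := (s - ε * c) • n)), ← sq_le_sq, h4]
    constructor
    · intro h
      have h6 : 0 ≤ ε * g := by linarith
      exact nonneg_of_mul_nonneg_right h6 h3
    · intro h
      have := mul_nonneg h3.le h
      linarith
  rw [h5]
  constructor
  · intro h
    rcases lt_or_eq_of_le h with h | h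
    · exact pos_of_mul_pos_left h2 h.le
    · rw [← h, mul_zero] at h2
      exact absurd h2 (lt_irrefl _)
  · intro h
    exact (pos_of_mul_pos_right h2 h.le).le

theorem ballG_of_SRN {m : ℕ} {M : List (List Bool)} (hM : Rect m M) (h : SRN (k + 2) M) :
    IsBallGraph (k + 2) (ballG M).graph := by
  obtain ⟨y, n, c, hn, hy⟩ := unit_of_SRN (k := k + 1) h (δ := 1 / 800) (by norm_num)
  have hn' : ∀ j, ‖n j‖ = 1 ∧ ‖n j - e0‖ < 1 / 800 := hn
  set N := M.length + wid M + 1 with hN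
  have ev1 : ∀ᶠ ε in 𝓝[>] (0 : ℝ), ∀ t ∈ Finset.range 6, ∀ i ∈ Finset.range N,
      ‖cen y n c t i ε - ideal t‖ < 1 / 50 := by
    rw [Filter.eventually_all_finset]
    intro t _
    rw [Filter.eventually_all_finset]
    intro i _
    exact near_ideal y n c hn' t i
  have ev2 : ∀ᶠ ε in 𝓝[>] (0 : ℝ), ∀ t ∈ Finset.Icc 1 4, ∀ i ∈ Finset.range M.length,
      ∀ j ∈ Finset.range (wid M), (dist (ε • y i) ((sc t - ε * c j) • n j) ≤ |sc t| ↔
        0 < sgn (ent M i j) * sc t) := by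
    rw [Filter.eventually_all_finset]
    intro t ht
    rw [Filter.eventually_all_finset]
    intro i hi
    rw [Filter.eventually_all_finset]
    intro j hj
    rw [Finset.mem_range] at hi hj
    have hj' : j < M[i].length := by rw [wid_eq hM hi]; exact hj
    refine crit (y i) (n j) (c j) (sc t) ?_ (hn j).1 _ ?_
    · rw [Finset.mem_Icc] at ht
      obtain ⟨h1, h2⟩ := ht
      interval_cases t <;> norm_num [sc]
    · rw [ent_eq hi hj']
      exact hy i hi j hj'
  obtain ⟨ε, h1, h2⟩ := (ev1.and ev2).exists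
  rw [ballG_iff]
  refine ⟨fun t i => ⟨(cen y n c t i ε, rd t), rd_pos t⟩, fun t i t' i' hv hv' htt hne => ?_⟩
  have hlt : ∀ {t i}, VL M t i → t < 6 ∧ i < N := by
    rintro t i (⟨rfl, h⟩ | ⟨-, h, h'⟩ | ⟨rfl, rfl⟩) <;> constructor <;> omega
  by_cases hc : t = 0 ∧ 1 ≤ t' ∧ t' ≤ 4
  · obtain ⟨rfl, c1, c2⟩ := hc
    have hi : i < M.length := by
      rcases hv with ⟨-, h⟩ | ⟨h, -, -⟩ | ⟨h, -⟩
      · exact h
      · omega
      · omega
    have hi' : i' < wid M := by
      rcases hv' with ⟨h, -⟩ | ⟨-, -, h⟩ | ⟨h, -⟩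
      · omega
      · exact h
      · omega
    have h3 := h2 t' (Finset.mem_Icc.2 ⟨c1, c2⟩) i (Finset.mem_range.2 hi) i'
      (Finset.mem_range.2 hi')
    have h4 : Tch (⟨(cen y n c 0 i ε, rd 0), rd_pos 0⟩ : Bal (k + 2))
        ⟨(cen y n c t' i' ε, rd t'), rd_pos t'⟩ ↔
        dist (ε • y i) ((sc t' - ε * c i') • n i') ≤ |sc t'| := by
      have q1 : cen y n c 0 i ε = ε • y i := if_pos rfl
      have q2 : cen y n c t' i' ε = (sc t' - ε * c i') • n i' := by
        unfold cen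
        rw [if_neg (by omega), if_neg (by omega)]
      have : rd 0 + rd t' = |sc t'| := by
        interval_cases t' <;> norm_num [rd, sc]
      unfold Tch
      simp only
      rw [q1, q2, this]
    rw [h4, h3]
    interval_cases t' <;> cases hb : ent M i i' <;> norm_num [adjO, hb, sc, sgn]
  · obtain ⟨l1, l2⟩ := hlt hv
    obtain ⟨l3, l4⟩ := hlt hv'
    have n1 := h1 t (Finset.mem_range.2 l1) i (Finset.mem_range.2 l2)
    have n2 := h1 t' (Finset.mem_range.2 l3) i' (Finset.mem_range.2 l4)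
    rw [← dist_eq_norm] at n1 n2
    have t1 := dist_triangle4 (cen y n c t i ε) (ideal t) (ideal t') (cen y n c t' i' ε)
    have t2 := dist_triangle4 (ideal t) (cen y n c t i ε) (cen y n c t' i' ε) (ideal t')
    rw [dist_comm (ideal t') (cen y n c t' i' ε)] at t1
    rw [dist_comm (ideal t) (cen y n c t i ε)] at t2
    have hT : Tch (⟨(cen y n c t i ε, rd t), rd_pos t⟩ : Bal (k + 2))
        ⟨(cen y n c t' i' ε, rd t'), rd_pos t'⟩ ↔
        dist (cen y n c t i ε) (cen y n c t' i' ε) ≤ rd t + rd t' := Iff.rfl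
    rw [hT]
    rcases gap_ideal (k := k) M t t' i i' htt (by omega) hc with ⟨g1, g2⟩ | ⟨g1, g2⟩
    · rw [g1]
      simp only [true_iff]
      linarith
    · rw [g1]
      simp only [Bool.false_eq_true, false_iff, not_le]
      linarith

end

end Pool.Agent.NPC.ER.Pat
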