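import Mathlib

/-!
# From quartic forms to biquadratic forms

A quartic form `Φ(v) = ∑ qⱼ(v)² - v₀⁴` (with `qⱼ` quadratic forms with coefficients `±1`) is
nonnegative if and only if the biquadratic form
`∑ bⱼ(v,w)² - 4 v₀² w₀² + 4 K (|v|²|w|² - (v·w)²)` is nonnegative, for `K` explicit.
Here `bⱼ` is twice the polar form of `qⱼ`.
-/

namespace Pool.Agent.H625R2

/-- The sign attached to a boolean. -/
def sgn (b : Bool) : ℝ := if b then -1 else 1

theorem sgn_sq (b : Bool) : sgn b * sgn b = 1 := by cases b <;> simp [sgn]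

theorem abs_sgn (b : Bool) : |sgn b| = 1 := by cases b <;> simp [sgn]

/-- The value of the bilinear form given by a list of signed monomials `± v_a w_b`. -/
def bval (l : List (Bool × ℕ × ℕ)) (v w : ℕ → ℝ) : ℝ :=
  (l.map fun m => sgn m.1 * (v m.2.1 * w m.2.2)).sum

@[simp] theorem bval_nil (v w : ℕ → ℝ) : bval [] v w = 0 := rfl

@[simp] theorem bval_cons (m : Bool × ℕ × ℕ) (l : List (Bool × ℕ × ℕ)) (v w : ℕ → ℝ) :
    bval (m :: l) v w = sgn m.1 * (v m.2.1 * w m.2.2) + bval l v w := by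
  simp [bval]

theorem bval_append (l l' : List (Bool × ℕ × ℕ)) (v w : ℕ → ℝ) :
    bval (l ++ l') v w = bval l v w + bval l' v w := by
  simp [bval]

/-- The list of signed monomials of the symmetrised form. -/
def symm (l : List (Bool × ℕ × ℕ)) : List (Bool × ℕ × ℕ) :=
  l.flatMap fun m => [m, (m.1, m.2.2, m.2.1)]

theorem symm_cons (m : Bool × ℕ × ℕ) (l : List (Bool × ℕ × ℕ)) :
    symm (m :: l) = m :: (m.1, m.2.2, m.2.1) :: symm l := by
  simp [symm]

theorem symm_nil : symm [] = [] := rfl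

theorem length_symm (l : List (Bool × ℕ × ℕ)) : (symm l).length = 2 * l.length := by
  induction l with
  | nil => rfl
  | cons m l ih => rw [symm_cons]; simp [ih]; ring

theorem bval_symm (l : List (Bool × ℕ × ℕ)) (v w : ℕ → ℝ) :
    bval (symm l) v w = bval l v w + bval l w v := by
  induction l with
  | nil => simp [symm_nil]
  | cons m l ih =>
    rw [symm_cons, bval_cons, bval_cons, ih, bval_cons, bval_cons]
    ring

/-- A value of a bilinear form is bounded. -/
theorem abs_bval_le (l : List (Bool × ℕ × ℕ)) (v w : ℕ → ℝ) (N : ℕ) (ν η : ℝ)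
    (hl : ∀ m ∈ l, m.2.1 < N ∧ m.2.2 < N) (hν : 0 ≤ ν)
    (hv : ∀ i < N, |v i| ≤ ν) (hw : ∀ i < N, |w i| ≤ η) :
    |bval l v w| ≤ l.length * (ν * η) := by
  induction l with
  | nil => simp
  | cons m l ih =>
    rw [bval_cons]
    have h1 := ih (fun m' hm' => hl m' (List.mem_cons_of_mem _ hm'))
    have h2 := hl m (by simp)
    have h3 : |sgn m.1 * (v m.2.1 * w m.2.2)| ≤ ν * η := by
      rw [abs_mul, abs_sgn, one_mul, abs_mul]
      exact mul_le_mul (hv _ h2.1) (hw _ h2.2) (abs_nonneg _) hν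
    refine (abs_add_le _ _).trans ?_
    rw [List.length_cons]
    push_cast
    linarith

/-- Linearity in the second argument. -/
theorem bval_lin_right (l : List (Bool × ℕ × ℕ)) (v w h : ℕ → ℝ) (α β : ℝ) :
    bval l v (fun i => α * w i + β * h i) = α * bval l v w + β * bval l v h := by
  induction l with
  | nil => simp
  | cons m l ih => simp only [bval_cons, ih]; ring

/-- Linearity in the first argument. -/
theorem bval_lin_left (l : List (Bool × ℕ × ℕ)) (v w h : ℕ → ℝ) (α β : ℝ) :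
    bval l (fun i => α * w i + β * h i) v = α * bval l w v + β * bval l h v := by
  induction l with
  | nil => simp
  | cons m l ih => simp only [bval_cons, ih]; ring

theorem bval_congr (l : List (Bool × ℕ × ℕ)) (v w v' w' : ℕ → ℝ) (N : ℕ)
    (hl : ∀ m ∈ l, m.2.1 < N ∧ m.2.2 < N) (hv : ∀ i < N, v i = v' i) (hw : ∀ i < N, w i = w' i) :
    bval l v w = bval l v' w' := by
  induction l with
  | nil => simp
  | cons m l ih =>
    have h2 := hl m (by simp)
    rw [bval_cons, bval_cons, ih (fun m' hm' => hl m' (List.mem_cons_of_mem _ hm')), hv _ h2.1,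
      hw _ h2.2]

/-- The quartic form `∑ qⱼ(v)² - v₀⁴`. -/
def Phi (qs : List (List (Bool × ℕ × ℕ))) (v : ℕ → ℝ) : ℝ :=
  (qs.map fun q => (bval q v v) ^ 2).sum - v 0 ^ 4

/-- The sum of the squares of the numbers of monomials. -/
def rho (qs : List (List (Bool × ℕ × ℕ))) : ℕ := (qs.map fun q => q.length ^ 2).sum

/-- The standard inner product of the first `N` coordinates. -/
def inn (N : ℕ) (v w : ℕ → ℝ) : ℝ := ∑ i ∈ Finset.range N, v i * w i

/-- The biquadratic form. -/
def Bq (N : ℕ) (qs : List (List (Bool × ℕ × ℕ))) (v w : ℕ → ℝ) : ℝ :=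
  (qs.map fun q => (bval (symm q) v w) ^ 2).sum - 4 * (v 0 ^ 2 * w 0 ^ 2) +
    4 * (4 * rho qs + 2) * (inn N v v * inn N w w - inn N v w ^ 2)

theorem disc {a0 a1 a2 a3 a4 ν η C c2 c3 c4 : ℝ} (hν : 0 < ν) (hη : 0 < η) (hC : 0 < C)
    (hc3 : 0 ≤ c3) (hc4 : 0 ≤ c4)
    (hpos : ∀ s, 0 ≤ a0 + s * a1 + s ^ 2 * a2 + s ^ 3 * a3 + s ^ 4 * a4)
    (h1 : |a1| ≤ 2 * C * (ν ^ 3 * η)) (h2 : a2 ≤ c2 * (ν ^ 2 * η ^ 2))
    (h3 : |a3| ≤ c3 * (ν * η ^ 3)) (h4 : a4 ≤ c4 * η ^ 4) (hc : c2 + c3 + c4 ≤ C) :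
    a1 ^ 2 ≤ 4 * C * (ν ^ 2 * η ^ 2) * a0 := by
  set M := C * (ν ^ 2 * η ^ 2) with hM
  have hM0 : 0 < M := by positivity
  set s := -a1 / (2 * M) with hs
  have hs1 : |s| * η ≤ ν := by
    rw [hs, abs_div, abs_neg, abs_of_pos (by positivity : 0 < 2 * M), div_mul_eq_mul_div,
      div_le_iff₀ (by positivity)]
    calc |a1| * η ≤ 2 * C * (ν ^ 3 * η) * η := mul_le_mul_of_nonneg_right h1 hη.le
      _ = ν * (2 * M) := by rw [hM]; ring
  have hs2 : s ^ 2 * η ^ 2 ≤ ν ^ 2 := by
    have := mul_self_le_mul_self (by positivity) hs1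
    calc s ^ 2 * η ^ 2 = (|s| * η) * (|s| * η) := by rw [← sq_abs s]; ring
      _ ≤ ν * ν := this
      _ = ν ^ 2 := by ring
  have e2 : s ^ 2 * a2 ≤ c2 * (ν ^ 2 * η ^ 2 * s ^ 2) := by
    have := mul_le_mul_of_nonneg_left h2 (sq_nonneg s)
    linarith
  have e3 : s ^ 3 * a3 ≤ c3 * (ν ^ 2 * η ^ 2 * s ^ 2) := by
    have k1 : s ^ 3 * a3 ≤ |s| ^ 3 * |a3| := by
      rw [← abs_pow, ← abs_mul]; exact le_abs_self _
    have k2 : |s| ^ 3 * |a3| ≤ |s| ^ 3 * (c3 * (ν * η ^ 3)) :=
      mul_le_mul_of_nonneg_left h3 (by positivity)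
    have k3 : |s| ^ 3 * (c3 * (ν * η ^ 3)) = (c3 * (ν * η ^ 2 * |s| ^ 2)) * (|s| * η) := by ring
    have k4 : (c3 * (ν * η ^ 2 * |s| ^ 2)) * (|s| * η) ≤ (c3 * (ν * η ^ 2 * |s| ^ 2)) * ν :=
      mul_le_mul_of_nonneg_left hs1 (by positivity)
    rw [sq_abs] at k4
    have k5 : |s| ^ 2 = s ^ 2 := sq_abs s
    rw [k5] at k3
    nlinarith
  have e4 : s ^ 4 * a4 ≤ c4 * (ν ^ 2 * η ^ 2 * s ^ 2) := by
    have k1 : s ^ 4 * a4 ≤ s ^ 4 * (c4 * η ^ 4) := mul_le_mul_of_nonneg_left h4 (by positivity)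
    have k2 : s ^ 4 * (c4 * η ^ 4) = (c4 * (η ^ 2 * s ^ 2)) * (s ^ 2 * η ^ 2) := by ring
    have k3 : (c4 * (η ^ 2 * s ^ 2)) * (s ^ 2 * η ^ 2) ≤ (c4 * (η ^ 2 * s ^ 2)) * ν ^ 2 :=
      mul_le_mul_of_nonneg_left hs2 (by positivity)
    linarith
  have e5 : (c2 + c3 + c4) * (ν ^ 2 * η ^ 2 * s ^ 2) ≤ C * (ν ^ 2 * η ^ 2 * s ^ 2) :=
    mul_le_mul_of_nonneg_right hc (by positivity)
  have e6 := hpos s
  have e7 : 0 ≤ a0 + s * a1 + M * s ^ 2 := by rw [hM]; nlinarith
  have e8 : s * a1 = -a1 ^ 2 / (2 * M) := by rw [hs]; ring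
  have e9 : M * s ^ 2 = a1 ^ 2 / (4 * M) := by rw [hs]; field_simp; ring
  rw [e8, e9] at e7
  have e10 : 0 ≤ a0 - a1 ^ 2 / (4 * M) := by
    have : -a1 ^ 2 / (2 * M) + a1 ^ 2 / (4 * M) = - (a1 ^ 2 / (4 * M)) := by field_simp; ring
    linarith
  have e11 : a1 ^ 2 / (4 * M) ≤ a0 := by linarith
  rw [div_le_iff₀ (by positivity)] at e11
  rw [hM] at e11
  linarith

/-- Expansion of a sum of squares along a line. -/
theorem sum_expand (qs : List (List (Bool × ℕ × ℕ))) (Q b P : List (Bool × ℕ × ℕ) → ℝ) (s : ℝ) :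
    (qs.map fun q => (Q q + s * b q + s ^ 2 * P q) ^ 2).sum =
      (qs.map fun q => Q q ^ 2).sum + s * (qs.map fun q => 2 * Q q * b q).sum +
      s ^ 2 * (qs.map fun q => b q ^ 2 + 2 * Q q * P q).sum +
      s ^ 3 * (qs.map fun q => 2 * b q * P q).sum + s ^ 4 * (qs.map fun q => P q ^ 2).sum := by
  induction qs with
  | nil => simp
  | cons q qs ih => simp only [List.map_cons, List.sum_cons, ih]; ring

theorem sum_expand' (qs : List (List (Bool × ℕ × ℕ))) (Q b : List (Bool × ℕ × ℕ) → ℝ) (α : ℝ) :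
    (qs.map fun q => (α * (2 * Q q) + b q) ^ 2).sum =
      4 * α ^ 2 * (qs.map fun q => Q q ^ 2).sum + 2 * α * (qs.map fun q => 2 * Q q * b q).sum +
      (qs.map fun q => b q ^ 2).sum := by
  induction qs with
  | nil => simp
  | cons q qs ih => simp only [List.map_cons, List.sum_cons, ih]; ring

theorem sum_le_rho (qs : List (List (Bool × ℕ × ℕ))) (f : List (Bool × ℕ × ℕ) → ℝ) (c : ℝ)
    (h : ∀ q ∈ qs, f q ≤ (q.length : ℝ) ^ 2 * c) : (qs.map f).sum ≤ rho qs * c := by
  induction qs with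
  | nil => simp [rho]
  | cons q qs ih =>
    have h1 := ih (fun q' hq' => h q' (List.mem_cons_of_mem _ hq'))
    have h2 := h q (by simp)
    have h3 : rho (q :: qs) = q.length ^ 2 + rho qs := by simp [rho]
    rw [List.map_cons, List.sum_cons, h3]
    push_cast
    linarith

theorem sum_sq_nonneg (qs : List (List (Bool × ℕ × ℕ))) (f : List (Bool × ℕ × ℕ) → ℝ) :
    0 ≤ (qs.map fun q => f q ^ 2).sum := by
  apply List.sum_nonneg
  intro x hx
  rw [List.mem_map] at hx
  obtain ⟨q, _, rfl⟩ := hx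
  positivity

theorem abs_list_sum_le (qs : List (List (Bool × ℕ × ℕ))) (f : List (Bool × ℕ × ℕ) → ℝ) :
    |(qs.map f).sum| ≤ (qs.map fun q => |f q|).sum := by
  induction qs with
  | nil => simp
  | cons q qs ih =>
    simp only [List.map_cons, List.sum_cons]
    exact (abs_add_le _ _).trans (by linarith)

theorem inn_nonneg (N : ℕ) (v : ℕ → ℝ) : 0 ≤ inn N v v :=
  Finset.sum_nonneg fun _ _ => mul_self_nonneg _

theorem sq_le_inn {N : ℕ} (v : ℕ → ℝ) {i : ℕ} (hi : i < N) : v i ^ 2 ≤ inn N v v := by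
  have := Finset.single_le_sum (f := fun i => v i * v i) (fun _ _ => mul_self_nonneg _)
    (Finset.mem_range.2 hi)
  rw [sq]
  exact this

theorem abs_le_sqrt_inn {N : ℕ} (v : ℕ → ℝ) {i : ℕ} (hi : i < N) : |v i| ≤ √(inn N v v) :=
  Real.abs_le_sqrt (sq_le_inn v hi)

theorem symm_idx {N : ℕ} {q : List (Bool × ℕ × ℕ)} (h : ∀ m ∈ q, m.2.1 < N ∧ m.2.2 < N) :
    ∀ m ∈ symm q, m.2.1 < N ∧ m.2.2 < N := by
  intro m hm
  simp only [symm, List.mem_flatMap, List.mem_cons, List.not_mem_nil, or_false] at hm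
  obtain ⟨m', hm', rfl | rfl⟩ := hm
  · exact h m hm'
  · exact (h m' hm').symm

/-- **The biquadratic form is nonnegative if the quartic form is.** -/
theorem Bq_nonneg {N : ℕ} {qs : List (List (Bool × ℕ × ℕ))} (hN : 0 < N)
    (hqs : ∀ q ∈ qs, ∀ m ∈ q, m.2.1 < N ∧ m.2.2 < N) (hΦ : ∀ v, 0 ≤ Phi qs v) (v w : ℕ → ℝ) :
    0 ≤ Bq N qs v w := by
  have hρ : (0 : ℝ) ≤ rho qs := Nat.cast_nonneg _
  rcases (inn_nonneg N v).eq_or_lt with hnv | hnv
  · -- `v = 0`
    have hv0 : ∀ i < N, v i = 0 := by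
      intro i hi
      have := sq_le_inn v hi
      rw [← hnv] at this
      nlinarith [sq_nonneg (v i)]
    have h1 : inn N v w = 0 := Finset.sum_eq_zero fun i hi => by
      rw [hv0 i (Finset.mem_range.1 hi)]; ring
    unfold Bq
    rw [h1, ← hnv, hv0 0 hN]
    have := sum_sq_nonneg qs (fun q => bval (symm q) v w)
    nlinarith
  set nv := inn N v v with hnvdef
  set α := inn N v w / nv with hα
  set h : ℕ → ℝ := fun i => w i - α * v i with hh
  have hw : w = fun i => α * v i + 1 * h i := by funext i; simp [hh]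
  have hvh : inn N v h = 0 := by
    have : inn N v h = inn N v w - α * nv := by
      rw [hnvdef]
      unfold inn
      rw [Finset.mul_sum, ← Finset.sum_sub_distrib]
      apply Finset.sum_congr rfl
      intro i _
      simp only [hh]
      ring
    rw [this, hα]
    field_simp
    ring
  have hvw : inn N v w = α * nv := by rw [hα]; field_simp
  have hww : inn N w w = α ^ 2 * nv + inn N h h := by
    have : inn N w w = α ^ 2 * nv + 2 * α * inn N v h + inn N h h := by
      rw [hnvdef]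
      unfold inn
      rw [Finset.mul_sum, Finset.mul_sum, ← Finset.sum_add_distrib, ← Finset.sum_add_distrib]
      apply Finset.sum_congr rfl
      intro i _
      simp only [hh]
      ring
    rw [this, hvh]
    ring
  set nh := inn N h h with hnh
  have hB : Bq N qs v w = 4 * α ^ 2 * Phi qs v +
      2 * α * ((qs.map fun q => 2 * bval q v v * bval (symm q) v h).sum - 4 * (v 0 ^ 3 * h 0)) +
      ((qs.map fun q => (bval (symm q) v h) ^ 2).sum - 4 * (v 0 ^ 2 * h 0 ^ 2)) +
      4 * (4 * rho qs + 2) * (nv * nh) := by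
    have k1 : (qs.map fun q => (bval (symm q) v w) ^ 2) =
        (qs.map fun q => (α * (2 * bval q v v) + bval (symm q) v h) ^ 2) := by
      apply List.map_congr_left
      intro q _
      conv_lhs => rw [hw, bval_lin_right, bval_symm q v v]
      ring
    have k2 : w 0 = α * v 0 + h 0 := by simp [hh]
    unfold Bq Phi
    rw [k1, sum_expand', hvw, hww, k2]
    ring
  rcases (inn_nonneg N h).eq_or_lt with hnh0 | hnh0
  · -- `h = 0`
    rw [← hnh] at hnh0
    have hh0 : ∀ i < N, h i = 0 := by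
      intro i hi
      have := sq_le_inn h hi
      rw [← hnh, ← hnh0] at this
      nlinarith [sq_nonneg (h i)]
    have k1 : (qs.map fun q => 2 * bval q v v * bval (symm q) v h).sum = 0 := by
      apply List.sum_eq_zero
      intro x hx
      rw [List.mem_map] at hx
      obtain ⟨q, hq, rfl⟩ := hx
      rw [bval_congr (symm q) v h v (fun _ => 0) N (symm_idx (hqs q hq)) (fun _ _ => rfl) hh0]
      have : bval (symm q) v (fun _ => 0) = 0 := by simp [bval]
      rw [this]
      ring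
    rw [hB, k1, hh0 0 hN, ← hnh0]
    have := hΦ v
    have h2 := sum_sq_nonneg qs (fun q => bval (symm q) v h)
    nlinarith [sq_nonneg α]
  rw [← hnh] at hnh0
  set ν := √nv with hν
  set η := √nh with hη
  have hν0 : 0 < ν := Real.sqrt_pos.2 hnv
  have hη0 : 0 < η := Real.sqrt_pos.2 hnh0
  have hν2 : ν ^ 2 = nv := Real.sq_sqrt hnv.le
  have hη2 : η ^ 2 = nh := Real.sq_sqrt hnh0.le
  have hvi : ∀ i < N, |v i| ≤ ν := fun i hi => abs_le_sqrt_inn v hi
  have hhi : ∀ i < N, |h i| ≤ η := fun i hi => abs_le_sqrt_inn h hi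
  have bQ : ∀ q ∈ qs, |bval q v v| ≤ q.length * (ν * ν) := fun q hq =>
    abs_bval_le q v v N ν ν (hqs q hq) hν0.le hvi hvi
  have bP : ∀ q ∈ qs, |bval q h h| ≤ q.length * (η * η) := fun q hq =>
    abs_bval_le q h h N η η (hqs q hq) hη0.le hhi hhi
  have bb : ∀ q ∈ qs, |bval (symm q) v h| ≤ 2 * (q.length * (ν * η)) := by
    intro q hq
    have := abs_bval_le (symm q) v h N ν η (symm_idx (hqs q hq)) hν0.le hvi hhi
    rw [length_symm] at this
    push_cast at this
    linarith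
  have hv0 := hvi 0 hN
  have hh0 := hhi 0 hN
  set a1 := (qs.map fun q => 2 * bval q v v * bval (symm q) v h).sum - 4 * (v 0 ^ 3 * h 0) with ha1
  have hline : ∀ s : ℝ, Phi qs (fun i => 1 * v i + s * h i) = Phi qs v + s * a1 +
      s ^ 2 * ((qs.map fun q => bval (symm q) v h ^ 2 + 2 * bval q v v * bval q h h).sum -
        6 * (v 0 ^ 2 * h 0 ^ 2)) +
      s ^ 3 * ((qs.map fun q => 2 * bval (symm q) v h * bval q h h).sum - 4 * (v 0 * h 0 ^ 3)) +
      s ^ 4 * ((qs.map fun q => bval q h h ^ 2).sum - h 0 ^ 4) := by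
    intro s
    have k1 : (qs.map fun q => (bval q (fun i => 1 * v i + s * h i)
        (fun i => 1 * v i + s * h i)) ^ 2) =
        (qs.map fun q => (bval q v v + s * bval (symm q) v h + s ^ 2 * bval q h h) ^ 2) := by
      apply List.map_congr_left
      intro q _
      rw [bval_lin_right, bval_lin_left, bval_lin_left, bval_symm]
      ring
    unfold Phi
    rw [k1, sum_expand, ha1]
    ring
  have hv00 : 0 ≤ |v 0| := abs_nonneg _
  have hh00 : 0 ≤ |h 0| := abs_nonneg _
  have hd := disc (a0 := Phi qs v) (a1 := a1)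
    (a2 := (qs.map fun q => bval (symm q) v h ^ 2 + 2 * bval q v v * bval q h h).sum -
        6 * (v 0 ^ 2 * h 0 ^ 2))
    (a3 := (qs.map fun q => 2 * bval (symm q) v h * bval q h h).sum - 4 * (v 0 * h 0 ^ 3))
    (a4 := (qs.map fun q => bval q h h ^ 2).sum - h 0 ^ 4)
    (ν := ν) (η := η) (C := 11 * rho qs + 4) (c2 := 6 * rho qs) (c3 := 4 * rho qs + 4)
    (c4 := rho qs) hν0 hη0 (by positivity) (by positivity) hρ
    (fun s => by rw [← hline s]; exact hΦ _)
    (by
      -- |a1|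
      have k1 : |(qs.map fun q => 2 * bval q v v * bval (symm q) v h).sum| ≤
          rho qs * (4 * (ν ^ 3 * η)) := by
        refine (abs_list_sum_le _ _).trans (sum_le_rho qs _ _ fun q hq => ?_)
        rw [abs_mul, abs_mul, abs_two]
        have l1 := bQ q hq
        have l2 := bb q hq
        have l3 : |bval q v v| * |bval (symm q) v h| ≤
            (q.length * (ν * ν)) * (2 * (q.length * (ν * η))) :=
          mul_le_mul l1 l2 (abs_nonneg _) (by positivity)
        nlinarith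
      have k2 : |4 * (v 0 ^ 3 * h 0)| ≤ 4 * (ν ^ 3 * η) := by
        rw [abs_mul, abs_mul, abs_pow]
        have l1 : |v 0| ^ 3 ≤ ν ^ 3 := pow_le_pow_left₀ hv00 hv0 3
        have l2 : |v 0| ^ 3 * |h 0| ≤ ν ^ 3 * η := mul_le_mul l1 hh0 hh00 (by positivity)
        have l3 : |(4 : ℝ)| = 4 := by norm_num
        rw [l3]
        linarith
      have k3 : |a1| ≤ rho qs * (4 * (ν ^ 3 * η)) + 4 * (ν ^ 3 * η) :=
        (abs_sub _ _).trans (add_le_add k1 k2)
      have k4 : 0 < ν ^ 3 * η := by positivity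
      nlinarith)
    (by
      have k1 : (qs.map fun q => bval (symm q) v h ^ 2 + 2 * bval q v v * bval q h h).sum ≤
          rho qs * (6 * (ν ^ 2 * η ^ 2)) := by
        refine sum_le_rho qs _ _ fun q hq => ?_
        have l1 : bval (symm q) v h ^ 2 ≤ (2 * (q.length * (ν * η))) ^ 2 := by
          rw [← sq_abs]
          exact pow_le_pow_left₀ (abs_nonneg _) (bb q hq) 2
        have l2 : bval q v v * bval q h h ≤ (q.length * (ν * ν)) * (q.length * (η * η)) := by
          refine (le_abs_self _).trans ?_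
          rw [abs_mul]
          exact mul_le_mul (bQ q hq) (bP q hq) (abs_nonneg _) (by positivity)
        nlinarith
      have k2 : 0 ≤ v 0 ^ 2 * h 0 ^ 2 := by positivity
      linarith)
    (by
      have k1 : |(qs.map fun q => 2 * bval (symm q) v h * bval q h h).sum| ≤
          rho qs * (4 * (ν * η ^ 3)) := by
        refine (abs_list_sum_le _ _).trans (sum_le_rho qs _ _ fun q hq => ?_)
        rw [abs_mul, abs_mul, abs_two]
        have l3 : |bval (symm q) v h| * |bval q h h| ≤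
            (2 * (q.length * (ν * η))) * (q.length * (η * η)) :=
          mul_le_mul (bb q hq) (bP q hq) (abs_nonneg _) (by positivity)
        nlinarith
      have k2 : |4 * (v 0 * h 0 ^ 3)| ≤ 4 * (ν * η ^ 3) := by
        rw [abs_mul, abs_mul, abs_pow]
        have l1 : |h 0| ^ 3 ≤ η ^ 3 := pow_le_pow_left₀ hh00 hh0 3
        have l2 : |v 0| * |h 0| ^ 3 ≤ ν * η ^ 3 := mul_le_mul hv0 l1 (by positivity) hν0.le
        have l3 : |(4 : ℝ)| = 4 := by norm_num
        rw [l3]
        linarith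
      have k3 := (abs_sub ((qs.map fun q => 2 * bval (symm q) v h * bval q h h).sum)
        (4 * (v 0 * h 0 ^ 3))).trans (add_le_add k1 k2)
      linarith)
    (by
      have k1 : (qs.map fun q => bval q h h ^ 2).sum ≤ rho qs * η ^ 4 := by
        refine sum_le_rho qs _ _ fun q hq => ?_
        have l1 : bval q h h ^ 2 ≤ (q.length * (η * η)) ^ 2 := by
          rw [← sq_abs]
          exact pow_le_pow_left₀ (abs_nonneg _) (bP q hq) 2
        nlinarith
      have k2 : 0 ≤ h 0 ^ 4 := by positivity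
      linarith)
    (by linarith)
  -- conclusion
  have hΦv := hΦ v
  have hb2 := sum_sq_nonneg qs (fun q => bval (symm q) v h)
  have hv0h0 : v 0 ^ 2 * h 0 ^ 2 ≤ ν ^ 2 * η ^ 2 := by
    rw [← sq_abs (v 0), ← sq_abs (h 0)]
    exact mul_le_mul (pow_le_pow_left₀ hv00 hv0 2) (pow_le_pow_left₀ hh00 hh0 2)
      (by positivity) (by positivity)
  rw [hB, ← hν2, ← hη2]
  set X := ν ^ 2 * η ^ 2 with hX
  have hX0 : 0 < X := by positivity
  have hgoal : 0 ≤ 4 * α ^ 2 * Phi qs v + 2 * α * a1 + (16 * rho qs + 4) * X := by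
    rcases hΦv.eq_or_lt with h0 | h0
    · rw [← h0, mul_zero] at hd
      have : a1 = 0 := by nlinarith [sq_nonneg a1]
      rw [this, ← h0]
      nlinarith
    · have k1 : 0 ≤ 4 * Phi qs v * (4 * α ^ 2 * Phi qs v + 2 * α * a1 + (16 * rho qs + 4) * X) := by
        have k2 : 4 * Phi qs v * (4 * α ^ 2 * Phi qs v + 2 * α * a1 + (16 * rho qs + 4) * X) =
          (4 * Phi qs v * α + a1) ^ 2 - a1 ^ 2 + 4 * (16 * rho qs + 4) * (X * Phi qs v) := by ring
        rw [k2]
        have k3 : a1 ^ 2 ≤ 4 * (11 * rho qs + 4) * (X * Phi qs v) := by linarith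
        have k4 : 4 * (11 * (rho qs : ℝ) + 4) * (X * Phi qs v) ≤
            4 * (16 * rho qs + 4) * (X * Phi qs v) := by
          have : 0 ≤ X * Phi qs v := by positivity
          nlinarith
        nlinarith [sq_nonneg (4 * Phi qs v * α + a1)]
      exact nonneg_of_mul_nonneg_right k1 (by positivity)
  have hfin : 4 * α ^ 2 * Phi qs v + 2 * α * a1 +
      ((qs.map fun q => (bval (symm q) v h) ^ 2).sum - 4 * (v 0 ^ 2 * h 0 ^ 2)) +
      4 * (4 * rho qs + 2) * X = (4 * α ^ 2 * Phi qs v + 2 * α * a1 + (16 * rho qs + 4) * X) +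
      (qs.map fun q => (bval (symm q) v h) ^ 2).sum + 4 * (X - v 0 ^ 2 * h 0 ^ 2) := by ring
  rw [hfin]
  linarith

end Pool.Agent.H625R2
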