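import Pool.Agent.H625R2.Pat
import Mathlib

/-!
# Clusters: from exact patterns to strict sign matrices

Every element with parents is replaced by copies which lie on the two sides of the parents.
-/

namespace Pool.Agent.NPC.ER.Pat

theorem sgn_true : sgn true = 1 := rfl
theorem sgn_false : sgn false = -1 := rfl

/-- The bits of the number of a copy. -/
def bitq (b q : ℕ) : Bool := if q = 0 then decide (b % 2 = 1) else decide (b / 2 % 2 = 1)

theorem bitq_eq (b : ℕ) {q : ℕ} (hq : q < 2) : bitq b q = b.testBit q := by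
  unfold bitq
  interval_cases q
  · simp
  · simp [Nat.testBit_add_one]

/-- The sign of the copy `b` of the element `n` with respect to the copy `b'` of `m`. -/
def entry (p : Pat) (n b m b' : ℕ) : Bool :=
  if m < n then (if m ∈ par p n then bitq b ((par p n).idxOf m) else sg p n m)
  else (if n ∈ par p m then bitq b' ((par p m).idxOf n) else sg p m n)

theorem entry_symm (p : Pat) {n m : ℕ} (h : n ≠ m) (b b' : ℕ) : entry p n b m b' = entry p m b' n b := by
  unfold entry
  rcases lt_or_gt_of_ne h with h1 | h1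
  · simp only [h1, if_true, show ¬ m < n by omega, if_false]
  · simp only [h1, if_true, show ¬ n < m by omega, if_false]

/-- Strict realizations by copies. -/
def Strict (p : Pat) {r : ℕ} (P : ℕ → ℕ → Fin r → ℝ) : Prop :=
  ∀ n < p.length, ∀ m < p.length, kind p m ≠ kind p n → ∀ b < 4, ∀ b' < 4,
    0 < sgn (entry p n b m b') * (P n b ⬝ᵥ P m b')

/-! ### Combination of the copies -/

/-- The combination of the copies which is incident with the vectors in the list. -/
def comb {r : ℕ} : List (Fin r → ℝ) → (ℕ → Fin r → ℝ) → Fin r → ℝ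
  | [], P => P 0
  | y :: ys, P => comb ys fun b => (-(P (2 * b) ⬝ᵥ y)) • P (2 * b + 1) +
      (P (2 * b + 1) ⬝ᵥ y) • P (2 * b)

theorem comb_pos {r : ℕ} (ys : List (Fin r → ℝ)) : ∀ {P : ℕ → Fin r → ℝ},
    (∀ b < 2 ^ ys.length, ∀ q (h : q < ys.length), 0 < sgn (b.testBit q) * (P b ⬝ᵥ ys[q])) →
    (∀ z, (∀ b < 2 ^ ys.length, 0 < P b ⬝ᵥ z) → 0 < comb ys P ⬝ᵥ z) ∧
    (∀ z, (∀ b < 2 ^ ys.length, P b ⬝ᵥ z = 0) → comb ys P ⬝ᵥ z = 0) ∧
    ∀ q (h : q < ys.length), comb ys P ⬝ᵥ ys[q] = 0 := by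
  induction ys with
  | nil =>
    intro P _
    refine ⟨fun z hz => hz 0 (by simp), fun z hz => hz 0 (by simp), fun q h => ?_⟩
    simp at h
  | cons y ys ih =>
    intro P hP
    have hlen : 2 ^ (y :: ys).length = 2 * 2 ^ ys.length := by
      rw [List.length_cons, pow_succ']
    rw [hlen] at hP ⊢
    have a0 : ∀ b < 2 ^ ys.length, P (2 * b) ⬝ᵥ y < 0 := by
      intro b hb
      have := hP (2 * b) (by omega) 0 (by simp)
      have h2 : (2 * b).testBit 0 = false := by simp
      rw [h2, sgn_false] at this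
      simp only [List.getElem_cons_zero] at this
      linarith
    have a1 : ∀ b < 2 ^ ys.length, 0 < P (2 * b + 1) ⬝ᵥ y := by
      intro b hb
      have := hP (2 * b + 1) (by omega) 0 (by simp)
      have h2 : (2 * b + 1).testBit 0 = true := by simp
      rw [h2, sgn_true] at this
      simp only [List.getElem_cons_zero] at this
      linarith
    have key := ih (P := fun b => (-(P (2 * b) ⬝ᵥ y)) • P (2 * b + 1) +
      (P (2 * b + 1) ⬝ᵥ y) • P (2 * b)) (by
      intro b hb q hq
      have h1 := hP (2 * b) (by omega) (q + 1) (by simp; omega)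
      have h2 := hP (2 * b + 1) (by omega) (q + 1) (by simp; omega)
      rw [Nat.testBit_add_one, show (2 * b) / 2 = b by omega] at h1
      rw [Nat.testBit_add_one, show (2 * b + 1) / 2 = b by omega] at h2
      simp only [List.getElem_cons_succ] at h1 h2
      rw [add_dotProduct, smul_dotProduct, smul_dotProduct, smul_eq_mul, smul_eq_mul]
      have h3 := a0 b hb
      have h4 := a1 b hb
      have e : sgn (b.testBit q) * (-(P (2 * b) ⬝ᵥ y) * (P (2 * b + 1) ⬝ᵥ ys[q]) +
          (P (2 * b + 1) ⬝ᵥ y) * (P (2 * b) ⬝ᵥ ys[q])) =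
          -(P (2 * b) ⬝ᵥ y) * (sgn (b.testBit q) * (P (2 * b + 1) ⬝ᵥ ys[q])) +
          (P (2 * b + 1) ⬝ᵥ y) * (sgn (b.testBit q) * (P (2 * b) ⬝ᵥ ys[q])) := by ring
      rw [e]
      have h5 := mul_pos (neg_pos.2 h3) h2
      have h6 := mul_pos h4 h1
      linarith)
    obtain ⟨k1, k2, k3⟩ := key
    have hdef : comb (y :: ys) P = comb ys fun b => (-(P (2 * b) ⬝ᵥ y)) • P (2 * b + 1) +
      (P (2 * b + 1) ⬝ᵥ y) • P (2 * b) := rfl
    rw [hdef]
    refine ⟨fun z hz => k1 z fun b hb => ?_, fun z hz => k2 z fun b hb => ?_, fun q hq => ?_⟩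
    · rw [add_dotProduct, smul_dotProduct, smul_dotProduct, smul_eq_mul, smul_eq_mul]
      have h5 := mul_pos (neg_pos.2 (a0 b hb)) (hz (2 * b + 1) (by omega))
      have h6 := mul_pos (a1 b hb) (hz (2 * b) (by omega))
      linarith
    · rw [add_dotProduct, smul_dotProduct, smul_dotProduct, hz (2 * b + 1) (by omega),
        hz (2 * b) (by omega), smul_zero, smul_zero, add_zero]
    · cases q with
      | zero =>
        simp only [List.getElem_cons_zero]
        refine k2 y fun b hb => ?_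
        rw [add_dotProduct, smul_dotProduct, smul_dotProduct, smul_eq_mul, smul_eq_mul]
        ring
      | succ q =>
        simp only [List.getElem_cons_succ]
        exact k3 q (by simpa using hq)

/-! ### Soundness -/

theorem strict_sound {p : Pat} (hp : WF p) {r : ℕ} {P : ℕ → ℕ → Fin r → ℝ} (h : Strict p P) :
    ∃ X : ℕ → Fin r → ℝ, ∀ n < p.length,
      (∀ z, (∀ b < 4, 0 < P n b ⬝ᵥ z) → 0 < X n ⬝ᵥ z) ∧ ∀ m ∈ par p n, X n ⬝ᵥ X m = 0 := by
  suffices H : ∀ t, ∃ X : ℕ → Fin r → ℝ, ∀ n < p.length, n < t →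
      (∀ z, (∀ b < 4, 0 < P n b ⬝ᵥ z) → 0 < X n ⬝ᵥ z) ∧ ∀ m ∈ par p n, X n ⬝ᵥ X m = 0 by
    obtain ⟨X, hX⟩ := H p.length
    exact ⟨X, fun n hn => hX n hn hn⟩
  intro t
  induction t with
  | zero => exact ⟨fun _ => 0, fun n _ hn => by omega⟩
  | succ t ih =>
    obtain ⟨X, hX⟩ := ih
    let X' : ℕ → Fin r → ℝ := fun n => if n < t then X n else comb ((par p n).map X) (P n)
    have hX' : ∀ n < t, X' n = X n := fun n hn => by simp only [X', if_pos hn]
    refine ⟨X', fun n hn hnt => ?_⟩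
    rcases Nat.lt_succ_iff_lt_or_eq.1 hnt with hlt | rfl
    · rw [hX' n hlt]
      refine ⟨(hX n hn hlt).1, fun m hm => ?_⟩
      rw [hX' m ((hp.lt n hn m hm).trans hlt)]
      exact (hX n hn hlt).2 m hm
    · have hdef : X' n = comb ((par p n).map X) (P n) := by simp only [X', if_neg (lt_irrefl n)]
      have hlen : ((par p n).map X).length = (par p n).length := by simp
      have h2 := hp.len n hn
      have h4 : 2 ^ ((par p n).map X).length ≤ 4 := by
        rw [hlen]
        calc 2 ^ (par p n).length ≤ 2 ^ 2 := Nat.pow_le_pow_right (by norm_num) h2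
          _ = 4 := by norm_num
      have key := comb_pos ((par p n).map X) (P := P n) (by
        intro b hb q hq
        rw [hlen] at hq
        rw [List.getElem_map]
        have hm : (par p n)[q] ∈ par p n := List.getElem_mem hq
        have hmn := hp.lt n hn _ hm
        have hk := hp.kind n hn _ hm
        have h5 : ∀ z, (∀ b < 4, 0 < P (par p n)[q] b ⬝ᵥ z) → 0 < X (par p n)[q] ⬝ᵥ z :=
          (hX _ (hmn.trans hn) hmn).1
        have h6 := h5 (sgn (b.testBit q) • P n b) (by
          intro b' hb'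
          have := h n hn _ (hmn.trans hn) hk b (by omega) b' hb'
          have he : entry p n b (par p n)[q] b' = b.testBit q := by
            unfold entry
            rw [if_pos hmn, if_pos hm, (hp.nodup n hn).idxOf_getElem q hq,
              bitq_eq b (by omega)]
          rw [he] at this
          rw [dotProduct_smul, smul_eq_mul, dotProduct_comm]
          exact this)
        rw [dotProduct_smul, smul_eq_mul, dotProduct_comm] at h6
        exact h6)
      rw [hdef]
      refine ⟨fun z hz => key.1 z fun b hb => hz b (by omega), fun m hm => ?_⟩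
      rw [hX' m (hp.lt n hn m hm)]
      obtain ⟨q, hq, rfl⟩ := List.getElem_of_mem hm
      have := key.2.2 q (by rw [hlen]; exact hq)
      rwa [List.getElem_map] at this

/-- A strict realization by copies gives an exact realization. -/
theorem exact_of_strict {p : Pat} (hp : WF p) {P : ℕ → ℕ → Fin 3 → ℝ} (h : Strict p P) :
    ∃ X, Exact p X := by
  obtain ⟨X, hX⟩ := strict_sound hp h
  refine ⟨X, fun n hn m hmn hk => ⟨(hX n hn).2 m, fun hm => ?_⟩⟩
  have h1 : ∀ b < 4, 0 < P n b ⬝ᵥ (sgn (sg p n m) • X m) := by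
    intro b hb
    have h2 := (hX m (hmn.trans hn)).1 (sgn (sg p n m) • P n b) (by
      intro b' hb'
      have := h n hn m (hmn.trans hn) hk b hb b' hb'
      have he : entry p n b m b' = sg p n m := by
        unfold entry
        rw [if_pos hmn, if_neg hm]
      rw [he] at this
      rw [dotProduct_smul, smul_eq_mul, dotProduct_comm]
      exact this)
    rw [dotProduct_smul, smul_eq_mul] at h2 ⊢
    rwa [dotProduct_comm] at h2
  have h3 := (hX n hn).1 _ h1
  rwa [dotProduct_smul, smul_eq_mul] at h3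

/-! ### Completeness -/

open Filter Topology

theorem tendsto_pow_zero {k : ℕ} (hk : 0 < k) : Tendsto (fun ε : ℝ => ε ^ k) (𝓝[>] 0) (𝓝 0) := by
  have h : Tendsto (fun ε : ℝ => ε ^ k) (𝓝 0) (𝓝 (0 ^ k)) := (continuous_pow k).tendsto 0
  rw [zero_pow (by omega)] at h
  exact h.mono_left nhdsWithin_le_nhds

/-- Perturbation of a nonincident pair. -/
theorem pert_ne {s a b c d : ℝ} {i j : ℕ} (hi : 0 < i) (hj : 0 < j) (h : 0 < s * a) :
    ∀ᶠ ε : ℝ in 𝓝[>] 0, 0 < s * (a + ε ^ i * b + ε ^ j * (c + ε ^ i * d)) := by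
  have h1 : Tendsto (fun ε : ℝ => s * (a + ε ^ i * b + ε ^ j * (c + ε ^ i * d))) (𝓝[>] 0)
      (𝓝 (s * (a + 0 * b + 0 * (c + 0 * d)))) :=
    ((tendsto_const_nhds.add ((tendsto_pow_zero hi).mul_const b)).add
      ((tendsto_pow_zero hj).mul (tendsto_const_nhds.add
        ((tendsto_pow_zero hi).mul_const d)))).const_mul s
  exact h1.eventually (lt_mem_nhds (by simpa using h))

/-- Perturbation of an incident pair; `j < i`. -/
theorem pert_inc {s b c d : ℝ} {i j : ℕ} (hj : 0 < j) (hij : j < i) (h : 0 < s * c) :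
    ∀ᶠ ε : ℝ in 𝓝[>] 0, 0 < s * (0 + ε ^ i * b + ε ^ j * (c + ε ^ i * d)) := by
  have h1 : Tendsto (fun ε : ℝ => s * (ε ^ (i - j) * b + (c + ε ^ i * d))) (𝓝[>] 0)
      (𝓝 (s * (0 * b + (c + 0 * d)))) :=
    (((tendsto_pow_zero (by omega)).mul_const b).add (tendsto_const_nhds.add
        ((tendsto_pow_zero (by omega)).mul_const d))).const_mul s
  have h2 := h1.eventually (lt_mem_nhds (by simpa using h))
  filter_upwards [h2, self_mem_nhdsWithin] with ε h3 h4
  have h5 : (0 : ℝ) < ε := h4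
  have e : s * (0 + ε ^ i * b + ε ^ j * (c + ε ^ i * d)) =
      ε ^ j * (s * (ε ^ (i - j) * b + (c + ε ^ i * d))) := by
    have : ε ^ i = ε ^ j * ε ^ (i - j) := by rw [← pow_add]; congr 1; omega
    rw [this]
    ring
  rw [e]
  exact mul_pos (pow_pos h5 _) h3

theorem ev_lt {f : Filter ℝ} {N : ℕ} {q : ℕ → ℝ → Prop} (h : ∀ n < N, ∀ᶠ ε in f, q n ε) :
    ∀ᶠ ε in f, ∀ n < N, q n ε :=
  (Filter.eventually_all_finite (Set.finite_lt_nat N)).2 h

theorem ev_imp {f : Filter ℝ} {P : Prop} {q : ℝ → Prop} (h : P → ∀ᶠ ε in f, q ε) :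
    ∀ᶠ ε in f, P → q ε := Filter.eventually_imp_distrib_left.2 h

theorem strict_of_exact {p : Pat} {X : ℕ → Fin 3 → ℝ} (hp : WF p) (hX : Exact p X)
    (hN : Nice p X) : ∃ P : ℕ → ℕ → Fin 3 → ℝ, Strict p P ∧
      (∀ n < p.length, ∀ b < 4, kind p n = true → 0 < P n b 0) ∧
      ∀ n < p.length, ∀ b < 4, kind p n = false → 0 < P n b 2 := by
  have hw : ∀ (n b : ℕ), ∃ w : Fin 3 → ℝ, n < p.length → ∀ q (h : q < (par p n).length),
      w ⬝ᵥ X (par p n)[q] = sgn (b.testBit q) := by
    intro n b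
    by_cases hn : n < p.length
    · obtain ⟨w, hw⟩ := hN.dual n hn (fun q => sgn (b.testBit q))
      exact ⟨w, fun _ => hw⟩
    · exact ⟨0, fun h => absurd h hn⟩
  choose W hW using hw
  set N := p.length with hNdef
  let Q : ℝ → ℕ → ℕ → Fin 3 → ℝ := fun ε n b => X n + ε ^ (N - n) • W n b
  have hdot : ∀ ε n b m b', Q ε n b ⬝ᵥ Q ε m b' = X n ⬝ᵥ X m + ε ^ (N - m) * (X n ⬝ᵥ W m b') +
      ε ^ (N - n) * (W n b ⬝ᵥ X m + ε ^ (N - m) * (W n b ⬝ᵥ W m b')) := by
    intro ε n b m b'
    simp only [Q, add_dotProduct, dotProduct_add, smul_dotProduct, dotProduct_smul, smul_eq_mul]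
    ring
  -- pairs
  have h1 : ∀ n < N, ∀ m < n, kind p m ≠ kind p n → ∀ b < 4, ∀ b' < 4,
      ∀ᶠ ε : ℝ in 𝓝[>] 0, 0 < sgn (entry p n b m b') * (Q ε n b ⬝ᵥ Q ε m b') := by
    intro n hn m hmn hk b hb b' hb'
    simp only [hdot]
    by_cases hm : m ∈ par p n
    · rw [(hX n hn m hmn hk).1 hm]
      refine pert_inc (by omega) (by omega) ?_
      obtain ⟨q, hq, rfl⟩ := List.getElem_of_mem hm
      have h2 := hp.len n hn
      have he : entry p n b (par p n)[q] b' = b.testBit q := by
        unfold entry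
        rw [if_pos hmn, if_pos hm, (hp.nodup n hn).idxOf_getElem q hq, bitq_eq b (by omega)]
      rw [he, hW n b hn q hq]
      cases b.testBit q <;> simp [sgn]
    · refine pert_ne (by omega) (by omega) ?_
      have he : entry p n b m b' = sg p n m := by
        unfold entry
        rw [if_pos hmn, if_neg hm]
      rw [he]
      exact (hX n hn m hmn hk).2 hm
  have h2 : ∀ n < N, ∀ b < 4, kind p n = true → ∀ᶠ ε : ℝ in 𝓝[>] 0, 0 < Q ε n b 0 := by
    intro n hn b hb hk
    have h3 : Tendsto (fun ε : ℝ => X n 0 + ε ^ (N - n) * W n b 0) (𝓝[>] 0)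
        (𝓝 (X n 0 + 0 * W n b 0)) :=
      tendsto_const_nhds.add ((tendsto_pow_zero (by omega)).mul_const _)
    have := hN.point n hn hk
    exact h3.eventually (lt_mem_nhds (by simpa using this))
  have h2' : ∀ n < N, ∀ b < 4, kind p n = false → ∀ᶠ ε : ℝ in 𝓝[>] 0, 0 < Q ε n b 2 := by
    intro n hn b hb hk
    have h3 : Tendsto (fun ε : ℝ => X n 2 + ε ^ (N - n) * W n b 2) (𝓝[>] 0)
        (𝓝 (X n 2 + 0 * W n b 2)) :=
      tendsto_const_nhds.add ((tendsto_pow_zero (by omega)).mul_const _)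
    have := hN.line n hn hk
    exact h3.eventually (lt_mem_nhds (by simpa using this))
  have h3 : ∀ᶠ ε : ℝ in 𝓝[>] 0, (∀ n < N, ∀ m < n, kind p m ≠ kind p n → ∀ b < 4, ∀ b' < 4,
      0 < sgn (entry p n b m b') * (Q ε n b ⬝ᵥ Q ε m b')) ∧
      (∀ n < N, ∀ b < 4, kind p n = true → 0 < Q ε n b 0) ∧
      (∀ n < N, ∀ b < 4, kind p n = false → 0 < Q ε n b 2) := by
    refine Filter.Eventually.and ?_ (Filter.Eventually.and ?_ ?_)
    · exact ev_lt fun n hn => ev_lt fun m hm => ev_imp fun hk => ev_lt fun b hb => ev_lt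
        fun b' hb' => h1 n hn m hm hk b hb b' hb'
    · exact ev_lt fun n hn => ev_lt fun b hb => ev_imp fun hk => h2 n hn b hb hk
    · exact ev_lt fun n hn => ev_lt fun b hb => ev_imp fun hk => h2' n hn b hb hk
  obtain ⟨ε, h4, h5, h6⟩ := h3.exists
  refine ⟨Q ε, fun n hn m hm hk b hb b' hb' => ?_, h5, h6⟩
  have hne : m ≠ n := fun h => hk (by rw [h])
  rcases lt_or_gt_of_ne hne with h7 | h7
  · exact h4 n hn m h7 hk b hb b' hb'
  · have := h4 m hm n h7 (Ne.symm hk) b' hb' b hb
    rwa [entry_symm p hne, dotProduct_comm] at this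

end Pool.Agent.NPC.ER.Pat
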