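import Pool.Agent.H625R2.Biq

/-!
# The list of bilinear forms
-/

namespace Pool.Agent.H625R2

/-- The sum of the squares of the values of a list of bilinear forms. -/
def SS (l : List (List (Bool × ℕ × ℕ))) (v w : ℕ → ℝ) : ℝ := (l.map fun b => bval b v w ^ 2).sum

theorem SS_nil (v w : ℕ → ℝ) : SS [] v w = 0 := rfl

theorem SS_cons (b : List (Bool × ℕ × ℕ)) (l : List (List (Bool × ℕ × ℕ))) (v w : ℕ → ℝ) :
    SS (b :: l) v w = bval b v w ^ 2 + SS l v w := by simp [SS]

theorem SS_append (l l' : List (List (Bool × ℕ × ℕ))) (v w : ℕ → ℝ) :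
    SS (l ++ l') v w = SS l v w + SS l' v w := by simp [SS]

theorem SS_flatMap {α : Type*} (l : List α) (f : α → List (List (Bool × ℕ × ℕ))) (v w : ℕ → ℝ) :
    SS (l.flatMap f) v w = (l.map fun a => SS (f a) v w).sum := by
  induction l with
  | nil => rfl
  | cons a l ih => rw [List.flatMap_cons, SS_append, ih]; simp

theorem SS_const {α : Type*} (l : List α) (f : List (List (Bool × ℕ × ℕ))) (v w : ℕ → ℝ) :
    SS (l.flatMap fun _ => f) v w = l.length * SS f v w := by
  induction l with
  | nil => simp [SS_nil]
  | cons a l ih => rw [List.flatMap_cons, SS_append, ih, List.length_cons]; push_cast; ring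

theorem SS_map {α : Type*} (l : List α) (f : α → List (Bool × ℕ × ℕ)) (v w : ℕ → ℝ) :
    SS (l.map f) v w = (l.map fun a => bval (f a) v w ^ 2).sum := by
  simp [SS, Function.comp_def]

/-- The value of a signed monomial. -/
def tau (v w : ℕ → ℝ) (m : Bool × ℕ × ℕ) : ℝ := sgn m.1 * (v m.2.1 * w m.2.2)

theorem bval_eq_tau (l : List (Bool × ℕ × ℕ)) (v w : ℕ → ℝ) :
    bval l v w = (l.map (tau v w)).sum := rfl

theorem tau_sq (v w : ℕ → ℝ) (m : Bool × ℕ × ℕ) : tau v w m ^ 2 = (v m.2.1 * w m.2.2) ^ 2 := by
  unfold tau
  rw [mul_pow, sq (sgn m.1), sgn_sq, one_mul]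

theorem tau_not (v w : ℕ → ℝ) (m : Bool × ℕ × ℕ) : tau v w (!m.1, m.2) = - tau v w m := by
  unfold tau
  cases m.1 <;> simp [sgn]

theorem inner_sum (L : List (Bool × ℕ × ℕ)) (τ : Bool × ℕ × ℕ → ℝ) (a : ℝ) :
    (L.map fun m => (a - τ m) ^ 2).sum = L.length * a ^ 2 - 2 * a * (L.map τ).sum +
      (L.map fun m => τ m ^ 2).sum := by
  induction L with
  | nil => simp
  | cons m L ih =>
    simp only [List.map_cons, List.sum_cons, List.length_cons, ih]
    push_cast
    ring

theorem double_sum (L L' : List (Bool × ℕ × ℕ)) (τ : Bool × ℕ × ℕ → ℝ) :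
    (L.map fun m => (L'.map fun m' => (τ m - τ m') ^ 2).sum).sum =
      L'.length * (L.map fun m => τ m ^ 2).sum + L.length * (L'.map fun m => τ m ^ 2).sum -
      2 * (L.map τ).sum * (L'.map τ).sum := by
  induction L with
  | nil => simp
  | cons m L ih =>
    rw [List.map_cons, List.sum_cons, ih, inner_sum]
    simp only [List.map_cons, List.sum_cons, List.length_cons]
    push_cast
    ring

/-- All pairs of numbers less than `N`. -/
def pairs (N : ℕ) : List (ℕ × ℕ) :=
  (List.range N).flatMap fun i => (List.range N).map fun j => (i, j)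

theorem mem_pairs {N : ℕ} {p : ℕ × ℕ} : p ∈ pairs N ↔ p.1 < N ∧ p.2 < N := by
  simp only [pairs, List.mem_flatMap, List.mem_range, List.mem_map]
  constructor
  · rintro ⟨i, hi, j, hj, rfl⟩; exact ⟨hi, hj⟩
  · rintro ⟨h1, h2⟩; exact ⟨p.1, h1, p.2, h2, rfl⟩

theorem nodup_pairs (N : ℕ) : (pairs N).Nodup := by
  unfold pairs
  rw [List.nodup_flatMap]
  refine ⟨fun i _ => ?_, ?_⟩
  · refine List.Nodup.map ?_ List.nodup_range
    intro a b h
    exact (Prod.mk.inj h).2
  · refine List.Pairwise.imp_of_mem ?_ (List.nodup_range (n := N))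
    intro a b _ _ hab
    simp only [Function.onFun]
    intro x hx hx'
    rw [List.mem_map] at hx hx'
    obtain ⟨j, _, rfl⟩ := hx
    obtain ⟨j', _, h⟩ := hx'
    exact hab (Prod.mk.inj h).1.symm

theorem sum_range_list (N : ℕ) (f : ℕ → ℝ) :
    ((List.range N).map f).sum = ∑ i ∈ Finset.range N, f i := by
  induction N with
  | zero => simp
  | succ N ih => rw [List.range_succ, List.map_append, List.sum_append, ih, Finset.sum_range_succ]; simp

theorem sum_pairs (N : ℕ) (v w : ℕ → ℝ) :
    ((pairs N).map fun p => (v p.1 * w p.2) ^ 2).sum = inn N v v * inn N w w := by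
  have h1 : ∀ L : List ℕ, ((L.flatMap fun i => (List.range N).map fun j => (i, j)).map
      fun p => (v p.1 * w p.2) ^ 2).sum = (L.map fun i => v i * v i).sum * inn N w w := by
    intro L
    induction L with
    | nil => simp
    | cons i L ih =>
      rw [List.flatMap_cons, List.map_append, List.sum_append, ih, List.map_cons, List.sum_cons,
        List.map_map]
      have h2 : ((List.range N).map ((fun p : ℕ × ℕ => (v p.1 * w p.2) ^ 2) ∘ fun j => (i, j))).sum
          = v i * v i * inn N w w := by
        rw [sum_range_list]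
        unfold inn
        rw [Finset.mul_sum]
        apply Finset.sum_congr rfl
        intro j _
        simp only [Function.comp_apply]
        ring
      rw [h2]
      ring
  unfold pairs
  rw [h1, sum_range_list]
  rfl

theorem sum_filter_ne {α : Type*} [DecidableEq α] (l : List α) (hl : l.Nodup) {a : α} (ha : a ∈ l)
    (f : α → ℝ) : ((l.filter fun b => decide (b ≠ a)).map f).sum = (l.map f).sum - f a := by
  induction l with
  | nil => simp at ha
  | cons b l ih =>
    rw [List.nodup_cons] at hl
    by_cases hab : b = a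
    · subst hab
      have h1 : (l.filter fun c => decide (c ≠ b)) = l := by
        rw [List.filter_eq_self]
        intro c hc
        simp only [ne_eq, decide_eq_true_eq]
        rintro rfl
        exact hl.1 hc
      rw [List.filter_cons]
      simp only [ne_eq, not_true_eq_false, decide_false, Bool.false_eq_true, if_false]
      simp only [ne_eq] at h1
      rw [h1]
      simp
    · have ha' : a ∈ l := by
        rcases List.mem_cons.1 ha with h | h
        · exact absurd h.symm hab
        · exact h
      have := ih hl.2 ha'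
      rw [List.filter_cons]
      simp only [ne_eq, hab, not_false_eq_true, decide_true, if_true, List.map_cons,
        List.sum_cons]
      simp only [ne_eq] at this
      rw [this]
      ring

/-- Differences of the monomials of the symmetrised form. -/
def f1 (qs : List (List (Bool × ℕ × ℕ))) : List (List (Bool × ℕ × ℕ)) :=
  qs.flatMap fun q => (symm q).flatMap fun m => (symm q).map fun m' => [m, (!m'.1, m'.2)]

/-- Compensation terms. -/
def f2 (N : ℕ) (qs : List (List (Bool × ℕ × ℕ))) : List (List (Bool × ℕ × ℕ)) :=
  qs.flatMap fun q => (symm q).flatMap fun m => (symm q ++ symm q).flatMap fun _ =>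
    ((pairs N).filter fun p => decide (p ≠ m.2)).map fun p => [(false, p)]

/-- A list of length `rho qs`. -/
def rl (qs : List (List (Bool × ℕ × ℕ))) : List Unit :=
  qs.flatMap fun q => q.flatMap fun _ => q.map fun _ => ()

theorem length_rl (qs : List (List (Bool × ℕ × ℕ))) : (rl qs).length = rho qs := by
  unfold rl rho
  rw [List.length_flatMap]
  congr 1
  apply List.map_congr_left
  intro q _
  rw [List.length_flatMap]
  simp [sq]

/-- The diagonal form, repeated. -/
def f4 (N : ℕ) (qs : List (List (Bool × ℕ × ℕ))) : List (List (Bool × ℕ × ℕ)) :=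
  ((List.range 32).flatMap fun _ => rl qs).flatMap (fun _ =>
    [(List.range N).map fun i => (false, i, i)]) ++
  (List.range 16).flatMap (fun _ => [(List.range N).map fun i => (false, i, i)])

/-- All products, repeated. -/
def f5 (N : ℕ) (qs : List (List (Bool × ℕ × ℕ))) : List (List (Bool × ℕ × ℕ)) :=
  ((List.range 16).flatMap fun _ => (rl qs).flatMap fun _ => rl qs).flatMap (fun _ =>
    (pairs N).map fun p => [(false, p)]) ++
  (List.range 9).flatMap (fun _ => (pairs N).map fun p => [(false, p)])

/-- The list of all bilinear forms. -/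
def forms (N : ℕ) (qs : List (List (Bool × ℕ × ℕ))) : List (List (Bool × ℕ × ℕ)) :=
  f1 qs ++ (f2 N qs ++ ((List.range 8).flatMap (fun _ => [[(false, 0, 0)]]) ++
    (f4 N qs ++ f5 N qs)))

theorem SS_pairs (N : ℕ) (v w : ℕ → ℝ) :
    SS ((pairs N).map fun p => [(false, p)]) v w = inn N v v * inn N w w := by
  rw [SS_map, ← sum_pairs]
  congr 1
  apply List.map_congr_left
  intro p _
  simp [bval, sgn]

theorem SS_f12 (N : ℕ) (qs : List (List (Bool × ℕ × ℕ)))
    (hqs : ∀ q ∈ qs, ∀ m ∈ q, m.2.1 < N ∧ m.2.2 < N) (v w : ℕ → ℝ) :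
    SS (f1 qs) v w + SS (f2 N qs) v w = 8 * rho qs * (inn N v v * inn N w w) -
      2 * (qs.map fun q => (bval (symm q) v w) ^ 2).sum := by
  induction qs with
  | nil => simp [f1, f2, SS_nil, rho]
  | cons q qs ih =>
    have h1 := ih (fun q' hq' => hqs q' (List.mem_cons_of_mem _ hq'))
    have h2 := symm_idx (hqs q (by simp))
    have e1 : f1 (q :: qs) = ((symm q).flatMap fun m => (symm q).map
        fun m' => [m, (!m'.1, m'.2)]) ++ f1 qs := by simp [f1]
    have e2 : f2 N (q :: qs) = ((symm q).flatMap fun m => (symm q ++ symm q).flatMap fun _ =>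
        ((pairs N).filter fun p => decide (p ≠ m.2)).map fun p => [(false, p)]) ++ f2 N qs := by
      simp [f2]
    have e3 : rho (q :: qs) = q.length ^ 2 + rho qs := by simp [rho]
    have k1 : SS ((symm q).flatMap fun m => (symm q).map fun m' => [m, (!m'.1, m'.2)]) v w =
        2 * (symm q).length * ((symm q).map fun m => tau v w m ^ 2).sum -
        2 * bval (symm q) v w ^ 2 := by
      rw [SS_flatMap]
      have : (fun m => SS ((symm q).map fun m' => [m, (!m'.1, m'.2)]) v w) =
          fun m => ((symm q).map fun m' => (tau v w m - tau v w m') ^ 2).sum := by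
        funext m
        rw [SS_map]
        congr 1
        apply List.map_congr_left
        intro m' _
        have : bval [m, (!m'.1, m'.2)] v w = tau v w m + (tau v w (!m'.1, m'.2) + 0) := rfl
        rw [this, tau_not]
        ring
      rw [this, double_sum, bval_eq_tau]
      ring
    have k2 : SS ((symm q).flatMap fun m => (symm q ++ symm q).flatMap fun _ =>
        ((pairs N).filter fun p => decide (p ≠ m.2)).map fun p => [(false, p)]) v w =
        2 * (symm q).length * ((symm q).length * (inn N v v * inn N w w) -
          ((symm q).map fun m => tau v w m ^ 2).sum) := by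
      rw [SS_flatMap]
      have h3 : ∀ m ∈ symm q, SS ((symm q ++ symm q).flatMap fun _ =>
          ((pairs N).filter fun p => decide (p ≠ m.2)).map fun p => [(false, p)]) v w =
          2 * (symm q).length * (inn N v v * inn N w w - tau v w m ^ 2) := by
        intro m hm
        rw [SS_const, SS_map]
        have h4 : (((pairs N).filter fun p => decide (p ≠ m.2)).map
            fun p => bval [(false, p)] v w ^ 2) =
            (((pairs N).filter fun p => decide (p ≠ m.2)).map fun p => (v p.1 * w p.2) ^ 2) := by
          apply List.map_congr_left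
          intro p _
          simp [bval, sgn]
        rw [h4, sum_filter_ne _ (nodup_pairs N) (mem_pairs.2 (h2 m hm)), sum_pairs, tau_sq,
          List.length_append]
        push_cast
        ring
      rw [List.map_congr_left h3]
      have h5 : ∀ L : List (Bool × ℕ × ℕ), (L.map fun m => 2 * ((symm q).length : ℝ) *
          (inn N v v * inn N w w - tau v w m ^ 2)).sum =
          2 * (symm q).length * (L.length * (inn N v v * inn N w w) -
            (L.map fun m => tau v w m ^ 2).sum) := by
        intro L
        induction L with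
        | nil => simp
        | cons m L ih =>
          simp only [List.map_cons, List.sum_cons, ih, List.length_cons]
          push_cast
          ring
      exact h5 _
    rw [e1, e2, SS_append, SS_append, k1, k2, e3, List.map_cons, List.sum_cons, length_symm]
    push_cast
    linarith

/-- **The sum of the squares of the bilinear forms.** -/
theorem SS_forms (N : ℕ) (qs : List (List (Bool × ℕ × ℕ)))
    (hqs : ∀ q ∈ qs, ∀ m ∈ q, m.2.1 < N ∧ m.2.2 < N) (v w : ℕ → ℝ) :
    SS (forms N qs) v w = (4 * rho qs + 5) ^ 2 * (inn N v v * inn N w w) - 2 * Bq N qs v w := by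
  have h12 := SS_f12 N qs hqs v w
  have h3 : SS ((List.range 8).flatMap (fun _ => [[(false, 0, 0)]])) v w =
      8 * (v 0 ^ 2 * w 0 ^ 2) := by
    rw [SS_const, SS_cons, SS_nil, List.length_range]
    have h0 : bval [(false, 0, 0)] v w = v 0 * w 0 := by
      rw [bval_cons, bval_nil]; unfold sgn; simp
    rw [h0]
    push_cast
    ring
  have hd : SS [(List.range N).map fun i => (false, i, i)] v w = inn N v w ^ 2 := by
    rw [SS_cons, SS_nil, add_zero]
    congr 1
    unfold bval inn
    rw [List.map_map, sum_range_list]
    apply Finset.sum_congr rfl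
    intro i _
    simp [sgn]
  have h4 : SS (f4 N qs) v w = (32 * rho qs + 16) * inn N v w ^ 2 := by
    unfold f4
    have hl : ((List.range 32).flatMap fun _ => rl qs).length = 32 * rho qs := by
      rw [List.length_flatMap, List.map_const', List.sum_replicate, List.length_range, length_rl,
        smul_eq_mul]
    rw [SS_append, SS_const, SS_const, hd, hl, List.length_range]
    push_cast
    ring
  have h5 : SS (f5 N qs) v w = (16 * rho qs ^ 2 + 9) * (inn N v v * inn N w w) := by
    unfold f5
    have hl0 : ((rl qs).flatMap fun _ => rl qs).length = rho qs * rho qs := by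
      rw [List.length_flatMap, List.map_const', List.sum_replicate, length_rl, smul_eq_mul]
    have hl : ((List.range 16).flatMap fun _ => (rl qs).flatMap fun _ => rl qs).length =
        16 * (rho qs * rho qs) := by
      rw [List.length_flatMap, List.map_const', List.sum_replicate, List.length_range, hl0,
        smul_eq_mul]
    rw [SS_append, SS_const, SS_const, SS_pairs, hl, List.length_range]
    push_cast
    ring
  unfold forms
  rw [SS_append, SS_append, SS_append, SS_append, h3, h4, h5]
  unfold Bq
  linarith

theorem forms_idx {N : ℕ} {qs : List (List (Bool × ℕ × ℕ))} (hN : 0 < N)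
    (hqs : ∀ q ∈ qs, ∀ m ∈ q, m.2.1 < N ∧ m.2.2 < N) :
    ∀ b ∈ forms N qs, ∀ m ∈ b, m.2.1 < N ∧ m.2.2 < N := by
  have hpair : ∀ b ∈ (pairs N).map (fun p => [(false, p)]), ∀ m ∈ b, m.2.1 < N ∧ m.2.2 < N := by
    intro b hb m hm
    rw [List.mem_map] at hb
    obtain ⟨p, hp, rfl⟩ := hb
    simp only [List.mem_cons, List.not_mem_nil, or_false] at hm
    subst hm
    exact mem_pairs.1 hp
  have hdiag : ∀ m ∈ (List.range N).map (fun i => (false, i, i)), m.2.1 < N ∧ m.2.2 < N := by
    intro m hm
    rw [List.mem_map] at hm
    obtain ⟨i, hi, rfl⟩ := hm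
    rw [List.mem_range] at hi
    exact ⟨hi, hi⟩
  intro b hb m hm
  unfold forms at hb
  rw [List.mem_append, List.mem_append, List.mem_append, List.mem_append] at hb
  rcases hb with hb | hb | hb | hb | hb
  · simp only [f1, List.mem_flatMap, List.mem_map] at hb
    obtain ⟨q, hq, m₁, hm₁, m₂, hm₂, rfl⟩ := hb
    have h := symm_idx (hqs q hq)
    simp only [List.mem_cons, List.not_mem_nil, or_false] at hm
    rcases hm with rfl | rfl
    · exact h _ hm₁
    · have h' := h m₂ hm₂
      exact h'
  · simp only [f2, List.mem_flatMap, List.mem_map, List.mem_filter] at hb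
    obtain ⟨q, hq, m₁, hm₁, _, _, p, hp, rfl⟩ := hb
    simp only [List.mem_cons, List.not_mem_nil, or_false] at hm
    subst hm
    exact mem_pairs.1 hp.1
  · simp only [List.mem_flatMap, List.mem_cons, List.not_mem_nil, or_false] at hb
    obtain ⟨_, _, rfl⟩ := hb
    simp only [List.mem_cons, List.not_mem_nil, or_false] at hm
    subst hm
    exact ⟨hN, hN⟩
  · simp only [f4, List.mem_append, List.mem_flatMap, List.mem_cons, List.not_mem_nil,
      or_false] at hb
    rcases hb with ⟨_, _, rfl⟩ | ⟨_, _, rfl⟩ <;> exact hdiag m hm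
  · unfold f5 at hb
    rw [List.mem_append, List.mem_flatMap, List.mem_flatMap] at hb
    rcases hb with ⟨_, _, hb⟩ | ⟨_, _, hb⟩ <;> exact hpair b hb m hm

end Pool.Agent.H625R2
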