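import Mathlib

/-!
# An effective lower bound for positive polynomials

If `g` is an integer polynomial in `n` real variables of degree at most `e` (`e` odd) which is
nonnegative, and positive where `∑ xᵢ^(e+1) ≤ T`, then
`T ≤ ∑ xᵢ^(e+1) + (e+1) H g(x)` for all `x`, with `H` explicit (doubly exponential in `n`).
-/

namespace Pool.Agent.H625R2

open Polynomial

/-! ### The sum of the absolute values of the coefficients: one variable -/

/-- Sum of the absolute values of the coefficients. -/
def nrm (p : ℤ[X]) : ℕ := ∑ i ∈ p.support, (p.coeff i).natAbs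

theorem nrm_eq_sum {p : ℤ[X]} {s : Finset ℕ} (h : p.support ⊆ s) :
    nrm p = ∑ i ∈ s, (p.coeff i).natAbs := by
  unfold nrm
  apply Finset.sum_subset h
  intro i _ hi
  simpa using hi

theorem nrm_zero : nrm 0 = 0 := by simp [nrm]

theorem nrm_add_le (p q : ℤ[X]) : nrm (p + q) ≤ nrm p + nrm q := by
  classical
  rw [nrm_eq_sum (s := p.support ∪ q.support) Polynomial.support_add,
    nrm_eq_sum (p := p) (s := p.support ∪ q.support) Finset.subset_union_left,
    nrm_eq_sum (p := q) (s := p.support ∪ q.support) Finset.subset_union_right,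
    ← Finset.sum_add_distrib]
  apply Finset.sum_le_sum
  intro i _
  rw [Polynomial.coeff_add]
  exact Int.natAbs_add_le _ _

theorem nrm_sum_le {ι : Type*} (s : Finset ι) (f : ι → ℤ[X]) :
    nrm (∑ i ∈ s, f i) ≤ ∑ i ∈ s, nrm (f i) := by
  classical
  induction s using Finset.induction_on with
  | empty => simp [nrm_zero]
  | insert a s ha ih =>
    rw [Finset.sum_insert ha, Finset.sum_insert ha]
    exact (nrm_add_le _ _).trans (Nat.add_le_add_left ih _)

theorem nrm_monomial (i : ℕ) (a : ℤ) : nrm (monomial i a) = a.natAbs := by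
  by_cases h : a = 0
  · subst h; simp [nrm]
  · unfold nrm
    rw [Polynomial.support_monomial i h]
    simp

theorem nrm_C (a : ℤ) : nrm (C a) = a.natAbs := nrm_monomial 0 a

theorem nrm_mul_le (p q : ℤ[X]) : nrm (p * q) ≤ nrm p * nrm q := by
  have h : p * q = ∑ i ∈ p.support, ∑ j ∈ q.support,
      monomial (i + j) (p.coeff i * q.coeff j) := by
    conv_lhs => rw [p.as_sum_support, q.as_sum_support, Finset.sum_mul_sum]
    simp only [monomial_mul_monomial]
  rw [h]
  refine (nrm_sum_le _ _).trans ?_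
  unfold nrm
  rw [Finset.sum_mul_sum]
  apply Finset.sum_le_sum
  intro i _
  refine (nrm_sum_le _ _).trans ?_
  apply Finset.sum_le_sum
  intro j _
  rw [nrm_monomial, Int.natAbs_mul]

theorem nrm_prod_le {ι : Type*} (s : Finset ι) (f : ι → ℤ[X]) (B : ℕ) (h : ∀ i ∈ s, nrm (f i) ≤ B) :
    nrm (∏ i ∈ s, f i) ≤ B ^ s.card := by
  classical
  induction s using Finset.induction_on with
  | empty =>
    simp only [Finset.prod_empty, Finset.card_empty, pow_zero]
    rw [← C_1, nrm_C]
    simp
  | insert a s ha ih =>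
    rw [Finset.prod_insert ha, Finset.card_insert_of_notMem ha, pow_succ, mul_comm (B ^ _)]
    exact (nrm_mul_le _ _).trans (Nat.mul_le_mul (h a (by simp))
      (ih fun i hi => h i (Finset.mem_insert_of_mem hi)))

theorem nrm_neg (p : ℤ[X]) : nrm (-p) = nrm p := by simp [nrm]

/-- The determinant of a matrix with small entries. -/
theorem nrm_det_le {ι : Type*} [Fintype ι] [DecidableEq ι] (A : Matrix ι ι ℤ[X]) (B : ℕ)
    (h : ∀ i j, nrm (A i j) ≤ B) :
    nrm A.det ≤ (Fintype.card ι).factorial * B ^ Fintype.card ι := by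
  rw [Matrix.det_apply]
  refine (nrm_sum_le _ _).trans ?_
  have : ∀ σ ∈ (Finset.univ : Finset (Equiv.Perm ι)),
      nrm (Equiv.Perm.sign σ • ∏ i, A (σ i) i) ≤ B ^ Fintype.card ι := by
    intro σ _
    have h1 : nrm (Equiv.Perm.sign σ • ∏ i, A (σ i) i) = nrm (∏ i, A (σ i) i) := by
      rcases Int.units_eq_one_or (Equiv.Perm.sign σ) with h | h
      · rw [h, one_smul]
      · rw [h, Units.neg_smul, one_smul, nrm_neg]
    rw [h1]
    exact nrm_prod_le _ _ B fun i _ => h _ _
  refine (Finset.sum_le_card_nsmul _ _ _ this).trans ?_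
  rw [Finset.card_univ, Fintype.card_perm, smul_eq_mul]

/-- A root of a nonzero integer polynomial is at most the norm of the polynomial. -/
theorem root_le {D : ℤ[X]} (hD : D ≠ 0) {t : ℝ} (ht : aeval t D = 0) : t ≤ max 1 (nrm D) := by
  by_contra hlt
  push Not at hlt
  rw [Nat.cast_max, Nat.cast_one, max_lt_iff] at hlt
  obtain ⟨h1, h2⟩ := hlt
  have h0 : 0 < t := by linarith
  set k := D.natDegree with hk
  have hlead : (1 : ℝ) ≤ |(D.coeff k : ℝ)| := by
    have : D.coeff k ≠ 0 := by
      rw [hk]
      exact fun h => hD (Polynomial.leadingCoeff_eq_zero.1 h)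
    have h3 : (1 : ℤ) ≤ |D.coeff k| := Int.one_le_abs this
    exact_mod_cast h3
  rw [Polynomial.aeval_eq_sum_range, ← hk, Finset.sum_range_succ] at ht
  simp only [zsmul_eq_mul] at ht
  have h3 : (D.coeff k : ℝ) * t ^ k = -∑ i ∈ Finset.range k, (D.coeff i : ℝ) * t ^ i := by
    linarith
  have h4 : t ^ k ≤ |(D.coeff k : ℝ) * t ^ k| := by
    rw [abs_mul, abs_of_pos (pow_pos h0 k)]
    nlinarith [pow_pos h0 k]
  rw [h3, abs_neg] at h4
  have h5 := h4.trans (Finset.abs_sum_le_sum_abs _ _)
  rcases Nat.eq_zero_or_pos k with hk0 | hk0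
  · rw [hk0] at h5
    simp at h5
    linarith
  obtain ⟨m, hm⟩ : ∃ m, k = m + 1 := ⟨k - 1, by omega⟩
  have h6 : ∑ i ∈ Finset.range k, |(D.coeff i : ℝ) * t ^ i| ≤
      ∑ i ∈ Finset.range k, |(D.coeff i : ℝ)| * t ^ m := by
    apply Finset.sum_le_sum
    intro i hi
    rw [Finset.mem_range] at hi
    rw [abs_mul, abs_of_pos (pow_pos h0 i)]
    apply mul_le_mul_of_nonneg_left _ (abs_nonneg _)
    exact pow_le_pow_right₀ h1.le (by omega)
  rw [← Finset.sum_mul] at h6
  have h7 : ∑ i ∈ Finset.range k, |(D.coeff i : ℝ)| ≤ nrm D := by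
    have h8 : nrm D = ∑ i ∈ Finset.range (k + 1), (D.coeff i).natAbs := by
      apply nrm_eq_sum
      rw [hk]
      exact Polynomial.supp_subset_range_natDegree_succ
    rw [h8, Finset.sum_range_succ]
    push_cast
    have : (0 : ℝ) ≤ |(D.coeff k : ℝ)| := abs_nonneg _
    simp only [Nat.cast_natAbs, Int.cast_abs]
    linarith
  have h9 : t ^ k ≤ nrm D * t ^ m := h5.trans (h6.trans
    (mul_le_mul_of_nonneg_right h7 (pow_pos h0 m).le))
  rw [hm, pow_succ, mul_comm] at h9
  have := le_of_mul_le_mul_right h9 (pow_pos h0 m)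
  linarith


/-! ### The sum of the absolute values of the coefficients: several variables -/

section Mv

variable {n : ℕ}

/-- Sum of the absolute values of the coefficients. -/
def mnrm (p : MvPolynomial (Fin n) ℤ) : ℕ := ∑ m ∈ p.support, (p.coeff m).natAbs

theorem mnrm_eq_sum {p : MvPolynomial (Fin n) ℤ} {s : Finset (Fin n →₀ ℕ)} (h : p.support ⊆ s) :
    mnrm p = ∑ i ∈ s, (p.coeff i).natAbs := by
  unfold mnrm
  apply Finset.sum_subset h
  intro i _ hi
  simpa using hi

theorem mnrm_zero : mnrm (0 : MvPolynomial (Fin n) ℤ) = 0 := by simp [mnrm]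

theorem mnrm_add_le (p q : MvPolynomial (Fin n) ℤ) : mnrm (p + q) ≤ mnrm p + mnrm q := by
  classical
  rw [mnrm_eq_sum (s := p.support ∪ q.support) MvPolynomial.support_add,
    mnrm_eq_sum (p := p) (s := p.support ∪ q.support) Finset.subset_union_left,
    mnrm_eq_sum (p := q) (s := p.support ∪ q.support) Finset.subset_union_right,
    ← Finset.sum_add_distrib]
  apply Finset.sum_le_sum
  intro i _
  rw [MvPolynomial.coeff_add]
  exact Int.natAbs_add_le _ _

theorem mnrm_neg (p : MvPolynomial (Fin n) ℤ) : mnrm (-p) = mnrm p := by simp [mnrm]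

theorem mnrm_sub_le (p q : MvPolynomial (Fin n) ℤ) : mnrm (p - q) ≤ mnrm p + mnrm q := by
  rw [sub_eq_add_neg]
  exact (mnrm_add_le _ _).trans (by rw [mnrm_neg])

theorem mnrm_sum_le {ι : Type*} (s : Finset ι) (f : ι → MvPolynomial (Fin n) ℤ) :
    mnrm (∑ i ∈ s, f i) ≤ ∑ i ∈ s, mnrm (f i) := by
  classical
  induction s using Finset.induction_on with
  | empty => simp [mnrm_zero]
  | insert a s ha ih =>
    rw [Finset.sum_insert ha, Finset.sum_insert ha]
    exact (mnrm_add_le _ _).trans (Nat.add_le_add_left ih _)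

theorem mnrm_monomial (i : Fin n →₀ ℕ) (a : ℤ) : mnrm (MvPolynomial.monomial i a) = a.natAbs := by
  classical
  by_cases h : a = 0
  · subst h; simp [mnrm]
  · unfold mnrm
    rw [MvPolynomial.support_monomial, if_neg h]
    simp

theorem mnrm_C (a : ℤ) : mnrm (MvPolynomial.C a : MvPolynomial (Fin n) ℤ) = a.natAbs :=
  mnrm_monomial 0 a

theorem mnrm_X (i : Fin n) : mnrm (MvPolynomial.X i : MvPolynomial (Fin n) ℤ) = 1 :=
  mnrm_monomial _ 1

theorem mnrm_mul_le (p q : MvPolynomial (Fin n) ℤ) : mnrm (p * q) ≤ mnrm p * mnrm q := by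
  have h : p * q = ∑ i ∈ p.support, ∑ j ∈ q.support,
      MvPolynomial.monomial (i + j) (p.coeff i * q.coeff j) := by
    conv_lhs => rw [p.as_sum, q.as_sum, Finset.sum_mul_sum]
    simp only [MvPolynomial.monomial_mul]
  rw [h]
  refine (mnrm_sum_le _ _).trans ?_
  unfold mnrm
  rw [Finset.sum_mul_sum]
  apply Finset.sum_le_sum
  intro i _
  refine (mnrm_sum_le _ _).trans ?_
  apply Finset.sum_le_sum
  intro j _
  rw [mnrm_monomial, Int.natAbs_mul]

theorem mnrm_pderiv_le (p : MvPolynomial (Fin n) ℤ) (i : Fin n) {e : ℕ}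
    (h : p.totalDegree ≤ e) : mnrm (MvPolynomial.pderiv i p) ≤ e * mnrm p := by
  conv_lhs => rw [p.as_sum]
  rw [map_sum]
  refine (mnrm_sum_le _ _).trans ?_
  have hr : e * mnrm p = ∑ m ∈ p.support, e * (p.coeff m).natAbs := by
    unfold mnrm
    rw [Finset.mul_sum]
  rw [hr]
  apply Finset.sum_le_sum
  intro m hm
  rw [MvPolynomial.pderiv_monomial, mnrm_monomial, Int.natAbs_mul, mul_comm]
  apply Nat.mul_le_mul_right
  rw [Int.natAbs_natCast]
  have h1 := MvPolynomial.le_totalDegree hm
  have h2 : m i ≤ m.sum fun _ e => e := by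
    rw [Finsupp.sum_fintype _ _ (fun _ => rfl)]
    exact Finset.single_le_sum (f := fun i => m i) (fun _ _ => Nat.zero_le _) (Finset.mem_univ i)
  omega

theorem totalDegree_pderiv_lt (p : MvPolynomial (Fin n) ℤ) (i : Fin n) {e : ℕ} (he : 0 < e)
    (h : p.totalDegree ≤ e) : (MvPolynomial.pderiv i p).totalDegree < e := by
  conv_lhs => rw [p.as_sum]
  rw [map_sum]
  have key : ∀ m ∈ p.support, (MvPolynomial.pderiv i
      (MvPolynomial.monomial m (p.coeff m))).totalDegree ≤ e - 1 := by
    intro m hm
    rw [MvPolynomial.pderiv_monomial]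
    by_cases h0 : m i = 0
    · rw [h0]; simp
    refine (MvPolynomial.totalDegree_monomial_le _ _).trans ?_
    have h1 := MvPolynomial.le_totalDegree hm
    rw [Finsupp.sum_fintype _ _ (fun _ => rfl)] at h1 ⊢
    have h2 : ∑ j, (m - Finsupp.single i 1 : Fin n →₀ ℕ) j + 1 = ∑ j, m j := by
      have h3 : ∀ j, m j = (m - Finsupp.single i 1 : Fin n →₀ ℕ) j + if j = i then 1 else 0 := by
        intro j
        rw [Finsupp.coe_tsub, Pi.sub_apply, Finsupp.single_apply]
        by_cases hji : j = i
        · subst hji; simp; omega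
        · simp [hji, Ne.symm hji]
      calc _ = ∑ j, ((m - Finsupp.single i 1 : Fin n →₀ ℕ) j + if j = i then 1 else 0) := by
            rw [Finset.sum_add_distrib]; simp
        _ = _ := Finset.sum_congr rfl fun j _ => (h3 j).symm
    simp only [id]
    omega
  have := MvPolynomial.totalDegree_finsetSum_le key
  omega

/-- The partial derivatives of a polynomial function. -/
theorem hasDerivAt_update (p : MvPolynomial (Fin n) ℤ) (x : Fin n → ℝ) (i : Fin n) (t : ℝ) :
    HasDerivAt (fun s => MvPolynomial.aeval (Function.update x i s) p)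
      (MvPolynomial.aeval (Function.update x i t) (MvPolynomial.pderiv i p)) t := by
  induction p using MvPolynomial.induction_on with
  | C a =>
    simp only [MvPolynomial.algHom_C, MvPolynomial.pderiv_C, map_zero]
    exact hasDerivAt_const _ _
  | add p q hp hq =>
    simp only [map_add]
    exact hp.add hq
  | mul_X p j hp =>
    have hX : HasDerivAt (fun s => (Function.update x i s) j)
        (MvPolynomial.aeval (Function.update x i t) (MvPolynomial.pderiv i (MvPolynomial.X j :
          MvPolynomial (Fin n) ℤ))) t := by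
      by_cases hji : j = i
      · subst hji
        simp only [Function.update_self, MvPolynomial.pderiv_X_self, map_one]
        exact hasDerivAt_id t
      · simp only [Function.update_of_ne hji]
        rw [MvPolynomial.pderiv_X_of_ne hji, map_zero]
        exact hasDerivAt_const _ _
    have := hp.fun_mul hX
    simp only [map_mul, MvPolynomial.aeval_X, Derivation.leibniz, map_add, smul_eq_mul]
    exact this.congr_deriv (by ring)

/-! ### Normal forms at critical points -/

/-- The function `φ` of `(d, x)` is, wherever `xᵢ^e = -d Gᵢ(x)` for all `i`, a combination of the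
monomials with exponents less than `e`, with coefficients integer polynomials in `d` whose norms
add up to at most `B`. -/
def Rep (e : ℕ) (G : Fin n → MvPolynomial (Fin n) ℤ) (φ : ℝ → (Fin n → ℝ) → ℝ) (B : ℕ) : Prop :=
  ∃ c : (Fin n → Fin e) → ℤ[X], (∑ α, nrm (c α)) ≤ B ∧
    ∀ (d : ℝ) (x : Fin n → ℝ), (∀ i, x i ^ e = -d * MvPolynomial.aeval x (G i)) →
      φ d x = ∑ α, aeval d (c α) * ∏ i, x i ^ (α i : ℕ)

variable {e : ℕ} {G : Fin n → MvPolynomial (Fin n) ℤ}

theorem Rep.congr {φ ψ : ℝ → (Fin n → ℝ) → ℝ} {B : ℕ} (h : Rep e G φ B)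
    (hc : ∀ (d : ℝ) (x : Fin n → ℝ), (∀ i, x i ^ e = -d * MvPolynomial.aeval x (G i)) →
      ψ d x = φ d x) : Rep e G ψ B := by
  obtain ⟨c, h1, h2⟩ := h
  exact ⟨c, h1, fun d x hx => (hc d x hx).trans (h2 d x hx)⟩

theorem Rep.mono {φ : ℝ → (Fin n → ℝ) → ℝ} {B C : ℕ} (h : Rep e G φ B) (hB : B ≤ C) :
    Rep e G φ C := by
  obtain ⟨c, h1, h2⟩ := h
  exact ⟨c, h1.trans hB, h2⟩

theorem Rep.sum {ι : Type*} (s : Finset ι) (a : ι → ℤ[X]) (φ : ι → ℝ → (Fin n → ℝ) → ℝ)
    (B : ι → ℕ) (h : ∀ i ∈ s, Rep e G (φ i) (B i)) :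
    Rep e G (fun d x => ∑ i ∈ s, aeval d (a i) * φ i d x) (∑ i ∈ s, nrm (a i) * B i) := by
  classical
  choose! c h1 h2 using h
  refine ⟨fun α => ∑ i ∈ s, a i * c i α, ?_, ?_⟩
  · calc _ ≤ ∑ α, ∑ i ∈ s, nrm (a i) * nrm (c i α) := by
          apply Finset.sum_le_sum
          intro α _
          exact (nrm_sum_le _ _).trans (Finset.sum_le_sum fun i _ => nrm_mul_le _ _)
      _ = ∑ i ∈ s, nrm (a i) * ∑ α, nrm (c i α) := by
          rw [Finset.sum_comm]
          exact Finset.sum_congr rfl fun i _ => (Finset.mul_sum _ _ _).symm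
      _ ≤ _ := Finset.sum_le_sum fun i hi => Nat.mul_le_mul_left _ (h1 i hi)
  · intro d x hx
    simp only [map_sum, map_mul, Finset.sum_mul]
    rw [Finset.sum_comm]
    apply Finset.sum_congr rfl
    intro i hi
    rw [h2 i hi d x hx, Finset.mul_sum]
    apply Finset.sum_congr rfl
    intro α _
    ring

theorem aeval_eq (p : MvPolynomial (Fin n) ℤ) (x : Fin n → ℝ) :
    MvPolynomial.aeval x p = ∑ m ∈ p.support, ((p.coeff m : ℤ) : ℝ) * ∏ i, x i ^ m i := by
  rw [MvPolynomial.aeval_def, MvPolynomial.eval₂_eq']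
  rfl

theorem aeval_C' (d : ℝ) (a : ℤ) : aeval d (C a : ℤ[X]) = (a : ℝ) := by simp

/-- Monomials. -/
theorem rep_mon {c : ℕ} (hc : 1 ≤ c) (hG : ∀ i, mnrm (G i) ≤ c)
    (hdeg : ∀ i, (G i).totalDegree < e) (he : 0 < e) :
    ∀ (k : ℕ) (β : Fin n → ℕ), ∑ i, β i ≤ k → Rep e G (fun _ x => ∏ i, x i ^ β i) (c ^ k) := by
  classical
  intro k
  induction k with
  | zero =>
    intro β hβ
    have hβ0 : ∀ i, β i = 0 := by
      intro i
      have := Finset.single_le_sum (f := β) (fun _ _ => Nat.zero_le _) (Finset.mem_univ i)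
      omega
    refine ⟨fun α => if α = (fun _ => ⟨0, he⟩) then 1 else 0, ?_, ?_⟩
    · rw [Finset.sum_eq_single (fun _ => ⟨0, he⟩)]
      · beta_reduce; rw [if_pos rfl, ← C_1, nrm_C]; simp
      · intro b _ hb; beta_reduce; rw [if_neg hb, nrm_zero]
      · intro h; exact absurd (Finset.mem_univ _) h
    · intro d x _
      rw [Finset.sum_eq_single (fun _ => ⟨0, he⟩)]
      · simp [hβ0]
      · intro b _ hb; simp [hb]
      · intro h; exact absurd (Finset.mem_univ _) h
  | succ k ih =>
    intro β hβ
    by_cases hall : ∀ i, β i < e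
    · refine ⟨fun α => if α = (fun i => ⟨β i, hall i⟩) then 1 else 0, ?_, ?_⟩
      · rw [Finset.sum_eq_single (fun i => ⟨β i, hall i⟩)]
        · beta_reduce; rw [if_pos rfl, ← C_1, nrm_C]
          simpa using Nat.one_le_pow _ _ hc
        · intro b _ hb; beta_reduce; rw [if_neg hb, nrm_zero]
        · intro h; exact absurd (Finset.mem_univ _) h
      · intro d x _
        rw [Finset.sum_eq_single (fun i => ⟨β i, hall i⟩)]
        · simp
        · intro b _ hb; simp [hb]
        · intro h; exact absurd (Finset.mem_univ _) h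
    · push Not at hall
      obtain ⟨j, hj⟩ := hall
      set β' : Fin n → ℕ := Function.update β j (β j - e) with hβ'
      have hsum' : ∑ i, β' i + e = ∑ i, β i := by
        have h1 : ∀ i, β i = β' i + if i = j then e else 0 := by
          intro i
          by_cases hij : i = j
          · subst hij; simp [hβ']; omega
          · simp [hβ', hij]
        calc _ = ∑ i, (β' i + if i = j then e else 0) := by
              rw [Finset.sum_add_distrib]; simp
          _ = _ := Finset.sum_congr rfl fun i _ => (h1 i).symm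
      have hsplit : ∀ x : Fin n → ℝ, ∏ i, x i ^ β i = (∏ i, x i ^ β' i) * x j ^ e := by
        intro x
        have h1 : ∀ i, x i ^ β i = x i ^ β' i * (if i = j then x j ^ e else 1) := by
          intro i
          by_cases hij : i = j
          · subst hij
            simp only [hβ', Function.update_self, if_true]
            rw [← pow_add]
            congr 1
            omega
          · simp [hβ', hij]
        rw [Finset.prod_congr rfl fun i _ => h1 i, Finset.prod_mul_distrib]
        simp
      have key := Rep.sum (e := e) (G := G) (G j).support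
        (fun m => - X * C ((G j).coeff m))
        (fun m _ x => ∏ i, x i ^ (β' i + m i)) (fun _ => c ^ k) (by
          intro m hm
          apply ih
          rw [Finset.sum_add_distrib]
          have h1 := MvPolynomial.le_totalDegree hm
          rw [Finsupp.sum_fintype _ _ (fun _ => rfl)] at h1
          have h2 := hdeg j
          omega)
      refine (key.mono ?_).congr ?_
      · rw [← Finset.sum_mul, pow_succ, mul_comm (c ^ k)]
        apply Nat.mul_le_mul_right
        refine le_trans ?_ (hG j)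
        unfold mnrm
        apply Finset.sum_le_sum
        intro m _
        rw [neg_mul, nrm_neg]
        refine (nrm_mul_le _ _).trans ?_
        rw [nrm_C, ← monomial_one_one_eq_X, nrm_monomial]
        simp
      · intro d x hx
        rw [hsplit, hx j, aeval_eq]
        simp only [neg_mul, map_neg, map_mul, aeval_X, aeval_C', Finset.mul_sum,
          mul_neg]
        apply Finset.sum_congr rfl
        intro m _
        simp only [pow_add, Finset.prod_mul_distrib]
        ring

/-- Polynomials times monomials. -/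
theorem rep_poly {c : ℕ} (hc : 1 ≤ c) (hG : ∀ i, mnrm (G i) ≤ c)
    (hdeg : ∀ i, (G i).totalDegree < e) (he : 0 < e) (p : MvPolynomial (Fin n) ℤ)
    (β : Fin n → ℕ) (k : ℕ) (hk : p.totalDegree + ∑ i, β i ≤ k) :
    Rep e G (fun _ x => MvPolynomial.aeval x p * ∏ i, x i ^ β i) (mnrm p * c ^ k) := by
  have key := Rep.sum (e := e) (G := G) p.support (fun m => C (p.coeff m))
    (fun m _ x => ∏ i, x i ^ (m i + β i)) (fun _ => c ^ k) (by
      intro m hm
      apply rep_mon hc hG hdeg he
      rw [Finset.sum_add_distrib]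
      have h1 := MvPolynomial.le_totalDegree hm
      rw [Finsupp.sum_fintype _ _ (fun _ => rfl)] at h1
      omega)
  refine (key.mono ?_).congr ?_
  · rw [← Finset.sum_mul]
    apply Nat.mul_le_mul_right
    unfold mnrm
    apply Finset.sum_le_sum
    intro m _
    rw [nrm_C]
  · intro d x _
    rw [aeval_eq, Finset.sum_mul]
    apply Finset.sum_congr rfl
    intro m _
    simp only [aeval_C', pow_add, Finset.prod_mul_distrib]
    ring

/-- The algebraic part of the lower bound. -/
theorem crit_le {c : ℕ} (hc : 1 ≤ c) (hG : ∀ i, mnrm (G i) ≤ c)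
    (hdeg : ∀ i, (G i).totalDegree < e) (he : 0 < e) (h : MvPolynomial (Fin n) ℤ) (T : ℕ)
    (hT : 0 < T) (d : ℝ) (x : Fin n → ℝ)
    (hx : ∀ i, x i ^ e = -d * MvPolynomial.aeval x (G i))
    (hTd : (T : ℝ) = d * MvPolynomial.aeval x h) (k : ℕ)
    (hk : h.totalDegree + n * (e - 1) ≤ k) :
    d ≤ ((e ^ n).factorial * (T + mnrm h * c ^ k) ^ (e ^ n) : ℕ) := by
  classical
  have hrep : ∀ α : Fin n → Fin e, Rep e G (fun _ x => MvPolynomial.aeval x h *
      ∏ i, x i ^ (α i : ℕ)) (mnrm h * c ^ k) := by
    intro α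
    apply rep_poly hc hG hdeg he
    have h1 : ∑ i, (α i : ℕ) ≤ n * (e - 1) := by
      have := Finset.sum_le_card_nsmul Finset.univ (fun i => (α i : ℕ)) (e - 1) (by
        intro i _
        have := (α i).2
        omega)
      simpa using this
    omega
  choose M hM1 hM2 using hrep
  set A : Matrix (Fin n → Fin e) (Fin n → Fin e) ℤ[X] :=
    fun α β => (if α = β then C (T : ℤ) else 0) - X * M α β with hA
  have hcard : Fintype.card (Fin n → Fin e) = e ^ n := by simp
  have hn : nrm A.det ≤ (e ^ n).factorial * (T + mnrm h * c ^ k) ^ (e ^ n) := by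
    have := nrm_det_le A (T + mnrm h * c ^ k) (by
      intro α β
      rw [hA]
      simp only
      rw [sub_eq_add_neg]
      refine (nrm_add_le _ _).trans ?_
      rw [nrm_neg]
      apply Nat.add_le_add
      · split_ifs
        · rw [nrm_C]; simp
        · rw [nrm_zero]; exact Nat.zero_le _
      · refine (nrm_mul_le _ _).trans ?_
        rw [← monomial_one_one_eq_X, nrm_monomial, Int.natAbs_one, one_mul]
        exact (Finset.single_le_sum (f := fun β => nrm (M α β)) (fun _ _ => Nat.zero_le _)
          (Finset.mem_univ β)).trans (hM1 α))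
    rwa [hcard] at this
  have h0 : A.det ≠ 0 := by
    intro h0
    have h1 : (evalRingHom (0 : ℤ)) A.det = 0 := by rw [h0, map_zero]
    rw [RingHom.map_det] at h1
    have h2 : (evalRingHom (0 : ℤ)).mapMatrix A = (T : ℤ) • (1 : Matrix _ _ ℤ) := by
      ext α β
      rw [RingHom.mapMatrix_apply, Matrix.map_apply, hA, Matrix.smul_apply, Matrix.one_apply]
      by_cases hab : α = β <;> simp [hab]
    rw [h2, Matrix.det_smul, Matrix.det_one, mul_one] at h1
    have : (T : ℤ) ≠ 0 := by exact_mod_cast hT.ne'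
    exact pow_ne_zero _ this h1
  have h1 : aeval d A.det = 0 := by
    have h2 : (aeval d : ℤ[X] →ₐ[ℤ] ℝ).toRingHom A.det = 0 := by
      rw [RingHom.map_det, ← Matrix.exists_mulVec_eq_zero_iff]
      refine ⟨fun α => ∏ i, x i ^ (α i : ℕ), ?_, ?_⟩
      · intro h3
        have := congrFun h3 (fun _ => ⟨0, he⟩)
        simp at this
      · ext α
        rw [Pi.zero_apply, Matrix.mulVec, dotProduct]
        have h3 : ∀ β, (aeval d : ℤ[X] →ₐ[ℤ] ℝ).toRingHom.mapMatrix A α β *
            ∏ i, x i ^ (β i : ℕ) = (if α = β then (T : ℝ) * ∏ i, x i ^ (β i : ℕ) else 0) -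
              d * (aeval d (M α β) * ∏ i, x i ^ (β i : ℕ)) := by
          intro β
          rw [RingHom.mapMatrix_apply, Matrix.map_apply, hA]
          simp only [AlgHom.toRingHom_eq_coe, RingHom.coe_coe, map_sub, map_mul, aeval_X]
          split_ifs <;> simp <;> ring
        simp only [h3, Finset.sum_sub_distrib, Finset.sum_ite_eq, Finset.mem_univ, if_true]
        rw [← Finset.mul_sum, ← hM2 α d x hx, hTd]
        ring
    exact h2
  have h2 := root_le h0 h1
  have h3 : (1 : ℕ) ≤ (e ^ n).factorial * (T + mnrm h * c ^ k) ^ (e ^ n) := by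
    apply Nat.mul_pos (Nat.factorial_pos _)
    apply pow_pos
    omega
  refine h2.trans ?_
  exact_mod_cast max_le h3 hn

/-- The explicit constant in the effective lower bound. -/
def Hb (n e T γ : ℕ) : ℕ :=
  (e ^ n).factorial * (T + ((e + 1) * γ + n * (e * γ)) * (e * γ + 1) ^ (e + n * (e - 1))) ^ (e ^ n)

/-- **Effective lower bound** for polynomials that are positive where `∑ xᵢ^(e+1) ≤ T`. -/
theorem gap (he : Odd e) (g : MvPolynomial (Fin n) ℤ) (hdeg : g.totalDegree ≤ e)
    (hg0 : ∀ x : Fin n → ℝ, 0 ≤ MvPolynomial.aeval x g) (T : ℕ) (hT : 0 < T)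
    (hpos : ∀ x : Fin n → ℝ, ∑ i, x i ^ (e + 1) ≤ T → 0 < MvPolynomial.aeval x g)
    (x : Fin n → ℝ) :
    (T : ℝ) ≤ ∑ i, x i ^ (e + 1) + (e + 1) * Hb n e T (mnrm g) * MvPolynomial.aeval x g := by
  have he0 : 0 < e := he.pos
  have heven : Even (e + 1) := he.add_one
  have hT1 : (1 : ℝ) ≤ T := by exact_mod_cast hT
  have hcont : Continuous fun x : Fin n → ℝ => MvPolynomial.aeval x g := by
    have : (fun x : Fin n → ℝ => MvPolynomial.aeval x g) = fun x =>
        ∑ m ∈ g.support, ((g.coeff m : ℤ) : ℝ) * ∏ i, x i ^ m i := funext fun x => aeval_eq g x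
    rw [this]
    fun_prop
  have hcontP : Continuous fun x : Fin n → ℝ => ∑ i, x i ^ (e + 1) := by fun_prop
  have hterm : ∀ (x : Fin n → ℝ) (i : Fin n), 0 ≤ x i ^ (e + 1) := fun x i => heven.pow_nonneg _
  -- the region in space
  set B : Set (Fin n → ℝ) := {x | ∑ i, x i ^ (e + 1) ≤ T} with hB
  have hBc : IsCompact B := by
    apply IsCompact.of_isClosed_subset (isCompact_univ_pi (fun _ : Fin n =>
      (isCompact_Icc : IsCompact (Set.Icc (-(T : ℝ)) T))))
    · exact isClosed_le hcontP continuous_const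
    · intro x hx i _
      have h1 : x i ^ (e + 1) ≤ T := (Finset.single_le_sum (f := fun i => x i ^ (e + 1))
        (fun i _ => hterm x i) (Finset.mem_univ i)).trans hx
      have h2 : |x i| ≤ T := by
        by_contra hlt
        push Not at hlt
        have h3 : (T : ℝ) ^ (e + 1) < |x i| ^ (e + 1) :=
          pow_lt_pow_left₀ hlt (by positivity) (by omega)
        rw [heven.pow_abs] at h3
        have h4 : (T : ℝ) ≤ T ^ (e + 1) := le_self_pow₀ hT1 (by omega)
        linarith
      exact abs_le.1 h2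
  have hB0 : (0 : Fin n → ℝ) ∈ B := by
    rw [hB]
    simp
  obtain ⟨xm, hxm, hmin⟩ := hBc.exists_isMinOn ⟨0, hB0⟩ hcont.continuousOn
  have hm : 0 < MvPolynomial.aeval xm g := hpos xm hxm
  -- the region in space and parameter
  set K : Set (ℝ × (Fin n → ℝ)) := {p | 0 ≤ p.1 ∧
    ∑ i, p.2 i ^ (e + 1) + (e + 1) * p.1 * MvPolynomial.aeval p.2 g ≤ T} with hK
  have hKB : ∀ p ∈ K, p.2 ∈ B := by
    rintro ⟨d, y⟩ ⟨h1, h2⟩
    have : 0 ≤ (e + 1) * d * MvPolynomial.aeval y g :=
      mul_nonneg (mul_nonneg (by positivity) h1) (hg0 y)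
    simp only [hB, Set.mem_ofPred_eq] at h2 ⊢
    linarith
  have hKc : IsCompact K := by
    apply IsCompact.of_isClosed_subset ((isCompact_Icc :
      IsCompact (Set.Icc (0 : ℝ) (T / ((e + 1) * MvPolynomial.aeval xm g)))).prod hBc)
    · rw [hK]
      exact (isClosed_le continuous_const continuous_fst).inter
        (isClosed_le ((hcontP.comp continuous_snd).add
          ((continuous_const.mul continuous_fst).mul (hcont.comp continuous_snd)))
          continuous_const)
    · rintro ⟨d, y⟩ hp
      have hy := hKB _ hp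
      obtain ⟨h1, h2⟩ := hp
      refine ⟨⟨h1, ?_⟩, hy⟩
      rw [le_div_iff₀ (by positivity)]
      have h3 : MvPolynomial.aeval xm g ≤ MvPolynomial.aeval y g := hmin hy
      have h4 : 0 ≤ ∑ i, y i ^ (e + 1) := Finset.sum_nonneg fun i _ => hterm y i
      simp only at h1 h2 ⊢
      have h5 : d * ((e + 1) * MvPolynomial.aeval xm g) ≤
          (e + 1) * d * MvPolynomial.aeval y g := by
        have : (0 : ℝ) ≤ (e + 1) * d := by positivity
        nlinarith
      linarith
  have hK0 : K.Nonempty := ⟨(0, 0), by simp [hK]⟩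
  obtain ⟨⟨d, y⟩, hp, hmax⟩ := hKc.exists_isMaxOn hK0 continuous_fst.continuousOn
  obtain ⟨hd0, hFy⟩ := hp
  simp only at hd0 hFy
  have hge : ∀ z : Fin n → ℝ, (T : ℝ) ≤ ∑ i, z i ^ (e + 1) +
      (e + 1) * d * MvPolynomial.aeval z g := by
    intro z
    by_contra hlt
    push Not at hlt
    have hzB : z ∈ B := by
      have : 0 ≤ (e + 1) * d * MvPolynomial.aeval z g :=
        mul_nonneg (mul_nonneg (by positivity) hd0) (hg0 z)
      simp only [hB, Set.mem_ofPred_eq]
      linarith
    have hz := hpos z hzB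
    set η := (T - (∑ i, z i ^ (e + 1) + (e + 1) * d * MvPolynomial.aeval z g)) /
      ((e + 1) * MvPolynomial.aeval z g) with hη
    have hη0 : 0 < η := div_pos (by linarith) (by positivity)
    have h1 : (d + η, z) ∈ K := by
      refine ⟨by simp only; linarith, ?_⟩
      simp only
      have h2 : (e + 1) * η * MvPolynomial.aeval z g =
          T - (∑ i, z i ^ (e + 1) + (e + 1) * d * MvPolynomial.aeval z g) := by
        rw [hη]
        field_simp
      have h3 : ((e : ℝ) + 1) * (d + η) * MvPolynomial.aeval z g =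
        (e + 1) * d * MvPolynomial.aeval z g + (e + 1) * η * MvPolynomial.aeval z g := by ring
      rw [h3, h2]
      linarith
    have h2 : d + η ≤ d := hmax h1
    linarith
  have hFT : (T : ℝ) = ∑ i, y i ^ (e + 1) + (e + 1) * d * MvPolynomial.aeval y g :=
    le_antisymm (hge y) hFy
  -- critical point equations
  have hcrit : ∀ i, y i ^ e = -d * MvPolynomial.aeval y (MvPolynomial.pderiv i g) := by
    intro i
    set P : MvPolynomial (Fin n) ℤ := ∑ j, MvPolynomial.X j ^ (e + 1) with hP
    have haP : ∀ z : Fin n → ℝ, MvPolynomial.aeval z P = ∑ j, z j ^ (e + 1) := by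
      intro z
      rw [hP]
      simp only [map_sum, map_pow, MvPolynomial.aeval_X]
    have hdP : MvPolynomial.aeval y (MvPolynomial.pderiv i P) = (e + 1) * y i ^ e := by
      classical
      rw [hP, map_sum, map_sum, Finset.sum_eq_single i]
      · rw [Derivation.leibniz_pow, MvPolynomial.pderiv_X_self]
        simp
      · intro j _ hj
        rw [Derivation.leibniz_pow, MvPolynomial.pderiv_X_of_ne hj]
        simp
      · intro h; exact absurd (Finset.mem_univ _) h
    have h1 := (hasDerivAt_update P y i (y i)).add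
      ((hasDerivAt_update g y i (y i)).const_mul (((e : ℝ) + 1) * d))
    have h2 : IsLocalMin ((fun s => MvPolynomial.aeval (Function.update y i s) P) +
        fun s => ((e : ℝ) + 1) * d * MvPolynomial.aeval (Function.update y i s) g) (y i) := by
      apply Filter.Eventually.of_forall
      intro s
      simp only [Pi.add_apply, haP, Function.update_eq_self]
      rw [← hFT]
      exact hge _
    have h3 := h2.hasDerivAt_eq_zero h1
    rw [Function.update_eq_self, hdP] at h3
    have h4 : ((e : ℝ) + 1) * (y i ^ e + d * MvPolynomial.aeval y (MvPolynomial.pderiv i g)) = 0 :=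
      by linarith
    have h5 : ((e : ℝ) + 1) ≠ 0 := by positivity
    have h6 := (mul_eq_zero.1 h4).resolve_left h5
    linarith
  -- the algebraic part
  set h : MvPolynomial (Fin n) ℤ := MvPolynomial.C ((e : ℤ) + 1) * g -
    ∑ i, MvPolynomial.X i * MvPolynomial.pderiv i g with hh
  have hTd : (T : ℝ) = d * MvPolynomial.aeval y h := by
    rw [hFT, hh]
    simp only [map_sub, map_mul, map_sum, MvPolynomial.aeval_X, MvPolynomial.algHom_C]
    have h1 : ∀ i, y i ^ (e + 1) = -(d * (y i * MvPolynomial.aeval y (MvPolynomial.pderiv i g))) := by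
      intro i
      rw [pow_succ, hcrit i]
      ring
    rw [Finset.sum_congr rfl fun i _ => h1 i, mul_sub, Finset.mul_sum, Finset.sum_neg_distrib]
    simp
    ring
  have hnh : mnrm h ≤ (e + 1) * mnrm g + n * (e * mnrm g) := by
    rw [hh]
    refine (mnrm_sub_le _ _).trans ?_
    apply Nat.add_le_add
    · refine (mnrm_mul_le _ _).trans ?_
      rw [mnrm_C]
      apply Nat.mul_le_mul_right
      omega
    · refine (mnrm_sum_le _ _).trans ?_
      refine (Finset.sum_le_card_nsmul _ _ (e * mnrm g) ?_).trans (by simp)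
      intro i _
      refine (mnrm_mul_le _ _).trans ?_
      rw [mnrm_X, one_mul]
      exact mnrm_pderiv_le g i hdeg
  have hdh : h.totalDegree ≤ e := by
    rw [hh]
    refine (MvPolynomial.totalDegree_sub _ _).trans (max_le ?_ ?_)
    · refine (MvPolynomial.totalDegree_mul _ _).trans ?_
      rw [MvPolynomial.totalDegree_C]
      omega
    · apply MvPolynomial.totalDegree_finsetSum_le
      intro i _
      refine (MvPolynomial.totalDegree_mul _ _).trans ?_
      have := totalDegree_pderiv_lt g i he0 hdeg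
      rw [MvPolynomial.totalDegree_X]
      omega
  have hfin := crit_le (G := fun i => MvPolynomial.pderiv i g) (c := e * mnrm g + 1)
    (by omega) (fun i => (mnrm_pderiv_le g i hdeg).trans (by omega))
    (fun i => totalDegree_pderiv_lt g i he0 hdeg) he0 h T hT d y hcrit hTd (e + n * (e - 1))
    (by omega)
  have hle : (e ^ n).factorial * (T + mnrm h * (e * mnrm g + 1) ^ (e + n * (e - 1))) ^ (e ^ n) ≤
      Hb n e T (mnrm g) := by
    unfold Hb
    apply Nat.mul_le_mul_left
    apply Nat.pow_le_pow_left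
    apply Nat.add_le_add_left
    apply Nat.mul_le_mul_right
    exact hnh
  have hdH : d ≤ Hb n e T (mnrm g) := hfin.trans (by exact_mod_cast hle)
  refine (hge x).trans ?_
  have h1 := hg0 x
  have h2 : (e + 1) * d * MvPolynomial.aeval x g ≤
      (e + 1) * Hb n e T (mnrm g) * MvPolynomial.aeval x g := by
    apply mul_le_mul_of_nonneg_right _ h1
    apply mul_le_mul_of_nonneg_left hdH
    positivity
  linarith

end Mv

end Pool.Agent.H625R2
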