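import Pool.Agent.H625R2.Gap

/-!
# The growth estimate
-/

namespace Pool.Agent.H625R2

theorem growth_nat (n m : ℕ) : 54 * m ≤ 2 ^ (n + m + 7) ∧
    5 ^ n * (64 * n + 1 + ((5 + 1) * (9 * m) + n * (5 * (9 * m))) *
      (5 * (9 * m) + 1) ^ (5 + n * (5 - 1))) ≤
      2 ^ (4 * (n + m + 7) * (n + m + 7) + 9 * (n + m + 7) + 1) ∧
    (n + m + 7) + 2 + (4 * (n + m + 7) * (n + m + 7) + 9 * (n + m + 7) + 1 + 6) * 5 ^ n <
      2 ^ (5 * n + 5 * m + 40 + 1) := by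
  have hn : n < 2 ^ n := Nat.lt_two_pow_self
  have hm : m < 2 ^ m := Nat.lt_two_pow_self
  have hn1 : 1 ≤ 2 ^ n := Nat.one_le_two_pow
  have hm1 : 1 ≤ 2 ^ m := Nat.one_le_two_pow
  have hκ : (2 : ℕ) ^ (n + m + 7) = 128 * (2 ^ n * 2 ^ m) := by
    rw [pow_add, pow_add]; norm_num; ring
  have hE : 5 ^ n ≤ 2 ^ (3 * (n + m + 7)) := by
    calc 5 ^ n ≤ 8 ^ n := Nat.pow_le_pow_left (by norm_num) n
      _ = 2 ^ (3 * n) := by rw [pow_mul]; norm_num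
      _ ≤ _ := Nat.pow_le_pow_right (by norm_num) (by omega)
  have hnm : 2 ^ m ≤ 2 ^ n * 2 ^ m := Nat.le_mul_of_pos_left _ (by omega)
  have hnm' : 2 ^ n ≤ 2 ^ n * 2 ^ m := Nat.le_mul_of_pos_right _ (by omega)
  refine ⟨?_, ?_, ?_⟩
  · rw [hκ]; omega
  · set κ := n + m + 7 with hκd
    have h1 : (5 + 1) * (9 * m) + n * (5 * (9 * m)) ≤ 2 ^ κ := by
      rw [hκ]
      have : n * m ≤ 2 ^ n * 2 ^ m := Nat.mul_le_mul hn.le hm.le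
      nlinarith
    have h2 : 5 * (9 * m) + 1 ≤ 2 ^ κ := by rw [hκ]; omega
    have h3 : (5 * (9 * m) + 1) ^ (5 + n * (5 - 1)) ≤ 2 ^ (κ * (5 + 4 * κ)) := by
      calc _ ≤ (2 ^ κ) ^ (5 + n * (5 - 1)) := Nat.pow_le_pow_left h2 _
        _ ≤ (2 ^ κ) ^ (5 + 4 * κ) := Nat.pow_le_pow_right (by positivity) (by omega)
        _ = _ := by rw [pow_mul]
    have h4 : 64 * n + 1 ≤ 2 ^ (κ * (6 + 4 * κ)) := by
      have : 64 * n + 1 ≤ 2 ^ κ := by rw [hκ]; omega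
      exact this.trans (Nat.pow_le_pow_right (by norm_num) (by nlinarith))
    have h5 : ((5 + 1) * (9 * m) + n * (5 * (9 * m))) * (5 * (9 * m) + 1) ^ (5 + n * (5 - 1)) ≤
        2 ^ (κ * (6 + 4 * κ)) := by
      calc _ ≤ 2 ^ κ * 2 ^ (κ * (5 + 4 * κ)) := Nat.mul_le_mul h1 h3
        _ = _ := by rw [← pow_add, show κ + κ * (5 + 4 * κ) = κ * (6 + 4 * κ) by ring]
    calc _ ≤ 2 ^ (3 * κ) * (2 ^ (κ * (6 + 4 * κ)) + 2 ^ (κ * (6 + 4 * κ))) :=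
          Nat.mul_le_mul hE (Nat.add_le_add h4 h5)
      _ = 2 ^ (4 * κ * κ + 9 * κ + 1) := by
          rw [← two_mul, ← pow_succ', ← pow_add,
            show 3 * κ + (κ * (6 + 4 * κ) + 1) = 4 * κ * κ + 9 * κ + 1 by ring]
  · set κ := n + m + 7 with hκd
    have h1 : κ < 2 ^ κ := Nat.lt_two_pow_self
    have h2 : κ + 2 + (4 * κ * κ + 9 * κ + 1 + 6) * 5 ^ n ≤ (4 * κ * κ + 10 * κ + 9) * 2 ^ (3 * κ) := by
      have h3 : 1 ≤ 2 ^ (3 * κ) := Nat.one_le_two_pow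
      have h4 := Nat.mul_le_mul_left (4 * κ * κ + 9 * κ + 1 + 6) hE
      nlinarith
    have h5 : 4 * κ * κ + 10 * κ + 9 ≤ 23 * (2 ^ κ * 2 ^ κ) := by nlinarith
    have h6 : (2 : ℕ) ^ (5 * n + 5 * m + 40 + 1) = 64 * (2 ^ κ * 2 ^ κ) * 2 ^ (3 * κ) := by
      rw [show 5 * n + 5 * m + 40 + 1 = 6 + (κ + κ) + 3 * κ by omega, pow_add, pow_add, pow_add]
      norm_num
    rw [h6]
    have h7 : 0 < 2 ^ κ * 2 ^ κ := by positivity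
    have h8 : 0 < 2 ^ (3 * κ) := by positivity
    refine lt_of_le_of_lt (h2.trans (Nat.mul_le_mul_right _ h5)) ?_
    exact Nat.mul_lt_mul_of_pos_right (by omega) h8

theorem growth_aux (E n m T κ a2 C M H : ℕ) (g1 : 54 * m ≤ 2 ^ κ)
    (g2 : E * (64 * n + 1 + C) ≤ 2 ^ a2) (g3 : κ + 2 + (a2 + 6) * E < M)
    (hH : H = E.factorial * (T + C) ^ E) (Y : ℝ) (hY : 2 < Y)
    (hT : (T : ℝ) ≤ n * (Y + 2) ^ 6 + 2) :
    6 * (H : ℝ) * (m * (Y + 4) ^ 2) < Y ^ M := by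
  have hY1 : 1 < Y := by linarith
  have hY0 : 0 < Y := by linarith
  have hpow : ∀ k : ℕ, (2 : ℝ) ^ k ≤ Y ^ k := fun k => pow_le_pow_left₀ (by norm_num) hY.le k
  have hY6 : (64 : ℝ) ≤ Y ^ 6 := by
    have := hpow 6
    norm_num at this
    linarith
  have hn0 : (0 : ℝ) ≤ n := Nat.cast_nonneg _
  have hm0 : (0 : ℝ) ≤ m := Nat.cast_nonneg _
  have hE0 : (0 : ℝ) ≤ E := Nat.cast_nonneg _
  have hC0 : (0 : ℝ) ≤ C := Nat.cast_nonneg _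
  have hT' : (T : ℝ) ≤ (64 * n + 1) * Y ^ 6 := by
    have h1 : (Y + 2) ^ 6 ≤ (2 * Y) ^ 6 := pow_le_pow_left₀ (by linarith) (by linarith) 6
    have h2 : (2 * Y) ^ 6 = 64 * Y ^ 6 := by ring
    rw [h2] at h1
    have h3 := mul_le_mul_of_nonneg_left h1 hn0
    linarith
  have g1' : (54 * m : ℝ) ≤ 2 ^ κ := by exact_mod_cast g1
  have g2' : ((E : ℝ) * (64 * n + 1 + C)) ≤ 2 ^ a2 := by exact_mod_cast g2
  have h3 : ((E * (T + C) : ℕ) : ℝ) ≤ Y ^ (a2 + 6) := by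
    have k2 : (C : ℝ) ≤ C * Y ^ 6 := by nlinarith
    push_cast
    calc (E : ℝ) * (T + C) ≤ E * ((64 * n + 1) * Y ^ 6 + C * Y ^ 6) := by
          apply mul_le_mul_of_nonneg_left _ hE0
          linarith
      _ = (E * (64 * n + 1 + C)) * Y ^ 6 := by ring
      _ ≤ 2 ^ a2 * Y ^ 6 := mul_le_mul_of_nonneg_right g2' (by positivity)
      _ ≤ Y ^ a2 * Y ^ 6 := mul_le_mul_of_nonneg_right (hpow a2) (by positivity)
      _ = Y ^ (a2 + 6) := by rw [pow_add]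
  have hHb : (H : ℝ) ≤ Y ^ ((a2 + 6) * E) := by
    have h2 : H ≤ (E * (T + C)) ^ E := by
      rw [hH, mul_pow]
      exact Nat.mul_le_mul_right _ (Nat.factorial_le_pow _)
    calc (H : ℝ) ≤ (((E * (T + C)) ^ E : ℕ) : ℝ) := Nat.cast_le.2 h2
      _ = ((E * (T + C) : ℕ) : ℝ) ^ E := Nat.cast_pow _ _
      _ ≤ (Y ^ (a2 + 6)) ^ E := pow_le_pow_left₀ (Nat.cast_nonneg _) h3 _
      _ = _ := by rw [← pow_mul]
  have h54 : 6 * ((m : ℝ) * (Y + 4) ^ 2) ≤ Y ^ (κ + 2) := by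
    have k2 : (Y + 4) ^ 2 ≤ 9 * Y ^ 2 := by nlinarith
    calc 6 * ((m : ℝ) * (Y + 4) ^ 2) ≤ 6 * (m * (9 * Y ^ 2)) := by
          apply mul_le_mul_of_nonneg_left _ (by norm_num)
          exact mul_le_mul_of_nonneg_left k2 hm0
      _ = (54 * m) * Y ^ 2 := by ring
      _ ≤ 2 ^ κ * Y ^ 2 := mul_le_mul_of_nonneg_right g1' (by positivity)
      _ ≤ Y ^ κ * Y ^ 2 := mul_le_mul_of_nonneg_right (hpow κ) (by positivity)
      _ = _ := by rw [pow_add]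
  calc 6 * (H : ℝ) * (m * (Y + 4) ^ 2) = (H : ℝ) * (6 * (m * (Y + 4) ^ 2)) := by ring
    _ ≤ Y ^ ((a2 + 6) * E) * Y ^ (κ + 2) :=
        mul_le_mul hHb h54 (by positivity) (by positivity)
    _ = Y ^ (κ + 2 + (a2 + 6) * E) := by rw [← pow_add, add_comm]
    _ < _ := pow_lt_pow_right₀ hY1 g3

theorem growth (n m T : ℕ) (Y : ℝ) (hY : 2 < Y) (hT : (T : ℝ) ≤ n * (Y + 2) ^ 6 + 2) :
    6 * (Hb n 5 T (9 * m) : ℝ) * (m * (Y + 4) ^ 2) < Y ^ 2 ^ (5 * n + 5 * m + 40 + 1) := by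
  obtain ⟨g1, g2, g3⟩ := growth_nat n m
  exact growth_aux (5 ^ n) n m T _ _ _ _ _ g1 g2 g3 rfl Y hY hT

end Pool.Agent.H625R2
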