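import Pool.Agent.H625R2.UnitN
import Pool.Agent.H625R2.GCodeX
import Mathlib.Analysis.SpecialFunctions.Arcosh

/-!
# Unit ball graphs in hyperbolic space: definitions
-/

namespace Pool.Agent.NPC.ER.Pat

open Pool.Agent.NPC
open scoped RealInnerProductSpace

/-- Hyperbolic space `ℍ^d` of constant curvature `-1`, hyperboloid model: the points `(t, x)` of
`ℝ × ℝ^d` with `t > 0` and `t ^ 2 - ‖x‖ ^ 2 = 1`. -/
abbrev Hyp (d : ℕ) : Type :=
  {p : ℝ × EuclideanSpace ℝ (Fin d) // 0 < p.1 ∧ p.1 ^ 2 - ‖p.2‖ ^ 2 = 1}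

/-- The Lorentz product. -/
noncomputable def lor {d : ℕ} (p q : Hyp d) : ℝ := p.1.1 * q.1.1 - ⟪p.1.2, q.1.2⟫

/-- The hyperbolic distance: `cosh ρ(p, q)` is the Lorentz product of `p` and `q`. -/
noncomputable def hdist {d : ℕ} (p q : Hyp d) : ℝ := Real.arcosh (lor p q)

/-- `G` is a unit ball graph in `ℍ^d`: there are a radius `r > 0` and centres such that two
distinct vertices are adjacent if and only if the hyperbolic distance of their centres is at most
`2 * r`. -/
def IsHypUBG (d : ℕ) {V : Type} (G : SimpleGraph V) : Prop :=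
  ∃ (r : ℝ) (c : V → Hyp d), 0 < r ∧ ∀ u v, u ≠ v → (G.Adj u v ↔ hdist (c u) (c v) ≤ 2 * r)

end Pool.Agent.NPC.ER.Pat
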