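import Pool.Agent.H625R2.HypG
import Pool.Agent.H625R2.BallFin
import Pool.Agent.H612.HypPts
import Pool.Agent.H612.PatOf

/-!
# Recognition of unit ball graphs in hyperbolic space: completeness
-/

namespace Pool.Agent.NPC.ER.Pat

open Pool.Agent.NPC

/-- The decision problem `UBG(ℍ^d)`: the set of the codes of the unit ball graphs in `ℍ^d`. -/
def UBGH (d : ℕ) : Set (List Bool) := lang fun g : GCode => g.WF ∧ IsHypUBG d g.graph

theorem hyp_mem (d : ℕ) : InER (UBGH d) :=
  H670R2.InER.of_poly (poly_hypF d) (hypF_correct d)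

theorem hypG_of_SRN {k m : ℕ} {M : List (List Bool)} (hM : Rect m M) (h : SRN (k + 1) M) :
    IsHypUBG (k + 1) (hypG M).graph := by
  obtain ⟨P, A, B, h1, h2, h3⟩ := hyp_points h (wid M)
  exact hypG_of_points hM (by norm_num) P A B h1 h2 h3

theorem hyp_hard_of {patOf : List Con → Pat} (h : IsPatOf patOf) (k : ℕ) :
    ERHard (UBGH (k + 2)) := by
  refine ERHard.of_sys (f := fun S => hypG (matOf patOf k S))
    (poly_hypG.comp (h.poly_matOf k)) fun S => ?_
  obtain ⟨m, hm⟩ := rect_matOf patOf k S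
  constructor
  · intro hS
    exact ⟨gOf_wf _ _, hypG_of_SRN hm (h.srn hS)⟩
  · rintro ⟨-, hS⟩
    exact h.sat (SR_of_hypG hm hS)

theorem isPatOf : IsPatOf Sgn.patOf where
  poly := Sgn.poly_patOf Poly.id
  wf := Sgn.patOf_wf
  sound := fun _ h => Sgn.patOf_sound h
  complete := fun _ h => Sgn.patOf_complete h

theorem hyp_complete {d : ℕ} (hd : 2 ≤ d) : ERComplete (UBGH d) := by
  obtain ⟨k, rfl⟩ := Nat.exists_eq_add_of_le' hd
  exact ⟨hyp_mem _, hyp_hard_of isPatOf k⟩

end Pool.Agent.NPC.ER.Pat
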