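import Pool.Agent.H625R2.HypDefs
import Pool.Agent.H625R2.BallMem

/-!
# Unit ball graphs in hyperbolic space: the graph, soundness, polynomial time
-/

namespace Pool.Agent.NPC.ER.Pat

open Pool.Agent.NPC Pool.Agent.NPC.H670R2
open scoped RealInnerProductSpace

/-! ### The graph -/

/-- Adjacency of the vertices `(t, i)` and `(t', i')` for `t ≤ t'`. -/
def adjH (M : List (List Bool)) (t i t' i' : ℕ) : Bool :=
  if t = t' then true else
  if t = 0 then (if t' = 1 then ent M i i' else !ent M i i') else false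

/-- Adjacency. -/
def adjHB (M : List (List Bool)) (a b : ℕ) : Bool :=
  if a % 3 ≤ b % 3 then adjH M (a % 3) (a / 3) (b % 3) (b / 3)
  else adjH M (b % 3) (b / 3) (a % 3) (a / 3)

/-- The vertices. -/
def vtxH (M : List (List Bool)) : List ℕ :=
  (List.range M.length).map (fun i => 3 * i) ++ (List.range (wid M)).flatMap fun j =>
    [3 * j + 1, 3 * j + 2]

/-- The graph of the matrix `M`. -/
def hypG (M : List (List Bool)) : GCode := gOf (vtxH M) (adjHB M)

/-- Valid labels. -/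
def VH (M : List (List Bool)) (t i : ℕ) : Prop :=
  (t = 0 ∧ i < M.length) ∨ (1 ≤ t ∧ t ≤ 2 ∧ i < wid M)

theorem VH_of_mem {M : List (List Bool)} {a : ℕ} (h : a ∈ vtxH M) : VH M (a % 3) (a / 3) := by
  unfold vtxH at h
  simp only [List.mem_cons, List.mem_append, List.mem_map, List.mem_range, List.mem_flatMap,
    List.not_mem_nil, or_false] at h
  unfold VH
  rcases h with ⟨i, hi, rfl⟩ | ⟨j, hj, h | h⟩
  · left; exact ⟨by omega, by omega⟩
  all_goals
    right
    refine ⟨by omega, by omega, ?_⟩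
    have : a / 3 = j := by omega
    omega

theorem mem_of_VH {M : List (List Bool)} {t i : ℕ} (h : VH M t i) : 3 * i + t ∈ vtxH M := by
  unfold vtxH
  simp only [List.mem_cons, List.mem_append, List.mem_map, List.mem_range, List.mem_flatMap,
    List.not_mem_nil, or_false]
  rcases h with ⟨rfl, hi⟩ | ⟨h1, h2, h3⟩
  · left; exact ⟨i, hi, rfl⟩
  · right
    refine ⟨i, h3, ?_⟩
    omega

theorem adjHB_comm (M : List (List Bool)) {a b : ℕ} (h : a ≠ b) : adjHB M a b = adjHB M b a := by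
  unfold adjHB
  rcases lt_trichotomy (a % 3) (b % 3) with h1 | h1 | h1
  · rw [if_pos h1.le, if_neg (by omega)]
  · rw [if_pos h1.le, if_pos h1.ge, h1]
    simp [adjH]
  · rw [if_neg (by omega), if_pos h1.le]

theorem adjHB_lab (M : List (List Bool)) {t i t' i' : ℕ} (h1 : t < 3) (h2 : t' < 3)
    (h : t ≤ t') : adjHB M (3 * i + t) (3 * i' + t') = adjH M t i t' i' := by
  have e1 : (3 * i + t) % 3 = t := by omega
  have e2 : (3 * i' + t') % 3 = t' := by omega
  have e3 : (3 * i + t) / 3 = i := by omega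
  have e4 : (3 * i' + t') / 3 = i' := by omega
  unfold adjHB
  rw [e1, e2, e3, e4, if_pos h]

theorem lor_comm {d : ℕ} (p q : Hyp d) : lor p q = lor q p := by
  unfold lor
  rw [real_inner_comm, mul_comm]

instance (d : ℕ) : Nonempty (Hyp d) := ⟨⟨(1, 0), by norm_num⟩⟩

theorem lor_ge_one {d : ℕ} (p q : Hyp d) : 1 ≤ lor p q := by
  obtain ⟨⟨t, x⟩, h1, h2⟩ := p
  obtain ⟨⟨s, y⟩, h3, h4⟩ := q
  unfold lor
  simp only at h1 h2 h3 h4 ⊢
  have h5 := real_inner_le_norm x y
  have h6 : 1 + ‖x‖ * ‖y‖ ≤ t * s := by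
    apply le_of_sq_le_sq _ (by positivity)
    have e1 : t ^ 2 = 1 + ‖x‖ ^ 2 := by linarith
    have e2 : s ^ 2 = 1 + ‖y‖ ^ 2 := by linarith
    rw [mul_pow, e1, e2]
    nlinarith [sq_nonneg (‖x‖ - ‖y‖)]
  linarith

theorem hdist_le_iff {d : ℕ} (p q : Hyp d) {r : ℝ} (hr : 0 < r) :
    hdist p q ≤ 2 * r ↔ lor p q ≤ Real.cosh (2 * r) := by
  unfold hdist
  have h1 := lor_ge_one p q
  rw [← Real.arcosh_le_arcosh (by linarith) (Real.cosh_pos _), Real.arcosh_cosh (by linarith)]

theorem isHypUBG_iff {d : ℕ} {V : Type} (G : SimpleGraph V) :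
    IsHypUBG d G ↔ ∃ κ : ℝ, 1 < κ ∧ ∃ c : V → Hyp d, ∀ u v, u ≠ v →
      (G.Adj u v ↔ lor (c u) (c v) ≤ κ) := by
  constructor
  · rintro ⟨r, c, hr, h⟩
    refine ⟨Real.cosh (2 * r), Real.one_lt_cosh.2 (by linarith), c, fun u v huv => ?_⟩
    rw [h u v huv, hdist_le_iff _ _ hr]
  · rintro ⟨κ, hκ, c, h⟩
    have h1 := Real.arcosh_pos hκ
    refine ⟨Real.arcosh κ / 2, c, by linarith, fun u v huv => ?_⟩
    rw [h u v huv, hdist_le_iff _ _ (by linarith),
      show 2 * (Real.arcosh κ / 2) = Real.arcosh κ by ring, Real.cosh_arcosh hκ.le]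

theorem hypG_iff {d : ℕ} (M : List (List Bool)) :
    IsHypUBG d (hypG M).graph ↔ ∃ κ : ℝ, 1 < κ ∧ ∃ F : ℕ → ℕ → Hyp d, ∀ t i t' i', VH M t i →
      VH M t' i' → t ≤ t' → (t = t' → i ≠ i') →
        (adjH M t i t' i' = true ↔ lor (F t i) (F t' i') ≤ κ) := by
  rw [isHypUBG_iff]
  refine exists_congr fun κ => and_congr_right fun hκ => ?_
  have hsy : ∀ x y : Hyp d, lor x y ≤ κ → lor y x ≤ κ := fun x y h => by rwa [lor_comm]
  refine (gOf_real (fun x y : Hyp d => lor x y ≤ κ) hsy (vtxH M) (adjHB M)).trans ?_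
  have hlt : ∀ {t i}, VH M t i → t < 3 := by
    rintro t i (⟨rfl, -⟩ | ⟨-, h, -⟩) <;> omega
  constructor
  · rintro ⟨c, hc⟩
    refine ⟨fun t i => c (3 * i + t), fun t i t' i' h1 h2 h3 h4 => ?_⟩
    have l1 := hlt h1
    have l2 := hlt h2
    rw [← adjHB_lab M l1 l2 h3]
    have hne : 3 * i + t ≠ 3 * i' + t' := by
      intro h
      have e1 : t = t' := by omega
      exact h4 e1 (by omega)
    rcases lt_or_gt_of_ne hne with h | h
    · exact hc _ (mem_of_VH h1) _ (mem_of_VH h2) h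
    · rw [adjHB_comm M hne]
      refine (hc _ (mem_of_VH h2) _ (mem_of_VH h1) h).trans ?_
      exact ⟨hsy _ _, hsy _ _⟩
  · rintro ⟨F, hF⟩
    refine ⟨fun a => F (a % 3) (a / 3), fun a ha b hb hab => ?_⟩
    have h1 := VH_of_mem ha
    have h2 := VH_of_mem hb
    unfold adjHB
    split_ifs with h
    · exact hF _ _ _ _ h1 h2 h (by omega)
    · rw [hF _ _ _ _ h2 h1 (by omega) (by omega)]
      exact ⟨hsy _ _, hsy _ _⟩

theorem SR_of_hypG {d m : ℕ} {M : List (List Bool)} (hM : Rect m M)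
    (h : IsHypUBG d (hypG M).graph) : SR (d + 1) M := by
  obtain ⟨κ, hκ, F, hF⟩ := (hypG_iff M).1 h
  refine ⟨fun i => Fin.cons (α := fun _ => ℝ) (F 0 i).1.1 fun l => (F 0 i).1.2 l,
    fun j => Fin.cons (α := fun _ => ℝ) ((F 2 j).1.1 - (F 1 j).1.1)
      fun l => (F 1 j).1.2 l - (F 2 j).1.2 l, fun i hi j hj => ?_⟩
  have hj' := hj
  rw [wid_eq hM hi] at hj'
  have e : (Fin.cons (α := fun _ => ℝ) (F 0 i).1.1 fun l => (F 0 i).1.2 l) ⬝ᵥ
      (Fin.cons (α := fun _ => ℝ) ((F 2 j).1.1 - (F 1 j).1.1)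
      fun l => (F 1 j).1.2 l - (F 2 j).1.2 l) = lor (F 0 i) (F 2 j) - lor (F 0 i) (F 1 j) := by
    rw [dotProduct, Fin.sum_univ_succ]
    simp only [Fin.cons_zero, Fin.cons_succ, lor, PiLp.inner_apply, RCLike.inner_apply,
      conj_trivial]
    have : ∑ l, (F 0 i).1.2 l * ((F 1 j).1.2 l - (F 2 j).1.2 l) =
        ∑ l, (F 1 j).1.2 l * (F 0 i).1.2 l - ∑ l, (F 2 j).1.2 l * (F 0 i).1.2 l := by
      rw [← Finset.sum_sub_distrib]
      exact Finset.sum_congr rfl fun l _ => by ring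
    rw [this]
    ring
  rw [e]
  have h0 : VH M 0 i := Or.inl ⟨rfl, hi⟩
  have b1 := hF 0 i 1 j h0 (Or.inr ⟨by omega, by omega, hj'⟩) (by omega) (by omega)
  have b2 := hF 0 i 2 j h0 (Or.inr ⟨by omega, by omega, hj'⟩) (by omega) (by omega)
  have e1 : adjH M 0 i 1 j = M[i][j] := by simp [adjH, ent_eq hi hj]
  have e2 : adjH M 0 i 2 j = !M[i][j] := by simp [adjH, ent_eq hi hj]
  rw [e1] at b1
  rw [e2] at b2
  cases hb : M[i][j]
  · rw [hb] at b1 b2
    have c1 : ¬ lor (F 0 i) (F 1 j) ≤ κ := fun h => by simpa using b1.2 h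
    have c2 : lor (F 0 i) (F 2 j) ≤ κ := b2.1 rfl
    rw [sgn_false]
    linarith
  · rw [hb] at b1 b2
    have c1 : lor (F 0 i) (F 1 j) ≤ κ := b1.1 rfl
    have c2 : ¬ lor (F 0 i) (F 2 j) ≤ κ := fun h => by simpa using b2.2 h
    rw [sgn_true]
    linarith

/-- From points to the graph. -/
theorem hypG_of_points {d m : ℕ} {M : List (List Bool)} (hM : Rect m M) {κ : ℝ} (hκ : 1 < κ)
    (P A B : ℕ → Hyp d)
    (h1 : ∀ i < M.length, ∀ i' < M.length, lor (P i) (P i') ≤ κ)
    (h2 : ∀ j < wid M, ∀ j' < wid M, lor (A j) (A j') ≤ κ ∧ lor (B j) (B j') ≤ κ ∧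
      κ < lor (A j) (B j'))
    (h3 : ∀ i (hi : i < M.length) j (hj : j < M[i].length),
      (M[i][j] = true → lor (P i) (A j) ≤ κ ∧ κ < lor (P i) (B j)) ∧
      (M[i][j] = false → κ < lor (P i) (A j) ∧ lor (P i) (B j) ≤ κ)) :
    IsHypUBG d (hypG M).graph := by
  rw [hypG_iff]
  refine ⟨κ, hκ, fun t i => if t = 0 then P i else if t = 1 then A i else B i,
    fun t i t' i' hv hv' htt hne => ?_⟩
  rcases hv with ⟨rfl, hi⟩ | ⟨v1, v2, hi⟩
  · rcases hv' with ⟨rfl, hi'⟩ | ⟨v1', v2', hi'⟩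
    · simp only [adjH, if_true]
      exact ⟨fun _ => h1 i hi i' hi', fun _ => trivial⟩
    · have hj : i' < M[i].length := by rw [wid_eq hM hi]; exact hi'
      obtain ⟨g1, g2⟩ := h3 i hi i' hj
      interval_cases t'
      · have e1 : adjH M 0 i 1 i' = M[i][i'] := by simp [adjH, ent_eq hi hj]
        rw [e1]
        simp only [if_true, one_ne_zero, if_false]
        constructor
        · exact fun h => (g1 h).1
        · intro h
          by_contra h4
          exact absurd (g2 (by simpa using h4)).1 (not_lt.2 h)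
      · have e1 : adjH M 0 i 2 i' = !M[i][i'] := by simp [adjH, ent_eq hi hj]
        rw [e1]
        have n2 : (2 : ℕ) ≠ 0 := by decide
        have n3 : (2 : ℕ) ≠ 1 := by decide
        simp only [if_true, if_neg n2, if_neg n3]
        constructor
        · intro h
          exact (g2 (by simpa using h)).2
        · intro h
          by_contra h4
          exact absurd (g1 (by simpa using h4)).2 (not_lt.2 h)
  · rcases hv' with ⟨rfl, hi'⟩ | ⟨v1', v2', hi'⟩
    · omega
    · obtain ⟨g1, g2, g3⟩ := h2 i hi i' hi'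
      have n2 : (2 : ℕ) ≠ 0 := by decide
      have n3 : (2 : ℕ) ≠ 1 := by decide
      interval_cases t <;> interval_cases t'
      · simp only [adjH, if_true, one_ne_zero, if_false]
        exact ⟨fun _ => g1, fun _ => trivial⟩
      · have e1 : adjH M 1 i 2 i' = false := by simp [adjH]
        rw [e1]
        simp only [if_true, one_ne_zero, if_false, if_neg n2, if_neg n3]
        constructor
        · intro h; exact absurd h (by simp)
        · intro h; exact absurd g3 (not_lt.2 h)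
      · simp only [adjH, if_true, if_neg n2, if_neg n3]
        exact ⟨fun _ => g2, fun _ => trivial⟩

/-! ### Polynomial time -/

theorem poly_adjH {α : Type} [TEnc α] {M : α → List (List Bool)} {t i t' i' : α → ℕ}
    (hM : Poly M) (ht : Poly t) (hi : Poly i) (ht' : Poly t') (hi' : Poly i') :
    Poly (fun a => adjH (M a) (t a) (i a) (t' a) (i' a)) := by
  unfold adjH
  exact Poly.ite (Poly.decide_eq ht ht') (Poly.const _) (Poly.ite
    (Poly.decide_eq ht (Poly.const _)) (Poly.ite (Poly.decide_eq ht' (Poly.const _))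
      (poly_ent hM hi hi') (Poly.not (poly_ent hM hi hi'))) (Poly.const _))

theorem poly_adjHB : Poly (fun p : (List (List Bool) × ℕ) × ℕ => adjHB p.1.1 p.1.2 p.2) := by
  unfold adjHB
  have hM : Poly (fun p : (List (List Bool) × ℕ) × ℕ => p.1.1) := Poly.fst (Poly.fst Poly.id)
  have ha : Poly (fun p : (List (List Bool) × ℕ) × ℕ => p.1.2) := Poly.snd (Poly.fst Poly.id)
  have hb : Poly (fun p : (List (List Bool) × ℕ) × ℕ => p.2) := Poly.snd Poly.id
  have ha1 := Poly.mod ha (Poly.const 3)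
  have ha2 := Poly.div ha (Poly.const 3)
  have hb1 := Poly.mod hb (Poly.const 3)
  have hb2 := Poly.div hb (Poly.const 3)
  exact Poly.ite (Poly.decide_le ha1 hb1) (poly_adjH hM ha1 ha2 hb1 hb2)
    (poly_adjH hM hb1 hb2 ha1 ha2)

theorem poly_vtxH : Poly vtxH := by
  unfold vtxH
  refine Poly.append (Poly.map (F := fun _ i => 3 * i)
    (Poly.range_length Poly.id) (Poly.mul (Poly.const 3) (Poly.snd Poly.id)))
    (Poly.flatMap (F := fun _ j => [3 * j + 1, 3 * j + 2]) (upoly_wid Poly.id).range ?_)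
  have h : Poly (fun p : List (List Bool) × ℕ => 3 * p.2) :=
    Poly.mul (Poly.const 3) (Poly.snd Poly.id)
  exact Poly.cons (Poly.add h (Poly.const 1)) (Poly.cons (Poly.add h (Poly.const 2))
    (Poly.const []))

theorem poly_hypG : Poly hypG := poly_gOf (adj := adjHB) poly_vtxH poly_adjHB

/-! ### Membership -/

/-- The square of the norm of the first `k` coordinates. -/
def nrmT (D : ℕ) : ℕ → ℕ → Tm
  | 0, _ => Tm.zero
  | k + 1, u => Tm.add (nrmT D k u) (Tm.mul (Tm.var (u * D + k)) (Tm.var (u * D + k)))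

/-- The inner product of the first `k` coordinates. -/
def innT (D : ℕ) : ℕ → ℕ → ℕ → Tm
  | 0, _, _ => Tm.zero
  | k + 1, u, v => Tm.add (innT D k u v) (Tm.mul (Tm.var (u * D + k)) (Tm.var (v * D + k)))

theorem innT_eval (D : ℕ) (x : ℕ → ℝ) (k u v : ℕ) :
    (innT D k u v).eval x = ∑ i ∈ Finset.range k, x (u * D + i) * x (v * D + i) := by
  induction k with
  | zero => rfl
  | succ k ih =>
    rw [Finset.sum_range_succ, ← ih]
    simp only [innT, Tm.eval]

theorem poly_innT {α : Type} [TEnc α] {u v : α → ℕ} (hu : Poly u) (hv : Poly v) (D k : ℕ) :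
    Poly (fun a => innT D k (u a) (v a)) := by
  induction k with
  | zero => exact Poly.const _
  | succ k ih =>
    have h1 : Poly (fun a => u a * D + k) := Poly.add (Poly.mul hu (Poly.const D)) (Poly.const k)
    have h2 : Poly (fun a => v a * D + k) := Poly.add (Poly.mul hv (Poly.const D)) (Poly.const k)
    exact poly_tadd ih (poly_tmul (poly_tvar h1) (poly_tvar h2))

/-- The spatial part of the point of a vertex. -/
noncomputable def ofH (d : ℕ) (x : ℕ → ℝ) (u : ℕ) : EuclideanSpace ℝ (Fin d) :=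
  WithLp.toLp 2 fun i : Fin d => x (u * (d + 2) + i)

theorem innT_ofH (d : ℕ) (x : ℕ → ℝ) (u v : ℕ) :
    (innT (d + 2) d u v).eval x = ⟪ofH d x u, ofH d x v⟫ := by
  rw [innT_eval, PiLp.inner_apply, Finset.sum_range]
  refine Finset.sum_congr rfl fun i _ => ?_
  simp [ofH, mul_comm]

/-- The time coordinate. -/
def tmT (d u : ℕ) : Tm := Tm.var (u * (d + 2) + d)

/-- The threshold, as stored with a vertex. -/
def kpT (d u : ℕ) : Tm := Tm.var (u * (d + 2) + (d + 1))

/-- The Lorentz product. -/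
def lorT (d u v : ℕ) : Tm := Tm.add (Tm.mul (tmT d u) (tmT d v)) (Tm.neg (innT (d + 2) d u v))

/-- The conditions on one vertex. -/
def hvF (d u : ℕ) : Fm :=
  Fm.and (Fm.lt Tm.one (kpT d u)) (Fm.and (Fm.lt Tm.zero (tmT d u)) (Fm.eq (lorT d u u) Tm.one))

/-- The formula of UBG. -/
def hypF (d : ℕ) (g : GCode) : Fm :=
  if g.WF then Fm.and (vertF (hvF d) g)
    (pairF (fun u v => Fm.and (Fm.eq (kpT d u) (kpT d v)) (Fm.le (lorT d u v) (kpT d u)))
      (fun u v => Fm.and (Fm.eq (kpT d u) (kpT d v)) (Fm.lt (kpT d u) (lorT d u v))) g) else ff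

section

variable {α : Type} [TEnc α]

theorem poly_tmT {u : α → ℕ} (hu : Poly u) (d : ℕ) : Poly (fun a => tmT d (u a)) :=
  poly_tvar (Poly.add (Poly.mul hu (Poly.const _)) (Poly.const _))

theorem poly_kpT {u : α → ℕ} (hu : Poly u) (d : ℕ) : Poly (fun a => kpT d (u a)) :=
  poly_tvar (Poly.add (Poly.mul hu (Poly.const _)) (Poly.const _))

theorem poly_lorT {u v : α → ℕ} (hu : Poly u) (hv : Poly v) (d : ℕ) :
    Poly (fun a => lorT d (u a) (v a)) :=
  poly_tadd (poly_tmul (poly_tmT hu d) (poly_tmT hv d)) (poly_tneg (poly_innT hu hv _ _))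

end

theorem poly_hypF (d : ℕ) : Poly (hypF d) := by
  have hu : Poly (fun p : ℕ × ℕ => p.1) := Poly.fst Poly.id
  have hv : Poly (fun p : ℕ × ℕ => p.2) := Poly.snd Poly.id
  have h1 : Poly (fun p : ℕ × ℕ => Fm.and (Fm.eq (kpT d p.1) (kpT d p.2))
      (Fm.le (lorT d p.1 p.2) (kpT d p.1))) :=
    poly_and (poly_eq (poly_kpT hu d) (poly_kpT hv d)) (poly_le (poly_lorT hu hv d)
      (poly_kpT hu d))
  have h2 : Poly (fun p : ℕ × ℕ => Fm.and (Fm.eq (kpT d p.1) (kpT d p.2))
      (Fm.lt (kpT d p.1) (lorT d p.1 p.2))) :=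
    poly_and (poly_eq (poly_kpT hu d) (poly_kpT hv d)) (poly_lt (poly_kpT hu d)
      (poly_lorT hu hv d))
  have h3 : Poly (hvF d) :=
    poly_and (poly_lt (Poly.const _) (poly_kpT Poly.id d)) (poly_and (poly_lt (Poly.const _)
      (poly_tmT Poly.id d)) (poly_eq (poly_lorT Poly.id Poly.id d) (Poly.const _)))
  refine (Poly.ite (poly_wf Poly.id) (poly_and (poly_vertF h3)
    (poly_pairF (F := fun u v => Fm.and (Fm.eq (kpT d u) (kpT d v)) (Fm.le (lorT d u v) (kpT d u)))
      (F' := fun u v => Fm.and (Fm.eq (kpT d u) (kpT d v)) (Fm.lt (kpT d u) (lorT d u v)))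
      h1 h2)) (Poly.const ff)).congr fun g => ?_
  unfold hypF
  by_cases h : g.WF <;> simp [h]

theorem exists_ofH {d : ℕ} {g : GCode} (c : g.V → Hyp d) (κ : ℝ) :
    ∃ x : ℕ → ℝ, ∀ v : g.V, ofH d x v.1 = (c v).1.2 ∧ x (v.1 * (d + 2) + d) = (c v).1.1 ∧
      x (v.1 * (d + 2) + (d + 1)) = κ := by
  obtain ⟨x, hx⟩ := exists_ofX (d := d + 2) (g := g) (fun v => WithLp.toLp 2
    (Fin.snoc (α := fun _ => ℝ) (Fin.snoc (α := fun _ => ℝ) (fun i => (c v).1.2 i) (c v).1.1) κ :
      Fin (d + 2) → ℝ))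
  refine ⟨x, fun v => ⟨?_, ?_, ?_⟩⟩
  · ext i
    have h := congrArg (fun p : EuclideanSpace ℝ (Fin (d + 2)) => p i.castSucc.castSucc) (hx v)
    simpa [ofX, ofH] using h
  · have h := congrArg (fun p : EuclideanSpace ℝ (Fin (d + 2)) => p (Fin.last d).castSucc) (hx v)
    simpa [ofX] using h
  · have h := congrArg (fun p : EuclideanSpace ℝ (Fin (d + 2)) => p (Fin.last (d + 1))) (hx v)
    simpa [ofX] using h

theorem hypF_correct (d : ℕ) (g : GCode) :
    (g.WF ∧ IsHypUBG d g.graph) ↔ ETR (hypF d g) := by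
  unfold hypF
  by_cases hg : g.WF
  · rw [if_pos hg, isHypUBG_iff]
    have hl : ∀ (x : ℕ → ℝ) (u v : ℕ), (lorT d u v).eval x =
        x (u * (d + 2) + d) * x (v * (d + 2) + d) - ⟪ofH d x u, ofH d x v⟫ := by
      intro x u v
      simp only [lorT, Tm.eval, tmT, innT_ofH]
      ring
    constructor
    · rintro ⟨-, κ, hκ, c, hc⟩
      obtain ⟨x, hx⟩ := exists_ofH c κ
      refine ⟨x, ?_⟩
      rw [Fm.Holds, holds_vertF, holds_pairF hg]
      have hl' : ∀ u v : g.V, (lorT d u.1 v.1).eval x = lor (c u) (c v) := by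
        intro u v
        rw [hl, (hx u).1, (hx v).1, (hx u).2.1, (hx v).2.1]
        rfl
      have hk : ∀ u : g.V, (kpT d u.1).eval x = κ := fun u => (hx u).2.2
      refine ⟨fun u => ?_, fun u v huv => ⟨fun h => ?_, fun h => ?_⟩⟩
      · simp only [hvF, Fm.Holds, hk, hl', Tm.eval, tmT, (hx u).2.1]
        refine ⟨hκ, (c u).2.1, ?_⟩
        have := (c u).2.2
        unfold lor
        rw [real_inner_self_eq_norm_sq, ← sq]
        exact this
      · simp only [Fm.Holds, hk, hl', true_and]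
        exact (hc u v huv).1 h
      · simp only [Fm.Holds, hk, hl', true_and]
        exact not_le.1 fun h' => h ((hc u v huv).2 h')
    · rintro ⟨x, hx⟩
      rw [Fm.Holds, holds_vertF, holds_pairF hg] at hx
      obtain ⟨h1, h2⟩ := hx
      refine ⟨hg, ?_⟩
      have hp : ∀ u : g.V, 0 < x (u.1 * (d + 2) + d) ∧
          x (u.1 * (d + 2) + d) ^ 2 - ‖ofH d x u.1‖ ^ 2 = 1 := by
        intro u
        obtain ⟨-, h3, h4⟩ := h1 u
        refine ⟨h3, ?_⟩
        have h5 : (lorT d u.1 u.1).eval x = 1 := h4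
        rw [hl, real_inner_self_eq_norm_sq] at h5
        linarith
      let c : g.V → Hyp d := fun u => ⟨(x (u.1 * (d + 2) + d), ofH d x u.1), hp u⟩
      have hl' : ∀ u v : g.V, (lorT d u.1 v.1).eval x = lor (c u) (c v) := fun u v => hl x _ _
      by_cases hne : Nonempty g.V
      · obtain ⟨u0⟩ := hne
        have hk : ∀ u : g.V, (kpT d u.1).eval x = (kpT d u0.1).eval x := by
          intro u
          by_cases h : u = u0
          · rw [h]
          · by_cases h' : g.graph.Adj u u0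
            · exact ((h2 u u0 h).1 h').1
            · exact ((h2 u u0 h).2 h').1
        refine ⟨(kpT d u0.1).eval x, (h1 u0).1, c, fun u v huv => ?_⟩
        rw [← hl', ← hk u]
        constructor
        · intro h
          exact ((h2 u v huv).1 h).2
        · intro h
          by_contra h'
          exact absurd ((h2 u v huv).2 h').2 (not_lt.2 h)
      · refine ⟨2, by norm_num, c, fun u => absurd ⟨u⟩ hne⟩
  · rw [if_neg hg]
    exact ⟨fun h => absurd h.1 hg, fun h => absurd h not_etr_ff⟩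

end Pool.Agent.NPC.ER.Pat
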