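import Pool.Agent.H625R2.Quart
import Pool.Agent.H625R2.Growth
import Pool.Agent.ER.Bounded

/-!
# Increasing straight-line programs

A program is a list of instructions `free`, `add i j`, `mul i j`.  The value number `0` is `1`, the
value number `t + 1` is given by the instruction number `t`; all values are required to be strictly
increasing.  Satisfiability of systems of constraints is reduced to the question whether such a
program has a realization.
-/

namespace Pool.Agent.NPC.ER.Shor

open Pool.Agent.H625R2

/-- Instructions: `(1, i, j)` is an addition, `(2, i, j)` a multiplication, `(0, _, _)` is free. -/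
abbrev Ins : Type := ℕ × ℕ × ℕ

/-- A free value. -/
def fr : Ins := (0, 0, 0)
/-- A sum. -/
def ad (i j : ℕ) : Ins := (1, i, j)
/-- A product. -/
def mu (i j : ℕ) : Ins := (2, i, j)

/-- The value number `t` obeys the instruction. -/
def IOk (v : ℕ → ℝ) (t : ℕ) (I : Ins) : Prop :=
  (I.1 = 1 → v t = v I.2.1 + v I.2.2) ∧ (I.1 = 2 → v t = v I.2.1 * v I.2.2)

theorem iok_fr (v : ℕ → ℝ) (t : ℕ) : IOk v t fr := by simp [IOk, fr]

theorem iok_ad (v : ℕ → ℝ) (t i j : ℕ) : IOk v t (ad i j) ↔ v t = v i + v j := by simp [IOk, ad]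

theorem iok_mu (v : ℕ → ℝ) (t i j : ℕ) : IOk v t (mu i j) ↔ v t = v i * v j := by simp [IOk, mu]

/-- The values from number `s` on obey the instructions of the list. -/
def Blk (v : ℕ → ℝ) (s : ℕ) (l : List Ins) : Prop := ∀ q (h : q < l.length), IOk v (s + q) l[q]

theorem blk_nil (v : ℕ → ℝ) (s : ℕ) : Blk v s [] := by intro q h; simp at h

theorem blk_append (v : ℕ → ℝ) (s : ℕ) (l l' : List Ins) :
    Blk v s (l ++ l') ↔ Blk v s l ∧ Blk v (s + l.length) l' := by
  constructor
  · intro h
    refine ⟨fun q hq => ?_, fun q hq => ?_⟩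
    · have := h q (by rw [List.length_append]; omega)
      rwa [List.getElem_append_left hq] at this
    · have := h (l.length + q) (by rw [List.length_append]; omega)
      rw [List.getElem_append_right (by omega)] at this
      simpa [add_assoc] using this
  · rintro ⟨h1, h2⟩ q hq
    by_cases h : q < l.length
    · rw [List.getElem_append_left h]
      exact h1 q h
    · rw [List.getElem_append_right (by omega)]
      have := h2 (q - l.length) (by rw [List.length_append] at hq; omega)
      rwa [show s + l.length + (q - l.length) = s + q by omega] at this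

theorem blk_cons (v : ℕ → ℝ) (s : ℕ) (I : Ins) (l : List Ins) :
    Blk v s (I :: l) ↔ IOk v s I ∧ Blk v (s + 1) l := by
  have := blk_append v s [I] l
  simp only [List.singleton_append, List.length_singleton] at this
  rw [this]
  constructor
  · rintro ⟨h1, h2⟩
    exact ⟨by simpa using h1 0 (by simp), h2⟩
  · rintro ⟨h1, h2⟩
    refine ⟨fun q hq => ?_, h2⟩
    simp only [List.length_singleton, Nat.lt_one_iff] at hq
    subst hq
    simpa using h1

/-- A realization of a program. -/
structure IReal (P : List Ins) (v : ℕ → ℝ) : Prop where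
  zero : v 0 = 1
  mono : ∀ t < P.length, v t < v (t + 1)
  blk : Blk v 1 P

/-- Indices of a program are smaller than the number of the value. Factors are not the value
number `0`. -/
def WF (P : List Ins) : Prop :=
  ∀ q (h : q < P.length), P[q].2.1 ≤ q ∧ P[q].2.2 ≤ q ∧ (P[q].1 = 2 → 1 ≤ P[q].2.2)

theorem IReal.lt {P : List Ins} {v : ℕ → ℝ} (h : IReal P v) {i j : ℕ} (hij : i < j)
    (hj : j ≤ P.length) : v i < v j := by
  induction j with
  | zero => omega
  | succ j ih =>
    have h1 := h.mono j (by omega)
    rcases Nat.lt_succ_iff_lt_or_eq.1 hij with h2 | rfl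
    · exact (ih h2 (by omega)).trans h1
    · exact h1

theorem IReal.one_le {P : List Ins} {v : ℕ → ℝ} (h : IReal P v) {j : ℕ} (hj : j ≤ P.length) :
    1 ≤ v j := by
  rcases Nat.eq_zero_or_pos j with rfl | h0
  · rw [h.zero]
  · rw [← h.zero]; exact (h.lt h0 hj).le

theorem IReal.le_last {P : List Ins} {v : ℕ → ℝ} (h : IReal P v) {j : ℕ} (hj : j ≤ P.length) :
    v j ≤ v P.length := by
  rcases hj.lt_or_eq with h0 | rfl
  · exact (h.lt h0 le_rfl).le
  · exact le_rfl

/-! ### Blocks -/

/-- Computes `(a - a') (b - b')` as `v (s + 9) + v (s + 6) - v (s + 7) - v (s + 8)`. -/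
def prodB (s a a' b b' : ℕ) : List Ins :=
  [fr, ad s a', ad s a, fr, ad (s + 3) b', ad (s + 3) b, mu (s + 1) (s + 4), mu (s + 1) (s + 5),
    mu (s + 2) (s + 4), mu (s + 2) (s + 5)]

/-- Adds the values with indices in the list to the value number `s`. -/
def chainB (s : ℕ) (l : List ℕ) : List Ins := (List.range l.length).map fun t => ad (s + t) (l.getD t 0)

/-- Asserts that the sum of the values with indices in `A` is smaller than the sum of the values
with indices in `B`. -/
def cmpB (s : ℕ) (A B : List ℕ) : List Ins :=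
  fr :: (chainB s A ++ fr :: (chainB (s + 1 + A.length) B ++
    [ad (s + A.length) (s + 1 + A.length), ad (s + 1 + A.length + B.length) s]))

theorem length_chainB (s : ℕ) (l : List ℕ) : (chainB s l).length = l.length := by simp [chainB]

theorem length_cmpB (s : ℕ) (A B : List ℕ) : (cmpB s A B).length = A.length + B.length + 4 := by
  simp [cmpB, length_chainB]; omega

theorem length_prodB (s a a' b b' : ℕ) : (prodB s a a' b b').length = 10 := rfl

theorem prodB_sound {v : ℕ → ℝ} {s a a' b b' : ℕ} (h : Blk v s (prodB s a a' b b')) :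
    v (s + 9) + v (s + 6) - v (s + 7) - v (s + 8) = (v a - v a') * (v b - v b') := by
  simp only [prodB, blk_cons, iok_ad, iok_mu, add_assoc, Nat.reduceAdd] at h
  obtain ⟨_, h1, h2, _, h4, h5, h6, h7, h8, h9, _⟩ := h
  rw [h6, h7, h8, h9, h1, h2, h4, h5]
  ring

theorem chainB_snoc (s : ℕ) (l : List ℕ) (a : ℕ) :
    chainB s (l ++ [a]) = chainB s l ++ [ad (s + l.length) a] := by
  unfold chainB
  rw [List.length_append, List.length_singleton, List.range_succ, List.map_append]
  congr 1
  · apply List.map_congr_left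
    intro t ht
    rw [List.mem_range] at ht
    rw [List.getD_append _ _ _ _ ht]
  · simp

theorem chainB_sound {v : ℕ → ℝ} {s : ℕ} {l : List ℕ} (h : Blk v (s + 1) (chainB s l)) :
    v (s + l.length) = v s + (l.map v).sum := by
  induction l using List.reverseRecOn with
  | nil => simp
  | append_singleton l a ih =>
    rw [chainB_snoc, blk_append, length_chainB, blk_cons, iok_ad] at h
    rw [List.length_append, List.length_singleton, ← add_assoc,
      show s + l.length + 1 = s + 1 + l.length by ring, h.2.1, ih h.1]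
    simp [add_assoc]

theorem cmpB_sound {v : ℕ → ℝ} {s : ℕ} {A B : List ℕ} (h : Blk v s (cmpB s A B))
    (hlt : v (s + (A.length + B.length + 2)) < v (s + (A.length + B.length + 3))) :
    (A.map v).sum < (B.map v).sum := by
  unfold cmpB at h
  rw [blk_cons, blk_append, blk_cons, blk_append, blk_cons, blk_cons, length_chainB, length_chainB,
    iok_ad, iok_ad] at h
  obtain ⟨_, h1, _, h2, h3, h4, _⟩ := h
  have h1' := chainB_sound h1
  rw [show s + 1 + A.length + 1 = (s + 1 + A.length) + 1 by ring] at h2
  have h2' := chainB_sound h2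
  rw [show s + (A.length + B.length + 2) = s + 1 + A.length + 1 + B.length by ring,
    show s + (A.length + B.length + 3) = s + 1 + A.length + 1 + B.length + 1 by ring, h3, h4,
    h1', h2'] at hlt
  linarith

/-! ### Extensions -/

/-- Well-formed realized programs. -/
def Good (P : List Ins) (v : ℕ → ℝ) : Prop := WF P ∧ IReal P v

/-- `v'` extends `v` to a longer program. -/
def Ext (P : List Ins) (v : ℕ → ℝ) (l : List Ins) (v' : ℕ → ℝ) : Prop :=
  (∀ t ≤ P.length, v' t = v t) ∧ Good (P ++ l) v'

theorem ext_of {P : List Ins} {v v' : ℕ → ℝ} {l : List Ins} (h : Good P v)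
    (hag : ∀ t ≤ P.length, v' t = v t)
    (hwf : ∀ q (h : q < l.length), l[q].2.1 ≤ P.length + q ∧ l[q].2.2 ≤ P.length + q ∧
      (l[q].1 = 2 → 1 ≤ l[q].2.2))
    (hmono : ∀ q < l.length, v' (P.length + q) < v' (P.length + q + 1))
    (hblk : Blk v' (P.length + 1) l) : Ext P v l v' := by
  refine ⟨hag, fun q hq => ?_, ⟨by rw [hag 0 (by omega)]; exact h.2.zero, fun t ht => ?_, ?_⟩⟩
  · by_cases hlt : q < P.length
    · rw [List.getElem_append_left hlt]
      exact h.1 q hlt
    · rw [List.getElem_append_right (by omega)]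
      have := hwf (q - P.length) (by rw [List.length_append] at hq; omega)
      rwa [show P.length + (q - P.length) = q by omega] at this
  · by_cases hlt : t < P.length
    · rw [hag t (by omega), hag (t + 1) (by omega)]
      exact h.2.mono t hlt
    · have := hmono (t - P.length) (by rw [List.length_append] at ht; omega)
      rwa [show P.length + (t - P.length) = t by omega] at this
  · rw [blk_append]
    refine ⟨fun q hq => ?_, by rwa [add_comm 1]⟩
    have h1 := h.2.blk q hq
    have h2 := h.1 q hq
    unfold IOk at *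
    rw [hag (1 + q) (by omega), hag _ (by omega), hag _ (by omega)]
    exact h1

theorem Ext.trans {P : List Ins} {v v' v'' : ℕ → ℝ} {l l' : List Ins} (h : Ext P v l v')
    (h' : Ext (P ++ l) v' l' v'') : Ext P v (l ++ l') v'' := by
  refine ⟨fun t ht => ?_, by rw [← List.append_assoc]; exact h'.2⟩
  rw [h'.1 t (by rw [List.length_append]; omega), h.1 t ht]

theorem Ext.good {P : List Ins} {v v' : ℕ → ℝ} {l : List Ins} (h : Ext P v l v') :
    Good (P ++ l) v' := h.2

theorem ext_single {P : List Ins} {v : ℕ → ℝ} {I : Ins} (h : Good P v) {x : ℝ}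
    (h1 : I.2.1 ≤ P.length) (h2 : I.2.2 ≤ P.length) (h3 : I.1 = 2 → 1 ≤ I.2.2)
    (hx : v P.length < x) (ha : I.1 = 1 → x = v I.2.1 + v I.2.2)
    (hm : I.1 = 2 → x = v I.2.1 * v I.2.2) :
    ∃ v', Ext P v [I] v' ∧ v' (P.length + 1) = x := by
  refine ⟨Function.update v (P.length + 1) x, ?_, by simp⟩
  have hag : ∀ t ≤ P.length, Function.update v (P.length + 1) x t = v t := by
    intro t ht
    rw [Function.update_of_ne (by omega)]
  refine ext_of h hag ?_ ?_ ?_
  · intro q hq
    simp only [List.length_singleton, Nat.lt_one_iff] at hq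
    subst hq
    simpa using ⟨h1, h2, h3⟩
  · intro q hq
    simp only [List.length_singleton, Nat.lt_one_iff] at hq
    subst hq
    simp only [add_zero]
    rw [hag _ le_rfl]
    simpa using hx
  · rw [blk_cons]
    refine ⟨?_, blk_nil _ _⟩
    unfold IOk
    rw [Function.update_self, hag _ h1, hag _ h2]
    exact ⟨ha, hm⟩

theorem ext_fr {P : List Ins} {v : ℕ → ℝ} (h : Good P v) {x : ℝ} (hx : v P.length < x) :
    ∃ v', Ext P v [fr] v' ∧ v' (P.length + 1) = x :=
  ext_single h (by simp [fr]) (by simp [fr]) (by simp [fr]) hx (by simp [fr]) (by simp [fr])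

theorem ext_ad {P : List Ins} {v : ℕ → ℝ} (h : Good P v) {i j : ℕ} (hi : i ≤ P.length)
    (hj : j ≤ P.length) (hx : v P.length < v i + v j) :
    ∃ v', Ext P v [ad i j] v' ∧ v' (P.length + 1) = v i + v j :=
  ext_single h (by simpa [ad] using hi) (by simpa [ad] using hj) (by simp [ad]) hx
    (by simp [ad]) (by simp [ad])

theorem ext_mu {P : List Ins} {v : ℕ → ℝ} (h : Good P v) {i j : ℕ} (hi : i ≤ P.length)
    (hj : j ≤ P.length) (hj1 : 1 ≤ j) (hx : v P.length < v i * v j) :
    ∃ v', Ext P v [mu i j] v' ∧ v' (P.length + 1) = v i * v j :=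
  ext_single h (by simpa [mu] using hi) (by simpa [mu] using hj) (by simpa [mu] using hj1) hx
    (by simp [mu]) (by simp [mu])

/-- Extension by free values. -/
theorem ext_frs {P : List Ins} {v : ℕ → ℝ} (h : Good P v) (m : ℕ) :
    ∃ v', Ext P v (List.replicate m fr) v' := by
  induction m with
  | zero =>
    refine ⟨v, fun _ _ => rfl, ?_⟩
    simpa using h
  | succ m ih =>
    obtain ⟨v', h'⟩ := ih
    obtain ⟨v'', h'', _⟩ := ext_fr h'.good (x := v' (P ++ List.replicate m fr).length + 1)
      (by linarith)
    refine ⟨v'', ?_⟩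
    have := h'.trans h''
    rwa [← List.replicate_succ'] at this

/-- Extension by a chain of additions. -/
theorem ext_chain {P : List Ins} {v : ℕ → ℝ} (h : Good P v) (l : List ℕ)
    (hl : ∀ a ∈ l, a ≤ P.length) :
    ∃ v', Ext P v (chainB P.length l) v' ∧
      v' (P.length + l.length) = v P.length + (l.map v).sum := by
  induction l using List.reverseRecOn with
  | nil =>
    refine ⟨v, ⟨fun _ _ => rfl, ?_⟩, by simp⟩
    simpa [chainB] using h
  | append_singleton l a ih =>
    obtain ⟨v', h', hv⟩ := ih (fun b hb => hl b (by simp [hb]))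
    have ha : a ≤ P.length := hl a (by simp)
    have hlen : (P ++ chainB P.length l).length = P.length + l.length := by
      rw [List.length_append, length_chainB]
    have hva : 0 < v' a := lt_of_lt_of_le one_pos (h'.good.2.one_le (by omega))
    obtain ⟨v'', h'', hv''⟩ := ext_ad h'.good (i := P.length + l.length) (j := a) (by omega)
      (by omega) (by rw [hlen]; linarith)
    refine ⟨v'', ?_, ?_⟩
    · rw [chainB_snoc]
      exact h'.trans h''
    · rw [hlen] at hv''
      rw [List.length_append, List.length_singleton, ← add_assoc, hv'', hv, h'.1 a ha]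
      simp [add_assoc]

theorem sum_map_congr {v v' : ℕ → ℝ} {l : List ℕ} (h : ∀ a ∈ l, v' a = v a) :
    (l.map v').sum = (l.map v).sum := by
  rw [List.map_congr_left h]

theorem sum_nonneg_of {P : List Ins} {v : ℕ → ℝ} (h : IReal P v) {l : List ℕ}
    (hl : ∀ a ∈ l, a ≤ P.length) : 0 ≤ (l.map v).sum := by
  apply List.sum_nonneg
  intro x hx
  rw [List.mem_map] at hx
  obtain ⟨a, ha, rfl⟩ := hx
  have := h.one_le (hl a ha)
  linarith

/-- Extension by a comparison. -/
theorem ext_cmp {P : List Ins} {v : ℕ → ℝ} (h : Good P v) {A B : List ℕ}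
    (hA : ∀ a ∈ A, a ≤ P.length) (hB : ∀ a ∈ B, a ≤ P.length)
    (hlt : (A.map v).sum < (B.map v).sum) : ∃ v', Ext P v (cmpB (P.length + 1) A B) v' := by
  have hA0 := sum_nonneg_of h.2 hA
  have hB0 := sum_nonneg_of h.2 hB
  have hV := h.2.one_le le_rfl
  obtain ⟨v1, h1, e1⟩ := ext_fr h (x := v P.length + (B.map v).sum + 1) (by linarith)
  have l1 : (P ++ [fr]).length = P.length + 1 := by simp
  obtain ⟨v2, h2, e2⟩ := ext_chain h1.good A (fun a ha => by have := hA a ha; omega)
  rw [l1] at h2 e2
  have s1 : (A.map v1).sum = (A.map v).sum := sum_map_congr fun a ha => h1.1 a (hA a ha)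
  have l2 : (P ++ [fr] ++ chainB (P.length + 1) A).length = P.length + 1 + A.length := by
    rw [List.length_append, length_chainB, l1]
  rw [e1, s1] at e2
  obtain ⟨v3, h3, e3⟩ := ext_fr h2.good (x := v2 (P.length + 1 + A.length) + 1)
    (by rw [l2]; linarith)
  rw [l2] at e3
  have l3 : (P ++ [fr] ++ chainB (P.length + 1) A ++ [fr]).length = P.length + 1 + A.length + 1 := by
    rw [List.length_append, l2]; rfl
  obtain ⟨v4, h4, e4⟩ := ext_chain h3.good B (fun a ha => by have := hB a ha; omega)
  rw [l3] at h4 e4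
  have s3 : (B.map v3).sum = (B.map v).sum := sum_map_congr fun a ha => by
    have := hB a ha
    rw [h3.1 a (by omega), h2.1 a (by omega), h1.1 a this]
  rw [e3, s3, e2] at e4
  have l4 : (P ++ [fr] ++ chainB (P.length + 1) A ++ [fr] ++
      chainB (P.length + 1 + A.length + 1) B).length = P.length + 1 + A.length + 1 + B.length := by
    rw [List.length_append, length_chainB, l3]
  have k1 : v4 (P.length + 1 + A.length) = v P.length + (B.map v).sum + 1 + (A.map v).sum := by
    rw [h4.1 _ (by omega), h3.1 _ (by omega), e2]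
  have k2 : v4 (P.length + 1 + A.length + 1) =
      v P.length + (B.map v).sum + 1 + (A.map v).sum + 1 := by
    rw [h4.1 _ (by omega), e3, e2]
  have k3 : v4 (P.length + 1) = v P.length + (B.map v).sum + 1 := by
    rw [h4.1 _ (by omega), h3.1 _ (by omega), h2.1 _ (by omega), e1]
  obtain ⟨v5, h5, e5⟩ := ext_ad h4.good (i := P.length + 1 + A.length)
    (j := P.length + 1 + A.length + 1) (by omega) (by omega)
    (by rw [l4, e4, k1, k2]; linarith)
  rw [l4, k1, k2] at e5
  have l5 : (P ++ [fr] ++ chainB (P.length + 1) A ++ [fr] ++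
      chainB (P.length + 1 + A.length + 1) B ++ [ad (P.length + 1 + A.length)
        (P.length + 1 + A.length + 1)]).length = P.length + 1 + A.length + 1 + B.length + 1 := by
    rw [List.length_append, l4]; rfl
  have k4 : v5 (P.length + 1 + A.length + 1 + B.length) =
      v P.length + (B.map v).sum + 1 + (A.map v).sum + 1 + (B.map v).sum := by
    rw [h5.1 _ (by omega), e4]
  have k5 : v5 (P.length + 1) = v P.length + (B.map v).sum + 1 := by
    rw [h5.1 _ (by omega), k3]
  obtain ⟨v6, h6, -⟩ := ext_ad h5.good (i := P.length + 1 + A.length + 1 + B.length)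
    (j := P.length + 1) (by omega) (by omega)
    (by rw [l5, e5, k4, k5]; linarith)
  refine ⟨v6, ?_⟩
  have := h1.trans (h2.trans (h3.trans (h4.trans (h5.trans h6))))
  unfold cmpB
  simpa [List.append_assoc, show P.length + 1 + 1 + A.length = P.length + 1 + A.length + 1 by ring]
    using this

/-- Extension by a product. -/
theorem ext_prod {P : List Ins} {v : ℕ → ℝ} (h : Good P v) {a a' b b' : ℕ}
    (ha : a ≤ P.length) (ha' : a' ≤ P.length) (hb : b ≤ P.length) (hb' : b' ≤ P.length)
    (h1 : v a' + 1 ≤ v a) (h2 : v b' < v b) :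
    ∃ v', Ext P v (prodB (P.length + 1) a a' b b') v' := by
  set V := v P.length with hV
  have hV1 : 1 ≤ V := h.2.one_le le_rfl
  have a1 := h.2.one_le ha
  have a2 := h.2.le_last ha
  have a1' := h.2.one_le ha'
  have a2' := h.2.le_last ha'
  have b1 := h.2.one_le hb
  have b2 := h.2.le_last hb
  have b1' := h.2.one_le hb'
  have b2' := h.2.le_last hb'
  rw [← hV] at a2 a2' b2 b2'
  set x := v a with hx
  set x' := v a' with hx'
  set y := v b with hy
  set y' := v b' with hy'
  set G := V + 1 with hG
  set H := (G + V) * (V + 1) with hH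
  have hH1 : G + x < H := by
    have : G + V ≤ (G + V) * 1 := by linarith
    nlinarith
  obtain ⟨vals, hvals⟩ : ∃ vals : List ℝ, vals = [G, G + x', G + x, H, H + y', H + y,
    (G + x') * (H + y'), (G + x') * (H + y), (G + x) * (H + y'), (G + x) * (H + y)] := ⟨_, rfl⟩
  let v' : ℕ → ℝ := fun t => if t ≤ P.length then v t else vals.getD (t - (P.length + 1)) 0
  have hv' : ∀ q, v' (P.length + 1 + q) = vals.getD q 0 := by
    intro q
    simp only [v']
    rw [if_neg (by omega)]
    congr 1
    omega
  have hag : ∀ t ≤ P.length, v' t = v t := fun t ht => by simp only [v']; rw [if_pos ht]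
  have e0 : v' (P.length + 1) = G := by rw [hv' 0, hvals]; rfl
  have e1 : v' (P.length + 1 + 1) = G + x' := by rw [hv' 1, hvals]; rfl
  have e2 : v' (P.length + 1 + 2) = G + x := by rw [hv' 2, hvals]; rfl
  have e3 : v' (P.length + 1 + 3) = H := by rw [hv' 3, hvals]; rfl
  have e4 : v' (P.length + 1 + 4) = H + y' := by rw [hv' 4, hvals]; rfl
  have e5 : v' (P.length + 1 + 5) = H + y := by rw [hv' 5, hvals]; rfl
  have e6 : v' (P.length + 1 + 6) = (G + x') * (H + y') := by rw [hv' 6, hvals]; rfl
  have e7 : v' (P.length + 1 + 7) = (G + x') * (H + y) := by rw [hv' 7, hvals]; rfl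
  have e8 : v' (P.length + 1 + 8) = (G + x) * (H + y') := by rw [hv' 8, hvals]; rfl
  have e9 : v' (P.length + 1 + 9) = (G + x) * (H + y) := by rw [hv' 9, hvals]; rfl
  have f6 : H + y < (G + x') * (H + y') := by
    have k1 : 2 ≤ G + x' := by linarith
    have k2 : 0 < H + y' := by linarith
    have k3 : 2 * (H + y') ≤ (G + x') * (H + y') := mul_le_mul_of_nonneg_right k1 k2.le
    linarith
  have f7 : (G + x') * (H + y') < (G + x') * (H + y) :=
    mul_lt_mul_of_pos_left (by linarith) (by linarith)
  have f8 : (G + x') * (H + y) < (G + x) * (H + y') := by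
    have k1 : (G + x') * (y - y') ≤ (G + V) * V := by
      apply mul_le_mul (by linarith) (by linarith) (by linarith) (by linarith)
    have k2 : (G + V) * V < H := by rw [hH]; nlinarith
    have k3 : H + y' ≤ (x - x') * (H + y') := by
      have : 1 * (H + y') ≤ (x - x') * (H + y') :=
        mul_le_mul_of_nonneg_right (by linarith) (by linarith)
      linarith
    nlinarith
  have f9 : (G + x) * (H + y') < (G + x) * (H + y) :=
    mul_lt_mul_of_pos_left (by linarith) (by linarith)
  refine ⟨v', ext_of h hag ?_ ?_ ?_⟩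
  · intro q hq
    rw [length_prodB] at hq
    interval_cases q <;> simp [prodB, fr, ad, mu] <;> omega
  · intro q hq
    rw [length_prodB] at hq
    interval_cases q
    · simp only [add_zero]; rw [hag _ le_rfl, e0]; linarith
    · rw [e0, e1]; linarith
    · rw [show P.length + 2 = P.length + 1 + 1 by ring, e1,
        show P.length + 1 + 1 + 1 = P.length + 1 + 2 by ring, e2]; linarith
    · rw [show P.length + 3 = P.length + 1 + 2 by ring, e2,
        show P.length + 1 + 2 + 1 = P.length + 1 + 3 by ring, e3]; linarith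
    · rw [show P.length + 4 = P.length + 1 + 3 by ring, e3,
        show P.length + 1 + 3 + 1 = P.length + 1 + 4 by ring, e4]; linarith
    · rw [show P.length + 5 = P.length + 1 + 4 by ring, e4,
        show P.length + 1 + 4 + 1 = P.length + 1 + 5 by ring, e5]; linarith
    · rw [show P.length + 6 = P.length + 1 + 5 by ring, e5,
        show P.length + 1 + 5 + 1 = P.length + 1 + 6 by ring, e6]; exact f6
    · rw [show P.length + 7 = P.length + 1 + 6 by ring, e6,
        show P.length + 1 + 6 + 1 = P.length + 1 + 7 by ring, e7]; exact f7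
    · rw [show P.length + 8 = P.length + 1 + 7 by ring, e7,
        show P.length + 1 + 7 + 1 = P.length + 1 + 8 by ring, e8]; exact f8
    · rw [show P.length + 9 = P.length + 1 + 8 by ring, e8,
        show P.length + 1 + 8 + 1 = P.length + 1 + 9 by ring, e9]; exact f9
  · simp only [prodB, blk_cons, iok_ad, iok_mu]
    have g1 : v' a = x := hag a ha
    have g2 : v' a' = x' := hag a' ha'
    have g3 : v' b = y := hag b hb
    have g4 : v' b' = y' := hag b' hb'
    refine ⟨iok_fr _ _, ?_, ?_, iok_fr _ _, ?_, ?_, ?_, ?_, ?_, ?_, blk_nil _ _⟩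
    · rw [e1, e0, g2]
    · rw [show P.length + 1 + 1 + 1 = P.length + 1 + 2 by ring, e2, e0, g1]
    · rw [show P.length + 1 + 1 + 1 + 1 + 1 = P.length + 1 + 4 by ring, e4, e3, g4]
    · rw [show P.length + 1 + 1 + 1 + 1 + 1 + 1 = P.length + 1 + 5 by ring, e5, e3, g3]
    · rw [show P.length + 1 + 1 + 1 + 1 + 1 + 1 + 1 = P.length + 1 + 6 by ring, e6, e1, e4]
    · rw [show P.length + 1 + 1 + 1 + 1 + 1 + 1 + 1 + 1 = P.length + 1 + 7 by ring, e7, e1, e5]
    · rw [show P.length + 1 + 1 + 1 + 1 + 1 + 1 + 1 + 1 + 1 = P.length + 1 + 8 by ring, e8, e2, e4]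
    · rw [show P.length + 1 + 1 + 1 + 1 + 1 + 1 + 1 + 1 + 1 + 1 = P.length + 1 + 9 by ring, e9, e2,
        e5]

end Pool.Agent.NPC.ER.Shor
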