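import Pool.Agent.H625R2.Tensor
import Pool.Agent.ER.Hard
import Pool.Agent.NPC.Sat

/-!
# The reduction is computable in polynomial time
-/

namespace Pool.Agent.NPC.ER.Tens

open Pool.Agent.H625R2

/-! ### Renaming -/

theorem poly_vars {α : Type} [TEnc α] {c : α → Con} (hc : Poly c) : Poly (fun a => (c a).vars) := by
  have h := poly_con_code hc
  refine (Poly.ite (p := fun a => (c a).code.1 = 0) (f := fun a => [(c a).code.2.1])
    (g := fun a => [(c a).code.2.1, (c a).code.2.2.1, (c a).code.2.2.2])
    (Poly.decide_eq (Poly.fst h) (Poly.const _))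
    (Poly.cons (Poly.fst (Poly.snd h)) (Poly.const _))
    (Poly.cons (Poly.fst (Poly.snd h)) (Poly.cons (Poly.fst (Poly.snd (Poly.snd h)))
      (Poly.cons (Poly.snd (Poly.snd (Poly.snd h))) (Poly.const _))))).congr fun a => ?_
  cases c a <;> simp [Con.code, Con.vars]

/-- All variables of a system. -/
def allVars (S : List Con) : List ℕ := S.flatMap Con.vars

theorem poly_allVars : Poly allVars :=
  Poly.flatMap (F := fun _ c => Con.vars c) Poly.id (poly_vars (Poly.snd Poly.id))

/-- The renamed system, with variables less than `(allVars S).length`. -/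
noncomputable def renS (S : List Con) : List Con := S.map (ren (index (allVars S)))

theorem renS_vars {S : List Con} : ∀ c ∈ renS S, ∀ i ∈ c.vars, i < (allVars S).length := by
  intro c' hc' i hi
  unfold renS at hc'
  rw [List.mem_map] at hc'
  obtain ⟨c, hc, rfl⟩ := hc'
  rw [ren_vars, List.mem_map] at hi
  obtain ⟨j, hj, rfl⟩ := hi
  have hj' : j ∈ allVars S := List.mem_flatMap.2 ⟨c, hc, hj⟩
  have := getElem?_index hj'
  exact (List.getElem?_eq_some_iff.1 this).1

theorem sat_renS (S : List Con) : Sat (renS S) ↔ Sat S := by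
  apply sat_ren (g := fun k => (allVars S).getD k 0)
  intro c hc i hi
  have hj' : i ∈ allVars S := List.mem_flatMap.2 ⟨c, hc, hi⟩
  have := getElem?_index hj'
  simp only [List.getD_eq_getElem?_getD, this, Option.getD_some]

theorem poly_ren {α : Type} [TEnc α] {f : α → ℕ → ℕ} {c : α → Con}
    (hf : Poly (fun p : α × ℕ => f p.1 p.2)) (hc : Poly c) : Poly (fun a => ren (f a) (c a)) := by
  have h := poly_con_code hc
  have h0 : Poly (fun a => decide ((c a).code.1 = 0)) := Poly.decide_eq (Poly.fst h) (Poly.const _)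
  have h1 : Poly (fun a => f a (c a).code.2.1) := hf.comp (Poly.pair Poly.id (Poly.fst (Poly.snd h)))
  have h2 : Poly (fun a => f a (c a).code.2.2.1) :=
    hf.comp (Poly.pair Poly.id (Poly.fst (Poly.snd (Poly.snd h))))
  have h3 : Poly (fun a => f a (c a).code.2.2.2) :=
    hf.comp (Poly.pair Poly.id (Poly.snd (Poly.snd (Poly.snd h))))
  refine poly_con_of_code ((Poly.pair (Poly.fst h) (Poly.pair h1 (Poly.pair
    (Poly.ite h0 (Poly.const 0) h2) (Poly.ite h0 (Poly.const 0) h3)))).congr fun a => ?_)
  cases c a <;> simp [Con.code, ren]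

theorem poly_renS : Poly renS := by
  refine Poly.map (F := fun S c => ren (index (allVars S)) c) Poly.id ?_
  exact poly_ren (f := fun p : List Con × Con => index (allVars p.1))
    (Poly.index (l := fun q : (List Con × Con) × ℕ => allVars q.1.1)
      (poly_allVars.comp (Poly.fst (Poly.fst Poly.id))) (Poly.snd Poly.id)) (Poly.snd Poly.id)

/-! ### The quadratic forms -/

section

variable {α : Type} [TEnc α]

/-- A signed monomial. -/
theorem poly_mono {s : Bool} {a b : α → ℕ} (ha : Poly a) (hb : Poly b) :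
    Poly (fun x => ((s, a x, b x) : Bool × ℕ × ℕ)) :=
  Poly.pair (Poly.const s) (Poly.pair ha hb)

theorem poly_ix {i : α → ℕ} (hi : Poly i) : Poly (fun a => ix (i a)) :=
  Poly.add (Poly.const 3) hi

theorem poly_iu {n i : α → ℕ} (hn : Poly n) (hi : Poly i) : Poly (fun a => iu (n a) (i a)) :=
  Poly.add (Poly.add (Poly.const 3) hn) hi

theorem poly_iz {n i : α → ℕ} (hn : Poly n) (hi : Poly i) : Poly (fun a => iz (n a) (i a)) :=
  Poly.add (Poly.add (Poly.const 3) (Poly.mul (Poly.const 2) hn)) hi

theorem poly_conQ {n M : α → ℕ} {c : α → Con} (hn : Poly n) (hM : Poly M) (hc : Poly c) :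
    Poly (fun a => conQ (n a) (M a) (c a)) := by
  have h := poly_con_code hc
  have g1 : Poly (fun a => (c a).code.2.1) := Poly.fst (Poly.snd h)
  have g2 : Poly (fun a => (c a).code.2.2.1) := Poly.fst (Poly.snd (Poly.snd h))
  have g3 : Poly (fun a => (c a).code.2.2.2) := Poly.snd (Poly.snd (Poly.snd h))
  have k0 : Poly (fun a => decide ((c a).code.1 = 0)) := Poly.decide_eq (Poly.fst h) (Poly.const _)
  have k1 : Poly (fun a => decide ((c a).code.1 = 1)) := Poly.decide_eq (Poly.fst h) (Poly.const _)
  refine (Poly.ite k0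
    (Poly.cons (poly_mono (s := false) (poly_iu hn g1) (Poly.const 0))
      (Poly.cons (poly_mono (s := true) (poly_iz hn hM) (Poly.const 0)) (Poly.const [])))
    (Poly.ite k1
      (Poly.cons (poly_mono (s := false) (poly_iu hn g1) (Poly.const 0))
        (Poly.cons (poly_mono (s := false) (poly_iu hn g2) (Poly.const 0))
          (Poly.cons (poly_mono (s := true) (poly_iu hn g3) (Poly.const 0)) (Poly.const []))))
      (Poly.cons (poly_mono (s := false) (poly_ix g1) (poly_iu hn g2))
        (Poly.cons (poly_mono (s := true) (poly_iu hn g3) (Poly.const 0))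
          (Poly.const []))))).congr fun a => ?_
  cases c a <;> simp [Con.code, conQ]

theorem poly_quads {n M : α → ℕ} {S : α → List Con} (hn : UPoly n) (hM : UPoly M) (hS : Poly S) :
    Poly (fun a => quads (n a) (M a) (S a)) := by
  have hn' : Poly n := hn.toPoly
  have hM' : Poly M := hM.toPoly
  have p1 : Poly (fun p : α × ℕ => n p.1) := hn'.comp (Poly.fst Poly.id)
  have p2 : Poly (fun p : α × ℕ => M p.1) := hM'.comp (Poly.fst Poly.id)
  have p3 : Poly (fun p : α × ℕ => p.2) := Poly.snd Poly.id
  unfold quads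
  refine Poly.cons ?_ (Poly.cons ?_ (Poly.append ?_ (Poly.append ?_ ?_)))
  · exact Poly.cons (poly_mono (s := false) (poly_iz hn' (Poly.const 0)) (Poly.const 0))
      (Poly.const _)
  · refine Poly.append (Poly.map (F := fun _ i => (false, ix i, ix i)) hn.range
      (poly_mono (poly_ix p3) (poly_ix p3))) ?_
    exact Poly.cons (Poly.const _) (Poly.cons (poly_mono (s := true) (poly_iz hn' (Poly.const 0))
      (poly_iz hn' (Poly.const 0))) (Poly.const _))
  · refine Poly.map (F := fun a j => [(false, iz (n a) (j + 1), 0),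
      (true, iz (n a) j, iz (n a) j)]) hM.range ?_
    exact Poly.cons (poly_mono (s := false) (poly_iz p1 (Poly.add p3 (Poly.const 1)))
      (Poly.const 0)) (Poly.cons (poly_mono (s := true) (poly_iz p1 p3) (poly_iz p1 p3))
        (Poly.const _))
  · refine Poly.map (F := fun a i => [(false, iu (n a) i, 0), (true, ix i, iz (n a) (M a))])
      hn.range ?_
    exact Poly.cons (poly_mono (s := false) (poly_iu p1 p3) (Poly.const 0))
      (Poly.cons (poly_mono (s := true) (poly_ix p3) (poly_iz p1 p2)) (Poly.const _))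
  · refine Poly.map (F := fun a c => conQ (n a) (M a) c) hS ?_
    exact poly_conQ (hn'.comp (Poly.fst Poly.id)) (hM'.comp (Poly.fst Poly.id)) (Poly.snd Poly.id)

/-! ### The bilinear forms -/

theorem poly_symm {l : α → List (Bool × ℕ × ℕ)} (hl : Poly l) : Poly (fun a => symm (l a)) := by
  refine Poly.flatMap (F := fun _ m => [m, (m.1, m.2.2, m.2.1)]) hl ?_
  have h : Poly (fun p : α × (Bool × ℕ × ℕ) => p.2) := Poly.snd Poly.id
  exact Poly.cons h (Poly.cons (Poly.pair (Poly.fst h) (Poly.pair (Poly.snd (Poly.snd h))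
    (Poly.fst (Poly.snd h)))) (Poly.const []))

theorem poly_pairs {N : α → ℕ} (hN : UPoly N) : Poly (fun a => pairs (N a)) := by
  refine Poly.flatMap (F := fun a i => (List.range (N a)).map fun j => (i, j)) hN.range ?_
  refine Poly.map (F := fun (p : α × ℕ) j => (p.2, j))
    (hN.comp (f := fun p : α × ℕ => p.1) (Poly.fst Poly.id)).range ?_
  exact Poly.pair (Poly.snd (Poly.fst Poly.id)) (Poly.snd Poly.id)

theorem poly_f1 {qs : α → List (List (Bool × ℕ × ℕ))} (h : Poly qs) :
    Poly (fun a => f1 (qs a)) := by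
  refine Poly.flatMap (F := fun _ q => (symm q).flatMap fun m => (symm q).map
    fun m' => [m, (!m'.1, m'.2)]) h ?_
  refine Poly.flatMap (F := fun (p : α × List (Bool × ℕ × ℕ)) m => (symm p.2).map
    fun m' => [m, (!m'.1, m'.2)]) (poly_symm (Poly.snd Poly.id)) ?_
  refine Poly.map (F := fun (p : (α × List (Bool × ℕ × ℕ)) × (Bool × ℕ × ℕ)) m' =>
    [p.2, (!m'.1, m'.2)]) (poly_symm (Poly.snd (Poly.fst Poly.id))) ?_
  have h1 : Poly (fun p : ((α × List (Bool × ℕ × ℕ)) × (Bool × ℕ × ℕ)) × (Bool × ℕ × ℕ) =>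
    p.2) := Poly.snd Poly.id
  exact Poly.cons (Poly.snd (Poly.fst Poly.id)) (Poly.cons (Poly.pair (Poly.not (Poly.fst h1))
    (Poly.snd h1)) (Poly.const []))

/-- The products other than a given one. -/
def f2c (N : ℕ) (m : Bool × ℕ × ℕ) : List (List (Bool × ℕ × ℕ)) :=
  ((pairs N).filter fun p => decide (p ≠ m.2)).map fun p => [(false, p)]

/-- The compensation terms of one quadratic form. -/
def f2b (N : ℕ) (q : List (Bool × ℕ × ℕ)) : List (List (Bool × ℕ × ℕ)) :=
  (symm q).flatMap fun m => (symm q ++ symm q).flatMap fun _ => f2c N m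

theorem f2_eq (N : ℕ) (qs : List (List (Bool × ℕ × ℕ))) : f2 N qs = qs.flatMap (f2b N) := rfl

theorem poly_f2c {N : α → ℕ} {m : α → Bool × ℕ × ℕ} (hN : UPoly N) (hm : Poly m) :
    Poly (fun a => f2c (N a) (m a)) := by
  unfold f2c
  refine Poly.map (F := fun _ (p : ℕ × ℕ) => [(false, p)]) (Poly.filter
    (p := fun (a : α) (p : ℕ × ℕ) => decide (p ≠ (m a).2)) (poly_pairs hN) ?_) ?_
  · exact Poly.decide_not (Poly.decide_eq (Poly.snd Poly.id)
      (Poly.snd (hm.comp (Poly.fst Poly.id))))
  · exact Poly.cons (Poly.pair (Poly.const false) (Poly.snd Poly.id)) (Poly.const [])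

theorem poly_f2b {N : α → ℕ} {q : α → List (Bool × ℕ × ℕ)} (hN : UPoly N) (hq : Poly q) :
    Poly (fun a => f2b (N a) (q a)) := by
  unfold f2b
  refine Poly.flatMap (F := fun a m => (symm (q a) ++ symm (q a)).flatMap fun _ => f2c (N a) m)
    (poly_symm hq) ?_
  have hs : Poly (fun x : α × (Bool × ℕ × ℕ) => symm (q x.1)) :=
    poly_symm (hq.comp (Poly.fst Poly.id))
  refine Poly.flatMap (F := fun (x : α × (Bool × ℕ × ℕ)) _ => f2c (N x.1) x.2)
    (Poly.append hs hs) ?_
  exact poly_f2c (hN.comp (f := fun x : (α × (Bool × ℕ × ℕ)) × (Bool × ℕ × ℕ) => x.1.1)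
    (Poly.fst (Poly.fst Poly.id))) (Poly.snd (Poly.fst Poly.id))

theorem poly_f2 {N : α → ℕ} {qs : α → List (List (Bool × ℕ × ℕ))} (hN : UPoly N) (h : Poly qs) :
    Poly (fun a => f2 (N a) (qs a)) := by
  refine Poly.flatMap (F := fun a q => f2b (N a) q) h ?_
  exact poly_f2b (hN.comp (f := fun x : α × List (Bool × ℕ × ℕ) => x.1) (Poly.fst Poly.id))
    (Poly.snd Poly.id)

theorem poly_rl {qs : α → List (List (Bool × ℕ × ℕ))} (h : Poly qs) :
    Poly (fun a => rl (qs a)) := by
  refine Poly.flatMap (F := fun _ q => q.flatMap fun _ => q.map fun _ => ()) h ?_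
  refine Poly.flatMap (F := fun (x : α × List (Bool × ℕ × ℕ)) _ => x.2.map fun _ => ())
    (Poly.snd Poly.id) ?_
  exact Poly.map (F := fun _ _ => ()) (Poly.snd (Poly.fst Poly.id)) (Poly.const ())

theorem poly_rep {β γ : Type} [TEnc β] [TEnc γ] {l : α → List β} {g : α → List γ}
    (hl : Poly l) (hg : Poly g) : Poly (fun a => (l a).flatMap fun _ => g a) :=
  Poly.flatMap (F := fun a _ => g a) hl (hg.comp (Poly.fst Poly.id))

theorem poly_diag {N : α → ℕ} (hN : UPoly N) :
    Poly (fun a => [(List.range (N a)).map fun i => (false, i, i)]) := by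
  refine Poly.cons (Poly.map (F := fun _ i => (false, i, i)) hN.range ?_) (Poly.const [])
  exact poly_mono (Poly.snd Poly.id) (Poly.snd Poly.id)

theorem poly_f4 {N : α → ℕ} {qs : α → List (List (Bool × ℕ × ℕ))} (hN : UPoly N) (h : Poly qs) :
    Poly (fun a => f4 (N a) (qs a)) :=
  Poly.append (poly_rep (poly_rep (Poly.const _) (poly_rl h)) (poly_diag hN))
    (poly_rep (Poly.const _) (poly_diag hN))

theorem poly_pairsF {N : α → ℕ} (hN : UPoly N) :
    Poly (fun a => (pairs (N a)).map fun p => [(false, p)]) :=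
  Poly.map (F := fun _ (p : ℕ × ℕ) => [(false, p)]) (poly_pairs hN)
    (Poly.cons (Poly.pair (Poly.const false) (Poly.snd Poly.id)) (Poly.const []))

theorem poly_f5 {N : α → ℕ} {qs : α → List (List (Bool × ℕ × ℕ))} (hN : UPoly N) (h : Poly qs) :
    Poly (fun a => f5 (N a) (qs a)) :=
  Poly.append (poly_rep (poly_rep (Poly.const _) (poly_rep (poly_rl h) (poly_rl h)))
    (poly_pairsF hN)) (poly_rep (Poly.const _) (poly_pairsF hN))

theorem poly_forms {N : α → ℕ} {qs : α → List (List (Bool × ℕ × ℕ))} (hN : UPoly N)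
    (h : Poly qs) : Poly (fun a => forms (N a) (qs a)) :=
  Poly.append (poly_f1 h) (Poly.append (poly_f2 hN h) (Poly.append (Poly.const _)
    (Poly.append (poly_f4 hN h) (poly_f5 hN h))))

/-! ### The tensor -/

/-- Integers given as differences. -/
theorem poly_intSub {p q : α → ℕ} (hp : Poly p) (hq : Poly q) :
    Poly (fun a => (p a : ℤ) - (q a : ℤ)) := by
  have h : Poly (fun a => (decide (p a < q a), (p a - q a) + (q a - p a))) :=
    Poly.pair (Poly.decide_lt hp hq) (Poly.add (Poly.sub hp hq) (Poly.sub hq hp))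
  refine Poly.of_toT (h.toT'.congr fun a => ?_)
  change toT (decide (p a < q a), (p a - q a) + (q a - p a)) =
    toT (decide ((p a : ℤ) - (q a : ℤ) < 0), ((p a : ℤ) - (q a : ℤ)).natAbs)
  have e1 : decide (p a < q a) = decide ((p a : ℤ) - (q a : ℤ) < 0) := by
    rw [decide_eq_decide]; omega
  have e2 : (p a - q a) + (q a - p a) = ((p a : ℤ) - (q a : ℤ)).natAbs := by omega
  rw [e1, e2]

/-- Integers as rational numbers. -/
theorem poly_intRat {z : α → ℤ} (hz : Poly z) : Poly (fun a => ((z a : ℤ) : ℚ)) := by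
  have h : Poly (fun a => (z a, (1 : ℕ))) := Poly.pair hz (Poly.const 1)
  refine Poly.of_toT (h.toT'.congr fun a => ?_)
  change toT (z a, (1 : ℕ)) = toT ((((z a : ℤ) : ℚ)).num, (((z a : ℤ) : ℚ)).den)
  rw [Rat.num_intCast, Rat.den_intCast]

theorem poly_natInt {z : α → ℕ} (hz : Poly z) : Poly (fun a => ((z a : ℕ) : ℤ)) :=
  (poly_intSub hz (Poly.const 0)).congr fun a => by simp

theorem poly_coef {l : α → List (Bool × ℕ × ℕ)} {i j : α → ℕ} (hl : Poly l) (hi : Poly i)
    (hj : Poly j) : Poly (fun a => coef (l a) (i a) (j a)) := by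
  have h : ∀ s : Bool, Poly (fun a => ((l a).filter fun m => decide (m = (s, i a, j a))).length) := by
    intro s
    refine Poly.length (Poly.filter (p := fun a m => decide (m = (s, i a, j a))) hl ?_)
    exact Poly.decide_eq (Poly.snd Poly.id) (Poly.pair (Poly.const s) (Poly.pair
      (hi.comp (Poly.fst Poly.id)) (hj.comp (Poly.fst Poly.id))))
  exact poly_intSub (h false) (h true)

/-- The code of the tensor of a list of bilinear forms. -/
theorem poly_tens {d : α → ℕ} {F : α → List (List (Bool × ℕ × ℕ))} (hd : UPoly d) (hF : Poly F) :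
    Poly (fun a => (⟨d a, tens (d a) (F a)⟩ : Tensor)) := by
  have h : Poly (fun a => (List.range (d a)).map fun i => (List.range (d a)).map fun j =>
      (List.range (d a)).map fun k => (((coef ((F a).getD k []) i j : ℤ)) : ℚ)) := by
    refine Poly.map (F := fun a i => (List.range (d a)).map fun j =>
      (List.range (d a)).map fun k => (((coef ((F a).getD k []) i j : ℤ)) : ℚ)) hd.range ?_
    refine Poly.map (F := fun (x : α × ℕ) j => (List.range (d x.1)).map
      fun k => (((coef ((F x.1).getD k []) x.2 j : ℤ)) : ℚ))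
      (hd.comp (f := fun x : α × ℕ => x.1) (Poly.fst Poly.id)).range ?_
    refine Poly.map (F := fun (x : (α × ℕ) × ℕ) k =>
      (((coef ((F x.1.1).getD k []) x.1.2 x.2 : ℤ)) : ℚ))
      (hd.comp (f := fun x : (α × ℕ) × ℕ => x.1.1) (Poly.fst (Poly.fst Poly.id))).range ?_
    refine poly_intRat (poly_coef ?_ (Poly.snd (Poly.fst (Poly.fst Poly.id)))
      (Poly.snd (Poly.fst Poly.id)))
    exact Poly.getD (d := fun _ => []) (hF.comp (Poly.fst (Poly.fst (Poly.fst Poly.id))))
      (Poly.snd Poly.id) (Poly.const [])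
  refine Poly.of_toT (h.toT'.congr fun a => ?_)
  change toT _ = toT (Tensor.code ⟨d a, tens (d a) (F a)⟩)
  congr 1
  unfold Tensor.code tens
  have key : ∀ (n : ℕ) (β : Type) (f : ℕ → β), (List.range n).map f = List.ofFn
      (fun i : Fin n => f i) := by
    intro n β f
    rw [List.ofFn_eq_map, ← List.map_coe_finRange_eq_range, List.map_map]
    rfl
  rw [key]
  congr 1
  funext i
  rw [key]
  congr 1
  funext j
  rw [key]

end

/-! ### The reduction -/

/-- The length of the chain of the reduction. -/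
def redM (S : List Con) : ℕ := chain (allVars S).length S.length

/-- The number of variables of the quartic form of the reduction. -/
def redN (S : List Con) : ℕ := 3 + 2 * (allVars S).length + (redM S + 1)

/-- The quadratic forms of the reduction. -/
noncomputable def redQ (S : List Con) : List (List (Bool × ℕ × ℕ)) :=
  quads (allVars S).length (redM S) (renS S)

/-- The bilinear forms of the reduction. -/
noncomputable def redF (S : List Con) : List (List (Bool × ℕ × ℕ)) := forms (redN S) (redQ S)

/-- The reduction. -/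
noncomputable def red (S : List Con) : Tensor × ℚ :=
  (⟨redN S + (redF S).length, tens (redN S + (redF S).length) (redF S)⟩,
    (((4 * (rl (redQ S)).length + 5 : ℕ) : ℤ) : ℚ))

theorem upoly_n : UPoly (fun S : List Con => (allVars S).length) := UPoly.length poly_allVars

theorem upoly_redM : UPoly redM :=
  UPoly.add (UPoly.add (UPoly.mul (UPoly.const 5) upoly_n)
    (UPoly.mul (UPoly.const 5) (UPoly.length Poly.id))) (UPoly.const 40)

theorem upoly_redN : UPoly redN :=
  UPoly.add (UPoly.add (UPoly.const 3) (UPoly.mul (UPoly.const 2) upoly_n))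
    (UPoly.add upoly_redM (UPoly.const 1))

theorem poly_redQ : Poly redQ := poly_quads upoly_n upoly_redM poly_renS

theorem poly_redF : Poly redF := poly_forms upoly_redN poly_redQ

theorem poly_red : Poly red := by
  refine Poly.pair (poly_tens (UPoly.add upoly_redN (UPoly.length poly_redF)) poly_redF) ?_
  exact poly_intRat (poly_natInt (Poly.add (Poly.mul (Poly.const 4)
    (Poly.length (poly_rl poly_redQ))) (Poly.const 5)))

theorem length_renS (S : List Con) : (renS S).length = S.length := by simp [renS]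

theorem red_dim (S : List Con) : 0 < (red S).1.1 := by
  change 0 < redN S + (redF S).length
  unfold redN
  omega

theorem red_pos (S : List Con) : 0 < (red S).2 := by
  change (0 : ℚ) < (((4 * (rl (redQ S)).length + 5 : ℕ) : ℤ) : ℚ)
  push_cast
  positivity

theorem red_iff (S : List Con) : Sat S ↔ ((red S).2 : ℝ) < spectralNorm (red S).1.2 := by
  have h1 : (((red S).2 : ℚ) : ℝ) = 4 * (rho (redQ S) : ℝ) + 5 := by
    change (((((4 * (rl (redQ S)).length + 5 : ℕ) : ℤ) : ℚ) : ℝ)) = _
    rw [length_rl]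
    push_cast
    ring
  have hidx := quads_idx (n := (allVars S).length) (M := redM S) (S := renS S) renS_vars
  have h2 := spectralNorm_iff (N := redN S) (qs := redQ S) (by unfold redN; omega) hidx
  have h3 := quads_iff (n := (allVars S).length) (S := renS S) renS_vars
  rw [length_renS] at h3
  rw [← sat_renS, h3, h1]
  exact h2.symm

theorem red_exceed (S : List Con) : Sat S ↔ SpectralNormExceed (red S) :=
  ⟨fun h => ⟨red_dim S, red_pos S, (red_iff S).1 h⟩, fun h => (red_iff S).2 h.2.2⟩

theorem red_bound (S : List Con) : ¬ Sat S ↔ SpectralNormBound (red S) := by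
  rw [red_iff, not_lt]
  exact ⟨fun h => ⟨red_dim S, red_pos S, h⟩, fun h => h.2.2⟩

/-- **SPECTRAL-NORM-EXCEED is `∃ℝ`-hard.** -/
theorem exceed_hard : ERHard (lang SpectralNormExceed) := ERHard.of_sys poly_red red_exceed

end Pool.Agent.NPC.ER.Tens
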