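import Pool.Agent.H625R2.Islp
import Pool.Agent.H625R2.Red

/-!
# From systems of constraints to increasing straight-line programs
-/

namespace Pool.Agent.NPC.ER.Shor

open Pool.Agent.H625R2 Pool.Agent.NPC.ER.Tens

/-! ### The gap theorem for bounded systems -/

/-- The residual of a constraint; `one i` is read as `8 xᵢ = 1`. -/
def res8 (x : ℕ → ℝ) : Con → ℝ
  | Con.one i => 8 * x i - 1
  | Con.add i j k => x i + x j - x k
  | Con.mul i j k => x i * x j - x k

theorem res8_eq_zero (x : ℕ → ℝ) (c : Con) : res8 x c = 0 ↔ c.HoldsC (1 / 8) x := by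
  cases c with
  | one i => simp only [res8, Con.HoldsC]; constructor <;> intro h <;> linarith
  | add i j k => simp [res8, Con.HoldsC, sub_eq_zero]
  | mul i j k => simp [res8, Con.HoldsC, sub_eq_zero]

/-- The residual of a constraint as a polynomial. -/
noncomputable def res8P (n : ℕ) : Con → MvPolynomial (Fin n) ℤ
  | Con.one i => MvPolynomial.C 8 * xv n i - MvPolynomial.C 1
  | Con.add i j k => xv n i + xv n j - xv n k
  | Con.mul i j k => xv n i * xv n j - xv n k

theorem mnrm_res8P (n : ℕ) (c : Con) : mnrm (res8P n c) ≤ 9 := by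
  cases c with
  | one i =>
    refine (mnrm_sub_le _ _).trans ?_
    have h1 := mnrm_mul_le (MvPolynomial.C (σ := Fin n) (8 : ℤ)) (xv n i)
    have := mnrm_xv n i
    rw [mnrm_C] at h1
    rw [mnrm_C]
    simp only [Int.natAbs_one]
    have h3 : (8 : ℤ).natAbs = 8 := rfl
    rw [h3] at h1
    omega
  | add i j k => exact (mnrm_resP n (Con.add i j k)).trans (by norm_num)
  | mul i j k => exact (mnrm_resP n (Con.mul i j k)).trans (by norm_num)

theorem deg_res8P (n : ℕ) (c : Con) : (res8P n c).totalDegree ≤ 2 := by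
  cases c with
  | one i =>
    refine (MvPolynomial.totalDegree_sub _ _).trans (max_le ?_ ?_)
    · have h1 := MvPolynomial.totalDegree_mul (MvPolynomial.C (σ := Fin n) (8 : ℤ)) (xv n i)
      rw [MvPolynomial.totalDegree_C] at h1
      have := deg_xv n i
      omega
    · rw [MvPolynomial.totalDegree_C]; norm_num
  | add i j k => exact deg_resP n (Con.add i j k)
  | mul i j k => exact deg_resP n (Con.mul i j k)

/-- The sum of the squares of the residuals as a polynomial. -/
noncomputable def g8P (n : ℕ) (S : List Con) : MvPolynomial (Fin n) ℤ :=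
  (S.map fun c => res8P n c ^ 2).sum

theorem mnrm_g8P (n : ℕ) (S : List Con) : mnrm (g8P n S) ≤ 9 * (9 * S.length) := by
  induction S with
  | nil => simp [g8P, mnrm_zero]
  | cons c S ih =>
    have h1 : g8P n (c :: S) = res8P n c ^ 2 + g8P n S := by simp [g8P]
    rw [h1, List.length_cons]
    refine (mnrm_add_le _ _).trans ?_
    rw [sq]
    have h2 := mnrm_mul_le (res8P n c) (res8P n c)
    have h3 := Nat.mul_le_mul (mnrm_res8P n c) (mnrm_res8P n c)
    omega

theorem deg_g8P (n : ℕ) (S : List Con) : (g8P n S).totalDegree ≤ 5 := by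
  induction S with
  | nil => simp [g8P]
  | cons c S ih =>
    have h1 : g8P n (c :: S) = res8P n c ^ 2 + g8P n S := by simp [g8P]
    rw [h1]
    refine (MvPolynomial.totalDegree_add _ _).trans (max_le ?_ ih)
    rw [sq]
    have h2 := MvPolynomial.totalDegree_mul (res8P n c) (res8P n c)
    have h3 := deg_res8P n c
    omega

theorem aeval_res8P {n : ℕ} (x : Fin n → ℝ) (c : Con) :
    MvPolynomial.aeval x (res8P n c) = res8 (fun i => if h : i < n then x ⟨i, h⟩ else 0) c := by
  cases c <;> simp [res8P, res8, aeval_xv]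

theorem aeval_g8P {n : ℕ} (x : Fin n → ℝ) (S : List Con) :
    MvPolynomial.aeval x (g8P n S) =
      (S.map fun c => res8 (fun i => if h : i < n then x ⟨i, h⟩ else 0) c ^ 2).sum := by
  induction S with
  | nil => simp [g8P]
  | cons c S ih =>
    have h1 : g8P n (c :: S) = res8P n c ^ 2 + g8P n S := by simp [g8P]
    rw [h1, map_add, map_pow, aeval_res8P, ih]
    simp

theorem res8_congr {x y : ℕ → ℝ} {c : Con} (h : ∀ i ∈ c.vars, x i = y i) :
    res8 x c = res8 y c := by
  cases c <;> simp [Con.vars] at h <;> simp [res8, h]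

/-- The gap theorem for bounded systems. -/
theorem sys_gap8 {n : ℕ} {S : List Con} (hS : ∀ c ∈ S, ∀ i ∈ c.vars, i < n)
    (hns : ¬ ∃ w : ℕ → ℝ, ∀ c ∈ S, c.HoldsC (1 / 8) w)
    (T : ℕ) (hT : 0 < T) (x : ℕ → ℝ) :
    (T : ℝ) ≤ ∑ i ∈ Finset.range n, x i ^ 6 +
      6 * Hb n 5 T (9 * (9 * S.length)) * (S.map fun c => res8 x c ^ 2).sum := by
  have hpos : ∀ y : Fin n → ℝ, 0 < MvPolynomial.aeval y (g8P n S) := by
    intro y
    rw [aeval_g8P]
    have h1 : ∃ c ∈ S, ¬ c.HoldsC (1 / 8) (fun i => if h : i < n then y ⟨i, h⟩ else 0) := by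
      by_contra hcon
      push Not at hcon
      exact hns ⟨_, hcon⟩
    obtain ⟨c, hc, h2⟩ := h1
    exact list_sum_sq_pos S _ hc (fun h => h2 ((res8_eq_zero _ _).1 h))
  have h1 := gap (n := n) (e := 5) (by decide) (g8P n S) (deg_g8P n S) (fun y => (hpos y).le) T hT
    (fun y _ => hpos y) (fun i => x i)
  have h2 : MvPolynomial.aeval (fun i : Fin n => x i) (g8P n S) =
      (S.map fun c => res8 x c ^ 2).sum := by
    rw [aeval_g8P]
    congr 1
    apply List.map_congr_left
    intro c hc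
    congr 1
    apply res8_congr
    intro i hi
    simp [hS c hc i hi]
  have h3 : ∑ i : Fin n, x i ^ (5 + 1) = ∑ i ∈ Finset.range n, x i ^ 6 :=
    (Finset.sum_range (fun i => x i ^ 6)).symm
  rw [h2, h3] at h1
  refine h1.trans ?_
  have h4 : (Hb n 5 T (mnrm (g8P n S)) : ℝ) ≤ Hb n 5 T (9 * (9 * S.length)) := by
    exact_mod_cast Hb_mono (mnrm_g8P n S)
  have h5 := list_sum_sq_nonneg S (fun c => res8 x c)
  have h6 : (Hb n 5 T (mnrm (g8P n S)) : ℝ) * (S.map fun c => res8 x c ^ 2).sum ≤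
    Hb n 5 T (9 * (9 * S.length)) * (S.map fun c => res8 x c ^ 2).sum :=
    mul_le_mul_of_nonneg_right h4 h5
  push_cast
  nlinarith

/-- The number of squarings. -/
def LL (n m : ℕ) : ℕ := 5 * n + 45 * m + 42

theorem approx_contra {H D m X R : ℝ} (n : ℝ) (hH0 : 0 ≤ H) (hm0 : 0 ≤ m) (hD1 : 1 ≤ D)
    (h1 : n + 1 ≤ X + 6 * H * R) (h2 : X ≤ n) (h3 : R ≤ m * (1 / D) ^ 2)
    (h4 : 6 * H * (9 * m * (4 + 4) ^ 2) < D) : False := by
  have hD0 : 0 < D := by linarith
  have h6 : 1 ≤ 6 * H * (m * (1 / D) ^ 2) := by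
    have : 6 * H * R ≤ 6 * H * (m * (1 / D) ^ 2) := mul_le_mul_of_nonneg_left h3 (by positivity)
    linarith
  have h7 : (1 / D) ^ 2 ≤ 1 / D := by
    rw [div_pow, one_pow]
    apply one_div_le_one_div_of_le hD0
    nlinarith
  have h8 : 6 * H * (m * (1 / D) ^ 2) ≤ 6 * H * (m * (1 / D)) := by gcongr
  have h0 : 0 ≤ H * m := mul_nonneg hH0 hm0
  have h9 : 6 * H * m < D := by nlinarith
  have h10 : 6 * H * (m * (1 / D)) < 1 := by
    rw [show 6 * H * (m * (1 / D)) = (6 * H * m) / D by ring, div_lt_one hD0]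
    exact h9
  linarith

/-- If all residuals are tiny then there is a solution. -/
theorem sys_approx {n : ℕ} {S : List Con} (hS : ∀ c ∈ S, ∀ i ∈ c.vars, i < n) {D : ℝ}
    (hD : D = 2 ^ 2 ^ LL n S.length) {x : ℕ → ℝ} (hx : ∀ i < n, |x i| ≤ 1)
    (hres : ∀ c ∈ S, |res8 x c| ≤ 1 / D) : ∃ w : ℕ → ℝ, ∀ c ∈ S, c.HoldsC (1 / 8) w := by
  by_contra hns
  have h1 := sys_gap8 hS hns (n + 1) (by omega) x
  have h2 : ∑ i ∈ Finset.range n, x i ^ 6 ≤ n := by
    calc ∑ i ∈ Finset.range n, x i ^ 6 ≤ ∑ i ∈ Finset.range n, (1 : ℝ) := by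
          apply Finset.sum_le_sum
          intro i hi
          rw [Finset.mem_range] at hi
          have h3 := hx i hi
          have h4 : x i ^ 6 = |x i| ^ 6 := by rw [Even.pow_abs (by decide)]
          rw [h4]
          exact pow_le_one₀ (abs_nonneg _) h3
      _ = n := by simp
  have hD1 : 1 ≤ D := by rw [hD]; exact one_le_pow₀ (by norm_num)
  have h3 : (S.map fun c => res8 x c ^ 2).sum ≤ S.length * (1 / D) ^ 2 := by
    have : ∀ l : List Con, (∀ c ∈ l, |res8 x c| ≤ 1 / D) →
        (l.map fun c => res8 x c ^ 2).sum ≤ l.length * (1 / D) ^ 2 := by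
      intro l
      induction l with
      | nil => simp
      | cons c l ih =>
        intro hl
        have k1 := ih fun c hc => hl c (by simp [hc])
        have k2 := hl c (by simp)
        have k3 : res8 x c ^ 2 ≤ (1 / D) ^ 2 := sq_le_sq' (by have := abs_le.1 k2; linarith [this.1])
          (abs_le.1 k2).2
        rw [List.map_cons, List.sum_cons, List.length_cons]
        push_cast
        nlinarith
    exact this S hres
  have h4 := growth n (9 * S.length) (n + 1) 4 (by norm_num) (by push_cast; nlinarith)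
  have h5 : (4 : ℝ) ^ 2 ^ (5 * n + 5 * (9 * S.length) + 40 + 1) ≤ D := by
    rw [hD, show (4 : ℝ) = 2 ^ 2 by norm_num, ← pow_mul, ← pow_succ']
    apply pow_le_pow_right₀ (by norm_num)
    apply Nat.pow_le_pow_right (by norm_num)
    unfold LL
    omega
  have h6 := h4.trans_le h5
  generalize (Hb n 5 (n + 1) (9 * (9 * S.length))) = H at h1 h6
  push_cast at h1 h6
  exact approx_contra (n : ℝ) (Nat.cast_nonneg H) (Nat.cast_nonneg S.length) hD1 h1 h2 h3 h6

end Pool.Agent.NPC.ER.Shor
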