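import Pool.Agent.H625R2.Islp2

/-!
# The program of a system
-/

namespace Pool.Agent.NPC.ER.Shor

open Pool.Agent.H625R2 Pool.Agent.NPC.ER.Tens

/-- Position of `D`. -/
def pD (L : ℕ) : ℕ := L + 1
/-- Position of `2 D`. -/
def p2 (L : ℕ) : ℕ := L + 2
/-- Position of the mask. -/
def pm (L i : ℕ) : ℕ := L + 3 + 3 * i
/-- Position of the masked variable. -/
def pU (L i : ℕ) : ℕ := L + 4 + 3 * i

/-- The block of a variable. -/
def varB (L i : ℕ) : List Ins := [fr, fr, ad (pm L i) (p2 L)]

/-- The first part of the program. -/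
def base (L n : ℕ) : List Ins :=
  ad 0 0 :: ((List.range L).map (fun j => mu (j + 1) (j + 1)) ++
    (ad (pD L) (pD L) :: (List.range n).flatMap fun i => varB L i))

/-- Two comparisons. -/
def twoC (s : ℕ) (A B : List ℕ) : List Ins :=
  cmpB s A (B ++ [0]) ++ cmpB (s + (A.length + B.length + 5)) B (A ++ [0])

theorem length_twoC (s : ℕ) (A B : List ℕ) :
    (twoC s A B).length = 2 * (A.length + B.length + 5) := by
  simp only [twoC, List.length_append, length_cmpB, List.length_singleton]; omega

/-- Left side of the comparison for a product. -/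
def mA (s : ℕ) : List ℕ :=
  [s + 9, s + 6, s + 19, s + 16, s + 19, s + 16, s + 27, s + 28, s + 37, s + 38, s + 47, s + 48]
/-- Right side of the comparison for a product. -/
def mB (s : ℕ) : List ℕ :=
  [s + 7, s + 8, s + 17, s + 18, s + 17, s + 18, s + 29, s + 26, s + 39, s + 36, s + 49, s + 46]

/-- The block of a constraint. -/
def conB (L s : ℕ) : Con → List Ins
  | Con.one i => twoC s (List.replicate 8 (pU L i))
      (List.replicate 8 (pm L i) ++ List.replicate 9 (pD L))
  | Con.add i j k => twoC s [pU L i, pU L j, pm L k] [pU L k, pm L i, pm L j, pD L]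
  | Con.mul i j k => prodB s (pU L i) (pm L i) (pU L j) (pm L j) ++
      (prodB (s + 10) (p2 L) (pD L) (p2 L) (pD L) ++
      (prodB (s + 20) (p2 L) (pD L) (pU L i) (pm L i) ++
      (prodB (s + 30) (p2 L) (pD L) (pU L j) (pm L j) ++
      (prodB (s + 40) (p2 L) (pD L) (pU L k) (pm L k) ++ twoC (s + 50) (mA s) (mB s)))))

theorem length_conB (L s : ℕ) (c : Con) : (conB L s c).length ≤ 108 := by
  cases c <;> simp [conB, length_twoC, length_prodB, mA, mB]

/-- The padded block of a constraint. -/
def conP (L s : ℕ) (c : Con) : List Ins :=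
  conB L s c ++ List.replicate (108 - (conB L s c).length) fr

theorem length_conP (L s : ℕ) (c : Con) : (conP L s c).length = 108 := by
  have := length_conB L s c
  rw [conP, List.length_append, List.length_replicate]
  omega

/-- The blocks of all constraints. -/
def conAll (L : ℕ) : ℕ → List Con → List Ins
  | _, [] => []
  | s, c :: S => conP L s c ++ conAll L (s + 108) S

/-- The program of a system with variables less than `n`. -/
def prog (n : ℕ) (S : List Con) : List Ins :=
  base (LL n S.length) n ++ conAll (LL n S.length) (LL n S.length + 3 + 3 * n) S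

theorem length_vars (L n : ℕ) : ((List.range n).flatMap fun i => varB L i).length = 3 * n := by
  induction n with
  | zero => simp
  | succ n ih =>
    rw [List.range_succ, List.flatMap_append, List.length_append, ih]
    simp [varB]; omega

theorem length_base (L n : ℕ) : (base L n).length = L + 2 + 3 * n := by
  unfold base
  rw [List.length_cons, List.length_append, List.length_map, List.length_range, List.length_cons,
    length_vars]
  omega

/-! ### Soundness -/

theorem twoC_sound {v : ℕ → ℝ} {s : ℕ} {A B : List ℕ} (h0 : v 0 = 1) (h : Blk v s (twoC s A B))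
    (hmono : ∀ q < (twoC s A B).length - 1, v (s + q) < v (s + (q + 1))) :
    |(A.map v).sum - (B.map v).sum| ≤ 1 := by
  rw [length_twoC] at hmono
  unfold twoC at h
  rw [blk_append, length_cmpB, List.length_append, List.length_singleton] at h
  obtain ⟨h1, h2⟩ := h
  have k1 := cmpB_sound h1 (by
    have := hmono (A.length + (B.length + 1) + 2) (by omega)
    simpa [List.length_append] using this)
  rw [show s + (A.length + (B.length + 1) + 4) = s + (A.length + B.length + 5) by ring] at h2
  have k2 := cmpB_sound h2 (by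
    have := hmono (A.length + B.length + 5 + (B.length + (A.length + 1) + 2)) (by omega)
    simpa [List.length_append, add_assoc] using this)
  simp only [List.map_append, List.map_cons, List.map_nil, List.sum_append, List.sum_cons,
    List.sum_nil, add_zero, h0] at k1 k2
  rw [abs_le]
  constructor <;> linarith

theorem base_D {v : ℕ → ℝ} {L n : ℕ} (h0 : v 0 = 1) (h : Blk v 1 (base L n)) :
    v (pD L) = 2 ^ 2 ^ L ∧ v (p2 L) = 2 * v (pD L) := by
  unfold base at h
  rw [blk_cons, blk_append, blk_cons, iok_ad, iok_ad, List.length_map, List.length_range] at h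
  obtain ⟨h1, h2, h3, _⟩ := h
  have key : ∀ j ≤ L, v (j + 1) = 2 ^ 2 ^ j := by
    intro j
    induction j with
    | zero => intro _; simp only [zero_add, pow_zero, pow_one]; rw [h1, h0]; norm_num
    | succ j ih =>
      intro hj
      have := h2 j (by simpa using hj)
      rw [List.getElem_map, List.getElem_range, iok_mu, show 1 + 1 + j = j + 1 + 1 by ring,
        ih (by omega)] at this
      rw [this, ← pow_add, ← two_mul, ← pow_succ']
  refine ⟨key L le_rfl, ?_⟩
  unfold p2
  rw [show 1 + 1 + L = L + 2 by ring] at h3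
  rw [h3]
  unfold pD
  ring

theorem vars_blk {v : ℕ → ℝ} {L : ℕ} (n : ℕ) :
    ∀ {s : ℕ}, Blk v s ((List.range n).flatMap fun i => varB L i) →
      ∀ i < n, Blk v (s + 3 * i) (varB L i) := by
  induction n with
  | zero => intro s _ i hi; omega
  | succ n ih =>
    intro s h i hi
    rw [List.range_succ, List.flatMap_append, blk_append, length_vars] at h
    rcases Nat.lt_succ_iff_lt_or_eq.1 hi with h1 | rfl
    · exact ih h.1 i h1
    · simpa using h.2

theorem base_var {v : ℕ → ℝ} {L n : ℕ} (h : Blk v 1 (base L n)) {i : ℕ} (hi : i < n) :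
    v (pU L i + 1) = v (pm L i) + v (p2 L) := by
  unfold base at h
  rw [blk_cons, blk_append, blk_cons, List.length_map, List.length_range] at h
  have h4 := vars_blk n h.2.2.2 i hi
  unfold varB at h4
  rw [blk_cons, blk_cons, blk_cons, iok_ad] at h4
  have h5 := h4.2.2.1
  rwa [show 1 + 1 + L + 1 + 3 * i + 1 + 1 = pU L i + 1 by unfold pU; ring] at h5

/-- The real number represented by a variable. -/
noncomputable def wv (v : ℕ → ℝ) (L i : ℕ) : ℝ := (v (pU L i) - v (pm L i) - v (pD L)) / v (pD L)

theorem conB_sound {v : ℕ → ℝ} {L s : ℕ} {c : Con} (h0 : v 0 = 1) (hD : 1 ≤ v (pD L))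
    (h2D : v (p2 L) = 2 * v (pD L)) (h : Blk v s (conB L s c))
    (hmono : ∀ q < (conB L s c).length - 1, v (s + q) < v (s + (q + 1))) :
    |res8 (wv v L) c| ≤ 1 / v (pD L) := by
  have hD0 : 0 < v (pD L) := by linarith
  cases c with
  | one i =>
    have h1 := twoC_sound h0 h hmono
    have h2 : res8 (wv v L) (Con.one i) = (((List.replicate 8 (pU L i)).map v).sum -
        ((List.replicate 8 (pm L i) ++ List.replicate 9 (pD L)).map v).sum) / v (pD L) := by
      simp only [res8, wv, List.map_replicate, List.sum_replicate, List.map_append,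
        List.sum_append, nsmul_eq_mul]
      field_simp
      push_cast
      ring
    rw [h2, abs_div, abs_of_pos hD0]
    gcongr
  | add i j k =>
    have h1 := twoC_sound h0 h hmono
    have h2 : res8 (wv v L) (Con.add i j k) = ((([pU L i, pU L j, pm L k] : List ℕ).map v).sum -
        (([pU L k, pm L i, pm L j, pD L] : List ℕ).map v).sum) / v (pD L) := by
      simp only [res8, wv, List.map_cons, List.map_nil, List.sum_cons, List.sum_nil]
      field_simp
      ring
    rw [h2, abs_div, abs_of_pos hD0]
    gcongr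
  | mul i j k =>
    simp only [conB] at h hmono
    rw [blk_append, length_prodB, blk_append, length_prodB, blk_append, length_prodB, blk_append,
      length_prodB, blk_append, length_prodB] at h
    obtain ⟨b0, b1, b2, b3, b4, b5⟩ := h
    simp only [add_assoc, Nat.reduceAdd] at b0 b1 b2 b3 b4 b5
    have e0 := prodB_sound b0
    have e1 := prodB_sound b1
    have e2 := prodB_sound b2
    have e3 := prodB_sound b3
    have e4 := prodB_sound b4
    have h1 := twoC_sound h0 b5 (by
      intro q hq
      have := hmono (50 + q) (by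
        simp only [List.length_append, length_prodB, length_twoC] at hq ⊢
        omega)
      simpa [add_assoc] using this)
    simp only [add_assoc, Nat.reduceAdd] at e0 e1 e2 e3 e4
    rw [h2D] at e1 e2 e3 e4
    have h2 : res8 (wv v L) (Con.mul i j k) =
        (((mA s).map v).sum - ((mB s).map v).sum) / v (pD L) ^ 2 := by
      have h3 : ((mA s).map v).sum - ((mB s).map v).sum =
          (v (pU L i) - v (pm L i)) * (v (pU L j) - v (pm L j)) + 2 * (v (pD L) * v (pD L)) -
          v (pD L) * (v (pU L i) - v (pm L i)) - v (pD L) * (v (pU L j) - v (pm L j)) -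
          v (pD L) * (v (pU L k) - v (pm L k)) := by
        simp only [mA, mB, List.map_cons, List.map_nil, List.sum_cons, List.sum_nil]
        linear_combination e0 + 2 * e1 - e2 - e3 - e4
      rw [h3]
      simp only [res8, wv]
      field_simp
      ring
    rw [h2, abs_div, abs_of_pos (by positivity : 0 < v (pD L) ^ 2)]
    calc _ ≤ 1 / v (pD L) ^ 2 := by gcongr
      _ ≤ 1 / v (pD L) := by
        apply one_div_le_one_div_of_le hD0
        nlinarith

theorem conAll_sound {v : ℕ → ℝ} {L : ℕ} (h0 : v 0 = 1) (hD : 1 ≤ v (pD L))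
    (h2D : v (p2 L) = 2 * v (pD L)) (S : List Con) :
    ∀ {s : ℕ}, Blk v s (conAll L s S) →
      (∀ q < (conAll L s S).length - 1, v (s + q) < v (s + (q + 1))) →
      ∀ c ∈ S, |res8 (wv v L) c| ≤ 1 / v (pD L) := by
  induction S with
  | nil => intro s _ _ c hc; simp at hc
  | cons c S ih =>
    intro s h hmono c' hc'
    unfold conAll at h hmono
    rw [blk_append, length_conP] at h
    rw [List.length_append, length_conP] at hmono
    rcases List.mem_cons.1 hc' with rfl | hc'
    · have h1 := h.1
      unfold conP at h1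
      rw [blk_append] at h1
      have := length_conB L s c'
      exact conB_sound h0 hD h2D h1.1 fun q hq => hmono q (by omega)
    · refine ih h.2 ?_ c' hc'
      intro q hq
      have := hmono (108 + q) (by omega)
      simpa [add_assoc] using this

theorem prog_sound {n : ℕ} {S : List Con} (hS : ∀ c ∈ S, ∀ i ∈ c.vars, i < n) {v : ℕ → ℝ}
    (hv : IReal (prog n S) v) : ∃ w : ℕ → ℝ, ∀ c ∈ S, c.HoldsC (1 / 8) w := by
  set L := LL n S.length with hL
  have hb := hv.blk
  unfold prog at hb
  rw [← hL, blk_append, length_base] at hb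
  obtain ⟨hb1, hb2⟩ := hb
  obtain ⟨hD, h2D⟩ := base_D hv.zero hb1
  have hlen : (prog n S).length = L + 2 + 3 * n + (conAll L (L + 3 + 3 * n) S).length := by
    unfold prog
    rw [← hL, List.length_append, length_base]
  have hD1 : 1 ≤ v (pD L) := by rw [hD]; exact one_le_pow₀ (by norm_num)
  refine sys_approx hS (D := v (pD L)) hD (x := wv v L) ?_ ?_
  · intro i hi
    have h1 := base_var hb1 hi
    have h2 : v (pm L i) < v (pU L i) := hv.lt (by unfold pm pU; omega)
      (by unfold pU; rw [hlen]; omega)
    have h3 : v (pU L i) < v (pU L i + 1) := hv.lt (by omega) (by unfold pU; rw [hlen]; omega)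
    rw [h1, h2D] at h3
    unfold wv
    rw [abs_le, le_div_iff₀ (by linarith), div_le_iff₀ (by linarith)]
    constructor <;> linarith
  · rw [show 1 + (L + 2 + 3 * n) = L + 3 + 3 * n by ring] at hb2
    refine conAll_sound hv.zero hD1 h2D S hb2 ?_
    intro q hq
    exact hv.lt (by omega) (by rw [hlen]; omega)

/-! ### Completeness -/

/-- The relation between the values and the variables. -/
structure Inv (L n : ℕ) (w : ℕ → ℝ) (v : ℕ → ℝ) : Prop where
  D : 8 ≤ v (pD L)
  D2 : v (p2 L) = 2 * v (pD L)
  U : ∀ i < n, v (pU L i) = v (pm L i) + v (pD L) * (1 + w i)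

theorem Inv.congr {L n : ℕ} {w v v' : ℕ → ℝ} (h : Inv L n w v)
    (hv : ∀ t ≤ L + 2 + 3 * n, v' t = v t) : Inv L n w v' := by
  refine ⟨?_, ?_, fun i hi => ?_⟩
  · rw [hv _ (by unfold pD; omega)]; exact h.D
  · rw [hv _ (by unfold p2; omega), hv _ (by unfold pD; omega)]; exact h.D2
  · rw [hv (pU L i) (by unfold pU; omega), hv (pm L i) (by unfold pm; omega),
      hv (pD L) (by unfold pD; omega)]
    exact h.U i hi

theorem ext_twoC {P : List Ins} {v : ℕ → ℝ} (h : Good P v) {A B : List ℕ}
    (hA : ∀ a ∈ A, a ≤ P.length) (hB : ∀ a ∈ B, a ≤ P.length)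
    (heq : (A.map v).sum = (B.map v).sum) : ∃ v', Ext P v (twoC (P.length + 1) A B) v' := by
  obtain ⟨v1, h1⟩ := ext_cmp h (A := A) (B := B ++ [0]) hA
    (by intro a ha; rcases List.mem_append.1 ha with h | h
        · exact hB a h
        · simp at h; omega) (by
      rw [List.map_append, List.sum_append, heq]
      simp [h.2.zero])
  have l1 : (P ++ cmpB (P.length + 1) A (B ++ [0])).length =
      P.length + (A.length + B.length + 5) := by
    rw [List.length_append, length_cmpB, List.length_append, List.length_singleton]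
    omega
  have sA : (A.map v1).sum = (A.map v).sum := sum_map_congr fun a ha => h1.1 a (hA a ha)
  have sB : (B.map v1).sum = (B.map v).sum := sum_map_congr fun a ha => h1.1 a (hB a ha)
  obtain ⟨v2, h2⟩ := ext_cmp h1.good (A := B) (B := A ++ [0])
    (by intro a ha; have := hB a ha; omega)
    (by intro a ha; rcases List.mem_append.1 ha with h | h
        · have := hA a h; omega
        · simp at h; omega) (by
      rw [List.map_append, List.sum_append, sA, sB, heq]
      simp [h1.good.2.zero])
  refine ⟨v2, ?_⟩
  rw [l1] at h2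
  have := h1.trans h2
  unfold twoC
  rwa [show P.length + 1 + (A.length + B.length + 5) = P.length + (A.length + B.length + 5) + 1
    by ring]

theorem ext_conB {P : List Ins} {v : ℕ → ℝ} {L n : ℕ} {w : ℕ → ℝ} (h : Good P v)
    (hP : L + 2 + 3 * n ≤ P.length) (hI : Inv L n w v) (hw : ∀ i, |w i| ≤ 1 / 8) {c : Con}
    (hc : ∀ i ∈ c.vars, i < n) (hcw : c.HoldsC (1 / 8) w) :
    ∃ v', Ext P v (conB L (P.length + 1) c) v' := by
  have hm : ∀ i < n, pm L i ≤ P.length := fun i hi => by unfold pm; omega
  have hU : ∀ i < n, pU L i ≤ P.length := fun i hi => by unfold pU; omega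
  have hD : pD L ≤ P.length := by unfold pD; omega
  have h2 : p2 L ≤ P.length := by unfold p2; omega
  cases c with
  | one i =>
    have hi : i < n := hc i (by simp [Con.vars])
    refine ext_twoC h ?_ ?_ ?_
    · intro a ha
      rw [List.eq_of_mem_replicate ha]
      exact hU i hi
    · intro a ha
      rcases List.mem_append.1 ha with ha | ha
      · rw [List.eq_of_mem_replicate ha]; exact hm i hi
      · rw [List.eq_of_mem_replicate ha]; exact hD
    · simp only [List.map_replicate, List.sum_replicate, List.map_append, List.sum_append,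
        nsmul_eq_mul]
      simp only [Con.HoldsC] at hcw
      rw [hI.U i hi, hcw]
      push_cast
      ring
  | add i j k =>
    have hi : i < n := hc i (by simp [Con.vars])
    have hj : j < n := hc j (by simp [Con.vars])
    have hk : k < n := hc k (by simp [Con.vars])
    refine ext_twoC h ?_ ?_ ?_
    · intro a ha
      simp only [List.mem_cons, List.not_mem_nil, or_false] at ha
      rcases ha with rfl | rfl | rfl
      exacts [hU i hi, hU j hj, hm k hk]
    · intro a ha
      simp only [List.mem_cons, List.not_mem_nil, or_false] at ha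
      rcases ha with rfl | rfl | rfl | rfl
      exacts [hU k hk, hm i hi, hm j hj, hD]
    · simp only [List.map_cons, List.map_nil, List.sum_cons, List.sum_nil]
      simp only [Con.HoldsC] at hcw
      rw [hI.U i hi, hI.U j hj, hI.U k hk, ← hcw]
      ring
  | mul i j k =>
    have hi : i < n := hc i (by simp [Con.vars])
    have hj : j < n := hc j (by simp [Con.vars])
    have hk : k < n := hc k (by simp [Con.vars])
    simp only [Con.HoldsC] at hcw
    have hX : ∀ i < n, v (pm L i) + 1 ≤ v (pU L i) := by
      intro i hi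
      rw [hI.U i hi]
      have := (abs_le.1 (hw i)).1
      have := hI.D
      nlinarith
    obtain ⟨v1, h1⟩ := ext_prod h (hU i hi) (hm i hi) (hU j hj) (hm j hj) (hX i hi)
      (by have := hX j hj; linarith)
    have l1 : (P ++ prodB (P.length + 1) (pU L i) (pm L i) (pU L j) (pm L j)).length =
      P.length + 10 := by rw [List.length_append, length_prodB]
    have I1 : Inv L n w v1 := hI.congr fun t ht => h1.1 t (by omega)
    have a1 := I1.D
    have b1 := I1.D2
    obtain ⟨v2, h2'⟩ := ext_prod h1.good (a := p2 L) (a' := pD L) (b := p2 L) (b' := pD L)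
      (by omega) (by omega) (by omega) (by omega) (by linarith) (by linarith)
    rw [l1] at h2'
    have l2 : (P ++ prodB (P.length + 1) (pU L i) (pm L i) (pU L j) (pm L j) ++
      prodB (P.length + 10 + 1) (p2 L) (pD L) (p2 L) (pD L)).length = P.length + 20 := by
      rw [List.length_append, length_prodB, l1]
    have I2 : Inv L n w v2 := I1.congr fun t ht => h2'.1 t (by omega)
    have a2 := I2.D
    have b2 := I2.D2
    have hX' : ∀ {u : ℕ → ℝ}, Inv L n w u → ∀ i < n, u (pm L i) < u (pU L i) := by
      intro u hu i hi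
      rw [hu.U i hi]
      have := (abs_le.1 (hw i)).1
      have := hu.D
      nlinarith
    obtain ⟨v3, h3⟩ := ext_prod h2'.good (a := p2 L) (a' := pD L) (b := pU L i) (b' := pm L i)
      (by omega) (by omega) (by have := hU i hi; omega) (by have := hm i hi; omega)
      (by linarith) (hX' I2 i hi)
    rw [l2] at h3
    have l3 : (P ++ prodB (P.length + 1) (pU L i) (pm L i) (pU L j) (pm L j) ++
      prodB (P.length + 10 + 1) (p2 L) (pD L) (p2 L) (pD L) ++
      prodB (P.length + 20 + 1) (p2 L) (pD L) (pU L i) (pm L i)).length = P.length + 30 := by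
      rw [List.length_append, length_prodB, l2]
    have I3 : Inv L n w v3 := I2.congr fun t ht => h3.1 t (by omega)
    have a3 := I3.D
    have b3 := I3.D2
    obtain ⟨v4, h4⟩ := ext_prod h3.good (a := p2 L) (a' := pD L) (b := pU L j) (b' := pm L j)
      (by omega) (by omega) (by have := hU j hj; omega) (by have := hm j hj; omega)
      (by linarith) (hX' I3 j hj)
    rw [l3] at h4
    have l4 : (P ++ prodB (P.length + 1) (pU L i) (pm L i) (pU L j) (pm L j) ++
      prodB (P.length + 10 + 1) (p2 L) (pD L) (p2 L) (pD L) ++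
      prodB (P.length + 20 + 1) (p2 L) (pD L) (pU L i) (pm L i) ++
      prodB (P.length + 30 + 1) (p2 L) (pD L) (pU L j) (pm L j)).length = P.length + 40 := by
      rw [List.length_append, length_prodB, l3]
    have I4 : Inv L n w v4 := I3.congr fun t ht => h4.1 t (by omega)
    have a4 := I4.D
    have b4 := I4.D2
    obtain ⟨v5, h5⟩ := ext_prod h4.good (a := p2 L) (a' := pD L) (b := pU L k) (b' := pm L k)
      (by omega) (by omega) (by have := hU k hk; omega) (by have := hm k hk; omega)
      (by linarith) (hX' I4 k hk)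
    rw [l4] at h5
    have l5 : (P ++ prodB (P.length + 1) (pU L i) (pm L i) (pU L j) (pm L j) ++
      prodB (P.length + 10 + 1) (p2 L) (pD L) (p2 L) (pD L) ++
      prodB (P.length + 20 + 1) (p2 L) (pD L) (pU L i) (pm L i) ++
      prodB (P.length + 30 + 1) (p2 L) (pD L) (pU L j) (pm L j) ++
      prodB (P.length + 40 + 1) (p2 L) (pD L) (pU L k) (pm L k)).length = P.length + 50 := by
      rw [List.length_append, length_prodB, l4]
    have I5 : Inv L n w v5 := I4.congr fun t ht => h5.1 t (by omega)
    -- the values of the products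
    have hb := h5.good.2.blk
    rw [blk_append, blk_append, blk_append, blk_append, blk_append, l1, l2, l3, l4] at hb
    obtain ⟨⟨⟨⟨⟨_, c1⟩, c2⟩, c3⟩, c4⟩, c5⟩ := hb
    rw [show 1 + P.length = P.length + 1 by ring] at c1
    rw [show 1 + (P.length + 10) = P.length + 10 + 1 by ring] at c2
    rw [show 1 + (P.length + 20) = P.length + 20 + 1 by ring] at c3
    rw [show 1 + (P.length + 30) = P.length + 30 + 1 by ring] at c4
    rw [show 1 + (P.length + 40) = P.length + 40 + 1 by ring] at c5
    have e1 := prodB_sound c1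
    have e2 := prodB_sound c2
    have e3 := prodB_sound c3
    have e4 := prodB_sound c4
    have e5 := prodB_sound c5
    rw [I5.U i hi, I5.U j hj] at e1
    rw [I5.D2] at e2
    rw [I5.D2, I5.U i hi] at e3
    rw [I5.D2, I5.U j hj] at e4
    rw [I5.D2, I5.U k hk, ← hcw] at e5
    obtain ⟨v6, h6⟩ := ext_twoC h5.good (A := mA (P.length + 1)) (B := mB (P.length + 1))
      (by intro a ha
          simp only [mA, List.mem_cons, List.not_mem_nil, or_false] at ha
          rw [l5]; omega)
      (by intro a ha
          simp only [mB, List.mem_cons, List.not_mem_nil, or_false] at ha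
          rw [l5]; omega)
      (by
        simp only [mA, mB, List.map_cons, List.map_nil, List.sum_cons, List.sum_nil]
        simp only [add_assoc, Nat.reduceAdd] at e1 e2 e3 e4 e5 ⊢
        linear_combination e1 + 2 * e2 - e3 - e4 - e5)
    rw [l5] at h6
    refine ⟨v6, ?_⟩
    have := h1.trans (h2'.trans (h3.trans (h4.trans (h5.trans h6))))
    simp only [conB]
    simpa [add_assoc] using this

theorem ext_conAll {L n : ℕ} {w : ℕ → ℝ} (hw : ∀ i, |w i| ≤ 1 / 8) (S : List Con) :
    ∀ {P : List Ins} {v : ℕ → ℝ}, Good P v → L + 2 + 3 * n ≤ P.length → Inv L n w v →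
      (∀ c ∈ S, ∀ i ∈ c.vars, i < n) → (∀ c ∈ S, c.HoldsC (1 / 8) w) →
      ∃ v', Ext P v (conAll L (P.length + 1) S) v' := by
  induction S with
  | nil =>
    intro P v h _ _ _ _
    exact ⟨v, fun _ _ => rfl, by simpa [conAll] using h⟩
  | cons c S ih =>
    intro P v h hP hI hv hc
    obtain ⟨v1, h1⟩ := ext_conB h hP hI hw (hv c (by simp)) (hc c (by simp))
    obtain ⟨v2, h2⟩ := ext_frs h1.good (108 - (conB L (P.length + 1) c).length)
    have h12 := h1.trans h2
    have hlen : (P ++ conP L (P.length + 1) c).length = P.length + 108 := by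
      rw [List.length_append, length_conP]
    obtain ⟨v3, h3⟩ := ih (P := P ++ conP L (P.length + 1) c) h12.good (by omega)
      (hI.congr fun t ht => h12.1 t (by omega)) (fun c hc' => hv c (by simp [hc']))
      (fun c hc' => hc c (by simp [hc']))
    refine ⟨v3, ?_⟩
    have h12' : Ext P v (conP L (P.length + 1) c) v2 := h12
    have := h12'.trans h3
    rw [hlen] at this
    simp only [conAll]
    rwa [show P.length + 1 + 108 = P.length + 108 + 1 by ring]

theorem good_nil : Good [] (fun _ => 1) :=
  ⟨by intro q hq; simp at hq, rfl, by intro t ht; simp at ht, blk_nil _ _⟩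

theorem ext_base1 (L : ℕ) : ∃ v, Good (ad 0 0 :: (List.range L).map (fun j => mu (j + 1) (j + 1))) v ∧
    v (L + 1) = 2 ^ 2 ^ L := by
  induction L with
  | zero =>
    obtain ⟨v, h, e⟩ := ext_ad good_nil (i := 0) (j := 0) le_rfl le_rfl (by norm_num)
    refine ⟨v, by simpa using h.good, ?_⟩
    simp only [List.length_nil, zero_add] at e
    simp only [zero_add, pow_zero, pow_one]
    rw [e]; norm_num
  | succ L ih =>
    obtain ⟨v, h, e⟩ := ih
    have hlen : (ad 0 0 :: (List.range L).map (fun j => mu (j + 1) (j + 1))).length = L + 1 := by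
      simp
    have h2 : (2 : ℝ) ≤ 2 ^ 2 ^ L := by
      calc (2 : ℝ) = 2 ^ 1 := by norm_num
        _ ≤ 2 ^ 2 ^ L := pow_le_pow_right₀ (by norm_num) Nat.one_le_two_pow
    obtain ⟨v', h', e'⟩ := ext_mu h (i := L + 1) (j := L + 1) (by omega) (by omega) (by omega)
      (by rw [hlen, e]; nlinarith)
    refine ⟨v', ?_, ?_⟩
    · have := h'.good
      rwa [List.cons_append, ← show List.map (fun j => mu (j + 1) (j + 1)) (List.range (L + 1)) =
        List.map (fun j => mu (j + 1) (j + 1)) (List.range L) ++ [mu (L + 1) (L + 1)] by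
          rw [List.range_succ, List.map_append]; rfl] at this
    · rw [hlen, e] at e'
      rw [e', ← pow_add, ← two_mul, ← pow_succ']

theorem ext_vars {L : ℕ} {w : ℕ → ℝ} (hw : ∀ i, |w i| ≤ 1 / 8) {P : List Ins} {v : ℕ → ℝ}
    (h : Good P v) (hP : P.length = L + 2) (hD : 8 ≤ v (pD L)) (h2D : v (p2 L) = 2 * v (pD L))
    (n : ℕ) : ∃ v', Ext P v ((List.range n).flatMap fun i => varB L i) v' ∧
      ∀ i < n, v' (pU L i) = v' (pm L i) + v' (pD L) * (1 + w i) := by
  induction n with
  | zero => exact ⟨v, ⟨fun _ _ => rfl, by simpa using h⟩, by intro i hi; omega⟩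
  | succ n ih =>
    obtain ⟨v0, h0, e0⟩ := ih
    have l0 : (P ++ (List.range n).flatMap fun i => varB L i).length = L + 2 + 3 * n := by
      rw [List.length_append, length_vars, hP]
    have d0 : v0 (pD L) = v (pD L) := h0.1 _ (by unfold pD; omega)
    have t0 : v0 (p2 L) = v (p2 L) := h0.1 _ (by unfold p2; omega)
    have m0 := h0.good.2.one_le le_rfl
    obtain ⟨v1, h1, e1⟩ := ext_fr h0.good (x := v0 (P ++ (List.range n).flatMap fun i =>
      varB L i).length + 1) (by linarith)
    rw [l0] at e1
    have l1 : (P ++ ((List.range n).flatMap fun i => varB L i) ++ [fr]).length =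
      L + 2 + 3 * n + 1 := by rw [List.length_append, l0]; rfl
    have hwn := abs_le.1 (hw n)
    have d1 : v1 (pD L) = v (pD L) := by rw [h1.1 _ (by unfold pD; omega), d0]
    have t1 : v1 (p2 L) = 2 * v (pD L) := by rw [h1.1 _ (by unfold p2; omega), t0, h2D]
    obtain ⟨v2, h2, e2⟩ := ext_fr h1.good
      (x := v1 (L + 2 + 3 * n + 1) + v1 (pD L) * (1 + w n)) (by rw [l1, d1]; nlinarith)
    rw [l1] at e2
    have l2 : (P ++ ((List.range n).flatMap fun i => varB L i) ++ [fr] ++ [fr]).length =
      L + 2 + 3 * n + 2 := by rw [List.length_append, l1]; rfl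
    have d2 : v2 (pD L) = v (pD L) := by rw [h2.1 _ (by unfold pD; omega), d1]
    have t2 : v2 (p2 L) = 2 * v (pD L) := by rw [h2.1 _ (by unfold p2; omega), t1]
    have g2 : v2 (pm L n) = v1 (L + 2 + 3 * n + 1) := by
      rw [h2.1 _ (by unfold pm; omega)]
      congr 1
      unfold pm; ring
    obtain ⟨v3, h3, e3⟩ := ext_ad h2.good (i := pm L n) (j := p2 L) (by unfold pm; omega)
      (by unfold p2; omega) (by rw [l2, e2, g2, t2, d1]; nlinarith)
    have d3 : v3 (pD L) = v (pD L) := by rw [h3.1 _ (by unfold pD; omega), d2]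
    refine ⟨v3, ?_, ?_⟩
    · have := h0.trans (h1.trans (h2.trans h3))
      rw [List.range_succ, List.flatMap_append]
      simpa [varB] using this
    · intro i hi
      rcases Nat.lt_succ_iff_lt_or_eq.1 hi with hi | rfl
      · rw [h3.1 (pU L i) (by unfold pU; omega), h3.1 (pm L i) (by unfold pm; omega),
          h2.1 (pU L i) (by unfold pU; omega), h2.1 (pm L i) (by unfold pm; omega),
          h1.1 (pU L i) (by unfold pU; omega), h1.1 (pm L i) (by unfold pm; omega), d3, e0 i hi, d0]
      · have g3 : v3 (pU L i) = v2 (L + 2 + 3 * i + 1 + 1) := by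
          rw [h3.1 _ (by unfold pU; omega)]
          congr 1
          unfold pU; ring
        rw [g3, e2, h3.1 (pm L i) (by unfold pm; omega), g2, d3, d1]

theorem prog_complete {n : ℕ} {S : List Con} (hS : ∀ c ∈ S, ∀ i ∈ c.vars, i < n) {w : ℕ → ℝ}
    (hw : ∀ i, |w i| ≤ 1 / 8) (hc : ∀ c ∈ S, c.HoldsC (1 / 8) w) :
    ∃ v, Good (prog n S) v := by
  set L := LL n S.length with hL
  have hL2 : 42 ≤ L := by rw [hL]; unfold LL; omega
  obtain ⟨v0, h0, e0⟩ := ext_base1 L
  have l0 : (ad 0 0 :: (List.range L).map (fun j => mu (j + 1) (j + 1))).length = L + 1 := by simp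
  have hD8 : (8 : ℝ) ≤ 2 ^ 2 ^ L := by
    calc (8 : ℝ) = 2 ^ 3 := by norm_num
      _ ≤ 2 ^ 2 ^ L := pow_le_pow_right₀ (by norm_num) (by
        have : 2 ^ 2 ≤ 2 ^ L := Nat.pow_le_pow_right (by norm_num) (by omega)
        omega)
  obtain ⟨v1, h1, e1⟩ := ext_ad h0 (i := pD L) (j := pD L) (by unfold pD; omega)
    (by unfold pD; omega) (by rw [l0]; unfold pD; rw [e0]; linarith)
  have l1 : (ad 0 0 :: (List.range L).map (fun j => mu (j + 1) (j + 1)) ++
    [ad (pD L) (pD L)]).length = L + 2 := by rw [List.length_append, l0]; rfl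
  have q1 : pD L = L + 1 := rfl
  have q2 : p2 L = L + 2 := rfl
  have d1 : v1 (pD L) = 2 ^ 2 ^ L := by rw [h1.1 _ (by omega)]; exact e0
  have t1 : v1 (p2 L) = 2 * v1 (pD L) := by
    rw [l0] at e1
    unfold p2
    rw [e1, d1]
    unfold pD
    rw [e0]
    ring
  obtain ⟨v2, h2, e2⟩ := ext_vars hw h1.good l1 (by rw [d1]; exact hD8) t1 n
  have hbase : ad 0 0 :: (List.range L).map (fun j => mu (j + 1) (j + 1)) ++
      [ad (pD L) (pD L)] ++ (List.range n).flatMap (fun i => varB L i) = base L n := by
    simp [base]
  have hg := h2.good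
  rw [hbase] at hg
  have hInv : Inv L n w v2 := by
    have k1 : v2 (pD L) = v1 (pD L) := h2.1 _ (by omega)
    refine ⟨by rw [k1, d1]; exact hD8, ?_, e2⟩
    rw [h2.1 (p2 L) (by omega), k1, t1]
  obtain ⟨v3, h3⟩ := ext_conAll hw S hg (by rw [length_base]) hInv hS hc
  refine ⟨v3, ?_⟩
  have := h3.good
  rw [length_base] at this
  unfold prog
  rw [← hL]
  rwa [show L + 3 + 3 * n = L + 2 + 3 * n + 1 by ring]

end Pool.Agent.NPC.ER.Shor
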