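import Pool.Agent.H625R2.Islp3

/-!
# The program of a system: well-formedness, polynomial time
-/

namespace Pool.Agent.NPC.ER.Shor

open Pool.Agent.H625R2 Pool.Agent.NPC.ER.Tens

/-! ### Well-formedness -/

/-- Well-formedness of a block starting with the value number `s`. -/
def WFB (s : ℕ) (l : List Ins) : Prop :=
  ∀ q (h : q < l.length), l[q].2.1 < s + q ∧ l[q].2.2 < s + q ∧ (l[q].1 = 2 → 1 ≤ l[q].2.2)

theorem wf_iff (P : List Ins) : WF P ↔ WFB 1 P := by
  unfold WF WFB
  refine forall_congr' fun q => forall_congr' fun h => ?_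
  constructor
  · rintro ⟨h1, h2, h3⟩; exact ⟨by omega, by omega, h3⟩
  · rintro ⟨h1, h2, h3⟩; exact ⟨by omega, by omega, h3⟩

theorem wfb_nil (s : ℕ) : WFB s [] := by intro q h; simp at h

theorem wfb_append {s : ℕ} {l l' : List Ins} (h : WFB s l) (h' : WFB (s + l.length) l') :
    WFB s (l ++ l') := by
  intro q hq
  by_cases hlt : q < l.length
  · rw [List.getElem_append_left hlt]
    exact h q hlt
  · rw [List.getElem_append_right (by omega)]
    have := h' (q - l.length) (by rw [List.length_append] at hq; omega)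
    rwa [show s + l.length + (q - l.length) = s + q by omega] at this

theorem wfb_cons {s : ℕ} {I : Ins} {l : List Ins} (h1 : I.2.1 < s) (h2 : I.2.2 < s)
    (h3 : I.1 = 2 → 1 ≤ I.2.2) (h : WFB (s + 1) l) : WFB s (I :: l) := by
  have : WFB s ([I] ++ l) := wfb_append (by
    intro q hq
    simp only [List.length_singleton, Nat.lt_one_iff] at hq
    subst hq
    simpa using ⟨h1, h2, h3⟩) (by simpa using h)
  simpa using this

theorem wfb_fr {s : ℕ} {l : List Ins} (hs : 0 < s) (h : WFB (s + 1) l) : WFB s (fr :: l) :=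
  wfb_cons (by simpa [fr]) (by simpa [fr]) (by simp [fr]) h

theorem wfb_ad {s i j : ℕ} {l : List Ins} (hi : i < s) (hj : j < s) (h : WFB (s + 1) l) :
    WFB s (ad i j :: l) := wfb_cons (by simpa [ad]) (by simpa [ad]) (by simp [ad]) h

theorem wfb_mu {s i j : ℕ} {l : List Ins} (hi : i < s) (hj : j < s) (hj1 : 1 ≤ j)
    (h : WFB (s + 1) l) : WFB s (mu i j :: l) :=
  wfb_cons (by simpa [mu]) (by simpa [mu]) (by simpa [mu]) h

theorem wfb_frs {s : ℕ} (hs : 0 < s) (m : ℕ) : WFB s (List.replicate m fr) := by
  intro q hq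
  rw [List.getElem_replicate]
  simp only [fr]
  omega

theorem wfb_chain {s : ℕ} {l : List ℕ} (hl : ∀ a ∈ l, a < s + 1) : WFB (s + 1) (chainB s l) := by
  intro q hq
  unfold chainB at *
  rw [List.length_map, List.length_range] at hq
  rw [List.getElem_map, List.getElem_range]
  have := hl (l.getD q 0) (by rw [List.getD_eq_getElem _ _ hq]; exact List.getElem_mem hq)
  simp only [ad]
  omega

theorem wfb_cmp {s : ℕ} (hs : 0 < s) {A B : List ℕ} (hA : ∀ a ∈ A, a < s) (hB : ∀ a ∈ B, a < s) :
    WFB s (cmpB s A B) := by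
  unfold cmpB
  refine wfb_fr hs (wfb_append (wfb_chain fun a ha => (hA a ha).trans (by omega)) ?_)
  rw [length_chainB]
  refine wfb_fr (by omega) (wfb_append ?_ ?_)
  · exact wfb_chain fun a ha => (hB a ha).trans (by omega)
  · rw [length_chainB]
    exact wfb_ad (by omega) (by omega) (wfb_ad (by omega) (by omega) (wfb_nil _))

theorem wfb_twoC {s : ℕ} (hs : 0 < s) {A B : List ℕ} (hA : ∀ a ∈ A, a < s) (hB : ∀ a ∈ B, a < s) :
    WFB s (twoC s A B) := by
  unfold twoC
  refine wfb_append (wfb_cmp hs hA ?_) ?_
  · intro a ha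
    rcases List.mem_append.1 ha with h | h
    · exact hB a h
    · simp at h; omega
  · rw [length_cmpB, List.length_append, List.length_singleton,
      show s + (A.length + (B.length + 1) + 4) = s + (A.length + B.length + 5) by ring]
    refine wfb_cmp (by omega) (fun a ha => (hB a ha).trans (by omega)) ?_
    intro a ha
    rcases List.mem_append.1 ha with h | h
    · exact (hA a h).trans (by omega)
    · simp at h; omega

theorem wfb_prod {s a a' b b' : ℕ} (ha : a < s) (ha' : a' < s) (hb : b < s) (hb' : b' < s) :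
    WFB s (prodB s a a' b b') := by
  unfold prodB
  refine wfb_fr (by omega) (wfb_ad ?_ ?_ (wfb_ad ?_ ?_ (wfb_fr ?_ (wfb_ad ?_ ?_ (wfb_ad ?_ ?_
    (wfb_mu ?_ ?_ ?_ (wfb_mu ?_ ?_ ?_ (wfb_mu ?_ ?_ ?_ (wfb_mu ?_ ?_ ?_ (wfb_nil _))))))))))
  all_goals omega

theorem wfb_conP {L n s : ℕ} (hs : L + 2 + 3 * n < s) {c : Con} (hc : ∀ i ∈ c.vars, i < n) :
    WFB s (conP L s c) := by
  unfold conP
  refine wfb_append ?_ (wfb_frs (by omega) _)
  have hm : ∀ i < n, pm L i < s := fun i hi => by unfold pm; omega
  have hU : ∀ i < n, pU L i < s := fun i hi => by unfold pU; omega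
  have hD : pD L < s := by unfold pD; omega
  have h2 : p2 L < s := by unfold p2; omega
  cases c with
  | one i =>
    have hi : i < n := hc i (by simp [Con.vars])
    refine wfb_twoC (by omega) ?_ ?_
    · intro a ha
      rw [List.eq_of_mem_replicate ha]
      exact hU i hi
    · intro a ha
      rcases List.mem_append.1 ha with ha | ha
      · rw [List.eq_of_mem_replicate ha]; exact hm i hi
      · rw [List.eq_of_mem_replicate ha]; exact hD
  | add i j k =>
    have hi : i < n := hc i (by simp [Con.vars])
    have hj : j < n := hc j (by simp [Con.vars])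
    have hk : k < n := hc k (by simp [Con.vars])
    refine wfb_twoC (by omega) ?_ ?_
    · intro a ha
      simp only [List.mem_cons, List.not_mem_nil, or_false] at ha
      rcases ha with rfl | rfl | rfl
      exacts [hU i hi, hU j hj, hm k hk]
    · intro a ha
      simp only [List.mem_cons, List.not_mem_nil, or_false] at ha
      rcases ha with rfl | rfl | rfl | rfl
      exacts [hU k hk, hm i hi, hm j hj, hD]
  | mul i j k =>
    have hi : i < n := hc i (by simp [Con.vars])
    have hj : j < n := hc j (by simp [Con.vars])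
    have hk : k < n := hc k (by simp [Con.vars])
    have q1 := hU i hi
    have q2 := hU j hj
    have q3 := hU k hk
    have q4 := hm i hi
    have q5 := hm j hj
    have q6 := hm k hk
    refine wfb_append (wfb_prod q1 q4 q2 q5) (wfb_append ?_ (wfb_append ?_ (wfb_append ?_
      (wfb_append ?_ ?_))))
    · simp only [length_prodB]
      exact wfb_prod (by omega) (by omega) (by omega) (by omega)
    · simp only [length_prodB, add_assoc, Nat.reduceAdd]
      exact wfb_prod (by omega) (by omega) (by omega) (by omega)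
    · simp only [length_prodB, add_assoc, Nat.reduceAdd]
      exact wfb_prod (by omega) (by omega) (by omega) (by omega)
    · simp only [length_prodB, add_assoc, Nat.reduceAdd]
      exact wfb_prod (by omega) (by omega) (by omega) (by omega)
    · simp only [length_prodB, add_assoc, Nat.reduceAdd]
      refine wfb_twoC (by omega) ?_ ?_
      · intro a ha
        simp only [mA, List.mem_cons, List.not_mem_nil, or_false] at ha
        omega
      · intro a ha
        simp only [mB, List.mem_cons, List.not_mem_nil, or_false] at ha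
        omega

theorem wfb_conAll {L n : ℕ} (S : List Con) : ∀ {s : ℕ}, L + 2 + 3 * n < s →
    (∀ c ∈ S, ∀ i ∈ c.vars, i < n) → WFB s (conAll L s S) := by
  induction S with
  | nil => intro s _ _; exact wfb_nil _
  | cons c S ih =>
    intro s hs hS
    unfold conAll
    refine wfb_append (wfb_conP hs (hS c (by simp))) ?_
    rw [length_conP]
    exact ih (by omega) fun c' hc' => hS c' (by simp [hc'])

theorem wfb_base (L n : ℕ) : WFB 1 (base L n) := by
  unfold base
  refine wfb_ad (by omega) (by omega) (wfb_append ?_ ?_)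
  · intro q hq
    rw [List.length_map, List.length_range] at hq
    rw [List.getElem_map, List.getElem_range]
    simp only [mu]
    omega
  · rw [List.length_map, List.length_range]
    refine wfb_ad (by unfold pD; omega) (by unfold pD; omega) ?_
    induction n with
    | zero => exact wfb_nil _
    | succ n ih =>
      rw [List.range_succ, List.flatMap_append]
      refine wfb_append ih ?_
      rw [length_vars]
      simp only [List.flatMap_cons, List.flatMap_nil, List.append_nil]
      unfold varB
      exact wfb_fr (by omega) (wfb_fr (by omega) (wfb_ad (by unfold pm; omega)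
        (by unfold p2; omega) (wfb_nil _)))

theorem wf_prog {n : ℕ} {S : List Con} (hS : ∀ c ∈ S, ∀ i ∈ c.vars, i < n) : WF (prog n S) := by
  rw [wf_iff]
  unfold prog
  refine wfb_append (wfb_base _ _) ?_
  rw [length_base, show 1 + (LL n S.length + 2 + 3 * n) = LL n S.length + 3 + 3 * n by ring]
  exact wfb_conAll S (by omega) hS

/-! ### The program of an arbitrary system -/

/-- The program of a system. -/
noncomputable def islp (S : List Con) : List Ins :=
  prog (allVars (bsys S)).length (renS (bsys S))

theorem ren_holdsC (κ : ℝ) (f : ℕ → ℕ) (c : Con) (v : ℕ → ℝ) :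
    (ren f c).HoldsC κ v ↔ c.HoldsC κ (fun i => v (f i)) := by
  cases c <;> rfl

theorem holdsC_congr {κ : ℝ} {c : Con} {v w : ℕ → ℝ} (h : ∀ i ∈ c.vars, v i = w i) :
    c.HoldsC κ v ↔ c.HoldsC κ w := by
  cases c <;> simp [Con.vars] at h <;> simp [Con.HoldsC, h]

theorem wf_islp (S : List Con) : WF (islp S) := wf_prog renS_vars

/-- **Satisfiability of systems of constraints is reduced to the realizability of increasing
straight-line programs.** -/
theorem islp_iff (S : List Con) : Sat S ↔ ∃ v, IReal (islp S) v := by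
  constructor
  · intro h
    obtain ⟨w, hw1, hw2⟩ := bsys_of_sat h
    obtain ⟨v, hv⟩ := prog_complete (S := renS (bsys S)) renS_vars
      (w := fun k => w ((allVars (bsys S)).getD k 0)) (fun i => hw1 _) (by
        intro c' hc'
        unfold renS at hc'
        rw [List.mem_map] at hc'
        obtain ⟨c, hc, rfl⟩ := hc'
        rw [ren_holdsC]
        refine (holdsC_congr fun i hi => ?_).1 (hw2 c hc)
        have hj' : i ∈ allVars (bsys S) := List.mem_flatMap.2 ⟨c, hc, hi⟩
        have := getElem?_index hj'
        simp only [List.getD_eq_getElem?_getD, this, Option.getD_some])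
    exact ⟨v, hv.2⟩
  · rintro ⟨v, hv⟩
    obtain ⟨w, hw⟩ := prog_sound renS_vars hv
    refine sat_of_bsys (w := fun i => w (index (allVars (bsys S)) i)) fun c hc => ?_
    have := hw (ren (index (allVars (bsys S))) c) (List.mem_map_of_mem hc)
    rwa [ren_holdsC] at this

/-! ### Polynomial time -/

section

variable {α : Type} [TEnc α]

theorem poly_ad {i j : α → ℕ} (hi : Poly i) (hj : Poly j) : Poly (fun a => ad (i a) (j a)) :=
  Poly.pair (Poly.const 1) (Poly.pair hi hj)

theorem poly_mu {i j : α → ℕ} (hi : Poly i) (hj : Poly j) : Poly (fun a => mu (i a) (j a)) :=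
  Poly.pair (Poly.const 2) (Poly.pair hi hj)

theorem poly_addc {i : α → ℕ} (hi : Poly i) (k : ℕ) : Poly (fun a => i a + k) :=
  Poly.add hi (Poly.const k)

theorem poly_chainB {s : α → ℕ} {l : α → List ℕ} (hs : Poly s) (hl : Poly l) :
    Poly (fun a => chainB (s a) (l a)) := by
  refine Poly.map (F := fun a t => ad (s a + t) ((l a).getD t 0)) (Poly.range_length hl) ?_
  exact poly_ad (Poly.add (hs.comp (Poly.fst Poly.id)) (Poly.snd Poly.id))
    (Poly.getD (d := fun _ => 0) (hl.comp (Poly.fst Poly.id)) (Poly.snd Poly.id) (Poly.const _))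

theorem poly_cmpB {s : α → ℕ} {A B : α → List ℕ} (hs : Poly s) (hA : Poly A) (hB : Poly B) :
    Poly (fun a => cmpB (s a) (A a) (B a)) := by
  have h1 : Poly (fun a => s a + 1 + (A a).length) := Poly.add (poly_addc hs 1) (Poly.length hA)
  exact Poly.cons (Poly.const _) (Poly.append (poly_chainB hs hA) (Poly.cons (Poly.const _)
    (Poly.append (poly_chainB h1 hB) (Poly.cons (poly_ad (Poly.add hs (Poly.length hA)) h1)
      (Poly.cons (poly_ad (Poly.add h1 (Poly.length hB)) hs) (Poly.const []))))))

theorem poly_twoC {s : α → ℕ} {A B : α → List ℕ} (hs : Poly s) (hA : Poly A) (hB : Poly B) :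
    Poly (fun a => twoC (s a) (A a) (B a)) :=
  Poly.append (poly_cmpB hs hA (Poly.append hB (Poly.const _)))
    (poly_cmpB (Poly.add hs (poly_addc (Poly.add (Poly.length hA) (Poly.length hB)) 5)) hB
      (Poly.append hA (Poly.const _)))

theorem poly_prodB {s a b c d : α → ℕ} (hs : Poly s) (ha : Poly a) (hb : Poly b) (hc : Poly c)
    (hd : Poly d) : Poly (fun x => prodB (s x) (a x) (b x) (c x) (d x)) := by
  have h1 := poly_addc hs 1
  have h2 := poly_addc hs 2
  have h3 := poly_addc hs 3
  have h4 := poly_addc hs 4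
  have h5 := poly_addc hs 5
  exact Poly.cons (Poly.const _) (Poly.cons (poly_ad hs hb) (Poly.cons (poly_ad hs ha)
    (Poly.cons (Poly.const _) (Poly.cons (poly_ad h3 hd) (Poly.cons (poly_ad h3 hc)
    (Poly.cons (poly_mu h1 h4) (Poly.cons (poly_mu h1 h5) (Poly.cons (poly_mu h2 h4)
    (Poly.cons (poly_mu h2 h5) (Poly.const []))))))))))

theorem poly_pm {L i : α → ℕ} (hL : Poly L) (hi : Poly i) : Poly (fun a => pm (L a) (i a)) :=
  Poly.add (poly_addc hL 3) (Poly.mul (Poly.const 3) hi)

theorem poly_pU {L i : α → ℕ} (hL : Poly L) (hi : Poly i) : Poly (fun a => pU (L a) (i a)) :=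
  Poly.add (poly_addc hL 4) (Poly.mul (Poly.const 3) hi)

theorem conP_eq (L s : ℕ) (c : Con) : conP L s c =
    if c.code.1 = 0 then
      twoC s [pU L c.code.2.1, pU L c.code.2.1, pU L c.code.2.1, pU L c.code.2.1,
        pU L c.code.2.1, pU L c.code.2.1, pU L c.code.2.1, pU L c.code.2.1]
        [pm L c.code.2.1, pm L c.code.2.1, pm L c.code.2.1, pm L c.code.2.1, pm L c.code.2.1,
        pm L c.code.2.1, pm L c.code.2.1, pm L c.code.2.1, pD L, pD L, pD L, pD L, pD L, pD L,
        pD L, pD L, pD L] ++ List.replicate 48 fr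
    else if c.code.1 = 1 then
      twoC s [pU L c.code.2.1, pU L c.code.2.2.1, pm L c.code.2.2.2]
        [pU L c.code.2.2.2, pm L c.code.2.1, pm L c.code.2.2.1, pD L] ++ List.replicate 84 fr
    else prodB s (pU L c.code.2.1) (pm L c.code.2.1) (pU L c.code.2.2.1) (pm L c.code.2.2.1) ++
      (prodB (s + 10) (p2 L) (pD L) (p2 L) (pD L) ++
      (prodB (s + 20) (p2 L) (pD L) (pU L c.code.2.1) (pm L c.code.2.1) ++
      (prodB (s + 30) (p2 L) (pD L) (pU L c.code.2.2.1) (pm L c.code.2.2.1) ++
      (prodB (s + 40) (p2 L) (pD L) (pU L c.code.2.2.2) (pm L c.code.2.2.2) ++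
        twoC (s + 50) (mA s) (mB s))))) := by
  cases c with
  | one i =>
    simp only [conP, Con.code]
    rw [if_pos trivial]
    congr 1
  | add i j k =>
    simp only [conP, Con.code]
    rw [if_neg (by norm_num), if_pos trivial]
    congr 1
  | mul i j k =>
    simp only [conP, Con.code]
    rw [if_neg (by norm_num), if_neg (by norm_num)]
    have : (conB L s (Con.mul i j k)).length = 108 := by
      simp [conB, length_twoC, length_prodB, mA, mB]
    rw [this]
    simp [conB]

theorem poly_conP {L s : α → ℕ} {c : α → Con} (hL : Poly L) (hs : Poly s) (hc : Poly c) :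
    Poly (fun a => conP (L a) (s a) (c a)) := by
  have h := poly_con_code hc
  have g1 : Poly (fun a => (c a).code.2.1) := Poly.fst (Poly.snd h)
  have g2 : Poly (fun a => (c a).code.2.2.1) := Poly.fst (Poly.snd (Poly.snd h))
  have g3 : Poly (fun a => (c a).code.2.2.2) := Poly.snd (Poly.snd (Poly.snd h))
  have k0 : Poly (fun a => decide ((c a).code.1 = 0)) := Poly.decide_eq (Poly.fst h) (Poly.const _)
  have k1 : Poly (fun a => decide ((c a).code.1 = 1)) := Poly.decide_eq (Poly.fst h) (Poly.const _)
  have U1 := poly_pU hL g1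
  have U2 := poly_pU hL g2
  have U3 := poly_pU hL g3
  have M1 := poly_pm hL g1
  have M2 := poly_pm hL g2
  have M3 := poly_pm hL g3
  have D : Poly (fun a => pD (L a)) := poly_addc hL 1
  have D2 : Poly (fun a => p2 (L a)) := poly_addc hL 2
  have hA : Poly (fun a => mA (s a)) :=
    Poly.cons (poly_addc hs 9) (Poly.cons (poly_addc hs 6) (Poly.cons (poly_addc hs 19)
    (Poly.cons (poly_addc hs 16) (Poly.cons (poly_addc hs 19) (Poly.cons (poly_addc hs 16)
    (Poly.cons (poly_addc hs 27) (Poly.cons (poly_addc hs 28) (Poly.cons (poly_addc hs 37)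
    (Poly.cons (poly_addc hs 38) (Poly.cons (poly_addc hs 47) (Poly.cons (poly_addc hs 48)
    (Poly.const []))))))))))))
  have hB : Poly (fun a => mB (s a)) :=
    Poly.cons (poly_addc hs 7) (Poly.cons (poly_addc hs 8) (Poly.cons (poly_addc hs 17)
    (Poly.cons (poly_addc hs 18) (Poly.cons (poly_addc hs 17) (Poly.cons (poly_addc hs 18)
    (Poly.cons (poly_addc hs 29) (Poly.cons (poly_addc hs 26) (Poly.cons (poly_addc hs 39)
    (Poly.cons (poly_addc hs 36) (Poly.cons (poly_addc hs 49) (Poly.cons (poly_addc hs 46)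
    (Poly.const []))))))))))))
  refine (Poly.ite k0 (Poly.append (poly_twoC hs
      (Poly.cons U1 (Poly.cons U1 (Poly.cons U1 (Poly.cons U1 (Poly.cons U1 (Poly.cons U1
        (Poly.cons U1 (Poly.cons U1 (Poly.const [])))))))))
      (Poly.cons M1 (Poly.cons M1 (Poly.cons M1 (Poly.cons M1 (Poly.cons M1 (Poly.cons M1
        (Poly.cons M1 (Poly.cons M1 (Poly.cons D (Poly.cons D (Poly.cons D (Poly.cons D
        (Poly.cons D (Poly.cons D (Poly.cons D (Poly.cons D (Poly.cons D
          (Poly.const []))))))))))))))))))) (Poly.const _))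
    (Poly.ite k1 (Poly.append (poly_twoC hs
      (Poly.cons U1 (Poly.cons U2 (Poly.cons M3 (Poly.const []))))
      (Poly.cons U3 (Poly.cons M1 (Poly.cons M2 (Poly.cons D (Poly.const [])))))) (Poly.const _))
      (Poly.append (poly_prodB hs U1 M1 U2 M2) (Poly.append (poly_prodB (poly_addc hs 10) D2 D D2 D)
        (Poly.append (poly_prodB (poly_addc hs 20) D2 D U1 M1)
        (Poly.append (poly_prodB (poly_addc hs 30) D2 D U2 M2)
        (Poly.append (poly_prodB (poly_addc hs 40) D2 D U3 M3)
          (poly_twoC (poly_addc hs 50) hA hB)))))))).congr fun a => (conP_eq _ _ _).symm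

theorem conAll_eq (L s : ℕ) (S : List Con) : ∀ k : ℕ, conAll L (s + 108 * k) S =
    (S.zipIdx k).flatMap fun p => conP L (s + 108 * p.2) p.1 := by
  induction S with
  | nil => intro k; rfl
  | cons c S ih =>
    intro k
    rw [List.zipIdx_cons, List.flatMap_cons]
    simp only [conAll]
    rw [← ih, show s + 108 * k + 108 = s + 108 * (k + 1) by ring]

theorem poly_conAll {L s : α → ℕ} {S : α → List Con} (hL : Poly L) (hs : Poly s) (hS : Poly S) :
    Poly (fun a => conAll (L a) (s a) (S a)) := by
  refine (Poly.flatMap (F := fun a p => conP (L a) (s a + 108 * p.2) p.1) (Poly.zipIdx hS)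
    ?_).congr fun a => ?_
  · exact poly_conP (hL.comp (Poly.fst Poly.id)) (Poly.add (hs.comp (Poly.fst Poly.id))
      (Poly.mul (Poly.const 108) (Poly.snd (Poly.snd Poly.id)))) (Poly.fst (Poly.snd Poly.id))
  · have := conAll_eq (L a) (s a) (S a) 0
    simpa using this.symm

theorem poly_base {L n : α → ℕ} (hL : UPoly L) (hn : UPoly n) :
    Poly (fun a => base (L a) (n a)) := by
  have hL' := hL.toPoly
  refine Poly.cons (Poly.const _) (Poly.append ?_ (Poly.cons ?_ ?_))
  · refine Poly.map (F := fun _ j => mu (j + 1) (j + 1)) hL.range ?_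
    exact poly_mu (poly_addc (Poly.snd Poly.id) 1) (poly_addc (Poly.snd Poly.id) 1)
  · exact poly_ad (poly_addc hL' 1) (poly_addc hL' 1)
  · refine Poly.flatMap (F := fun a i => varB (L a) i) hn.range ?_
    have h1 : Poly (fun p : α × ℕ => L p.1) := hL'.comp (Poly.fst Poly.id)
    exact Poly.cons (Poly.const _) (Poly.cons (Poly.const _) (Poly.cons
      (poly_ad (poly_pm h1 (Poly.snd Poly.id)) (poly_addc h1 2)) (Poly.const [])))

theorem upoly_LL {n m : α → ℕ} (hn : UPoly n) (hm : UPoly m) : UPoly (fun a => LL (n a) (m a)) :=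
  UPoly.add (UPoly.add (UPoly.mul (UPoly.const 5) hn) (UPoly.mul (UPoly.const 45) hm))
    (UPoly.const 42)

theorem poly_prog {n : α → ℕ} {S : α → List Con} (hn : UPoly n) (hS : Poly S) :
    Poly (fun a => prog (n a) (S a)) := by
  have hL := upoly_LL hn (UPoly.length hS)
  exact Poly.append (poly_base hL hn) (poly_conAll hL.toPoly
    (Poly.add (poly_addc hL.toPoly 3) (Poly.mul (Poly.const 3) hn.toPoly)) hS)

/-- The program is computable in polynomial time. -/
theorem poly_islp : Poly islp := by
  have h : Poly (fun S : List Con => bsys S) := poly_bsys Poly.id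
  exact poly_prog (UPoly.length (poly_allVars.comp h)) (poly_renS.comp h)

end

end Pool.Agent.NPC.ER.Shor
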