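import Pool.Agent.H625R2.Red
import Pool.Agent.ER.Build
import Pool.Agent.ER.Rat
import Pool.Agent.ER.Dec

/-!
# Membership
-/

namespace Pool.Agent.NPC.ER.Tens

open Pool.Agent.H625R2 Pool.Agent.NPC.H670R2

/-! ### Decoding tensors -/

/-- Is a list of lists of lists a cube? -/
def isCube (L : List (List (List ℚ))) : Bool :=
  L.all fun l => decide (l.length = L.length) && l.all fun r => decide (r.length = L.length)

/-- The entries of a cube. -/
def entry (L : List (List (List ℚ))) (i j k : ℕ) : ℚ := ((L.getD i []).getD j []).getD k 0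

/-- The inverse of the coding of tensors. -/
def tensorOf (L : List (List (List ℚ))) : Option Tensor :=
  if isCube L = true then some ⟨L.length, fun i j k => entry L i j k⟩ else none

theorem getD_ofFn {α : Type} {d : ℕ} (f : Fin d → α) (a : α) (i : Fin d) :
    (List.ofFn f).getD i a = f i := by
  rw [List.getD_eq_getElem _ _ (by simp), List.getElem_ofFn]

theorem entry_code (T : Tensor) (i j k : Fin T.1) : entry T.code i j k = T.2 i j k := by
  unfold entry Tensor.code
  rw [getD_ofFn, getD_ofFn, getD_ofFn]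

theorem length_code (T : Tensor) : T.code.length = T.1 := by simp [Tensor.code]

theorem isCube_code (T : Tensor) : isCube T.code = true := by
  unfold isCube
  rw [List.all_eq_true]
  intro l hl
  have hl' : ∃ i, (List.ofFn fun j => List.ofFn fun k => T.2 i j k) = l := by
    simpa [Tensor.code, List.mem_ofFn] using hl
  obtain ⟨i, rfl⟩ := hl'
  rw [Bool.and_eq_true, List.all_eq_true]
  refine ⟨by simp [length_code], ?_⟩
  intro r hr
  have hr' : ∃ j, (List.ofFn fun k => T.2 i j k) = r := by
    simpa [List.mem_ofFn] using hr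
  obtain ⟨j, rfl⟩ := hr'
  simp [length_code]

theorem code_of_isCube {L : List (List (List ℚ))} (h : isCube L = true) :
    Tensor.code ⟨L.length, fun i j k => entry L i j k⟩ = L := by
  unfold isCube at h
  rw [List.all_eq_true] at h
  apply List.ext_getElem
  · simp [Tensor.code]
  · intro i h1 h2
    have h3 := h _ (List.getElem_mem h2)
    rw [Bool.and_eq_true, List.all_eq_true, decide_eq_true_eq] at h3
    simp only [Tensor.code, List.getElem_ofFn]
    apply List.ext_getElem
    · simp [h3.1]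
    · intro j h4 h5
      have h6 := h3.2 _ (List.getElem_mem h5)
      rw [decide_eq_true_eq] at h6
      simp only [List.getElem_ofFn]
      apply List.ext_getElem
      · simp [h6]
      · intro k h7 h8
        simp only [List.getElem_ofFn]
        unfold entry
        rw [List.getD_eq_getElem _ _ h2, List.getD_eq_getElem _ _ h5, List.getD_eq_getElem _ _ h8]

theorem poly_isCube : Poly isCube := by
  refine Poly.all (p := fun (L : List (List (List ℚ))) (l : List (List ℚ)) =>
    decide (l.length = L.length) && l.all fun r => decide (r.length = L.length)) Poly.id ?_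
  refine Poly.and (Poly.decide_eq (Poly.length (Poly.snd Poly.id))
    (Poly.length (Poly.fst Poly.id))) ?_
  refine Poly.all (p := fun (x : List (List (List ℚ)) × List (List ℚ)) (r : List ℚ) =>
    decide (r.length = x.1.length)) (Poly.snd Poly.id) ?_
  exact Poly.decide_eq (Poly.length (Poly.snd Poly.id)) (Poly.length (Poly.fst (Poly.fst Poly.id)))

theorem poly_tensorOf : Poly tensorOf := by
  have h : Poly (fun L : List (List (List ℚ)) => if isCube L = true then some L else none) :=
    Poly.ite (Poly.decide_bool poly_isCube) (Poly.some Poly.id) (Poly.const _)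
  refine Poly.of_toT (h.toT'.congr fun L => ?_)
  unfold tensorOf
  by_cases hL : isCube L = true
  · rw [if_pos hL, if_pos hL]
    change T.node (toT L) T.nil = T.node (toT (Tensor.code _)) T.nil
    rw [code_of_isCube hL]
  · rw [if_neg hL, if_neg hL]
    rfl

instance : TDec Tensor := TDec.of Tensor.code tensorOf (fun _ => rfl)
  (fun T => by
    unfold tensorOf
    rw [if_pos (isCube_code T)]
    congr 1
    apply Tensor.code_injective
    exact code_of_isCube (isCube_code T))
  (fun L T h => by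
    unfold tensorOf at h
    split_ifs at h with h1
    cases h
    exact code_of_isCube h1)
  poly_tensorOf

/-! ### The formula -/

/-- Index of the variable for the entry `(i, j, k)`. -/
def wIdx (d i j k : ℕ) : ℕ := 3 * d + 1 + ((i * d + j) * d + k)

/-- Sum of the squares of `d` consecutive variables. -/
def sqSum (d o : ℕ) : Tm :=
  sumTm ((List.range d).map fun i => Tm.mul (Tm.var (o + i)) (Tm.var (o + i)))

/-- The trilinear form. -/
def triTm (d : ℕ) : Tm :=
  sumTm ((List.range d).map fun i => sumTm ((List.range d).map fun j =>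
    sumTm ((List.range d).map fun k => Tm.mul (Tm.mul (Tm.mul (Tm.var (wIdx d i j k))
      (Tm.var i)) (Tm.var (d + j))) (Tm.var (2 * d + k)))))

/-- The equations fixing the entries. -/
def entryFms (L : List (List (List ℚ))) : List Fm :=
  (List.range L.length).flatMap fun i => (List.range L.length).flatMap fun j =>
    (List.range L.length).map fun k => eqRat (Tm.var (wIdx L.length i j k)) (entry L i j k)

/-- The formula expressing that the norm exceeds `σ`. -/
def normFm (L : List (List (List ℚ))) (σ : ℚ) : Fm :=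
  conj (Fm.eq (sqSum L.length 0) Tm.one :: Fm.eq (sqSum L.length L.length) Tm.one ::
    Fm.eq (sqSum L.length (2 * L.length)) Tm.one :: eqRat (Tm.var (3 * L.length)) σ ::
    Fm.lt (Tm.var (3 * L.length)) (triTm L.length) :: entryFms L)

theorem list_sum_fin (d : ℕ) (f : ℕ → ℝ) : ((List.range d).map f).sum = ∑ i : Fin d, f i := by
  rw [sum_range_list, Finset.sum_range]

theorem eval_sqSum (x : ℕ → ℝ) (d o : ℕ) :
    (sqSum d o).eval x = ∑ i : Fin d, x (o + i) ^ 2 := by
  unfold sqSum
  rw [eval_sumTm, List.map_map, list_sum_fin]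
  apply Finset.sum_congr rfl
  intro i _
  simp [Tm.eval, sq]

theorem eval_triTm (x : ℕ → ℝ) (d : ℕ) : (triTm d).eval x =
    ∑ i : Fin d, ∑ j : Fin d, ∑ k : Fin d, x (wIdx d i j k) * x i * x (d + j) * x (2 * d + k) := by
  unfold triTm
  rw [eval_sumTm, List.map_map, list_sum_fin]
  apply Finset.sum_congr rfl
  intro i _
  simp only [Function.comp_apply]
  rw [eval_sumTm, List.map_map, list_sum_fin]
  apply Finset.sum_congr rfl
  intro j _
  simp only [Function.comp_apply]
  rw [eval_sumTm, List.map_map, list_sum_fin]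
  apply Finset.sum_congr rfl
  intro k _
  simp [Tm.eval]

theorem holds_normFm (x : ℕ → ℝ) (T : Tensor) (σ : ℚ) : (normFm T.code σ).Holds x ↔
    ∑ i : Fin T.1, x i ^ 2 = 1 ∧ ∑ i : Fin T.1, x (T.1 + i) ^ 2 = 1 ∧
    ∑ i : Fin T.1, x (2 * T.1 + i) ^ 2 = 1 ∧ x (3 * T.1) = σ ∧
    x (3 * T.1) < ∑ i : Fin T.1, ∑ j : Fin T.1, ∑ k : Fin T.1,
      x (wIdx T.1 i j k) * x i * x (T.1 + j) * x (2 * T.1 + k) ∧
    ∀ i j k : Fin T.1, x (wIdx T.1 i j k) = T.2 i j k := by
  unfold normFm
  rw [holds_conj]
  simp only [List.forall_mem_cons, length_code, holds_eqRat, Fm.Holds, eval_sqSum, eval_triTm,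
    Tm.eval, zero_add]
  have h : (∀ φ ∈ entryFms T.code, φ.Holds x) ↔
      ∀ i j k : Fin T.1, x (wIdx T.1 i j k) = T.2 i j k := by
    unfold entryFms
    simp only [List.mem_flatMap, List.mem_range, List.mem_map, length_code]
    constructor
    · intro h i j k
      have := h (eqRat (Tm.var (wIdx T.1 i j k)) (entry T.code i j k))
        ⟨i, i.2, j, j.2, k, k.2, rfl⟩
      rw [holds_eqRat, entry_code] at this
      exact this
    · rintro h φ ⟨i, hi, j, hj, k, hk, rfl⟩
      rw [holds_eqRat]
      have := h ⟨i, hi⟩ ⟨j, hj⟩ ⟨k, hk⟩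
      rw [← entry_code] at this
      exact this
  rw [h]

/-- The assignment given by three vectors. -/
theorem exists_assign (T : Tensor) (σ : ℚ) (x y z : EuclideanSpace ℝ (Fin T.1)) :
    ∃ v : ℕ → ℝ, 0 < T.1 → (∀ i : Fin T.1, v i = x i) ∧ (∀ i : Fin T.1, v (T.1 + i) = y i) ∧
      (∀ i : Fin T.1, v (2 * T.1 + i) = z i) ∧ v (3 * T.1) = σ ∧
      ∀ i j k : Fin T.1, v (wIdx T.1 i j k) = T.2 i j k := by
  obtain ⟨d, t⟩ := T
  simp only at x y z
  have hE : ∀ i j k : Fin d, entry (Tensor.code ⟨d, t⟩) i j k = t i j k :=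
    fun i j k => entry_code ⟨d, t⟩ i j k
  simp only
  let v : ℕ → ℝ := fun n => if h : n < d then x ⟨n, h⟩ else
    if h : n - d < d then y ⟨n - d, h⟩ else if h : n - 2 * d < d then z ⟨n - 2 * d, h⟩ else
    if n = 3 * d then σ else (entry (Tensor.code ⟨d, t⟩) ((n - (3 * d + 1)) / d / d)
      ((n - (3 * d + 1)) / d % d) ((n - (3 * d + 1)) % d) : ℝ)
  refine ⟨v, fun hd0 => ⟨?_, ?_, ?_, ?_, ?_⟩⟩
  · intro i
    simp only [v, i.2, dif_pos]
  · intro i
    have h1 : ¬ (d + (i : ℕ) < d) := by omega
    have h2 : d + (i : ℕ) - d < d := by have := i.2; omega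
    have h3 : (⟨d + (i : ℕ) - d, h2⟩ : Fin d) = i := Fin.ext (by simp)
    simp only [v, h1, h2, dif_pos, dif_neg, not_false_eq_true, h3]
  · intro i
    have hi := i.2
    have h1 : ¬ (2 * d + (i : ℕ) < d) := by omega
    have h2 : ¬ (2 * d + (i : ℕ) - d < d) := by omega
    have h3 : 2 * d + (i : ℕ) - 2 * d < d := by omega
    have h4 : (⟨2 * d + (i : ℕ) - 2 * d, h3⟩ : Fin d) = i := Fin.ext (by simp)
    simp only [v, h1, h2, h3, dif_pos, dif_neg, not_false_eq_true, h4]
  · have h1 : ¬ (3 * d < d) := by omega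
    have h2 : ¬ (3 * d - d < d) := by omega
    have h3 : ¬ (3 * d - 2 * d < d) := by omega
    simp only [v, h1, h2, h3, dif_neg, not_false_eq_true, if_true]
  · intro i j k
    have hi := i.2
    have hj := j.2
    have hk := k.2
    obtain ⟨r, hr⟩ : ∃ r, r = ((i : ℕ) * d + j) * d + k := ⟨_, rfl⟩
    have h0 : wIdx d i j k = 3 * d + 1 + r := by rw [hr]; rfl
    have h1 : ¬ (3 * d + 1 + r < d) := by omega
    have h2 : ¬ (3 * d + 1 + r - d < d) := by omega
    have h3 : ¬ (3 * d + 1 + r - 2 * d < d) := by omega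
    have h4 : ¬ (3 * d + 1 + r = 3 * d) := by omega
    have h5 : 3 * d + 1 + r - (3 * d + 1) = r := by omega
    have e1 : r / d = i * d + j := by
      rw [hr, add_comm, Nat.add_mul_div_right _ _ hd0, Nat.div_eq_of_lt hk, zero_add]
    have e2 : r % d = k := by
      rw [hr, add_comm, Nat.add_mul_mod_self_right, Nat.mod_eq_of_lt hk]
    have e3 : ((i : ℕ) * d + j) / d = i := by
      rw [add_comm, Nat.add_mul_div_right _ _ hd0, Nat.div_eq_of_lt hj, zero_add]
    have e4 : ((i : ℕ) * d + j) % d = j := by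
      rw [add_comm, Nat.add_mul_mod_self_right, Nat.mod_eq_of_lt hj]
    rw [h0]
    simp only [v, h1, h2, h3, h4, h5, dif_neg, not_false_eq_true, if_false, e1, e2, e3, e4]
    rw [hE]

theorem normFm_iff (T : Tensor) {σ : ℚ} (hσ : 0 < σ) :
    ETR (normFm T.code σ) ↔ (σ : ℝ) < spectralNorm T.2 := by
  have hσ' : (0 : ℝ) ≤ σ := by exact_mod_cast hσ.le
  constructor
  · rintro ⟨x, hx⟩
    rw [holds_normFm] at hx
    obtain ⟨h1, h2, h3, h4, h5, h6⟩ := hx
    by_contra hcon
    rw [not_lt, spectralNorm_le_iff _ hσ'] at hcon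
    have hnorm : ∀ f : Fin T.1 → ℝ, ∑ i, f i ^ 2 = 1 →
        ‖(WithLp.toLp 2 f : EuclideanSpace ℝ (Fin T.1))‖ = 1 := by
      intro f hf
      have k1 := norm_sq_eq (WithLp.toLp 2 f : EuclideanSpace ℝ (Fin T.1))
      simp only at k1
      rw [hf] at k1
      have k2 := norm_nonneg (WithLp.toLp 2 f : EuclideanSpace ℝ (Fin T.1))
      nlinarith
    have h7 := hcon (WithLp.toLp 2 fun i : Fin T.1 => x i)
      (WithLp.toLp 2 fun i : Fin T.1 => x (T.1 + i))
      (WithLp.toLp 2 fun i : Fin T.1 => x (2 * T.1 + i)) (hnorm _ h1) (hnorm _ h2) (hnorm _ h3)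
    have h8 : tri T.2 (WithLp.toLp 2 fun i : Fin T.1 => x i)
      (WithLp.toLp 2 fun i : Fin T.1 => x (T.1 + i))
      (WithLp.toLp 2 fun i : Fin T.1 => x (2 * T.1 + i)) = ∑ i : Fin T.1, ∑ j : Fin T.1,
        ∑ k : Fin T.1, x (wIdx T.1 i j k) * x i * x (T.1 + j) * x (2 * T.1 + k) := by
      unfold tri
      simp only [h6]
    rw [h8] at h7
    have := (abs_le.1 h7).2
    linarith
  · intro h
    have h0 : ¬ spectralNorm T.2 ≤ (σ : ℝ) := not_le.2 h
    rw [spectralNorm_le_iff _ hσ'] at h0
    push Not at h0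
    obtain ⟨x, y, z, hx, hy, hz, hxyz⟩ := h0
    -- choose the sign
    have h1 : ∃ x : EuclideanSpace ℝ (Fin T.1), ‖x‖ = 1 ∧ (σ : ℝ) < tri T.2 x y z := by
      rcases le_or_gt 0 (tri T.2 x y z) with h2 | h2
      · rw [abs_of_nonneg h2] at hxyz
        exact ⟨x, hx, hxyz⟩
      · rw [abs_of_neg h2] at hxyz
        refine ⟨-x, by rw [norm_neg, hx], ?_⟩
        have : tri T.2 (-x) y z = - tri T.2 x y z := by
          unfold tri
          simp [Finset.sum_neg_distrib]
        rw [this]
        exact hxyz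
    clear hxyz hx x
    obtain ⟨x, hx, hxyz⟩ := h1
    obtain ⟨v, hv⟩ := exists_assign T σ x y z
    have hd0 : 0 < T.1 := by
      rcases Nat.eq_zero_or_pos T.1 with h | h
      · exfalso
        have : tri T.2 x y z = 0 := by
          unfold tri
          apply Finset.sum_eq_zero
          intro i _
          exact absurd i.2 (by omega)
        rw [this] at hxyz
        linarith
      · exact h
    obtain ⟨v1, v2, v3, v4, v5⟩ := hv hd0
    refine ⟨v, ?_⟩
    rw [holds_normFm]
    refine ⟨?_, ?_, ?_, v4, ?_, v5⟩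
    · rw [Finset.sum_congr rfl fun i _ => by rw [v1 i], ← norm_sq_eq, hx, one_pow]
    · rw [Finset.sum_congr rfl fun i _ => by rw [v2 i], ← norm_sq_eq, hy, one_pow]
    · rw [Finset.sum_congr rfl fun i _ => by rw [v3 i], ← norm_sq_eq, hz, one_pow]
    · rw [v4]
      refine lt_of_lt_of_eq hxyz ?_
      unfold tri
      apply Finset.sum_congr rfl
      intro i _
      apply Finset.sum_congr rfl
      intro j _
      apply Finset.sum_congr rfl
      intro k _
      rw [v5, v1, v2, v3]

/-! ### The formula is computable in polynomial time -/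

section

variable {α : Type} [TEnc α]

theorem poly_entry {L : α → List (List (List ℚ))} {i j k : α → ℕ} (hL : Poly L) (hi : Poly i)
    (hj : Poly j) (hk : Poly k) : Poly (fun a => entry (L a) (i a) (j a) (k a)) :=
  Poly.getD (d := fun _ => 0) (Poly.getD (d := fun _ => []) (Poly.getD (d := fun _ => []) hL hi
    (Poly.const _)) hj (Poly.const _)) hk (Poly.const _)

theorem poly_wIdx {d i j k : α → ℕ} (hd : Poly d) (hi : Poly i) (hj : Poly j) (hk : Poly k) :
    Poly (fun a => wIdx (d a) (i a) (j a) (k a)) :=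
  Poly.add (Poly.add (Poly.mul (Poly.const 3) hd) (Poly.const 1))
    (Poly.add (Poly.mul (Poly.add (Poly.mul hi hd) hj) hd) hk)

theorem poly_sqSum {d o : α → ℕ} (hd : UPoly d) (ho : Poly o) :
    Poly (fun a => sqSum (d a) (o a)) := by
  refine poly_sumTm (Poly.map (F := fun a i => Tm.mul (Tm.var (o a + i)) (Tm.var (o a + i)))
    hd.range ?_)
  have h : Poly (fun p : α × ℕ => Tm.var (o p.1 + p.2)) :=
    poly_tvar (Poly.add (ho.comp (Poly.fst Poly.id)) (Poly.snd Poly.id))
  exact poly_tmul h h

theorem poly_triTm {d : α → ℕ} (hd : UPoly d) : Poly (fun a => triTm (d a)) := by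
  have hd' : Poly d := hd.toPoly
  refine poly_sumTm (Poly.map (F := fun a i => sumTm ((List.range (d a)).map fun j =>
    sumTm ((List.range (d a)).map fun k => Tm.mul (Tm.mul (Tm.mul (Tm.var (wIdx (d a) i j k))
      (Tm.var i)) (Tm.var (d a + j))) (Tm.var (2 * d a + k))))) hd.range ?_)
  refine poly_sumTm (Poly.map (F := fun (x : α × ℕ) j =>
    sumTm ((List.range (d x.1)).map fun k => Tm.mul (Tm.mul (Tm.mul (Tm.var
      (wIdx (d x.1) x.2 j k)) (Tm.var x.2)) (Tm.var (d x.1 + j))) (Tm.var (2 * d x.1 + k))))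
    (hd.comp (f := fun x : α × ℕ => x.1) (Poly.fst Poly.id)).range ?_)
  refine poly_sumTm (Poly.map (F := fun (x : (α × ℕ) × ℕ) k => Tm.mul (Tm.mul (Tm.mul (Tm.var
      (wIdx (d x.1.1) x.1.2 x.2 k)) (Tm.var x.1.2)) (Tm.var (d x.1.1 + x.2)))
      (Tm.var (2 * d x.1.1 + k)))
    (hd.comp (f := fun x : (α × ℕ) × ℕ => x.1.1) (Poly.fst (Poly.fst Poly.id))).range ?_)
  have k1 : Poly (fun x : ((α × ℕ) × ℕ) × ℕ => d x.1.1.1) :=
    hd'.comp (Poly.fst (Poly.fst (Poly.fst Poly.id)))
  have k2 : Poly (fun x : ((α × ℕ) × ℕ) × ℕ => x.1.1.2) := Poly.snd (Poly.fst (Poly.fst Poly.id))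
  have k3 : Poly (fun x : ((α × ℕ) × ℕ) × ℕ => x.1.2) := Poly.snd (Poly.fst Poly.id)
  have k4 : Poly (fun x : ((α × ℕ) × ℕ) × ℕ => x.2) := Poly.snd Poly.id
  exact poly_tmul (poly_tmul (poly_tmul (poly_tvar (poly_wIdx k1 k2 k3 k4)) (poly_tvar k2))
    (poly_tvar (Poly.add k1 k3))) (poly_tvar (Poly.add (Poly.mul (Poly.const 2) k1) k4))

theorem poly_entryFms {L : α → List (List (List ℚ))} (hL : Poly L) :
    Poly (fun a => entryFms (L a)) := by
  have hd : UPoly (fun a => (L a).length) := UPoly.length hL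
  have hd' : Poly (fun a => (L a).length) := hd.toPoly
  refine Poly.flatMap (F := fun a i => (List.range (L a).length).flatMap fun j =>
    (List.range (L a).length).map fun k => eqRat (Tm.var (wIdx (L a).length i j k))
      (entry (L a) i j k)) hd.range ?_
  refine Poly.flatMap (F := fun (x : α × ℕ) j => (List.range (L x.1).length).map fun k =>
    eqRat (Tm.var (wIdx (L x.1).length x.2 j k)) (entry (L x.1) x.2 j k))
    (hd.comp (f := fun x : α × ℕ => x.1) (Poly.fst Poly.id)).range ?_
  refine Poly.map (F := fun (x : (α × ℕ) × ℕ) k =>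
    eqRat (Tm.var (wIdx (L x.1.1).length x.1.2 x.2 k)) (entry (L x.1.1) x.1.2 x.2 k))
    (hd.comp (f := fun x : (α × ℕ) × ℕ => x.1.1) (Poly.fst (Poly.fst Poly.id))).range ?_
  have k0 : Poly (fun x : ((α × ℕ) × ℕ) × ℕ => L x.1.1.1) :=
    hL.comp (Poly.fst (Poly.fst (Poly.fst Poly.id)))
  have k1 : Poly (fun x : ((α × ℕ) × ℕ) × ℕ => (L x.1.1.1).length) :=
    hd'.comp (Poly.fst (Poly.fst (Poly.fst Poly.id)))
  have k2 : Poly (fun x : ((α × ℕ) × ℕ) × ℕ => x.1.1.2) := Poly.snd (Poly.fst (Poly.fst Poly.id))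
  have k3 : Poly (fun x : ((α × ℕ) × ℕ) × ℕ => x.1.2) := Poly.snd (Poly.fst Poly.id)
  have k4 : Poly (fun x : ((α × ℕ) × ℕ) × ℕ => x.2) := Poly.snd Poly.id
  exact poly_eqRat (poly_tvar (poly_wIdx k1 k2 k3 k4)) (poly_entry k0 k2 k3 k4)

theorem poly_normFm {L : α → List (List (List ℚ))} {σ : α → ℚ} (hL : Poly L) (hσ : Poly σ) :
    Poly (fun a => normFm (L a) (σ a)) := by
  have hd : UPoly (fun a => (L a).length) := UPoly.length hL
  have hd' : Poly (fun a => (L a).length) := hd.toPoly
  have h3 : Poly (fun a => Tm.var (3 * (L a).length)) :=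
    poly_tvar (Poly.mul (Poly.const 3) hd')
  refine poly_conj ?_
  exact Poly.cons (poly_eq (poly_sqSum hd (Poly.const 0)) (Poly.const _))
    (Poly.cons (poly_eq (poly_sqSum hd hd') (Poly.const _))
    (Poly.cons (poly_eq (poly_sqSum hd (Poly.mul (Poly.const 2) hd')) (Poly.const _))
    (Poly.cons (poly_eqRat h3 hσ) (Poly.cons (poly_lt h3 (poly_triTm hd)) (poly_entryFms hL)))))

theorem poly_code {t : α → Tensor} (ht : Poly t) : Poly (fun a => (t a).code) := ht

end

/-- Is the instance well formed? -/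
def good (p : Tensor × ℚ) : Bool := decide (¬ p.1.code.length = 0) && decide (¬ p.2.num < 0) &&
  decide (¬ p.2.num.natAbs = 0)

theorem good_iff (p : Tensor × ℚ) : good p = true ↔ 0 < p.1.1 ∧ 0 < p.2 := by
  unfold good
  rw [length_code]
  simp only [Bool.and_eq_true, decide_eq_true_eq]
  rw [← Rat.num_pos (a := p.2)]
  omega

theorem poly_good : Poly good := by
  have h : Poly (fun p : Tensor × ℚ => p.2.num) := poly_ratNum (Poly.snd Poly.id)
  have hl : Poly (fun p : Tensor × ℚ => p.1.code.length) :=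
    Poly.length (poly_code (Poly.fst Poly.id))
  refine Poly.and (Poly.and (Poly.decide_not (Poly.decide_eq hl (Poly.const 0)))
    (Poly.decide_not (poly_isNeg h))) ?_
  exact Poly.decide_not (Poly.decide_eq (poly_natAbs h) (Poly.const 0))

/-- The formula for exceeding. -/
def exceedFm (p : Tensor × ℚ) : Fm := if good p = true then normFm p.1.code p.2 else ff

/-- The formula for not being bounded. -/
def notBoundFm (p : Tensor × ℚ) : Fm := if good p = true then normFm p.1.code p.2 else tt

theorem poly_exceedFm : Poly exceedFm :=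
  Poly.ite (Poly.decide_bool poly_good) (poly_normFm (poly_code (Poly.fst Poly.id))
    (Poly.snd Poly.id)) (Poly.const _)

theorem poly_notBoundFm : Poly notBoundFm :=
  Poly.ite (Poly.decide_bool poly_good) (poly_normFm (poly_code (Poly.fst Poly.id))
    (Poly.snd Poly.id)) (Poly.const _)

theorem exceed_iff (p : Tensor × ℚ) : SpectralNormExceed p ↔ ETR (exceedFm p) := by
  unfold exceedFm SpectralNormExceed
  by_cases h : good p = true
  · rw [if_pos h]
    rw [good_iff] at h
    rw [normFm_iff _ h.2]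
    exact ⟨fun h' => h'.2.2, fun h' => ⟨h.1, h.2, h'⟩⟩
  · rw [if_neg h]
    rw [good_iff] at h
    constructor
    · intro h'; exact absurd ⟨h'.1, h'.2.1⟩ h
    · rintro ⟨x, hx⟩; exact absurd hx (holds_ff x)

theorem bound_iff (p : Tensor × ℚ) : ¬ SpectralNormBound p ↔ ETR (notBoundFm p) := by
  unfold notBoundFm SpectralNormBound
  by_cases h : good p = true
  · rw [if_pos h]
    rw [good_iff] at h
    rw [normFm_iff _ h.2]
    constructor
    · intro h'
      by_contra h''
      exact h' ⟨h.1, h.2, not_lt.1 h''⟩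
    · intro h' h''
      exact absurd h' (not_lt.2 h''.2.2)
  · rw [if_neg h]
    rw [good_iff] at h
    constructor
    · intro _; exact ⟨fun _ => 0, holds_tt _⟩
    · intro _ h'; exact absurd ⟨h'.1, h'.2.1⟩ h

/-- Membership in `∀ℝ` from a translation of the complement. -/
theorem InAR.of_poly {α : Type} [TEnc α] [TDec α] {P : α → Prop} {φ : α → Fm} (h : Poly φ)
    (hP : ∀ a, ¬ P a ↔ ETR (φ a)) : InAR (lang P) := by
  refine ⟨fun w => match unbits α w with | none => tt | some a => φ a, ?_, fun w => ?_⟩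
  · refine polyTime_bits (g := fun w => match unbits α w with | none => tt | some a => φ a) ?_
    exact Poly.optCases (g := fun _ => tt) (h := fun _ a => φ a) poly_unbits (Poly.const _)
      (h.comp (Poly.snd Poly.id))
  · rw [Set.mem_compl_iff, mem_lang_iff]
    cases hx : unbits α w with
    | none =>
      simp only [hx]
      have : ETR tt := ⟨fun _ => 0, holds_tt _⟩
      simp [this]
    | some a => simp only [hx]; simp [← hP a]

/-- Hardness for `∀ℝ` from a reduction of unsatisfiability. -/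
theorem ARHard.of_sys {α : Type} [TEnc α] {P : α → Prop} {f : List Con → α} (hf : Poly f)
    (h : ∀ S, ¬ Sat S ↔ P (f S)) : ARHard (lang P) := by
  rintro L' ⟨g, hg, hL⟩
  have h1 : PC (id : List Bool → List Bool) (bits : Fm → List Bool) g :=
    H642R2.TMSim.polyTime_toPC hg
  have h2 : Poly (fun φ : Fm => f (sysOf φ)) := Poly.comp hf (poly_sysOf Poly.id)
  have h3 : PC (id : List Bool → List Bool) (bits : α → List Bool) (fun x => f (sysOf (g x))) :=
    PC.comp (g := fun φ : Fm => f (sysOf φ)) (eb := (bits : Fm → List Bool)) h2 h1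
  have h4 : PC (id : List Bool → List Bool) (id : List Bool → List Bool)
    (fun x => bits (f (sysOf (g x)))) := h3
  refine ⟨fun x => bits (f (sysOf (g x))), PC.toPolyTime h4, fun x => ?_⟩
  have hx := hL x
  rw [Set.mem_compl_iff] at hx
  have h5 : x ∈ L' ↔ P (f (sysOf (g x))) := by
    rw [← h, sat_sysOf, ← hx, not_not]
  rw [h5]
  constructor
  · intro hP
    exact ⟨_, rfl, hP⟩
  · rintro ⟨a, ha, hP⟩
    rwa [bits_injective ha] at hP

/-- **SPECTRAL-NORM-EXCEED is `∃ℝ`-complete.** -/
theorem exceed_complete : ERComplete (lang SpectralNormExceed) :=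
  ⟨InER.of_poly poly_exceedFm exceed_iff, exceed_hard⟩

/-- **SPECTRAL-NORM-BOUND is `∀ℝ`-complete.** -/
theorem bound_complete : ARComplete (lang SpectralNormBound) :=
  ⟨InAR.of_poly poly_notBoundFm bound_iff, ARHard.of_sys poly_red red_bound⟩

end Pool.Agent.NPC.ER.Tens
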