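import Pool.Agent.H625R2.Gap
import Pool.Agent.H625R2.Biq
import Pool.Agent.ER.ToSys

/-!
# From constraint systems to quartic forms
-/

namespace Pool.Agent.NPC.ER.Tens

open Pool.Agent.H625R2

/-- Renaming of variables. -/
def ren (f : ℕ → ℕ) : Con → Con
  | Con.one i => Con.one (f i)
  | Con.add i j k => Con.add (f i) (f j) (f k)
  | Con.mul i j k => Con.mul (f i) (f j) (f k)

theorem ren_holds (f : ℕ → ℕ) (c : Con) (v : ℕ → ℝ) :
    (ren f c).Holds v ↔ c.Holds (fun i => v (f i)) := by
  cases c <;> rfl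

theorem ren_vars (f : ℕ → ℕ) (c : Con) : (ren f c).vars = c.vars.map f := by
  cases c <;> rfl

theorem sat_ren {f g : ℕ → ℕ} {S : List Con} (h : ∀ c ∈ S, ∀ i ∈ c.vars, g (f i) = i) :
    Sat (S.map (ren f)) ↔ Sat S := by
  constructor
  · rintro ⟨v, hv⟩
    refine ⟨fun i => v (f i), fun c hc => ?_⟩
    have := hv (ren f c) (List.mem_map_of_mem hc)
    rwa [ren_holds] at this
  · rintro ⟨v, hv⟩
    refine ⟨fun i => v (g i), fun c' hc' => ?_⟩
    rw [List.mem_map] at hc'
    obtain ⟨c, hc, rfl⟩ := hc'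
    rw [ren_holds]
    refine (Con.holds_congr fun i hi => ?_).2 (hv c hc)
    rw [h c hc i hi]

/-- The residual of a constraint. -/
def res (x : ℕ → ℝ) : Con → ℝ
  | Con.one i => x i - 1
  | Con.add i j k => x i + x j - x k
  | Con.mul i j k => x i * x j - x k

theorem res_eq_zero (x : ℕ → ℝ) (c : Con) : res x c = 0 ↔ c.Holds x := by
  cases c <;> simp [res, Con.Holds, sub_eq_zero]

/-- The variable `i` as a polynomial. -/
noncomputable def xv (n i : ℕ) : MvPolynomial (Fin n) ℤ :=
  if h : i < n then MvPolynomial.X ⟨i, h⟩ else 0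

/-- The residual of a constraint as a polynomial. -/
noncomputable def resP (n : ℕ) : Con → MvPolynomial (Fin n) ℤ
  | Con.one i => xv n i - MvPolynomial.C 1
  | Con.add i j k => xv n i + xv n j - xv n k
  | Con.mul i j k => xv n i * xv n j - xv n k

theorem mnrm_xv (n i : ℕ) : mnrm (xv n i) ≤ 1 := by
  unfold xv
  split_ifs
  · rw [mnrm_X]
  · rw [mnrm_zero]; exact Nat.zero_le _

theorem deg_xv (n i : ℕ) : (xv n i).totalDegree ≤ 1 := by
  unfold xv
  split_ifs
  · rw [MvPolynomial.totalDegree_X]
  · simp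

theorem mnrm_resP (n : ℕ) (c : Con) : mnrm (resP n c) ≤ 3 := by
  cases c with
  | one i =>
    refine (mnrm_sub_le _ _).trans ?_
    have := mnrm_xv n i
    rw [mnrm_C]
    simp only [Int.natAbs_one]
    omega
  | add i j k =>
    refine (mnrm_sub_le _ _).trans ?_
    have h1 := mnrm_add_le (xv n i) (xv n j)
    have := mnrm_xv n i
    have := mnrm_xv n j
    have := mnrm_xv n k
    omega
  | mul i j k =>
    refine (mnrm_sub_le _ _).trans ?_
    have h1 := mnrm_mul_le (xv n i) (xv n j)
    have h2 := Nat.mul_le_mul (mnrm_xv n i) (mnrm_xv n j)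
    have := mnrm_xv n k
    omega

theorem deg_resP (n : ℕ) (c : Con) : (resP n c).totalDegree ≤ 2 := by
  cases c with
  | one i =>
    refine (MvPolynomial.totalDegree_sub _ _).trans (max_le ?_ ?_)
    · exact (deg_xv n i).trans (by norm_num)
    · rw [MvPolynomial.totalDegree_C]; norm_num
  | add i j k =>
    refine (MvPolynomial.totalDegree_sub _ _).trans (max_le ?_ ?_)
    · exact (MvPolynomial.totalDegree_add _ _).trans (max_le ((deg_xv n i).trans (by norm_num))
        ((deg_xv n j).trans (by norm_num)))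
    · exact (deg_xv n k).trans (by norm_num)
  | mul i j k =>
    refine (MvPolynomial.totalDegree_sub _ _).trans (max_le ?_ ?_)
    · have h1 := MvPolynomial.totalDegree_mul (xv n i) (xv n j)
      have := deg_xv n i
      have := deg_xv n j
      omega
    · exact (deg_xv n k).trans (by norm_num)

/-- The sum of the squares of the residuals as a polynomial. -/
noncomputable def gP (n : ℕ) (S : List Con) : MvPolynomial (Fin n) ℤ :=
  (S.map fun c => resP n c ^ 2).sum

theorem mnrm_gP (n : ℕ) (S : List Con) : mnrm (gP n S) ≤ 9 * S.length := by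
  induction S with
  | nil => simp [gP, mnrm_zero]
  | cons c S ih =>
    have h1 : gP n (c :: S) = resP n c ^ 2 + gP n S := by simp [gP]
    rw [h1, List.length_cons]
    refine (mnrm_add_le _ _).trans ?_
    rw [sq]
    have h2 := mnrm_mul_le (resP n c) (resP n c)
    have h3 := Nat.mul_le_mul (mnrm_resP n c) (mnrm_resP n c)
    omega

theorem deg_gP (n : ℕ) (S : List Con) : (gP n S).totalDegree ≤ 5 := by
  induction S with
  | nil => simp [gP]
  | cons c S ih =>
    have h1 : gP n (c :: S) = resP n c ^ 2 + gP n S := by simp [gP]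
    rw [h1]
    refine (MvPolynomial.totalDegree_add _ _).trans (max_le ?_ ih)
    rw [sq]
    have h2 := MvPolynomial.totalDegree_mul (resP n c) (resP n c)
    have h3 := deg_resP n c
    omega

theorem aeval_xv {n : ℕ} (x : Fin n → ℝ) (i : ℕ) :
    MvPolynomial.aeval x (xv n i) = if h : i < n then x ⟨i, h⟩ else 0 := by
  unfold xv
  split_ifs <;> simp

theorem aeval_resP {n : ℕ} (x : Fin n → ℝ) (c : Con) :
    MvPolynomial.aeval x (resP n c) = res (fun i => if h : i < n then x ⟨i, h⟩ else 0) c := by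
  cases c <;> simp [resP, res, aeval_xv]

theorem aeval_gP {n : ℕ} (x : Fin n → ℝ) (S : List Con) :
    MvPolynomial.aeval x (gP n S) =
      (S.map fun c => res (fun i => if h : i < n then x ⟨i, h⟩ else 0) c ^ 2).sum := by
  induction S with
  | nil => simp [gP]
  | cons c S ih =>
    have h1 : gP n (c :: S) = resP n c ^ 2 + gP n S := by simp [gP]
    rw [h1, map_add, map_pow, aeval_resP, ih]
    simp

theorem Hb_mono {n e T γ γ' : ℕ} (h : γ ≤ γ') : Hb n e T γ ≤ Hb n e T γ' := by
  unfold Hb
  gcongr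

theorem res_congr {x y : ℕ → ℝ} {c : Con} (h : ∀ i ∈ c.vars, x i = y i) : res x c = res y c := by
  cases c <;> simp [Con.vars] at h <;> simp [res, h]

theorem list_sum_sq_nonneg {α : Type*} (l : List α) (f : α → ℝ) :
    0 ≤ (l.map fun a => f a ^ 2).sum := by
  apply List.sum_nonneg
  intro x hx
  rw [List.mem_map] at hx
  obtain ⟨q, _, rfl⟩ := hx
  positivity

theorem list_sum_sq_pos {α : Type*} (l : List α) (f : α → ℝ) {a : α} (ha : a ∈ l)
    (h : f a ≠ 0) : 0 < (l.map fun a => f a ^ 2).sum := by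
  induction l with
  | nil => simp at ha
  | cons b l ih =>
    rw [List.map_cons, List.sum_cons]
    rcases List.mem_cons.1 ha with rfl | ha
    · have := list_sum_sq_nonneg l f
      positivity
    · have := ih ha
      positivity

/-- The gap theorem for systems of constraints. -/
theorem sys_gap {n : ℕ} {S : List Con} (hS : ∀ c ∈ S, ∀ i ∈ c.vars, i < n) (hns : ¬ Sat S)
    (T : ℕ) (hT : 0 < T) (x : ℕ → ℝ) :
    (T : ℝ) ≤ ∑ i ∈ Finset.range n, x i ^ 6 +
      6 * Hb n 5 T (9 * S.length) * (S.map fun c => res x c ^ 2).sum := by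
  have hpos : ∀ y : Fin n → ℝ, 0 < MvPolynomial.aeval y (gP n S) := by
    intro y
    rw [aeval_gP]
    have h1 : ∃ c ∈ S, ¬ c.Holds (fun i => if h : i < n then y ⟨i, h⟩ else 0) := by
      by_contra hcon
      push Not at hcon
      exact hns ⟨_, hcon⟩
    obtain ⟨c, hc, h2⟩ := h1
    exact list_sum_sq_pos S _ hc (fun h => h2 ((res_eq_zero _ _).1 h))
  have h1 := gap (n := n) (e := 5) (by decide) (gP n S) (deg_gP n S) (fun y => (hpos y).le) T hT
    (fun y _ => hpos y) (fun i => x i)
  have h2 : MvPolynomial.aeval (fun i : Fin n => x i) (gP n S) =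
      (S.map fun c => res x c ^ 2).sum := by
    rw [aeval_gP]
    congr 1
    apply List.map_congr_left
    intro c hc
    congr 1
    apply res_congr
    intro i hi
    simp [hS c hc i hi]
  have h3 : ∑ i : Fin n, x i ^ (5 + 1) = ∑ i ∈ Finset.range n, x i ^ 6 :=
    (Finset.sum_range (fun i => x i ^ 6)).symm
  rw [h2, h3] at h1
  refine h1.trans ?_
  have h4 : (Hb n 5 T (mnrm (gP n S)) : ℝ) ≤ Hb n 5 T (9 * S.length) := by
    exact_mod_cast Hb_mono (mnrm_gP n S)
  have h5 := list_sum_sq_nonneg S (fun c => res x c)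
  have h6 : (Hb n 5 T (mnrm (gP n S)) : ℝ) * (S.map fun c => res x c ^ 2).sum ≤
    Hb n 5 T (9 * S.length) * (S.map fun c => res x c ^ 2).sum :=
    mul_le_mul_of_nonneg_right h4 h5
  push_cast
  nlinarith

end Pool.Agent.NPC.ER.Tens
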