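import Pool.Agent.H625R2.Growth
import Pool.Agent.H625R2.Quart

/-!
# Satisfiability of a constraint system as negativity of a quartic form
-/

namespace Pool.Agent.NPC.ER.Tens

open Pool.Agent.H625R2

/-- Index of the variable `xᵢ`. -/
def ix (i : ℕ) : ℕ := 3 + i
/-- Index of the variable `uᵢ`. -/
def iu (n i : ℕ) : ℕ := 3 + n + i
/-- Index of the variable `zⱼ`. -/
def iz (n j : ℕ) : ℕ := 3 + 2 * n + j

/-- The length of the chain. -/
def chain (n m : ℕ) : ℕ := 5 * n + 5 * m + 40

/-- The quadratic form of a constraint. -/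
def conQ (n M : ℕ) : Con → List (Bool × ℕ × ℕ)
  | Con.one i => [(false, iu n i, 0), (true, iz n M, 0)]
  | Con.add i j k => [(false, iu n i, 0), (false, iu n j, 0), (true, iu n k, 0)]
  | Con.mul i j k => [(false, ix i, iu n j), (true, iu n k, 0)]

/-- The quadratic forms. -/
def quads (n M : ℕ) (S : List Con) : List (List (Bool × ℕ × ℕ)) :=
  [(false, iz n 0, 0), (true, 0, 0), (true, 0, 0), (true, 0, 0), (true, 0, 0), (true, 2, 2)] ::
  ((List.range n).map (fun i => (false, ix i, ix i)) ++ [(false, 1, 1), (true, iz n 0, iz n 0)]) ::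
  (((List.range M).map fun j => [(false, iz n (j + 1), 0), (true, iz n j, iz n j)]) ++
  (((List.range n).map fun i => [(false, iu n i, 0), (true, ix i, iz n M)]) ++
  S.map (conQ n M)))

theorem quads_idx {n M : ℕ} {S : List Con} (hS : ∀ c ∈ S, ∀ i ∈ c.vars, i < n) :
    ∀ q ∈ quads n M S, ∀ m ∈ q, m.2.1 < 3 + 2 * n + (M + 1) ∧ m.2.2 < 3 + 2 * n + (M + 1) := by
  intro q hq m hm
  simp only [quads, List.mem_cons, List.mem_append, List.mem_map, List.mem_range] at hq
  rcases hq with rfl | rfl | ⟨j, hj, rfl⟩ | ⟨i, hi, rfl⟩ | ⟨c, hc, rfl⟩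
  · simp only [List.mem_cons, List.not_mem_nil, or_false] at hm
    rcases hm with rfl | rfl | rfl | rfl | rfl | rfl <;> simp only [iz] <;> omega
  · simp only [List.mem_append, List.mem_map, List.mem_range, List.mem_cons, List.not_mem_nil,
      or_false] at hm
    rcases hm with ⟨i, hi, rfl⟩ | rfl | rfl <;> simp only [iz, ix] <;> omega
  · simp only [List.mem_cons, List.not_mem_nil, or_false] at hm
    rcases hm with rfl | rfl <;> simp only [iz] <;> omega
  · simp only [List.mem_cons, List.not_mem_nil, or_false] at hm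
    rcases hm with rfl | rfl <;> simp only [iz, iu, ix] <;> omega
  · have h := hS c hc
    cases c with
    | one i =>
      have hi := h i (by simp [Con.vars])
      simp only [conQ, List.mem_cons, List.not_mem_nil, or_false] at hm
      rcases hm with rfl | rfl <;> simp only [iz, iu] <;> omega
    | add i j k =>
      have hi := h i (by simp [Con.vars])
      have hj := h j (by simp [Con.vars])
      have hk := h k (by simp [Con.vars])
      simp only [conQ, List.mem_cons, List.not_mem_nil, or_false] at hm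
      rcases hm with rfl | rfl | rfl <;> simp only [iu] <;> omega
    | mul i j k =>
      have hi := h i (by simp [Con.vars])
      have hj := h j (by simp [Con.vars])
      have hk := h k (by simp [Con.vars])
      simp only [conQ, List.mem_cons, List.not_mem_nil, or_false] at hm
      rcases hm with rfl | rfl <;> simp only [iu, ix] <;> omega

@[simp] theorem sgn_false : sgn false = 1 := by simp [sgn]
@[simp] theorem sgn_true : sgn true = -1 := by simp [sgn]

theorem bval_range (n : ℕ) (v : ℕ → ℝ) :
    bval ((List.range n).map fun i => (false, ix i, ix i)) v v =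
      ∑ i ∈ Finset.range n, v (ix i) ^ 2 := by
  induction n with
  | zero => simp
  | succ n ih =>
    rw [List.range_succ, List.map_append, bval_append, ih, Finset.sum_range_succ]
    simp [sq]

theorem bval_smul (l : List (Bool × ℕ × ℕ)) (v : ℕ → ℝ) (c : ℝ) :
    bval l (fun i => c * v i) (fun i => c * v i) = c ^ 2 * bval l v v := by
  induction l with
  | nil => simp
  | cons m l ih => rw [bval_cons, bval_cons, ih]; ring

theorem Phi_smul (qs : List (List (Bool × ℕ × ℕ))) (v : ℕ → ℝ) (c : ℝ) :
    Phi qs (fun i => c * v i) = c ^ 4 * Phi qs v := by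
  have h : (qs.map fun q => (bval q (fun i => c * v i) (fun i => c * v i)) ^ 2).sum =
      c ^ 4 * (qs.map fun q => (bval q v v) ^ 2).sum := by
    induction qs with
    | nil => simp
    | cons q qs ih => rw [List.map_cons, List.sum_cons, ih, bval_smul, List.map_cons,
        List.sum_cons]; ring
  unfold Phi
  rw [h]
  ring

/-- Completeness. -/
theorem quads_complete {n M : ℕ} {S : List Con} (hS : ∀ c ∈ S, ∀ i ∈ c.vars, i < n) {x : ℕ → ℝ}
    (hx : SysHolds x S) : ∃ v, Phi (quads n M S) v < 0 := by
  set r := ∑ i ∈ Finset.range n, x i ^ 2 with hr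
  have hr0 : 0 ≤ r := Finset.sum_nonneg fun i _ => sq_nonneg _
  set Z := 4 + r with hZ
  have hZr : r ≤ Z ^ 2 := by rw [hZ]; nlinarith
  set v : ℕ → ℝ := fun k => if k = 0 then 1 else if k = 1 then √(Z ^ 2 - r) else
    if k = 2 then √r else if k < 3 + n then x (k - 3) else
    if k < 3 + 2 * n then x (k - 3 - n) * Z ^ 2 ^ M else Z ^ 2 ^ (k - 3 - 2 * n) with hv
  have v0 : v 0 = 1 := by simp [hv]
  have v1 : v 1 = √(Z ^ 2 - r) := by simp [hv]
  have v2 : v 2 = √r := by simp [hv]
  have vx : ∀ i < n, v (ix i) = x i := by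
    intro i hi
    have h1 : ¬ (3 + i = 0) := by omega
    have h2 : ¬ (3 + i = 1) := by omega
    have h3 : ¬ (3 + i = 2) := by omega
    have h4 : 3 + i < 3 + n := by omega
    simp only [hv, ix, h1, h2, h3, h4, if_true, if_false]
    congr 1
    omega
  have vu : ∀ i < n, v (iu n i) = x i * Z ^ 2 ^ M := by
    intro i hi
    have h1 : ¬ (3 + n + i = 0) := by omega
    have h2 : ¬ (3 + n + i = 1) := by omega
    have h3 : ¬ (3 + n + i = 2) := by omega
    have h4 : ¬ (3 + n + i < 3 + n) := by omega
    have h5 : 3 + n + i < 3 + 2 * n := by omega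
    have h6 : 3 + n + i - 3 - n = i := by omega
    simp only [hv, iu, h1, h2, h3, h4, h5, h6, if_true, if_false]
  have vz : ∀ j, v (iz n j) = Z ^ 2 ^ j := by
    intro j
    have h1 : ¬ (3 + 2 * n + j = 0) := by omega
    have h2 : ¬ (3 + 2 * n + j = 1) := by omega
    have h3 : ¬ (3 + 2 * n + j = 2) := by omega
    have h4 : ¬ (3 + 2 * n + j < 3 + n) := by omega
    have h5 : ¬ (3 + 2 * n + j < 3 + 2 * n) := by omega
    have h6 : 3 + 2 * n + j - 3 - 2 * n = j := by omega
    simp only [hv, iz, h1, h2, h3, h4, h5, h6, if_false]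
  refine ⟨v, ?_⟩
  have hall : ∀ q ∈ quads n M S, bval q v v = 0 := by
    intro q hq
    simp only [quads, List.mem_cons, List.mem_append, List.mem_map, List.mem_range] at hq
    rcases hq with rfl | rfl | ⟨j, hj, rfl⟩ | ⟨i, hi, rfl⟩ | ⟨c, hc, rfl⟩
    · simp only [bval_cons, bval_nil, sgn_false, sgn_true, v0, v2, vz]
      rw [Real.mul_self_sqrt hr0, hZ]
      ring
    · rw [bval_append, bval_range]
      simp only [bval_cons, bval_nil, sgn_false, sgn_true, v1, vz]
      rw [Real.mul_self_sqrt (by linarith), Finset.sum_congr rfl (g := fun i => x i ^ 2)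
        (fun i hi => by rw [vx i (Finset.mem_range.1 hi)]), ← hr]
      ring
    · simp only [bval_cons, bval_nil, sgn_false, sgn_true, v0, vz]
      rw [pow_succ 2 j, pow_mul]
      ring
    · simp only [bval_cons, bval_nil, sgn_false, sgn_true, v0, vu i hi, vx i hi, vz]
      ring
    · have h := hS c hc
      have hc' := hx c hc
      cases c with
      | one i =>
        have hi := h i (by simp [Con.vars])
        simp only [Con.Holds] at hc'
        simp only [conQ, bval_cons, bval_nil, sgn_false, sgn_true, v0, vu i hi, vz, hc']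
        ring
      | add i j k =>
        have hi := h i (by simp [Con.vars])
        have hj := h j (by simp [Con.vars])
        have hk := h k (by simp [Con.vars])
        simp only [Con.Holds] at hc'
        simp only [conQ, bval_cons, bval_nil, sgn_false, sgn_true, v0, vu i hi, vu j hj, vu k hk,
          ← hc']
        ring
      | mul i j k =>
        have hi := h i (by simp [Con.vars])
        have hj := h j (by simp [Con.vars])
        have hk := h k (by simp [Con.vars])
        simp only [Con.Holds] at hc'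
        simp only [conQ, bval_cons, bval_nil, sgn_false, sgn_true, v0, vx i hi, vu j hj, vu k hk,
          ← hc']
        ring
  have hsum : ((quads n M S).map fun q => (bval q v v) ^ 2).sum = 0 := by
    apply List.sum_eq_zero
    intro y hy
    rw [List.mem_map] at hy
    obtain ⟨q, hq, rfl⟩ := hy
    rw [hall q hq]
    ring
  unfold Phi
  rw [hsum, v0]
  norm_num

theorem mem_sum_le {α : Type*} (l : List α) (f : α → ℝ) {a : α} (ha : a ∈ l) :
    f a ^ 2 ≤ (l.map fun a => f a ^ 2).sum := by
  induction l with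
  | nil => simp at ha
  | cons b l ih =>
    rw [List.map_cons, List.sum_cons]
    rcases List.mem_cons.1 ha with rfl | ha
    · have := list_sum_sq_nonneg l f
      linarith
    · have := ih ha
      nlinarith [sq_nonneg (f b)]

theorem sq_chain {Y Z : ℝ} {M : ℕ} (h1 : 1 ≤ Y ^ 2 ^ M) (h2 : Y ^ 2 ^ M + 1 ≤ Z) :
    Y ^ 2 ^ (M + 1) ≤ Z ^ 2 := by
  rw [pow_succ 2 M, pow_mul]
  have h3 : 0 ≤ Y ^ 2 ^ M := by linarith
  have h4 : Y ^ 2 ^ M ≤ Z := by linarith
  generalize Y ^ 2 ^ M = W at *
  exact pow_le_pow_left₀ h3 h4 2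

theorem final_contra {H A B Z Y4 T X6 : ℝ} {m : ℝ} {F : ℝ} (hgap : T ≤ X6 + 6 * H * A)
    (hgrow : 6 * H * (m * Y4) < F) (hH0 : 0 ≤ H) (hfin : F ≤ Z ^ 2) (hsum : A * Z ^ 2 ≤ m * Y4)
    (hX6 : X6 ≤ B) (hT1 : B + 1 ≤ T) : False := by
  have h1 : 1 ≤ 6 * H * A := by linarith
  have h2 : Z ^ 2 ≤ 6 * H * (m * Y4) := by
    calc Z ^ 2 = 1 * Z ^ 2 := by ring
      _ ≤ 6 * H * A * Z ^ 2 := mul_le_mul_of_nonneg_right h1 (by positivity)
      _ = 6 * H * (A * Z ^ 2) := by ring
      _ ≤ _ := mul_le_mul_of_nonneg_left hsum (by positivity)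
  linarith

/-- Soundness. -/
theorem quads_sound {n : ℕ} {S : List Con} (hS : ∀ c ∈ S, ∀ i ∈ c.vars, i < n)
    {v : ℕ → ℝ} (hv : Phi (quads n (chain n S.length) S) v < 0) : Sat S := by
  by_contra hns
  obtain ⟨M, hM⟩ : ∃ M, M = chain n S.length := ⟨_, rfl⟩
  rw [← hM] at hv
  have hv0 : v 0 ≠ 0 := by
    intro h0
    have := list_sum_sq_nonneg (quads n M S) (fun q => bval q v v)
    unfold Phi at hv
    rw [h0] at hv
    norm_num at hv
    linarith
  -- normalise
  set y : ℕ → ℝ := fun i => (v 0)⁻¹ * v i with hy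
  have hy0 : y 0 = 1 := by simp only [hy]; exact inv_mul_cancel₀ hv0
  have hPy : Phi (quads n M S) y < 0 := by
    rw [hy, Phi_smul]
    exact mul_neg_of_pos_of_neg (by positivity) hv
  have hsmall : ∀ q ∈ quads n M S, |bval q y y| < 1 := by
    intro q hq
    have h1 : bval q y y ^ 2 ≤ ((quads n M S).map fun q => (bval q y y) ^ 2).sum :=
      mem_sum_le (quads n M S) (fun q => bval q y y) hq
    unfold Phi at hPy
    rw [hy0] at hPy
    have h2 : bval q y y ^ 2 < 1 := by linarith
    exact (sq_lt_one_iff_abs_lt_one _).1 h2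
  set X : ℕ → ℝ := fun i => y (ix i) with hX
  set U : ℕ → ℝ := fun i => y (iu n i) with hU
  set z : ℕ → ℝ := fun j => y (iz n j) with hz
  have q1 : |z 0 - 4 - y 2 ^ 2| < 1 := by
    have := hsmall _ (List.mem_cons_self)
    simp only [bval_cons, bval_nil, sgn_false, sgn_true, hy0] at this
    convert this using 2
    ring
  have q2 : |∑ i ∈ Finset.range n, X i ^ 2 + y 1 ^ 2 - z 0 ^ 2| < 1 := by
    have := hsmall _ (List.mem_cons_of_mem _ List.mem_cons_self)
    rw [bval_append, bval_range] at this
    simp only [bval_cons, bval_nil, sgn_false, sgn_true] at this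
    convert this using 2
    ring
  have q3 : ∀ j < M, |z (j + 1) - z j ^ 2| < 1 := by
    intro j hj
    have := hsmall [(false, iz n (j + 1), 0), (true, iz n j, iz n j)] (by
      simp only [quads, List.mem_cons, List.mem_append, List.mem_map, List.mem_range]
      exact Or.inr (Or.inr (Or.inl ⟨j, hj, rfl⟩)))
    simp only [bval_cons, bval_nil, sgn_false, sgn_true, hy0] at this
    convert this using 2
    ring
  have q4 : ∀ i < n, |U i - X i * z M| < 1 := by
    intro i hi
    have := hsmall [(false, iu n i, 0), (true, ix i, iz n M)] (by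
      simp only [quads, List.mem_cons, List.mem_append, List.mem_map, List.mem_range]
      exact Or.inr (Or.inr (Or.inr (Or.inl ⟨i, hi, rfl⟩))))
    simp only [bval_cons, bval_nil, sgn_false, sgn_true, hy0] at this
    convert this using 2
    ring
  have q5 : ∀ c ∈ S, |bval (conQ n M c) y y| < 1 := by
    intro c hc
    exact hsmall _ (by
      simp only [quads, List.mem_cons, List.mem_append, List.mem_map, List.mem_range]
      exact Or.inr (Or.inr (Or.inr (Or.inr ⟨c, hc, rfl⟩))))
  have hz0 : 3 < z 0 := by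
    have := (abs_lt.1 q1).1
    nlinarith [sq_nonneg (y 2)]
  set Y := z 0 - 1 with hY
  have hY2 : 2 < Y := by linarith
  have hchain : ∀ j ≤ M, Y ^ 2 ^ j + 1 ≤ z j := by
    intro j
    induction j with
    | zero => intro _; simp [hY]
    | succ j ih =>
      intro hj
      have h1 := ih (by omega)
      have h2 := (abs_lt.1 (q3 j (by omega))).1
      have h3 : (1 : ℝ) ≤ Y ^ 2 ^ j := one_le_pow₀ (by linarith)
      have h4 : Y ^ 2 ^ (j + 1) = (Y ^ 2 ^ j) ^ 2 := by rw [pow_succ 2 j, pow_mul]
      rw [h4]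
      nlinarith
  have hzM := hchain M le_rfl
  have hYM : (1 : ℝ) ≤ Y ^ 2 ^ M := one_le_pow₀ (by linarith)
  have hzM0 : 0 < z M := by linarith
  have hXi : ∀ i < n, |X i| ≤ z 0 + 1 := by
    intro i hi
    have h1 : X i ^ 2 ≤ ∑ i ∈ Finset.range n, X i ^ 2 :=
      Finset.single_le_sum (f := fun i => X i ^ 2) (fun _ _ => sq_nonneg _) (Finset.mem_range.2 hi)
    have h2 := (abs_lt.1 q2).2
    apply abs_le_of_sq_le_sq _ (by linarith)
    nlinarith [sq_nonneg (y 1)]
  -- the residuals are small
  have hres : ∀ c ∈ S, |res X c| * z M ≤ z 0 + 3 := by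
    intro c hc
    have h := hS c hc
    have h5 := q5 c hc
    cases c with
    | one i =>
      have hi := q4 i (h i (by simp [Con.vars]))
      simp only [conQ, bval_cons, bval_nil, sgn_false, sgn_true, hy0] at h5
      rw [← abs_of_pos hzM0, ← abs_mul]
      simp only [res]
      have e : (X i - 1) * z M = (1 * (y (iu n i) * 1) + (-1 * (y (iz n M) * 1) + 0)) -
        (U i - X i * z M) := by simp only [hU, hz]; ring
      rw [e]
      refine (abs_sub _ _).trans ?_
      linarith
    | add i j k =>
      have hi := q4 i (h i (by simp [Con.vars]))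
      have hj := q4 j (h j (by simp [Con.vars]))
      have hk := q4 k (h k (by simp [Con.vars]))
      simp only [conQ, bval_cons, bval_nil, sgn_false, sgn_true, hy0] at h5
      rw [← abs_of_pos hzM0, ← abs_mul]
      simp only [res]
      have e : (X i + X j - X k) * z M = (1 * (y (iu n i) * 1) + (1 * (y (iu n j) * 1) +
        (-1 * (y (iu n k) * 1) + 0))) - (U i - X i * z M) - (U j - X j * z M) +
        (U k - X k * z M) := by simp only [hU]; ring
      rw [e]
      refine (abs_add_le _ _).trans ?_
      refine (add_le_add (abs_sub _ _) le_rfl).trans ?_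
      refine (add_le_add (add_le_add (abs_sub _ _) le_rfl) le_rfl).trans ?_
      linarith
    | mul i j k =>
      have hj := q4 j (h j (by simp [Con.vars]))
      have hk := q4 k (h k (by simp [Con.vars]))
      have hXi := hXi i (h i (by simp [Con.vars]))
      simp only [conQ, bval_cons, bval_nil, sgn_false, sgn_true, hy0] at h5
      rw [← abs_of_pos hzM0, ← abs_mul]
      simp only [res]
      have e : (X i * X j - X k) * z M = (1 * (y (ix i) * y (iu n j)) +
        (-1 * (y (iu n k) * 1) + 0)) - X i * (U j - X j * z M) +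
        (U k - X k * z M) := by simp only [hU, hX]; ring
      rw [e]
      refine (abs_add_le _ _).trans ?_
      refine (add_le_add (abs_sub _ _) le_rfl).trans ?_
      rw [abs_mul (X i)]
      have h6 : |X i| * |U j - X j * z M| ≤ (z 0 + 1) * 1 :=
        mul_le_mul hXi hj.le (abs_nonneg _) (by linarith)
      linarith
  have hsum : (S.map fun c => res X c ^ 2).sum * z M ^ 2 ≤ S.length * (Y + 4) ^ 2 := by
    have : ∀ L : List Con, (∀ c ∈ L, c ∈ S) →
        (L.map fun c => res X c ^ 2).sum * z M ^ 2 ≤ L.length * (Y + 4) ^ 2 := by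
      intro L
      induction L with
      | nil => intro _; simp
      | cons c L ih =>
        intro hL
        have h1 := ih (fun c' hc' => hL c' (List.mem_cons_of_mem _ hc'))
        have h2 := hres c (hL c (by simp))
        have h3 : (|res X c| * z M) ^ 2 ≤ (z 0 + 3) ^ 2 :=
          pow_le_pow_left₀ (mul_nonneg (abs_nonneg _) hzM0.le) h2 2
        rw [mul_pow, sq_abs] at h3
        rw [List.map_cons, List.sum_cons, List.length_cons]
        push_cast
        have h4 : (Y + 4) ^ 2 = (z 0 + 3) ^ 2 := by rw [hY]; ring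
        rw [h4] at h1 ⊢
        linarith
    exact this S (fun _ h => h)
  have hX6 : ∑ i ∈ Finset.range n, X i ^ 6 ≤ n * (Y + 2) ^ 6 := by
    have h1 : ∀ i ∈ Finset.range n, X i ^ 6 ≤ (Y + 2) ^ 6 := by
      intro i hi
      have h2 := hXi i (Finset.mem_range.1 hi)
      have h3 : X i ^ 6 = |X i| ^ 6 := (Even.pow_abs (by decide) (X i)).symm
      rw [h3]
      exact pow_le_pow_left₀ (abs_nonneg _) (by linarith) 6
    have := Finset.sum_le_card_nsmul _ _ _ h1
    simpa using this
  have hB0 : (0 : ℝ) ≤ n * (Y + 2) ^ 6 := by positivity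
  obtain ⟨T, hT⟩ : ∃ T : ℕ, T = ⌈(n : ℝ) * (Y + 2) ^ 6⌉₊ + 1 := ⟨_, rfl⟩
  have hT1 : (n : ℝ) * (Y + 2) ^ 6 + 1 ≤ T := by
    rw [hT]
    push_cast
    have := Nat.le_ceil ((n : ℝ) * (Y + 2) ^ 6)
    linarith
  have hT2 : (T : ℝ) ≤ n * (Y + 2) ^ 6 + 2 := by
    rw [hT]
    push_cast
    have := Nat.ceil_lt_add_one hB0
    linarith
  have hgap := sys_gap hS hns T (by omega) X
  have hgrow := growth n S.length T Y hY2 hT2
  have hH0 : (0 : ℝ) ≤ Hb n 5 T (9 * S.length) := Nat.cast_nonneg _
  have hfin : Y ^ 2 ^ (5 * n + 5 * S.length + 40 + 1) ≤ z M ^ 2 := by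
    have e : 5 * n + 5 * S.length + 40 = M := by rw [hM, chain]
    rw [e]
    exact sq_chain hYM hzM
  exact final_contra hgap hgrow hH0 hfin hsum hX6 hT1

/-- **The quartic form is negative somewhere iff the system is satisfiable.** -/
theorem quads_iff {n : ℕ} {S : List Con} (hS : ∀ c ∈ S, ∀ i ∈ c.vars, i < n) :
    Sat S ↔ ∃ v, Phi (quads n (chain n S.length) S) v < 0 :=
  ⟨fun ⟨_, hx⟩ => quads_complete hS hx, fun ⟨_, hv⟩ => quads_sound hS hv⟩

end Pool.Agent.NPC.ER.Tens
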