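import Pool.Agent.H625R2.Clus
import Pool.Agent.ER.Hard

/-!
# Strict sign matrices and their realizations
-/

namespace Pool.Agent.NPC.ER.Pat

/-- The sign matrix `M` is the sign pattern of a matrix of rank at most `r`. -/
def SR (r : ℕ) (M : List (List Bool)) : Prop :=
  ∃ y h : ℕ → Fin r → ℝ, ∀ i (hi : i < M.length) j (hj : j < M[i].length),
    0 < sgn M[i][j] * (y i ⬝ᵥ h j)

/-- The sign matrix `M` is realized by points `y i` and affine hyperplanes
`c j + ∑ k, η j k * y k = 0` in dimension `d`, with `0 < η j 0`. -/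
def SRN (d : ℕ) (M : List (List Bool)) : Prop :=
  ∃ (y η : ℕ → ℕ → ℝ) (c : ℕ → ℝ), (∀ j, 0 < η j 0) ∧
    ∀ i (hi : i < M.length) j (hj : j < M[i].length),
      0 < sgn M[i][j] * (c j + ∑ k ∈ Finset.range d, y i k * η j k)

/-- All rows have the same length `m`. -/
def Rect (m : ℕ) (M : List (List Bool)) : Prop := ∀ row ∈ M, row.length = m

/-! ### The matrix of a pattern -/

/-- The copies of the elements of one kind. -/
def cps (p : Pat) (k : Bool) : List (ℕ × ℕ) :=
  ((List.range p.length).filter fun n => kind p n == k).flatMap fun n =>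
    (List.range 4).map fun b => (n, b)

theorem mem_cps {p : Pat} {k : Bool} {n b : ℕ} :
    (n, b) ∈ cps p k ↔ n < p.length ∧ kind p n = k ∧ b < 4 := by
  simp [cps, and_assoc]

/-- The matrix of a pattern. -/
def mat (p : Pat) : List (List Bool) :=
  (cps p true).map fun a => (cps p false).map fun c => entry p a.1 a.2 c.1 c.2

theorem rect_mat (p : Pat) : Rect (cps p false).length (mat p) := by
  intro row hrow
  unfold mat at hrow
  rw [List.mem_map] at hrow
  obtain ⟨a, _, rfl⟩ := hrow
  simp

theorem strict_of_SR {p : Pat} (h : SR 3 (mat p)) : ∃ P : ℕ → ℕ → Fin 3 → ℝ, Strict p P := by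
  obtain ⟨y, g, hyg⟩ := h
  let P : ℕ → ℕ → Fin 3 → ℝ := fun n b =>
    if kind p n = true then y ((cps p true).idxOf (n, b)) else g ((cps p false).idxOf (n, b))
  have key : ∀ n < p.length, ∀ m < p.length, kind p n = true → kind p m = false → ∀ b < 4,
      ∀ b' < 4, 0 < sgn (entry p n b m b') * (P n b ⬝ᵥ P m b') := by
    intro n hn m hm hkn hkm b hb b' hb'
    have h1 : (n, b) ∈ cps p true := mem_cps.2 ⟨hn, hkn, hb⟩
    have h2 : (m, b') ∈ cps p false := mem_cps.2 ⟨hm, hkm, hb'⟩
    have l1 := List.idxOf_lt_length_of_mem h1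
    have l2 := List.idxOf_lt_length_of_mem h2
    have := hyg ((cps p true).idxOf (n, b)) (by simpa [mat] using l1)
      ((cps p false).idxOf (m, b')) (by simpa [mat] using l2)
    simp only [mat, List.getElem_map, List.getElem_idxOf] at this
    simp only [P, hkn, hkm, if_true]
    simpa using this
  refine ⟨P, fun n hn m hm hk b hb b' hb' => ?_⟩
  have hne : n ≠ m := fun h => hk (by rw [h])
  cases hkn : kind p n
  · cases hkm : kind p m
    · rw [hkn, hkm] at hk; exact absurd rfl hk
    · rw [entry_symm p hne, dotProduct_comm]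
      exact key m hm n hn hkm hkn b' hb' b hb
  · cases hkm : kind p m
    · exact key n hn m hm hkn hkm b hb b' hb'
    · rw [hkn, hkm] at hk; exact absurd rfl hk

theorem exact_of_SR {p : Pat} (hp : WF p) (h : SR 3 (mat p)) : ∃ X, Exact p X := by
  obtain ⟨P, hP⟩ := strict_of_SR h
  exact exact_of_strict hp hP

theorem SRN_of_exact {p : Pat} {X : ℕ → Fin 3 → ℝ} (hp : WF p) (hX : Exact p X)
    (hN : Nice p X) : SRN 2 (mat p) := by
  obtain ⟨P, hP, hP0, hP2⟩ := strict_of_exact hp hX hN
  obtain ⟨a, ha'⟩ : ∃ a : ℕ → ℕ × ℕ, a = fun i => (cps p true).getD i (0, 0) := ⟨_, rfl⟩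
  obtain ⟨c, hc'⟩ : ∃ c : ℕ → ℕ × ℕ, c = fun j => (cps p false).getD j (0, 0) := ⟨_, rfl⟩
  let η : ℕ → ℕ → ℝ := fun j k => if j < (cps p false).length then
    (if k = 0 then P (c j).1 (c j).2 2 else P (c j).1 (c j).2 1) else 1
  refine ⟨fun i k => (if k = 0 then P (a i).1 (a i).2 2 else P (a i).1 (a i).2 1) /
    P (a i).1 (a i).2 0, η, fun j => P (c j).1 (c j).2 0, ?_, ?_⟩
  · intro j
    simp only [η]
    split_ifs with hj
    · have hmem : c j ∈ cps p false := by
        have : c j = (cps p false)[j] := by rw [hc']; exact List.getD_eq_getElem _ _ hj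
        rw [this]
        exact List.getElem_mem hj
      obtain ⟨k1, k2, k3⟩ := mem_cps.1 hmem
      exact hP2 _ k1 _ k3 k2
    · norm_num
  · intro i hi j hj
    simp only [mat, List.length_map] at hi hj
    simp only [mat, List.getElem_map, List.length_map] at hj ⊢
    have ha : (cps p true)[i] = a i := by rw [ha']; exact (List.getD_eq_getElem _ _ hi).symm
    have hc : (cps p false)[j] = c j := by rw [hc']; exact (List.getD_eq_getElem _ _ hj).symm
    have m1 : a i ∈ cps p true := by rw [← ha]; exact List.getElem_mem hi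
    have m2 : c j ∈ cps p false := by rw [← hc]; exact List.getElem_mem hj
    obtain ⟨q1, q2, q3⟩ := mem_cps.1 m1
    obtain ⟨r1, r2, r3⟩ := mem_cps.1 m2
    simp only [ha, hc]
    have h0 := hP0 _ q1 _ q3 q2
    have h1 := hP _ q1 _ r1 (by rw [q2, r2]; decide) _ q3 _ r3
    simp only [η, if_pos hj, Finset.sum_range_succ, Finset.sum_range_zero, zero_add, if_true,
      one_ne_zero, if_false]
    have e : P (c j).1 (c j).2 0 + (P (a i).1 (a i).2 2 / P (a i).1 (a i).2 0 *
        P (c j).1 (c j).2 2 + P (a i).1 (a i).2 1 / P (a i).1 (a i).2 0 * P (c j).1 (c j).2 1) =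
        (P (a i).1 (a i).2 ⬝ᵥ P (c j).1 (c j).2) / P (a i).1 (a i).2 0 := by
      rw [dotProduct, Fin.sum_univ_three]
      field_simp
      ring
    rw [e, ← mul_div_assoc]
    exact div_pos h1 h0

/-! ### Linear algebra -/

/-- A hyperplane of an `r + 1` dimensional space is the image of `ℝ ^ r`. -/
theorem exists_param {V : Type*} [AddCommGroup V] [Module ℝ V] [FiniteDimensional ℝ V] {r : ℕ}
    (hV : Module.finrank ℝ V = r + 1) (φ : V →ₗ[ℝ] ℝ) (hφ : φ ≠ 0) :
    ∃ T : (Fin r → ℝ) →ₗ[ℝ] V, ∀ x, φ x = 0 → ∃ a, T a = x := by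
  have h1 : Module.finrank ℝ (LinearMap.range φ) = 1 := by
    have : LinearMap.range φ = ⊤ := LinearMap.range_eq_top.2 (LinearMap.surjective hφ)
    rw [this, finrank_top, Module.finrank_self]
  have h2 := LinearMap.finrank_range_add_finrank_ker φ
  have h3 : Module.finrank ℝ (LinearMap.ker φ) = r := by omega
  have e : (Fin r → ℝ) ≃ₗ[ℝ] LinearMap.ker φ :=
    LinearEquiv.ofFinrankEq _ _ (by rw [h3]; simp)
  refine ⟨(LinearMap.ker φ).subtype ∘ₗ e.toLinearMap, fun x hx => ⟨e.symm ⟨x, hx⟩, ?_⟩⟩
  simp

/-- Realization by functionals. -/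
theorem SR_of_functional {V : Type*} [AddCommGroup V] [Module ℝ V] {r : ℕ}
    (T : (Fin r → ℝ) →ₗ[ℝ] V) {M : List (List Bool)} (f : ℕ → V →ₗ[ℝ] ℝ) (x : ℕ → V)
    (hx : ∀ j, (∃ i, ∃ hi : i < M.length, j < M[i].length) → ∃ a, T a = x j)
    (h : ∀ i (hi : i < M.length) j (hj : j < M[i].length), 0 < sgn M[i][j] * f i (x j)) :
    SR r M := by
  have hx' : ∀ j, ∃ a, (∃ i, ∃ hi : i < M.length, j < M[i].length) → T a = x j := by
    intro j
    by_cases hj : ∃ i, ∃ hi : i < M.length, j < M[i].length
    · obtain ⟨a, ha⟩ := hx j hj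
      exact ⟨a, fun _ => ha⟩
    · exact ⟨0, fun h => absurd h hj⟩
  choose a ha using hx'
  refine ⟨fun i k => f i (T (Pi.single k 1)), a, fun i hi j hj => ?_⟩
  have h1 : (fun k => f i (T (Pi.single k 1))) ⬝ᵥ a j = f i (x j) := by
    rw [← ha j ⟨i, hi, hj⟩]
    have h2 : a j = ∑ k, a j k • (Pi.single k 1 : Fin r → ℝ) := by
      ext l
      simp [Finset.sum_apply, Pi.single_apply]
    conv_rhs => rw [h2]
    rw [map_sum, map_sum, dotProduct]
    apply Finset.sum_congr rfl
    intro k _
    rw [map_smul, map_smul, smul_eq_mul, mul_comm]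
  rw [h1]
  exact h i hi j hj

/-! ### Lifting -/

/-- The lifted matrix: one dimension more. -/
def lift (M : List (List Bool)) : List (List Bool) :=
  (M.map fun row => (List.range (2 * row.length)).map fun j => row.getD (j / 2) false) ++
    [(List.range (2 * (M.headD []).length)).map fun j => decide (j % 2 = 0)]

theorem rect_lift {m : ℕ} {M : List (List Bool)} (hM : Rect m M) (hne : M ≠ []) :
    Rect (2 * m) (lift M) ∧ lift M ≠ [] := by
  constructor
  · intro row hrow
    unfold lift at hrow
    rw [List.mem_append, List.mem_map, List.mem_singleton] at hrow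
    rcases hrow with ⟨row', h, rfl⟩ | rfl
    · simp [hM row' h]
    · have : (M.headD []) ∈ M := by
        cases M with
        | nil => exact absurd rfl hne
        | cons a l => simp
      rw [List.length_map, List.length_range, hM _ this]
  · unfold lift; simp

theorem headD_mem {M : List (List Bool)} (hne : M ≠ []) : M.headD [] ∈ M := by
  cases M with
  | nil => exact absurd rfl hne
  | cons a l => simp

theorem SR_of_lift {m r : ℕ} {M : List (List Bool)} (hM : Rect m M) (hne : M ≠ [])
    (h : SR (r + 1) (lift M)) : SR r M := by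
  obtain ⟨y, g, hyg⟩ := h
  have hlen : (lift M).length = M.length + 1 := by simp [lift]
  -- the signs
  have h1 : ∀ i (hi : i < M.length) j (hj : j < M[i].length),
      0 < sgn M[i][j] * (y i ⬝ᵥ g (2 * j)) ∧ 0 < sgn M[i][j] * (y i ⬝ᵥ g (2 * j + 1)) := by
    intro i hi j hj
    have hrow : (lift M)[i]'(by omega) =
        (List.range (2 * M[i].length)).map fun j => M[i].getD (j / 2) false := by
      unfold lift
      rw [List.getElem_append_left (by simpa using hi), List.getElem_map]
    constructor
    · have := hyg i (by omega) (2 * j) (by rw [hrow]; simpa using hj)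
      simp only [hrow, List.getElem_map, List.getElem_range] at this
      rwa [show 2 * j / 2 = j by omega, List.getD_eq_getElem _ _ hj] at this
    · have := hyg i (by omega) (2 * j + 1) (by rw [hrow]; simp; omega)
      simp only [hrow, List.getElem_map, List.getElem_range] at this
      rwa [show (2 * j + 1) / 2 = j by omega, List.getD_eq_getElem _ _ hj] at this
  have h2 : ∀ j < m, 0 < y M.length ⬝ᵥ g (2 * j) ∧ y M.length ⬝ᵥ g (2 * j + 1) < 0 := by
    intro j hj
    have hhd := hM _ (headD_mem hne)
    have hrow : (lift M)[M.length]'(by omega) =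
        (List.range (2 * m)).map fun j => decide (j % 2 = 0) := by
      unfold lift
      rw [List.getElem_append_right (by simp)]
      simp only [List.length_map, Nat.sub_self, List.getElem_singleton, hhd]
    constructor
    · have := hyg M.length (by omega) (2 * j) (by rw [hrow]; simpa using hj)
      simp only [hrow, List.getElem_map, List.getElem_range] at this
      rw [show decide (2 * j % 2 = 0) = true by simp, sgn_true, one_mul] at this
      exact this
    · have := hyg M.length (by omega) (2 * j + 1) (by rw [hrow]; simp; omega)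
      simp only [hrow, List.getElem_map, List.getElem_range] at this
      rw [show decide ((2 * j + 1) % 2 = 0) = false by simp, sgn_false] at this
      linarith
  set q := y M.length with hq
  by_cases hm : m = 0
  · refine ⟨fun _ => 0, fun _ => 0, fun i hi j hj => ?_⟩
    rw [hM _ (List.getElem_mem hi), hm] at hj
    omega
  have hq0 : q ≠ 0 := by
    intro h0
    have := (h2 0 (by omega)).1
    rw [h0, zero_dotProduct] at this
    exact lt_irrefl _ this
  let dp : (Fin (r + 1) → ℝ) → (Fin (r + 1) → ℝ) →ₗ[ℝ] ℝ := fun z =>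
    { toFun := fun x => z ⬝ᵥ x
      map_add' := fun a b => dotProduct_add _ _ _
      map_smul' := fun a b => by simp [dotProduct_smul] }
  have hφ : dp q ≠ 0 := by
    intro h0
    have : dp q q = 0 := by rw [h0]; rfl
    exact hq0 (dotProduct_self_eq_zero.1 this)
  obtain ⟨T, hT⟩ := exists_param (V := Fin (r + 1) → ℝ) (r := r) (by simp) (dp q) hφ
  refine SR_of_functional T (fun i => dp (y i)) (fun j => (-(q ⬝ᵥ g (2 * j + 1))) • g (2 * j) +
    (q ⬝ᵥ g (2 * j)) • g (2 * j + 1)) ?_ ?_
  · rintro j ⟨i, hi, hj⟩
    apply hT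
    change q ⬝ᵥ _ = 0
    rw [dotProduct_add, dotProduct_smul, dotProduct_smul, smul_eq_mul, smul_eq_mul]
    ring
  · intro i hi j hj
    change 0 < sgn M[i][j] * (y i ⬝ᵥ _)
    have hjm : j < m := by rwa [hM _ (List.getElem_mem hi)] at hj
    obtain ⟨a1, a2⟩ := h1 i hi j hj
    obtain ⟨b1, b2⟩ := h2 j hjm
    rw [dotProduct_add, dotProduct_smul, dotProduct_smul, smul_eq_mul, smul_eq_mul]
    have e : sgn M[i][j] * (-(q ⬝ᵥ g (2 * j + 1)) * (y i ⬝ᵥ g (2 * j)) +
        (q ⬝ᵥ g (2 * j)) * (y i ⬝ᵥ g (2 * j + 1))) =
        -(q ⬝ᵥ g (2 * j + 1)) * (sgn M[i][j] * (y i ⬝ᵥ g (2 * j))) +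
        (q ⬝ᵥ g (2 * j)) * (sgn M[i][j] * (y i ⬝ᵥ g (2 * j + 1))) := by ring
    rw [e]
    have := mul_pos (neg_pos.2 b2) a1
    have := mul_pos b1 a2
    linarith

theorem SRN_lift {m d : ℕ} {M : List (List Bool)} (hd : 0 < d) (hM : Rect m M) (hne : M ≠ [])
    (h : SRN d M) : SRN (d + 1) (lift M) := by
  obtain ⟨y, η, c, hη, hy⟩ := h
  set Λ := 1 + ∑ j ∈ Finset.range m, |c j| with hΛ
  have hΛc : ∀ j < m, |c j| < Λ := by
    intro j hj
    have := Finset.single_le_sum (f := fun j => |c j|) (fun i _ => abs_nonneg _)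
      (Finset.mem_range.2 hj)
    linarith
  refine ⟨fun i k => if i < M.length then (if k < d then y i k else 0) else
    (if k < d then 0 else Λ), fun j k => if k < d then η (j / 2) k else
    (if j % 2 = 0 then 1 else -1), fun j => c (j / 2), fun j => ?_, fun i hi j hj => ?_⟩
  · simp only [if_pos hd]
    exact hη _
  · have hlen : (lift M).length = M.length + 1 := by simp [lift]
    rw [Finset.sum_range_succ]
    simp only [lt_irrefl, if_false]
    by_cases hiM : i < M.length
    · have hrow : (lift M)[i]'(by omega) =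
          (List.range (2 * M[i].length)).map fun j => M[i].getD (j / 2) false := by
        unfold lift
        rw [List.getElem_append_left (by simpa using hiM), List.getElem_map]
      rw [hrow] at hj
      rw [List.length_map, List.length_range] at hj
      simp only [hrow, List.getElem_map, List.getElem_range, if_pos hiM, zero_mul, add_zero]
      rw [List.getD_eq_getElem _ _ (by omega)]
      have := hy i hiM (j / 2) (by omega)
      convert this using 3
      apply Finset.sum_congr rfl
      intro k hk
      rw [Finset.mem_range] at hk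
      rw [if_pos hk, if_pos hk]
    · have hi' : i = M.length := by omega
      subst hi'
      have hhd := hM _ (headD_mem hne)
      have hrow : (lift M)[M.length]'(by omega) =
          (List.range (2 * m)).map fun j => decide (j % 2 = 0) := by
        unfold lift
        rw [List.getElem_append_right (by simp)]
        simp only [List.length_map, Nat.sub_self, List.getElem_singleton, hhd]
      rw [hrow] at hj
      rw [List.length_map, List.length_range] at hj
      simp only [hrow, List.getElem_map, List.getElem_range, if_neg (lt_irrefl _)]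
      have hs : ∑ k ∈ Finset.range d, (if k < d then (0 : ℝ) else Λ) *
          (if k < d then η (j / 2) k else (if j % 2 = 0 then 1 else -1)) = 0 := by
        apply Finset.sum_eq_zero
        intro k hk
        rw [Finset.mem_range] at hk
        rw [if_pos hk, zero_mul]
      rw [hs]
      have := abs_lt.1 (hΛc (j / 2) (by omega))
      by_cases hp : j % 2 = 0
      · simp only [hp, decide_true, sgn_true, if_true]; linarith
      · simp only [hp, decide_false, sgn_false, if_false]; linarith

theorem isRect_lift {M : List (List Bool)} (hM : ∃ m, Rect m M) : ∃ m, Rect m (lift M) := by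
  by_cases hne : M = []
  · subst hne
    refine ⟨0, fun row hrow => ?_⟩
    have : lift [] = [[]] := rfl
    rw [this, List.mem_singleton] at hrow
    rw [hrow]; rfl
  · obtain ⟨m, hm⟩ := hM
    exact ⟨_, (rect_lift hm hne).1⟩

/-- The matrix `M` lifted `k` times. -/
def liftN : ℕ → List (List Bool) → List (List Bool)
  | 0, M => M
  | k + 1, M => lift (liftN k M)

theorem isRect_liftN {M : List (List Bool)} (hM : ∃ m, Rect m M) (k : ℕ) :
    ∃ m, Rect m (liftN k M) := by
  induction k with
  | zero => exact hM
  | succ k ih => exact isRect_lift ih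

theorem SR_of_liftN {M : List (List Bool)} (hM : ∃ m, Rect m M) (k r : ℕ)
    (h : SR (r + k) (liftN k M)) : SR r M := by
  induction k with
  | zero => exact h
  | succ k ih =>
    apply ih
    obtain ⟨m, hm⟩ := isRect_liftN hM k
    by_cases hne : liftN k M = []
    · refine ⟨fun _ => 0, fun _ => 0, fun i hi => ?_⟩
      rw [hne] at hi
      exact absurd hi (by simp)
    · exact SR_of_lift hm hne h

theorem SRN_liftN {M : List (List Bool)} (hM : ∃ m, Rect m M) (k : ℕ) {d : ℕ} (hd : 0 < d)
    (h : SRN d M) : SRN (d + k) (liftN k M) := by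
  induction k with
  | zero => exact h
  | succ k ih =>
    obtain ⟨m, hm⟩ := isRect_liftN hM k
    by_cases hne : liftN k M = []
    · have e : liftN (k + 1) M = [[]] := by
        rw [liftN, hne]; rfl
      rw [e]
      refine ⟨fun _ _ => 0, fun _ _ => 1, fun _ => 0, fun _ => one_pos, fun i hi j hj => ?_⟩
      have : i = 0 := by simpa using hi
      subst this
      exact absurd hj (by simp)
    · exact SRN_lift (d := d + k) (by omega) hm hne ih

/-! ### Polynomial time -/

section

variable {α : Type} [TEnc α]

theorem poly_kind {p : α → Pat} {n : α → ℕ} (hp : Poly p) (hn : Poly n) :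
    Poly (fun a => kind (p a) (n a)) :=
  Poly.fst (Poly.getD hp hn (Poly.const _))

theorem poly_par {p : α → Pat} {n : α → ℕ} (hp : Poly p) (hn : Poly n) :
    Poly (fun a => par (p a) (n a)) :=
  Poly.fst (Poly.snd (Poly.getD hp hn (Poly.const _)))

theorem poly_sg {p : α → Pat} {n m : α → ℕ} (hp : Poly p) (hn : Poly n) (hm : Poly m) :
    Poly (fun a => sg (p a) (n a) (m a)) :=
  Poly.getD (Poly.snd (Poly.snd (Poly.getD hp hn (Poly.const _)))) hm (Poly.const _)

theorem poly_bitq {b q : α → ℕ} (hb : Poly b) (hq : Poly q) : Poly (fun a => bitq (b a) (q a)) :=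
  Poly.ite (Poly.decide_eq hq (Poly.const 0))
    (Poly.decide_eq (Poly.mod hb (Poly.const 2)) (Poly.const 1))
    (Poly.decide_eq (Poly.mod (Poly.div hb (Poly.const 2)) (Poly.const 2)) (Poly.const 1))

theorem idxOf_eq_head (l : List ℕ) (n : ℕ) :
    ((List.range l.length).filter (fun i => decide (l.getD i 0 = n))).head?.getD l.length =
      l.idxOf n := by
  induction l with
  | nil => rfl
  | cons a l ih =>
    rw [List.length_cons, List.range_succ_eq_map, List.filter_cons, List.idxOf_cons]
    by_cases h : a = n
    · subst h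
      simp
    · have h1 : decide ((a :: l).getD 0 0 = n) = false := by simpa using h
      have h3 : (a == n) = false := by simpa using h
      rw [h1, if_neg (by decide), h3, cond_false, ← ih, List.filter_map,
        List.head?_map]
      have h2 : ((fun i => decide ((a :: l).getD i 0 = n)) ∘ Nat.succ) =
          fun i => decide (l.getD i 0 = n) := by
        funext i
        simp
      rw [h2]
      cases ((List.range l.length).filter (fun i => decide (l.getD i 0 = n))).head? <;> rfl

theorem poly_idxOf {l : α → List ℕ} {n : α → ℕ} (hl : Poly l) (hn : Poly n) :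
    Poly (fun a => (l a).idxOf (n a)) := by
  have h : Poly (fun a => ((List.range (l a).length).filter
      (fun i => decide ((l a).getD i 0 = n a) )).head?.getD (l a).length) := by
    refine (Poly.optCases (Poly.head? (Poly.filter (p := fun a i =>
      decide ((l a).getD i 0 = n a)) (Poly.range_length hl) ?_)) (Poly.length hl)
      (h := fun _ b => b) (Poly.snd Poly.id)).congr fun a => ?_
    · exact Poly.decide_eq (Poly.getD (d := fun _ => 0) (hl.comp (Poly.fst Poly.id))
        (Poly.snd Poly.id) (Poly.const _)) (hn.comp (Poly.fst Poly.id))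
    · cases ((List.range (l a).length).filter
        (fun i => decide ((l a).getD i 0 = n a) )).head? <;> rfl
  exact h.congr fun a => idxOf_eq_head _ _

theorem poly_entry {p : α → Pat} {n b m b' : α → ℕ} (hp : Poly p) (hn : Poly n) (hb : Poly b)
    (hm : Poly m) (hb' : Poly b') :
    Poly (fun a => entry (p a) (n a) (b a) (m a) (b' a)) :=
  Poly.ite (Poly.decide_lt hm hn)
    (Poly.ite (Poly.decide_mem hm (poly_par hp hn)) (poly_bitq hb (poly_idxOf (poly_par hp hn) hm))
      (poly_sg hp hn hm))
    (Poly.ite (Poly.decide_mem hn (poly_par hp hm)) (poly_bitq hb' (poly_idxOf (poly_par hp hm) hn))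
      (poly_sg hp hm hn))

theorem poly_cps (k : Bool) : Poly (fun p : Pat => cps p k) := by
  refine Poly.flatMap (F := fun _ n => (List.range 4).map fun b => (n, b))
    (Poly.filter (p := fun p n => kind p n == k) (Poly.range_length Poly.id) ?_) ?_
  · refine (Poly.decide_eq (poly_kind (Poly.fst Poly.id) (Poly.snd Poly.id))
      (Poly.const k)).congr fun a => ?_
    cases kind a.1 a.2 <;> cases k <;> rfl
  · exact Poly.map (F := fun (x : Pat × ℕ) b => (x.2, b)) (Poly.const _)
      (Poly.pair (Poly.snd (Poly.fst Poly.id)) (Poly.snd Poly.id))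

theorem poly_mat : Poly mat := by
  refine Poly.map (F := fun p a => (cps p false).map fun c => entry p a.1 a.2 c.1 c.2)
    (poly_cps true) ?_
  refine Poly.map (F := fun (x : Pat × ℕ × ℕ) c => entry x.1 x.2.1 x.2.2 c.1 c.2)
    ((poly_cps false).comp (Poly.fst Poly.id)) ?_
  have h1 : Poly (fun z : (Pat × ℕ × ℕ) × ℕ × ℕ => z.1) := Poly.fst Poly.id
  have h2 : Poly (fun z : (Pat × ℕ × ℕ) × ℕ × ℕ => z.2) := Poly.snd Poly.id
  exact poly_entry (Poly.fst h1) (Poly.fst (Poly.snd h1)) (Poly.snd (Poly.snd h1)) (Poly.fst h2)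
    (Poly.snd h2)

theorem poly_lift : Poly lift := by
  refine Poly.append (Poly.map (F := fun _ (row : List Bool) => (List.range (2 * row.length)).map
    fun j => row.getD (j / 2) false) Poly.id ?_) (Poly.cons ?_ (Poly.const []))
  · have h1 : UPoly (fun x : List (List Bool) × List Bool => 2 * x.2.length) :=
      UPoly.mul (UPoly.const 2) (UPoly.length (Poly.snd Poly.id))
    refine Poly.map (F := fun (x : List (List Bool) × List Bool) j => x.2.getD (j / 2) false)
      h1.range ?_
    exact Poly.getD (d := fun _ => false) (Poly.snd (Poly.fst Poly.id))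
      (Poly.div (Poly.snd Poly.id) (Poly.const 2)) (Poly.const _)
  · have h0 : Poly (fun M : List (List Bool) => M.headD []) :=
      (Poly.optCases (Poly.head? Poly.id) (Poly.const []) (h := fun _ b => b)
        (Poly.snd Poly.id)).congr fun M => by cases M <;> rfl
    have h1 : UPoly (fun M : List (List Bool) => 2 * (M.headD []).length) :=
      UPoly.mul (UPoly.const 2) (UPoly.length h0)
    exact Poly.map (F := fun _ j => decide (j % 2 = 0)) h1.range
      (Poly.decide_eq (Poly.mod (Poly.snd Poly.id) (Poly.const 2)) (Poly.const 0))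

theorem poly_liftN (k : ℕ) : Poly (liftN k) := by
  induction k with
  | zero => exact Poly.id
  | succ k ih => exact poly_lift.comp ih

end

end Pool.Agent.NPC.ER.Pat
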