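import Pool.Agent.ER.Defs

/-!
# The spectral norm of a tensor: definitions
-/

namespace Pool.Agent.NPC.ER.Tens

/-- The trilinear form `T(x, y, z) = ∑ t_{ijk} x_i y_j z_k` of a `d × d × d` tensor. -/
def tri {d : ℕ} (t : Fin d → Fin d → Fin d → ℚ) (x y z : EuclideanSpace ℝ (Fin d)) : ℝ :=
  ∑ i, ∑ j, ∑ k, (t i j k : ℝ) * x i * y j * z k

/-- The spectral norm of a tensor: the maximum of `|T(x, y, z)|` over unit vectors `x, y, z`. -/
noncomputable def spectralNorm {d : ℕ} (t : Fin d → Fin d → Fin d → ℚ) : ℝ :=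
  sSup {r : ℝ | ∃ x y z : EuclideanSpace ℝ (Fin d),
    ‖x‖ = 1 ∧ ‖y‖ = 1 ∧ ‖z‖ = 1 ∧ |tri t x y z| = r}

/-- Rational tensors of format `d × d × d`, for all `d`. -/
abbrev Tensor : Type := Σ d : ℕ, (Fin d → Fin d → Fin d → ℚ)

/-- A tensor is written as the list of the lists of the lists of its entries. -/
def Tensor.code (T : Tensor) : List (List (List ℚ)) :=
  List.ofFn fun i => List.ofFn fun j => List.ofFn fun k => T.2 i j k

theorem Tensor.code_injective : Function.Injective Tensor.code := by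
  rintro ⟨d, t⟩ ⟨d', t'⟩ h
  have hd : d = d' := by
    have := congrArg List.length h
    simpa [Tensor.code] using this
  subst hd
  simp only [Tensor.code] at h
  have h1 := List.ofFn_injective h
  have h2 : t = t' := by
    funext i
    have h3 := List.ofFn_injective (congrFun h1 i)
    funext j
    exact List.ofFn_injective (congrFun h3 j)
  rw [h2]

instance : TEnc Tensor := ⟨fun T => toT T.code, fun _ _ h => Tensor.code_injective (TEnc.inj h)⟩

/-- SPECTRAL-NORM-BOUND: given `d ≥ 1`, a tensor `T ∈ ℚ^{d × d × d}` and a rational number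
`σ > 0`, is `‖T‖ ≤ σ`? -/
def SpectralNormBound (p : Tensor × ℚ) : Prop :=
  0 < p.1.1 ∧ 0 < p.2 ∧ spectralNorm p.1.2 ≤ p.2

/-- SPECTRAL-NORM-EXCEED: given `d ≥ 1`, a tensor `T ∈ ℚ^{d × d × d}` and a rational number
`σ > 0`, is `‖T‖ > σ`? -/
def SpectralNormExceed (p : Tensor × ℚ) : Prop :=
  0 < p.1.1 ∧ 0 < p.2 ∧ (p.2 : ℝ) < spectralNorm p.1.2

/-- The class `∀ℝ`: the complements of the languages of `∃ℝ`. -/
def InAR (L : Set (List Bool)) : Prop := InER Lᶜ

/-- `∀ℝ`-hardness under polynomial-time many-one reductions. -/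
def ARHard (L : Set (List Bool)) : Prop := ∀ L', InAR L' → Reduces L' L

/-- `∀ℝ`-completeness under polynomial-time many-one reductions. -/
def ARComplete (L : Set (List Bool)) : Prop := InAR L ∧ ARHard L

end Pool.Agent.NPC.ER.Tens
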