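import Pool.Agent.H625R2.TDefs
import Pool.Agent.H625R2.Forms
import Pool.Agent.H625R2.Quart2

/-!
# Tensors from lists of bilinear forms
-/

namespace Pool.Agent.NPC.ER.Tens

open Pool.Agent.H625R2

/-- The coefficient of `v_a w_b` in a bilinear form. -/
def coef (l : List (Bool × ℕ × ℕ)) (a b : ℕ) : ℤ :=
  ((l.filter fun m => decide (m = (false, a, b))).length : ℤ) -
    ((l.filter fun m => decide (m = (true, a, b))).length : ℤ)

theorem coef_nil (a b : ℕ) : coef [] a b = 0 := rfl

theorem coef_cons (m : Bool × ℕ × ℕ) (l : List (Bool × ℕ × ℕ)) (a b : ℕ) :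
    ((coef (m :: l) a b : ℤ) : ℝ) =
      (if m.2.1 = a then (if m.2.2 = b then sgn m.1 else 0) else 0) + coef l a b := by
  obtain ⟨s, p, q⟩ := m
  unfold coef
  rw [List.filter_cons, List.filter_cons]
  by_cases hp : p = a
  · by_cases hq : q = b
    · subst hp hq
      cases s
      · simp; ring
      · simp; ring
    · simp [hp, hq]
  · simp [hp]

/-- Extension of a vector by zero. -/
def extz {d : ℕ} (x : EuclideanSpace ℝ (Fin d)) (i : ℕ) : ℝ := if h : i < d then x ⟨i, h⟩ else 0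

theorem bval_coef {d : ℕ} (x y : EuclideanSpace ℝ (Fin d)) (l : List (Bool × ℕ × ℕ))
    (hl : ∀ m ∈ l, m.2.1 < d ∧ m.2.2 < d) :
    bval l (extz x) (extz y) = ∑ i : Fin d, ∑ j : Fin d, ((coef l i j : ℤ) : ℝ) * x i * y j := by
  induction l with
  | nil => simp [coef_nil]
  | cons m l ih =>
    have h1 := ih (fun m' hm' => hl m' (List.mem_cons_of_mem _ hm'))
    obtain ⟨ha, hb⟩ := hl m (by simp)
    rw [bval_cons, h1]
    simp only [coef_cons, add_mul, Finset.sum_add_distrib]
    congr 1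
    rw [Finset.sum_eq_single ⟨m.2.1, ha⟩, Finset.sum_eq_single ⟨m.2.2, hb⟩]
    · simp [extz, ha, hb]; ring
    · intro j _ hj
      have : ¬ (m.2.2 = (j : ℕ)) := fun h => hj (Fin.ext h.symm)
      simp [this]
    · intro h; exact absurd (Finset.mem_univ _) h
    · intro i _ hi
      have : ¬ (m.2.1 = (i : ℕ)) := fun h => hi (Fin.ext h.symm)
      simp [this]
    · intro h; exact absurd (Finset.mem_univ _) h

/-- The tensor of a list of bilinear forms. -/
def tens (d : ℕ) (F : List (List (Bool × ℕ × ℕ))) : Fin d → Fin d → Fin d → ℚ :=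
  fun i j k => ((coef (F.getD k []) i j : ℤ) : ℚ)

theorem tri_tens {d : ℕ} {F : List (List (Bool × ℕ × ℕ))}
    (hF : ∀ b ∈ F, ∀ m ∈ b, m.2.1 < d ∧ m.2.2 < d) (x y z : EuclideanSpace ℝ (Fin d)) :
    tri (tens d F) x y z = ∑ k : Fin d, bval (F.getD k []) (extz x) (extz y) * z k := by
  have h1 : ∀ k : Fin d, bval (F.getD k []) (extz x) (extz y) =
      ∑ i : Fin d, ∑ j : Fin d, ((coef (F.getD k []) i j : ℤ) : ℝ) * x i * y j := by
    intro k
    apply bval_coef
    intro m hm
    by_cases hk : (k : ℕ) < F.length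
    · rw [List.getD_eq_getElem _ _ hk] at hm
      exact hF _ (List.getElem_mem hk) m hm
    · rw [List.getD_eq_default _ _ (by omega)] at hm
      simp at hm
  simp only [h1, tri, tens, Finset.sum_mul]
  calc ∑ i : Fin d, ∑ j : Fin d, ∑ k : Fin d,
        (((coef (F.getD k []) i j : ℤ) : ℚ) : ℝ) * x i * y j * z k
      = ∑ i : Fin d, ∑ k : Fin d, ∑ j : Fin d,
        (((coef (F.getD k []) i j : ℤ) : ℚ) : ℝ) * x i * y j * z k :=
        Finset.sum_congr rfl fun i _ => Finset.sum_comm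
    _ = ∑ k : Fin d, ∑ i : Fin d, ∑ j : Fin d,
        (((coef (F.getD k []) i j : ℤ) : ℚ) : ℝ) * x i * y j * z k := Finset.sum_comm
    _ = _ := by push_cast; rfl

theorem sum_getD {d : ℕ} {F : List (List (Bool × ℕ × ℕ))} (hd : F.length ≤ d) (v w : ℕ → ℝ) :
    ∑ k : Fin d, bval (F.getD k []) v w ^ 2 = SS F v w := by
  have h1 : ∑ k : Fin d, bval (F.getD k []) v w ^ 2 =
      ∑ k ∈ Finset.range d, bval (F.getD k []) v w ^ 2 :=
    (Finset.sum_range (fun k => bval (F.getD k []) v w ^ 2)).symm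
  rw [h1]
  clear h1
  induction F generalizing d with
  | nil => simp [SS_nil]
  | cons b F ih =>
    obtain ⟨d, rfl⟩ : ∃ d', d = d' + 1 := ⟨d - 1, by simp at hd; omega⟩
    rw [Finset.sum_range_succ', SS_cons]
    simp only [List.length_cons] at hd
    have := ih (d := d) (by omega)
    simp only [List.getD_cons_succ, List.getD_cons_zero]
    rw [this]
    ring

theorem norm_sq_eq {d : ℕ} (x : EuclideanSpace ℝ (Fin d)) : ‖x‖ ^ 2 = ∑ i, x i ^ 2 := by
  rw [EuclideanSpace.norm_sq_eq]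
  simp

theorem tri_sq_le {d : ℕ} {F : List (List (Bool × ℕ × ℕ))} (hd : F.length ≤ d)
    (hF : ∀ b ∈ F, ∀ m ∈ b, m.2.1 < d ∧ m.2.2 < d) (x y z : EuclideanSpace ℝ (Fin d)) :
    tri (tens d F) x y z ^ 2 ≤ SS F (extz x) (extz y) * ‖z‖ ^ 2 := by
  rw [tri_tens hF, norm_sq_eq, ← sum_getD hd]
  exact Finset.sum_mul_sq_le_sq_mul_sq _ _ _

/-- A direction in which the trilinear form attains the norm. -/
theorem exists_tri {d : ℕ} {F : List (List (Bool × ℕ × ℕ))} (hd : F.length ≤ d)
    (hF : ∀ b ∈ F, ∀ m ∈ b, m.2.1 < d ∧ m.2.2 < d) (x y : EuclideanSpace ℝ (Fin d))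
    (hpos : 0 < SS F (extz x) (extz y)) :
    ∃ z : EuclideanSpace ℝ (Fin d), ‖z‖ = 1 ∧ tri (tens d F) x y z = √(SS F (extz x) (extz y)) := by
  set s := SS F (extz x) (extz y) with hs
  have hs0 : 0 < √s := Real.sqrt_pos.2 hpos
  have hss : √s ^ 2 = s := Real.sq_sqrt hpos.le
  refine ⟨WithLp.toLp 2 (fun k : Fin d => bval (F.getD k []) (extz x) (extz y) / √s), ?_, ?_⟩
  · have h1 : ‖(WithLp.toLp 2 (fun k : Fin d => bval (F.getD k []) (extz x) (extz y) / √s) :
        EuclideanSpace ℝ (Fin d))‖ ^ 2 = 1 := by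
      rw [norm_sq_eq]
      simp only [div_pow]
      rw [← Finset.sum_div, sum_getD hd, ← hs, hss]
      exact div_self hpos.ne'
    have h2 := norm_nonneg (WithLp.toLp 2 (fun k : Fin d =>
      bval (F.getD k []) (extz x) (extz y) / √s) : EuclideanSpace ℝ (Fin d))
    nlinarith
  · rw [tri_tens hF]
    have h1 : ∀ k : Fin d, bval (F.getD k []) (extz x) (extz y) *
        (bval (F.getD k []) (extz x) (extz y) / √s) =
        bval (F.getD k []) (extz x) (extz y) ^ 2 / √s := by
      intro k; ring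
    simp only [h1]
    rw [← Finset.sum_div, sum_getD hd, ← hs]
    nth_rewrite 1 [← hss]
    field_simp

theorem bdd {d : ℕ} (t : Fin d → Fin d → Fin d → ℚ) :
    BddAbove {r : ℝ | ∃ x y z : EuclideanSpace ℝ (Fin d),
      ‖x‖ = 1 ∧ ‖y‖ = 1 ∧ ‖z‖ = 1 ∧ |tri t x y z| = r} := by
  refine ⟨∑ i, ∑ j, ∑ k, |(t i j k : ℝ)|, ?_⟩
  rintro r ⟨x, y, z, hx, hy, hz, rfl⟩
  have hle : ∀ (x : EuclideanSpace ℝ (Fin d)), ‖x‖ = 1 → ∀ i, |x i| ≤ 1 := by
    intro x hx i
    have h1 : x i ^ 2 ≤ ‖x‖ ^ 2 := by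
      rw [norm_sq_eq]
      exact Finset.single_le_sum (f := fun i => x i ^ 2) (fun _ _ => sq_nonneg _)
        (Finset.mem_univ i)
    rw [hx, one_pow] at h1
    exact abs_le_one_iff_mul_self_le_one.2 (by nlinarith)
  unfold tri
  refine (Finset.abs_sum_le_sum_abs _ _).trans (Finset.sum_le_sum fun i _ => ?_)
  refine (Finset.abs_sum_le_sum_abs _ _).trans (Finset.sum_le_sum fun j _ => ?_)
  refine (Finset.abs_sum_le_sum_abs _ _).trans (Finset.sum_le_sum fun k _ => ?_)
  rw [abs_mul, abs_mul, abs_mul]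
  have h1 := hle x hx i
  have h2 := hle y hy j
  have h3 := hle z hz k
  calc |(t i j k : ℝ)| * |x i| * |y j| * |z k| ≤ |(t i j k : ℝ)| * 1 * 1 * 1 := by gcongr
    _ = _ := by ring

theorem spectralNorm_le_iff {d : ℕ} (t : Fin d → Fin d → Fin d → ℚ) {σ : ℝ} (hσ : 0 ≤ σ) :
    spectralNorm t ≤ σ ↔ ∀ x y z : EuclideanSpace ℝ (Fin d), ‖x‖ = 1 → ‖y‖ = 1 → ‖z‖ = 1 →
      |tri t x y z| ≤ σ := by
  constructor
  · intro h x y z hx hy hz
    exact (le_csSup (bdd t) ⟨x, y, z, hx, hy, hz, rfl⟩).trans h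
  · intro h
    apply Real.sSup_le _ hσ
    rintro r ⟨x, y, z, hx, hy, hz, rfl⟩
    exact h x y z hx hy hz

theorem inn_extz_le {d N : ℕ} (hN : N ≤ d) (x : EuclideanSpace ℝ (Fin d)) :
    inn N (extz x) (extz x) ≤ ‖x‖ ^ 2 := by
  rw [norm_sq_eq]
  have h1 : ∑ i : Fin d, x i ^ 2 = inn d (extz x) (extz x) := by
    unfold inn
    rw [Finset.sum_range]
    apply Finset.sum_congr rfl
    intro i _
    simp [extz, sq]
  rw [h1]
  unfold inn
  exact Finset.sum_le_sum_of_subset_of_nonneg (Finset.range_mono hN)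
    (fun i _ _ => mul_self_nonneg _)

theorem Bq_self (N : ℕ) (qs : List (List (Bool × ℕ × ℕ))) (v : ℕ → ℝ) :
    Bq N qs v v = 4 * Phi qs v := by
  have h1 : (qs.map fun q => (bval (symm q) v v) ^ 2).sum =
      4 * (qs.map fun q => (bval q v v) ^ 2).sum := by
    induction qs with
    | nil => simp
    | cons q qs ih =>
      rw [List.map_cons, List.sum_cons, ih, bval_symm, List.map_cons, List.sum_cons]
      ring
  unfold Bq Phi
  rw [h1]
  ring

theorem Phi_congr {N : ℕ} {qs : List (List (Bool × ℕ × ℕ))} (hN : 0 < N)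
    (hqs : ∀ q ∈ qs, ∀ m ∈ q, m.2.1 < N ∧ m.2.2 < N) {v v' : ℕ → ℝ} (h : ∀ i < N, v i = v' i) :
    Phi qs v = Phi qs v' := by
  unfold Phi
  rw [h 0 hN]
  congr 2
  apply List.map_congr_left
  intro q hq
  rw [bval_congr q v v v' v' N (hqs q hq) h h]

/-- **The spectral norm of the tensor exceeds `4 ρ + 5` iff the quartic form takes a negative
value.** -/
theorem spectralNorm_iff {N : ℕ} {qs : List (List (Bool × ℕ × ℕ))} (hN : 0 < N)
    (hqs : ∀ q ∈ qs, ∀ m ∈ q, m.2.1 < N ∧ m.2.2 < N) :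
    (4 * (rho qs : ℝ) + 5 < spectralNorm (tens (N + (forms N qs).length) (forms N qs))) ↔
      ∃ v, Phi qs v < 0 := by
  have hSSf := SS_forms N qs hqs
  have hfi := forms_idx hN hqs
  generalize forms N qs = F at hSSf hfi
  have hd : F.length ≤ N + F.length := Nat.le_add_left _ _
  have hNd : N ≤ N + F.length := Nat.le_add_right _ _
  have hidx : ∀ b ∈ F, ∀ m ∈ b, m.2.1 < N + F.length ∧ m.2.2 < N + F.length := by
    intro b hb m hm
    obtain ⟨h1, h2⟩ := hfi b hb m hm
    omega
  have hσ : (0 : ℝ) ≤ 4 * rho qs + 5 := by positivity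
  constructor
  · intro h
    by_contra hcon
    push Not at hcon
    apply absurd h
    rw [not_lt, spectralNorm_le_iff _ hσ]
    intro x y z hx hy hz
    have h1 := tri_sq_le hd hidx x y z
    rw [hz, one_pow, mul_one, hSSf] at h1
    have h2 := Bq_nonneg hN hqs hcon (extz x) (extz y)
    have h3 := inn_extz_le hNd x
    have h4 := inn_extz_le hNd y
    rw [hx, one_pow] at h3
    rw [hy, one_pow] at h4
    have h5 := inn_nonneg N (extz x)
    have h6 := inn_nonneg N (extz y)
    have h7 : inn N (extz x) (extz x) * inn N (extz y) (extz y) ≤ 1 := by nlinarith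
    apply abs_le_of_sq_le_sq _ hσ
    nlinarith [sq_nonneg (4 * (rho qs : ℝ) + 5)]
  · rintro ⟨v, hv⟩
    have hnv : 0 < inn N v v := by
      rcases (inn_nonneg N v).eq_or_lt with h | h
      · exfalso
        have hv0 : ∀ i < N, v i = (fun _ => (0 : ℝ)) i := by
          intro i hi
          have := sq_le_inn v hi
          rw [← h] at this
          have := sq_nonneg (v i)
          exact pow_eq_zero_iff (two_ne_zero) |>.1 (by linarith)
        rw [Phi_congr hN hqs hv0] at hv
        have : Phi qs (fun _ => (0 : ℝ)) = 0 := by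
          have h2 := Phi_smul qs (fun _ => (0 : ℝ)) 0
          simpa using h2
        linarith
      · exact h
    set c := (√(inn N v v))⁻¹ with hc
    have hc0 : 0 < c := inv_pos.2 (Real.sqrt_pos.2 hnv)
    have hcs : c ^ 2 * inn N v v = 1 := by
      rw [hc, inv_pow, Real.sq_sqrt hnv.le]
      exact inv_mul_cancel₀ hnv.ne'
    set x : EuclideanSpace ℝ (Fin (N + F.length)) :=
      WithLp.toLp 2 (fun i => if (i : ℕ) < N then c * v i else 0) with hx
    have hext : ∀ i < N, extz x i = c * v i := by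
      intro i hi
      have : i < N + F.length := by omega
      simp [extz, hx, this, hi]
    have hinn : inn N (extz x) (extz x) = 1 := by
      rw [← hcs]
      unfold inn
      rw [Finset.mul_sum]
      apply Finset.sum_congr rfl
      intro i hi
      rw [hext i (Finset.mem_range.1 hi)]
      ring
    have hxn : ‖x‖ = 1 := by
      have h1 : ‖x‖ ^ 2 = 1 := by
        rw [norm_sq_eq]
        have h2 : ∑ i : Fin (N + F.length), x i ^ 2 =
            ∑ i ∈ Finset.range (N + F.length), (if i < N then c * v i else 0) ^ 2 := by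
          rw [Finset.sum_range]
        rw [h2, ← hinn]
        unfold inn
        rw [← Finset.sum_subset (Finset.range_mono hNd)]
        · apply Finset.sum_congr rfl
          intro i hi
          rw [Finset.mem_range] at hi
          rw [hext i hi, if_pos hi]
          ring
        · intro i _ hi
          rw [Finset.mem_range] at hi
          rw [if_neg hi]
          ring
      have h2 := norm_nonneg x
      nlinarith
    have hPhi : Phi qs (extz x) < 0 := by
      rw [Phi_congr hN hqs hext, Phi_smul]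
      exact mul_neg_of_pos_of_neg (by positivity) hv
    have hSS : (4 * (rho qs : ℝ) + 5) ^ 2 < SS F (extz x) (extz x) := by
      rw [hSSf, hinn, Bq_self]
      linarith
    have hpos : 0 < SS F (extz x) (extz x) := lt_of_le_of_lt (sq_nonneg _) hSS
    obtain ⟨z, hz, htri⟩ := exists_tri hd hidx x x hpos
    by_contra hcon
    rw [not_lt, spectralNorm_le_iff _ hσ] at hcon
    have h1 := hcon x x z hxn hxn hz
    rw [htri, abs_of_nonneg (Real.sqrt_nonneg _)] at h1
    have h2 : SS F (extz x) (extz x) ≤ (4 * (rho qs : ℝ) + 5) ^ 2 := by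
      rw [← Real.sq_sqrt hpos.le]
      exact pow_le_pow_left₀ (Real.sqrt_nonneg _) h1 2
    linarith

end Pool.Agent.NPC.ER.Tens
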