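import Pool.Agent.H625R2.SignM
import Mathlib.Analysis.InnerProductSpace.PiL2

/-!
# Realizations with unit normals close to a basis vector
-/

namespace Pool.Agent.NPC.ER.Pat

open scoped RealInnerProductSpace Topology

open Filter

theorem exists_rowBound (M : List (List Bool)) :
    ∃ m, ∀ i (hi : i < M.length), M[i].length ≤ m := by
  refine ⟨(M.map List.length).sum, fun i hi => ?_⟩
  exact List.single_le_sum (by simp) _ (List.mem_map.2 ⟨_, List.getElem_mem hi, rfl⟩)

theorem inner_succ {k : ℕ} (x y : EuclideanSpace ℝ (Fin (k + 1))) :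
    ⟪x, y⟫ = x 0 * y 0 + ∑ i : Fin k, x i.succ * y i.succ := by
  rw [PiLp.inner_apply, Fin.sum_univ_succ]
  simp [mul_comm]

theorem unit_of_SRN {k : ℕ} {M : List (List Bool)} (h : SRN (k + 1) M) {δ : ℝ} (hδ : 0 < δ) :
    ∃ (y n : ℕ → EuclideanSpace ℝ (Fin (k + 1))) (c : ℕ → ℝ),
      (∀ j, ‖n j‖ = 1 ∧ ‖n j - EuclideanSpace.single 0 1‖ < δ) ∧
      ∀ i (hi : i < M.length) j (hj : j < M[i].length),
        0 < sgn M[i][j] * (c j + ⟪y i, n j⟫) := by
  obtain ⟨y, η, c, hη, hy⟩ := h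
  obtain ⟨m, hm⟩ := exists_rowBound M
  set e0 : EuclideanSpace ℝ (Fin (k + 1)) := EuclideanSpace.single 0 1 with he0
  have he0n : ‖e0‖ = 1 := by rw [he0, EuclideanSpace.norm_single]; simp
  let w : ℕ → EuclideanSpace ℝ (Fin (k + 1)) := fun j =>
    WithLp.toLp 2 fun l : Fin (k + 1) => if l = 0 then 0 else η j l / η j 0
  let v : ℕ → ℝ → EuclideanSpace ℝ (Fin (k + 1)) := fun j s => e0 + s • w j
  have hv0 : ∀ j s, v j s 0 = 1 := by
    intro j s
    simp [v, w, he0]
  have hvs : ∀ j s (l : Fin k), v j s l.succ = s * (η j (l + 1) / η j 0) := by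
    intro j s l
    simp [v, w, he0]
  have hvne : ∀ j s, v j s ≠ 0 := by
    intro j s h0
    have := hv0 j s
    rw [h0] at this
    simp at this
  have hlim : ∀ j, Tendsto (fun s => ‖‖v j s‖⁻¹ • v j s - e0‖) (𝓝[>] (0 : ℝ)) (𝓝 0) := by
    intro j
    have hc : ContinuousAt (fun s : ℝ => ‖‖v j s‖⁻¹ • v j s - e0‖) 0 := by
      have h1 : ContinuousAt (fun s : ℝ => v j s) 0 := by
        have : Continuous (fun s : ℝ => v j s) := by
          simp only [v]
          fun_prop
        exact this.continuousAt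
      have h2 : ContinuousAt (fun s : ℝ => ‖v j s‖⁻¹) 0 :=
        h1.norm.inv₀ (norm_ne_zero_iff.2 (hvne j 0))
      exact ((h2.smul h1).sub continuousAt_const).norm
    have h3 : ‖‖v j 0‖⁻¹ • v j 0 - e0‖ = 0 := by
      simp [v, he0n]
    have h4 := hc.tendsto
    rw [h3] at h4
    exact h4.mono_left nhdsWithin_le_nhds
  have hev : ∀ᶠ s in 𝓝[>] (0 : ℝ), ∀ j ∈ Finset.range m, ‖‖v j s‖⁻¹ • v j s - e0‖ < δ := by
    rw [Filter.eventually_all_finset]
    intro j _
    exact (hlim j).eventually (gt_mem_nhds hδ)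
  obtain ⟨s, hs, hs0⟩ := (hev.and self_mem_nhdsWithin).exists
  have hs0' : 0 < s := hs0
  refine ⟨fun i => WithLp.toLp 2 fun l : Fin (k + 1) => if l = 0 then y i 0 else y i l / s,
    fun j => if j < m then ‖v j s‖⁻¹ • v j s else e0, fun j => ‖v j s‖⁻¹ * (c j / η j 0),
    fun j => ?_, fun i hi j hj => ?_⟩
  · by_cases hj : j < m
    · simp only [if_pos hj]
      refine ⟨?_, hs j (Finset.mem_range.2 hj)⟩
      rw [norm_smul, norm_inv, norm_norm, inv_mul_cancel₀ (norm_ne_zero_iff.2 (hvne j s))]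
    · simp only [if_neg hj]
      refine ⟨he0n, ?_⟩
      rw [sub_self, norm_zero]
      exact hδ
  · have hjm : j < m := lt_of_lt_of_le hj (hm i hi)
    have h1 := hy i hi j hj
    simp only [if_pos hjm]
    rw [inner_smul_right, ← mul_add, inner_succ, hv0]
    have h2 : ∑ l : Fin k, (WithLp.toLp 2 fun l : Fin (k + 1) => if l = 0 then y i 0
        else y i l / s : EuclideanSpace ℝ (Fin (k + 1))) l.succ * v j s l.succ =
        (∑ l ∈ Finset.range k, y i (l + 1) * η j (l + 1)) / η j 0 := by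
      rw [Finset.sum_range, Finset.sum_div]
      apply Finset.sum_congr rfl
      intro l _
      rw [hvs]
      have : (WithLp.toLp 2 fun l : Fin (k + 1) => if l = 0 then y i 0
        else y i l / s : EuclideanSpace ℝ (Fin (k + 1))) l.succ = y i (l + 1) / s := by
        simp
      rw [this]
      have h3 := (hη j).ne'
      have h4 := hs0'.ne'
      field_simp
    rw [h2]
    have h5 : (WithLp.toLp 2 fun l : Fin (k + 1) => if l = 0 then y i 0
        else y i l / s : EuclideanSpace ℝ (Fin (k + 1))) 0 = y i 0 := by simp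
    rw [h5]
    rw [Finset.sum_range_succ'] at h1
    have h6 : c j / η j 0 + (y i 0 * 1 + (∑ l ∈ Finset.range k, y i (l + 1) * η j (l + 1)) /
        η j 0) = (c j + (∑ l ∈ Finset.range k, y i (l + 1) * η j (l + 1) + y i 0 * η j 0)) /
        η j 0 := by
      have h3 := (hη j).ne'
      field_simp
      ring
    rw [h6]
    have h7 : 0 < ‖v j s‖⁻¹ := inv_pos.2 (norm_pos_iff.2 (hvne j s))
    have h8 : sgn M[i][j] * (‖v j s‖⁻¹ * ((c j + (∑ l ∈ Finset.range k, y i (l + 1) *
        η j (l + 1) + y i 0 * η j 0)) / η j 0)) = ‖v j s‖⁻¹ * ((sgn M[i][j] * (c j +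
        (∑ l ∈ Finset.range k, y i (l + 1) * η j (l + 1) + y i 0 * η j 0))) / η j 0) := by
      ring
    rw [h8]
    exact mul_pos h7 (div_pos h1 (hη j))

end Pool.Agent.NPC.ER.Pat
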